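import Pool.Agent.H7.HD.Targets9

/-!
# Targets of the tenth list of modules: elementary embeddings between rank initial segments of HOD
(MP_e37c09_lc)
-/

open Ordinal Cardinal Order Set
open scoped ZFSet

universe u

namespace HD

/-! ## Statement-level definitions -/

/-- `x` is in `(V_ (ξ + 1))^HOD` -/
def VH (ξ : Ordinal.{u}) (x : ZFSet.{u}) : Prop := HOD x ∧ x ⊆ V_ ξ

/-- `j` is an elementary embedding of `(V_ (ξ + 1))^HOD` into `(V_ (κ + 1))^HOD` which is the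
identity on `(V_ ξ)^HOD` and maps `ξ` to `κ`. -/
structure HEmb (ξ κ : Ordinal.{u}) (j : ZFSet.{u} → ZFSet.{u}) : Prop where
  map : ∀ x, VH ξ x → VH κ (j x)
  elem : ∀ (φ : Fml) (v : ℕ → ZFSet.{u}), (∀ n, VH ξ (v n)) →
    (Sat (VH ξ) φ v ↔ Sat (VH κ) φ (j ∘ v))
  fix : ∀ x, HOD x → x ∈ V_ ξ → j x = x
  crit : j ξ.toZFSet = κ.toZFSet

/-- `VF` for `(V_ (K + 1))^HOD` in place of the power set of `K` in HOD -/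
def VFV (K : Cardinal.{u}) : Prop := ∃ (C : Set Ordinal.{u}) (E : Ordinal.{u} → ZFSet.{u}),
  Clb K.ord C ∧ (∀ ζ, VH K.ord (E ζ)) ∧ (∀ x, VH K.ord x → ∃ ζ < K.ord, x = E ζ) ∧
  ∀ ξ ∈ C, ξ < K.ord → ∀ x, VH ξ x → ∃ ζ < ξ, x = E ζ ∩ V_ ξ

/-- Y1. There are few sets of rank less than `a` in HOD. -/
def T_Y1 : Prop := ∀ K : Cardinal.{u}, K.IsRegular → ℵ₀ < K →
  (∀ τ < K.ord, ∃ β < K.ord, PowHOD τ β) →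
    ∀ a < K.ord, Few K.ord {c | HOD (en c) ∧ en c ∈ V_ a}

/-- Y2. A definable enumeration of `(V_ K)^HOD`. -/
def T_Y2 : Prop := ∀ K : Cardinal.{u}, K.IsRegular → ℵ₀ < K →
  (∀ τ < K.ord, ∃ β < K.ord, PowHOD τ β) →
  ∃ (C dm : Set Ordinal.{u}) (b : Ordinal.{u} → ZFSet.{u}), Clb K.ord C ∧
    (∀ p ∈ dm, ∀ q ∈ dm, b p = b q → p = q) ∧
    (∀ ξ ≤ K.ord, (ξ ∈ C ∨ ξ = K.ord) → ∀ x, ((HOD x ∧ x ∈ V_ ξ) ↔ ∃ p < ξ, p ∈ dm ∧ b p = x)) ∧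
    (∀ x, HOD x → DS {p | p ∈ dm ∧ b p ∈ x}) ∧
    ∀ y, HOD y → ∀ ξ ≤ K.ord, ∃ x, HOD x ∧ ∀ z, (z ∈ x ↔ ∃ p < ξ, p ∈ dm ∧ p.toZFSet ∈ y ∧ z = b p)

/-- Y3. From `VF` to `VFV`. -/
def T_Y3 : Prop := ∀ K : Cardinal.{u}, K.IsRegular → ℵ₀ < K →
  (∀ τ < K.ord, ∃ β < K.ord, PowHOD τ β) → VF K → VFV K

/-- Y4. Elementary substructures. -/
def T_Y4 : Prop := ∀ K : Cardinal.{u}, K.IsRegular → ℵ₀ < K → ∀ E : Ordinal.{u} → ZFSet.{u},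
  ∃ C, Clb K.ord C ∧ ∀ ξ ∈ C, ξ < K.ord → ∀ (φ : Fml) (v : ℕ → ZFSet.{u}),
    (∀ n, ∃ ζ < ξ, v n = E ζ) →
    (Sat (fun x => ∃ ζ < ξ, x = E ζ) φ v ↔ Sat (fun x => ∃ ζ < K.ord, x = E ζ) φ v)

/-- Y5. The elementary embeddings. -/
def T_Y5 : Prop := ∀ K : Cardinal.{u}, K.IsRegular → ℵ₀ < K → VFV K →
  ∃ C, Clb K.ord C ∧ ∀ ξ ∈ C, ξ < K.ord → ∃ j, HEmb ξ K.ord j

end HD
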