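import Pool.Agent.H7.HD.Targets8
import Pool.Agent.H3.HD.Iter
import Pool.Agent.H58.HD6.IN

/-!
# Module UB: unboundedly many disjoint stationary sets
-/

open Ordinal Cardinal Order Set
open scoped ZFSet

universe u

namespace Pool.Agent.H7.HD.UB

open _root_.HD

theorem ub (hP2 : T_P2.{u}) : T_UB.{u} := by
  intro K s hK hK0 hs hu hunb κ hκ0 hκK
  refine hP2 K κ hK hK0 hκ0 fun hNS => ?_
  have hNSX := All.ha κ _ K.ord hNS
  have hI : DS {i | i < K.ord ∧ Pos (ℵ₀ : Cardinal.{u}).ord K.ord {b | s b i}} := by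
    refine DO.and (DO.ltc 0 K.ord) ?_
    refine DO.sub (R := fun m w => Pos m K.ord {b | s b (w 0)}) (ℵ₀ : Cardinal.{u}).ord ?_
    refine DO.sub (R := fun k w => Pos (w 0) k {b | s b (w 1)}) K.ord ?_
    refine All.da 1 0 (fun b w => s b (w 2)) ?_
    exact DO.s2 (X := fun a b => s a b) hs 0 3
  obtain ⟨t, ht, e, he⟩ := hNSX (fun x b => s b x) _ (DO.s2 (X := fun a b => s a b) hs 1 0) hI
    (fun x hx => hx.2) (fun x _ y _ b h1 h2 => hu b x y h1 h2)
  classical
  let f : Ordinal.{u} → Ordinal.{u} := fun a => if e a < K.ord then e a else 0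
  have hK00 : (0 : Ordinal.{u}) < K.ord := hκ0.trans hκK
  obtain ⟨l, hl, hl2⟩ := Pool.Agent.H3.HD.exists_bound (ρ := K.ord) (τ := t)
    (by rw [hK.cof_ord]; exact Cardinal.lt_ord.1 (ht.trans hκK)) f (fun a _ => by
      by_cases h : e a < K.ord
      · simp only [f, if_pos h]; exact h
      · simp only [f, if_neg h]; exact hK00)
  have hlim : IsSuccLimit K.ord := Pool.Agent.H58.HD6.lim_of_cof (by rw [hK.cof_ord]; exact hK0)
  obtain ⟨i, hi1, hi2, hi3⟩ := hunb (succ l) (hlim.succ_lt hl)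
  obtain ⟨a, ha, hae⟩ := he i ⟨hi2, hi3⟩
  have h1 := hl2 a ha
  simp only [f] at h1
  rw [hae, if_pos hi2] at h1
  exact absurd (lt_of_lt_of_le (lt_succ l) hi1) (not_lt.2 h1)

end Pool.Agent.H7.HD.UB
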