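import Pool.Agent.H7.HD.Fin4
import Pool.Agent.H23.HD.P2
import Pool.Agent.H7.HD.UB

/-!
# Assembly of the theorem on strongly compact cardinals
-/

open Ordinal Cardinal Order Set
open scoped ZFSet

universe u

namespace HD

namespace All

theorem p2 : T_P2.{u} := Pool.Agent.H23.HD.P2.X
theorem ub : T_UB.{u} := Pool.Agent.H7.HD.UB.ub p2

/-- strongly compact cardinals -/
theorem m12 (D K₀ : Cardinal.{u}) (hD : StrComp D) (hDK₀ : D < K₀) (hS : OmSM K₀) :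
    ∀ K : Cardinal.{u}, K.IsRegular → K₀ < K →
      OmSM K ∧ (∀ ξ < D.ord, ∃ U, MGe K.ord ξ U) ∧
      (∃ τ₀, K.ord < τ₀ ∧ τ₀ < (succ K).ord ∧ RegHOD τ₀ ∧ τ₀.cof ≤ K₀ ∧
        (Few τ₀.cof.ord (SH K.ord τ₀) → τ₀.cof = ℵ₀) ∧
        ∀ lam, K.ord < lam → lam < τ₀ → RegHOD lam → lam.cof = K ∧ ∃ U, HSup K.ord lam U) ∧
      ∀ (N : Cardinal.{u}) (lam : Ordinal.{u}), N.IsRegular → N < D → RegHOD lam → K.ord < lam →
        K₀ < lam.cof → (∀ τ, K.ord ≤ τ → τ < lam → RegHOD τ → τ.cof ≠ N) →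
          lam < (succ K).ord ∧ lam.cof = K ∧ ∃ U, HSup K.ord lam U :=
  fun K hK hK₀K => m11 p2 ub D K₀ hD hDK₀ hS K hK hK₀K

end All

end HD
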