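import Pool.Agent.H7.HD.Targets3

/-!
# MP_e37c09_lc: assembly
-/

open Ordinal Cardinal Order Set
open scoped ZFSet

universe u

namespace HD

theorem asm_good (hXA : T_XA.{u}) (hXB : T_XB.{u}) (hYL : T_YL.{u}) {δ : Ordinal.{u}}
    (hδ : Extendible δ) (hA : ¬ CaseA δ) : ∃ D : Cardinal.{u}, δ = D.ord ∧ GoodN D := by
  obtain ⟨η, hη, θ, j, hj⟩ := hXA δ hδ 0
  obtain ⟨D, rfl, h1, h2, h3⟩ := hXB δ η θ j hj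
  refine ⟨D, rfl, h1, h2, h3, ?_⟩
  intro M hM hMD κ hκ
  exact hYL _ hδ hA M hM (Cardinal.ord_lt_ord.2 hMD) κ (Cardinal.ord_le_ord.2 hκ)

theorem asm_refl (hXA : T_XA.{u}) (hXB : T_XB.{u}) (hYL : T_YL.{u}) (hRA : T_RA.{u})
    {δ : Ordinal.{u}} (hδ : Extendible δ) (hA : ¬ CaseA δ) (l : Ordinal.{u}) (hl : l < δ) :
    ∃ D : Cardinal.{u}, D.ord < δ ∧ l < D.ord ∧ GoodN D := by
  obtain ⟨D, rfl, hD⟩ := asm_good hXA hXB hYL hδ hA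
  obtain ⟨D', h1, h2, h3⟩ := hRA D hδ hD l hl
  exact ⟨D', Cardinal.ord_lt_ord.2 h1, h2, h3⟩

theorem asm_main (hXA : T_XA.{u}) (hXB : T_XB.{u}) (hXL : T_XL.{u}) (hHL : T_HL.{u}) :
    T_MAIN.{u} := by
  intro δ hδ
  by_cases hA : CaseA δ
  · exact Or.inl hA
  refine Or.inr fun K hK hδK ξ hξ => ?_
  obtain ⟨η, hη, θ, j, hj⟩ := hXA δ hδ 0
  obtain ⟨D, rfl, h1, h2, h3⟩ := hXB δ η θ j hj
  exact hHL D K h1 h2 h3 hK (Cardinal.ord_lt_ord.1 hδK)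
    (fun M hM hMD => hXL _ hδ hA M K hM (Cardinal.ord_lt_ord.2 hMD) hK hδK) ξ hξ

theorem asm_m1 (hXA : T_XA.{u}) (hXB : T_XB.{u}) (hYL : T_YL.{u}) (hRA : T_RA.{u})
    (hHL : T_HL.{u}) : T_M1.{u} := by
  intro δ hδ
  by_cases hA : CaseA δ
  · exact Or.inl hA
  refine Or.inr fun l hl => ?_
  obtain ⟨D, h1, h2, h3⟩ := asm_refl hXA hXB hYL hRA hδ hA l hl
  refine ⟨D.ord, h1, h2, ?_⟩
  intro K hK hDK ξ hξ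
  have hDK' : D < K := Cardinal.ord_lt_ord.1 hDK
  exact hHL D K h3.1 h3.2.1 h3.2.2.1 hK hDK'
    (fun M hM hMD => h3.2.2.2 M hM hMD K.ord (by rw [hK.cof_ord]; exact hDK'.le)) ξ hξ

theorem asm_m2 (hXA : T_XA.{u}) (hXB : T_XB.{u}) (hYL : T_YL.{u}) (hRA : T_RA.{u})
    (hKD : T_KD.{u}) : T_M2.{u} := by
  intro δ hδ
  by_cases hA : CaseA δ
  · exact Or.inl hA
  refine Or.inr fun l hl => ?_
  obtain ⟨D, h1, h2, h3⟩ := asm_refl hXA hXB hYL hRA hδ hA l hl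
  exact ⟨D.ord, h1, h2, fun K hK hDK => hKD D K h3 hK (Cardinal.ord_lt_ord.1 hDK)⟩

theorem asm_m4 (hXA : T_XA.{u}) (hXB : T_XB.{u}) (hYL : T_YL.{u}) (hRA : T_RA.{u})
    (hWE : T_WE.{u}) : T_M4.{u} := by
  intro δ hδ
  by_cases hA : CaseA δ
  · exact Or.inl hA
  refine Or.inr fun l hl => ?_
  obtain ⟨D, h1, h2, h3⟩ := asm_refl hXA hXB hYL hRA hδ hA l hl
  refine ⟨D.ord, h1, h2, ?_⟩
  intro K hK hDK ξ hξ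
  obtain ⟨μ, hμ, C, hC, h⟩ := hWE D K h3 hK (Cardinal.ord_lt_ord.1 hDK) ξ hξ
  refine ⟨μ.ord, Cardinal.ord_lt_ord.2 hμ, C, hC, ?_⟩
  intro α hα hαK h4 h5
  exact h α hα hαK (Cardinal.ord_le_ord.1 h4) (Cardinal.ord_lt_ord.1 h5)

theorem asm_m3 (hXA : T_XA.{u}) (hXB : T_XB.{u}) (hYL : T_YL.{u}) (hRA : T_RA.{u})
    (hEN : T_EN.{u}) (hHA : T_HA.{u}) (hHB2 : T_HB2.{u}) (hVC : T_VC.{u}) (hUA : T_UA.{u})
    (hU : DS.{u} Set.univ) : ∀ δ : Ordinal.{u}, Extendible δ →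
      CaseA δ ∨ ∀ l < δ, ∃ δ₀ < δ, l < δ₀ ∧
        ∀ α : Ordinal.{u}, δ₀ < α.cof.ord → ∃ U, HUlt α α.cof.ord U := by
  intro δ hδ
  by_cases hA : CaseA δ
  · exact Or.inl hA
  refine Or.inr fun l hl => ?_
  obtain ⟨D, h1, h2, h3⟩ := asm_refl hXA hXB hYL hRA hδ hA l hl
  refine ⟨D.ord, h1, h2, ?_⟩
  intro α hDα
  have hDα' : D < α.cof := Cardinal.ord_lt_ord.1 hDα
  obtain ⟨en, hen⟩ := hEN
  have h0 : (ℵ₀ : Cardinal.{u}) < α.cof := h3.2.2.1.trans hDα'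
  obtain ⟨c, -, hc⟩ := hHB2 en hen D ℵ₀ α h3.1 h3.2.1 h3.2.2.1 Cardinal.isRegular_aleph0
    h3.2.2.1 hDα' (hHA _ _ _ (h3.2.2.2 ℵ₀ Cardinal.isRegular_aleph0 h3.2.2.1 α hDα'.le))
    Set.univ hU (hVC ℵ₀ α Cardinal.isRegular_aleph0 h0)
  exact ⟨_, hUA en hen _ α c h0 hc⟩

end HD
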