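import Pool.Agent.H7.HD.Targets

/-!
# More tools: positive sets, ordinal definable sets of ordinals
-/

open Ordinal Cardinal Order Set
open scoped ZFSet

universe u

namespace HD

/-! ## Positive sets -/

theorem Pos.mono {μ ρ : Ordinal.{u}} {X Y : Set Ordinal.{u}} (h : Pos μ ρ X)
    (hXY : ∀ b < ρ, b ∈ X → Cf μ b → b ∈ Y) : Pos μ ρ Y := by
  intro C hC
  obtain ⟨b, hb, h1, h2, h3⟩ := h C hC
  exact ⟨b, hb, h1, hXY b hb h2 h3, h3⟩

theorem Pos.congr {μ ρ : Ordinal.{u}} {X Y : Set Ordinal.{u}}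
    (hXY : ∀ b < ρ, (b ∈ X ↔ b ∈ Y)) : Pos μ ρ X ↔ Pos μ ρ Y :=
  ⟨fun h => h.mono fun b hb hx _ => (hXY b hb).1 hx,
    fun h => h.mono fun b hb hx _ => (hXY b hb).2 hx⟩

/-- the binary union of null sets is null -/
theorem null_union (hVA : T_VA.{u}) {μ ρ : Ordinal.{u}} (hρ : ℵ₀ < ρ.cof)
    {X Y : Set Ordinal.{u}} (hX : ¬ Pos μ ρ X) (hY : ¬ Pos μ ρ Y) : ¬ Pos μ ρ (X ∪ Y) := by
  have h2 : (2 : Ordinal.{u}).card < ρ.cof := by
    have h3 : (2 : Ordinal.{u}).card = 2 := by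
      have := Ordinal.card_nat 2
      exact_mod_cast this
    rw [h3]
    exact lt_trans (by exact_mod_cast Cardinal.natCast_lt_aleph0 (n := 2)) hρ
  have := hVA μ ρ hρ 2 h2 (fun i => if i = 0 then X else Y) (fun i _ => by
    by_cases h : i = 0
    · simpa [h] using hX
    · simpa [h] using hY)
  intro h
  apply this
  refine h.mono fun b _ hb _ => ?_
  rcases hb with hb | hb
  · exact ⟨0, by simp, by simpa using hb⟩
  · exact ⟨1, by simp, by simpa using hb⟩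

theorem pos_diff (hVA : T_VA.{u}) {μ ρ : Ordinal.{u}} (hρ : ℵ₀ < ρ.cof)
    {X Y : Set Ordinal.{u}} (hX : Pos μ ρ X) (hY : ¬ Pos μ ρ Y) : Pos μ ρ (X \ Y) := by
  by_contra h
  refine null_union hVA hρ h hY (hX.mono fun b _ hb _ => ?_)
  by_cases hy : b ∈ Y
  · exact Or.inr hy
  · exact Or.inl ⟨hb, hy⟩

theorem recJ_iff (Φ : Ordinal.{u} → Set Ordinal.{u} → (ℕ → Ordinal.{u}) → Prop)
    (w : ℕ → Ordinal.{u}) (x : Ordinal.{u}) :
    recJ Φ w x ↔ Φ x {y | y < x ∧ recJ Φ w y} w := by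
  rw [recJ]
  have : {y | ∃ z : Iio x, y = z.1 ∧ recJ Φ w z.1} = {y | y < x ∧ recJ Φ w y} := by
    ext y
    constructor
    · rintro ⟨z, rfl, h⟩
      exact ⟨z.2, h⟩
    · rintro ⟨h1, h2⟩
      exact ⟨⟨y, h1⟩, rfl, h2⟩
  rw [this]

/-! ## Ordinal definable sets -/

theorem OD.eqv {a : ZFSet.{u}} (ha : OD a) (i : ℕ) : DZ (fun v => v i = a) := ha.dz.ren fun _ => i

/-- an ordinal definable set may be used as a parameter -/
theorem DZ.od {a : ZFSet.{u}} (ha : OD a) {R : ZFSet.{u} → (ℕ → ZFSet.{u}) → Prop}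
    (h : DZ (fun v => R (v 0) (fun n => v (n + 1)))) : DZ (R a) := DZ.sub ha.dz h

/-- a set is ordinal definable if its elements are described by a definable predicate -/
theorem OD.of_mem {x : ZFSet.{u}} {P : (ℕ → ZFSet.{u}) → Prop} (hP : DZ P)
    (h : ∀ v, P v ↔ v 0 ∈ x) : OD x := by
  refine OD.of_dz ?_
  refine (DZ.all (R := fun z v => z ∈ v 0 ↔ P (fun _ => z)) ?_).congr fun v => ?_
  · exact (DZ.mem 0 1).iff (hP.ren fun _ => 0)
  · constructor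
    · intro he z
      rw [h, he]
    · intro he
      ext z
      rw [he, h]

theorem OD.ordinal (a : Ordinal.{u}) : OD a.toZFSet := OD.of_dz (DZ.eqOrd a 0)

theorem OD.pair {x y : ZFSet.{u}} (hx : OD x) (hy : OD y) : OD (ZFSet.pair x y) := by
  refine OD.of_dz ?_
  refine DZ.od (R := fun a v => v 0 = ZFSet.pair a y) hx
    (DZ.od (R := fun b v => v 1 = ZFSet.pair (v 0) b) hy ?_)
  exact (loc_pair 2 1 0).dz

theorem hod_iff {x : ZFSet.{u}} : HOD x ↔ OD x ∧ ∀ y ∈ x, HOD y := ZFSet.hereditarily_iff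

theorem HOD.od {x : ZFSet.{u}} (h : HOD x) : OD x := (hod_iff.1 h).1

theorem HOD.ordinal (a : Ordinal.{u}) : HOD a.toZFSet := by
  induction a using WellFoundedLT.induction with
  | ind a ih =>
    refine hod_iff.2 ⟨OD.ordinal a, fun y hy => ?_⟩
    obtain ⟨b, hb, rfl⟩ := mem_toZFSet_iff.1 hy
    exact ih b hb

theorem HOD.upair {x y : ZFSet.{u}} (hx : HOD x) (hy : HOD y) : HOD {x, y} := by
  refine hod_iff.2 ⟨?_, fun z hz => ?_⟩
  · refine OD.of_dz ?_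
    refine DZ.od (R := fun a v => v 0 = {a, y}) hx.od
      (DZ.od (R := fun b v => v 1 = {v 0, b}) hy.od ?_)
    exact (loc_upair 2 1 0).dz
  · rcases ZFSet.mem_pair.1 hz with rfl | rfl
    · exact hx
    · exact hy

theorem HOD.pair {x y : ZFSet.{u}} (hx : HOD x) (hy : HOD y) : HOD (ZFSet.pair x y) := by
  unfold ZFSet.pair
  refine HOD.upair ?_ (hx.upair hy)
  have := hx.upair hx
  rwa [ZFSet.pair_eq_singleton] at this

theorem HOD.of_sub {x : ZFSet.{u}} {a : Ordinal.{u}} (hx : OD x) (h : x ⊆ a.toZFSet) : HOD x :=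
  hod_iff.2 ⟨hx, fun y hy => by
    obtain ⟨b, -, rfl⟩ := mem_toZFSet_iff.1 (h hy)
    exact HOD.ordinal b⟩

/-- a relation on ordinals as a set of pairs -/
noncomputable def rs (α β : Ordinal.{u}) (R : Ordinal.{u} → Ordinal.{u} → Prop) : ZFSet.{u} :=
  ZFSet.sep (fun p => ∃ a b : Ordinal.{u}, p = ZFSet.pair a.toZFSet b.toZFSet ∧ R a b)
    (ZFSet.prod α.toZFSet β.toZFSet)

theorem mem_rs {α β : Ordinal.{u}} {R : Ordinal.{u} → Ordinal.{u} → Prop} {p : ZFSet.{u}} :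
    p ∈ rs α β R ↔ ∃ a < α, ∃ b < β, R a b ∧ p = ZFSet.pair a.toZFSet b.toZFSet := by
  unfold rs
  rw [ZFSet.mem_sep]
  constructor
  · rintro ⟨h1, a, b, rfl, hR⟩
    rw [ZFSet.pair_mem_prod, toZFSet_mem_toZFSet_iff, toZFSet_mem_toZFSet_iff] at h1
    exact ⟨a, h1.1, b, h1.2, hR, rfl⟩
  · rintro ⟨a, ha, b, hb, hR, rfl⟩
    rw [ZFSet.pair_mem_prod, toZFSet_mem_toZFSet_iff, toZFSet_mem_toZFSet_iff]
    exact ⟨⟨ha, hb⟩, a, b, rfl, hR⟩

theorem pair_ord_inj {a b a' b' : Ordinal.{u}}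
    (h : ZFSet.pair a.toZFSet b.toZFSet = ZFSet.pair a'.toZFSet b'.toZFSet) : a = a' ∧ b = b' := by
  obtain ⟨h1, h2⟩ := ZFSet.pair_injective h
  exact ⟨toZFSet_injective h1, toZFSet_injective h2⟩

theorem pair_mem_rs {α β a b : Ordinal.{u}} {R : Ordinal.{u} → Ordinal.{u} → Prop} :
    ZFSet.pair a.toZFSet b.toZFSet ∈ rs α β R ↔ a < α ∧ b < β ∧ R a b := by
  rw [mem_rs]
  constructor
  · rintro ⟨a', ha, b', hb, hR, h⟩
    obtain ⟨rfl, rfl⟩ := pair_ord_inj h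
    exact ⟨ha, hb, hR⟩
  · rintro ⟨ha, hb, hR⟩
    exact ⟨a, ha, b, hb, hR, rfl⟩

theorem od_os {X : Set Ordinal.{u}} (hX : DS X) (β : Ordinal.{u}) : OD (os β X) := by
  obtain ⟨Q, hQ, h⟩ := hX
  refine OD.of_dz ?_
  refine (DZ.od (R := fun b v => ∀ z, z ∈ v 0 ↔ z ∈ b ∧ Q (fun _ => z)) (OD.ordinal β)
    (DZ.all (R := fun z v => z ∈ v 1 ↔ z ∈ v 0 ∧ Q (fun _ => z))
      ((DZ.mem 0 2).iff ((DZ.mem 0 1).and (hQ.ren fun _ => 0))))).congr fun v => ?_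
  have key : ∀ z, z ∈ os β X ↔ z ∈ β.toZFSet ∧ Q (fun _ => z) := by
    intro z
    rw [mem_os]
    constructor
    · rintro ⟨a, ha, h1, rfl⟩
      exact ⟨toZFSet_mem_toZFSet_iff.2 ha, (h (fun _ => a)).1 h1⟩
    · rintro ⟨h1, h2⟩
      obtain ⟨a, ha, rfl⟩ := mem_toZFSet_iff.1 h1
      exact ⟨a, ha, (h (fun _ => a)).2 h2, rfl⟩
  constructor
  · rintro he z
    rw [he, key]
  · intro he
    ext z
    rw [he, key]

theorem hod_os {X : Set Ordinal.{u}} (hX : DS X) (β : Ordinal.{u}) : HOD (os β X) :=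
  HOD.of_sub (a := β) (od_os hX β) fun y hy => by
    obtain ⟨a, ha, -, rfl⟩ := mem_os.1 hy
    exact toZFSet_mem_toZFSet_iff.2 ha

theorem od_rs {R : Ordinal.{u} → Ordinal.{u} → Prop} (hR : DR R) (α β : Ordinal.{u}) :
    OD (rs α β R) := by
  obtain ⟨Q, hQ, h⟩ := hR
  refine OD.of_mem (P := fun v => ∃ x ∈ α.toZFSet, ∃ y ∈ β.toZFSet, Q (cons x fun _ => y) ∧
    v 0 = ZFSet.pair x y) ?_ fun v => ?_
  · refine DZ.od (R := fun a v => ∃ x ∈ a, ∃ y ∈ β.toZFSet, Q (cons x fun _ => y) ∧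
      v 0 = ZFSet.pair x y) (OD.ordinal α) (DZ.exMem 0 ?_)
    refine DZ.od (R := fun b v => ∃ y ∈ b, Q (cons (v 0) fun _ => y) ∧
      v 2 = ZFSet.pair (v 0) y) (OD.ordinal β) (DZ.exMem 0 ?_)
    refine DZ.and ?_ (loc_pair _ _ _).dz
    refine (hQ.ren (fun n => if n = 0 then 2 else 0)).congr fun v => ?_
    have : (cons (v 2) fun _ => v 0) = fun n => v (if n = 0 then 2 else 0) := by
      funext n
      rcases n with _ | n <;> simp
    rw [← this]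
  · rw [mem_rs]
    have e : ∀ a b : Ordinal.{u}, (cons a.toZFSet fun _ => b.toZFSet) = ov (cns a fun _ => b) := by
      intro a b
      rw [ov_cns]
      rfl
    constructor
    · rintro ⟨x, hx, y, hy, hq, he⟩
      obtain ⟨a, ha, rfl⟩ := mem_toZFSet_iff.1 hx
      obtain ⟨b, hb, rfl⟩ := mem_toZFSet_iff.1 hy
      rw [e] at hq
      exact ⟨a, ha, b, hb, (h _).2 hq, he⟩
    · rintro ⟨a, ha, b, hb, hr, he⟩
      refine ⟨_, toZFSet_mem_toZFSet_iff.2 ha, _, toZFSet_mem_toZFSet_iff.2 hb, ?_, he⟩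
      rw [e]
      exact (h (cns a fun _ => b)).1 hr

theorem hod_rs {R : Ordinal.{u} → Ordinal.{u} → Prop} (hR : DR R) (α β : Ordinal.{u}) :
    HOD (rs α β R) :=
  hod_iff.2 ⟨od_rs hR α β, fun y hy => by
    obtain ⟨a, -, b, -, -, rfl⟩ := mem_rs.1 hy
    exact (HOD.ordinal a).pair (HOD.ordinal b)⟩

/-- a predicate of sets which is definable gives a definable predicate of ordinals -/
theorem OD.ds {x : ZFSet.{u}} (hx : OD x) : DS {a | a.toZFSet ∈ x} :=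
  ⟨fun v => v 0 ∈ x, DZ.od (R := fun b v => v 0 ∈ b) hx (DZ.mem 1 0), fun _ => Iff.rfl⟩

theorem OD.dr {x : ZFSet.{u}} (hx : OD x) :
    DR fun a b => ZFSet.pair a.toZFSet b.toZFSet ∈ x :=
  ⟨fun v => ZFSet.pair (v 0) (v 1) ∈ x,
    DZ.od (R := fun b v => ZFSet.pair (v 0) (v 1) ∈ b) hx (loc_pmem 1 2 0).dz, fun _ => Iff.rfl⟩

theorem OD.of_ds {x : ZFSet.{u}} {β : Ordinal.{u}} (hx : x ⊆ β.toZFSet)
    (h : DS {a | a.toZFSet ∈ x}) : OD x := by
  have : x = os β {a | a.toZFSet ∈ x} := by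
    ext z
    rw [mem_os]
    constructor
    · intro hz
      obtain ⟨a, ha, rfl⟩ := mem_toZFSet_iff.1 (hx hz)
      exact ⟨a, ha, hz, rfl⟩
    · rintro ⟨a, _, h, rfl⟩
      exact h
  rw [this]
  exact od_os h β

/-- the ordinal definable sets form a definable class -/
theorem EN.dzOD {en : Ordinal.{u} → ZFSet.{u}} (h : EN en) (i : ℕ) :
    DZ.{u} fun v => OD (v i) := by
  refine (DZ.ex (R := fun c v => c.IsOrdinal ∧ v i = en c.rank)
    (h.dz.ren fun n => if n = 0 then 0 else i + 1)).congr fun v => ?_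
  rw [h.od]
  constructor
  · rintro ⟨c, hc⟩
    exact ⟨c.toZFSet, ZFSet.isOrdinal_toZFSet c, by rw [rank_toZFSet, hc]⟩
  · rintro ⟨c, -, h⟩
    exact ⟨_, h.symm⟩

end HD
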