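import Pool.Agent.H7.HD.Tools2

/-!
# Closure of the definable predicates: positivity, order types, codes, recursion
-/

open Ordinal Cardinal Order Set
open scoped ZFSet

universe u

namespace HD

/-! ## LB -/

/-- `C` is club in `ρ`, at the level of sets -/
def ClZ (ρ C : ZFSet.{u}) : Prop :=
  (∀ a ∈ ρ, ∃ b ∈ ρ, a ∈ b ∧ b ∈ C) ∧
  ∀ x ∈ ρ, (∃ e ∈ x, e = e) → (∀ y ∈ x, ∃ z ∈ x, y ∈ z ∧ z ∈ C) → x ∈ C

theorem loc_ClZ (i j : ℕ) : Loc.{u} (fun v => ClZ (v i) (v j)) :=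
  (Loc.allMem _ (Loc.exMem _ ((Loc.mem _ _).and (Loc.mem _ _)))).and
    (Loc.allMem _ ((Loc.exMem _ (Loc.eq _ _)).imp ((Loc.allMem _ (Loc.exMem _
      ((Loc.mem _ _).and (Loc.mem _ _)))).imp (Loc.mem _ _))))

theorem ClZ_iff (ρ : Ordinal.{u}) (C : ZFSet.{u}) :
    ClZ ρ.toZFSet C ↔ Clb ρ {a | a.toZFSet ∈ C} := by
  constructor
  · rintro ⟨h1, h2⟩
    refine ⟨fun a ha => ?_, fun x hx h0 h => ?_⟩
    · obtain ⟨b, hb, h3, h4⟩ := h1 _ (toZFSet_mem_toZFSet_iff.2 ha)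
      obtain ⟨b, hb', rfl⟩ := mem_toZFSet_iff.1 hb
      exact ⟨b, hb', toZFSet_mem_toZFSet_iff.1 h3, h4⟩
    · refine h2 _ (toZFSet_mem_toZFSet_iff.2 hx) ⟨_, toZFSet_mem_toZFSet_iff.2 h0, rfl⟩ ?_
      intro y hy
      obtain ⟨y, hy', rfl⟩ := mem_toZFSet_iff.1 hy
      obtain ⟨z, hz, h3, h4⟩ := h y hy'
      exact ⟨_, toZFSet_mem_toZFSet_iff.2 hz, toZFSet_mem_toZFSet_iff.2 h3, h4⟩
  · intro h
    refine ⟨fun a ha => ?_, fun x hx h0 h' => ?_⟩
    · obtain ⟨a, ha', rfl⟩ := mem_toZFSet_iff.1 ha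
      obtain ⟨b, hb, h3, h4⟩ := h.unb a ha'
      exact ⟨_, toZFSet_mem_toZFSet_iff.2 hb, toZFSet_mem_toZFSet_iff.2 h3, h4⟩
    · obtain ⟨x, hx', rfl⟩ := mem_toZFSet_iff.1 hx
      obtain ⟨e, he, -⟩ := h0
      obtain ⟨e, he', rfl⟩ := mem_toZFSet_iff.1 he
      refine h.cls x hx' (lt_of_le_of_lt bot_le he') fun y hy => ?_
      obtain ⟨z, hz, h3, h4⟩ := h' _ (toZFSet_mem_toZFSet_iff.2 hy)
      obtain ⟨z, hz', rfl⟩ := mem_toZFSet_iff.1 hz
      exact ⟨z, hz', toZFSet_mem_toZFSet_iff.1 h3, h4⟩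

/-- only club sets which are subsets of `ρ`, as sets, are needed -/
theorem pos_iff_zf (μ ρ : Ordinal.{u}) (X : Set Ordinal.{u}) : Pos μ ρ X ↔
    ∀ C ⊆ ρ.toZFSet, ClZ ρ.toZFSet C → ∃ b < ρ, b.toZFSet ∈ C ∧ b ∈ X ∧ Cf μ b := by
  constructor
  · intro h C hC hcl
    exact h _ ((ClZ_iff ρ C).1 hcl)
  · intro h C hC
    have hcl : ClZ ρ.toZFSet (os ρ C) := by
      refine (ClZ_iff ρ _).2 ⟨fun a ha => ?_, fun x hx h0 h' => ?_⟩
      · obtain ⟨b, hb, h1, h2⟩ := hC.unb a ha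
        exact ⟨b, hb, h1, ord_mem_os.2 ⟨hb, h2⟩⟩
      · refine ord_mem_os.2 ⟨hx, hC.cls x hx h0 fun y hy => ?_⟩
        obtain ⟨z, hz, h1, h2⟩ := h' y hy
        exact ⟨z, hz, h1, (ord_mem_os.1 h2).2⟩
    obtain ⟨b, hb, h1, h2, h3⟩ := h (os ρ C) (fun z hz => by
      obtain ⟨a, ha, -, rfl⟩ := mem_os.1 hz
      exact toZFSet_mem_toZFSet_iff.2 ha) hcl
    exact ⟨b, hb, (ord_mem_os.1 h1).2, h2, h3⟩

/-- general form of local definability of positivity -/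
theorem loc_pos (hLA : T_LA.{u}) {P : ZFSet.{u} → (ℕ → ZFSet.{u}) → Prop} (i j : ℕ)
    (hP : Loc fun v => P (v 0) (fun n => v (n + 1))) :
    Loc fun v => (v i).IsOrdinal ∧ (v j).IsOrdinal ∧
      Pos (v i).rank (v j).rank {b | P b.toZFSet v} := by
  refine Loc.congr (P := fun v => (v i).IsOrdinal ∧ (v j).IsOrdinal ∧ ∀ C ⊆ v j, ClZ (v j) C →
    ∃ b ∈ C, b ∈ v j ∧ P b v ∧ ((v i).IsOrdinal ∧ b.IsOrdinal ∧ Cf (v i).rank b.rank)) ?_ ?_
  · refine (loc_ord i).and ((loc_ord j).and (Loc.allSub _ ((loc_ClZ _ _).imp (Loc.exMem _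
      ((Loc.mem _ _).and (Loc.and ?_ ?_))))))
    · have := hP.ren (fun n => if n = 0 then 0 else n + 1)
      refine this.congr fun v => ?_
      have e : (fun n => v (n + 1 + 1)) = fun n => v (if n + 1 = 0 then 0 else n + 1 + 1) := by
        funext n; simp
      rw [e]
      rfl
    · exact hLA.ren (fun n => if n = 0 then i + 2 else 0)
  · intro v
    refine and_congr_right fun h1 => and_congr_right fun h2 => ?_
    obtain ⟨ρ, hρ⟩ := ord_of h2
    rw [hρ, rank_toZFSet, pos_iff_zf]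
    refine forall_congr' fun C => forall_congr' fun hC => forall_congr' fun _ => ?_
    constructor
    · rintro ⟨b, hb, h3, h4, h5⟩
      exact ⟨_, h3, toZFSet_mem_toZFSet_iff.2 hb, h4, h1, ZFSet.isOrdinal_toZFSet b,
        by rwa [rank_toZFSet]⟩
    · rintro ⟨b, h3, hb, h4, -, h5, h6⟩
      obtain ⟨b, hb', rfl⟩ := mem_toZFSet_iff.1 hb
      rw [rank_toZFSet] at h6
      exact ⟨b, hb', h3, h4, h6⟩

theorem t_LB (hLA : T_LA.{u}) : T_LB.{u} :=
  loc_pos hLA (P := fun b v => ZFSet.pair b (v 3) ∈ v 2) 0 1 (loc_pmem 0 4 3)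

/-! ## DA -/

theorem t_DA (hLA : T_LA.{u}) : T_DA.{u} := by
  intro i j X hX
  have h1 : Loc.{u} fun v => (v (i + 1)).IsOrdinal ∧ (v (j + 1)).IsOrdinal ∧
      Pos (v (i + 1)).rank (v (j + 1)).rank {b | b.toZFSet ∈ v 0} :=
    loc_pos hLA (P := fun b v => b ∈ v 0) (i + 1) (j + 1) (Loc.mem 0 1)
  have h2 := DO.setArg (R := fun s v => (v i).IsOrdinal ∧ (v j).IsOrdinal ∧
      Pos (v i).rank (v j).rank {b | b.toZFSet ∈ s}) h1.dz hX j
  refine h2.congr fun w => ?_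
  have e1 : (ov w i).rank = w i := rank_toZFSet _
  have e2 : (ov w j).rank = w j := rank_toZFSet _
  rw [e1, e2]
  constructor
  · intro h
    refine ⟨ZFSet.isOrdinal_toZFSet _, ZFSet.isOrdinal_toZFSet _, (Pos.congr fun b hb => ?_).1 h⟩
    show _ ↔ b.toZFSet ∈ os (w j) _
    rw [ord_mem_os]
    exact ⟨fun h => ⟨hb, h⟩, fun h => h.2⟩
  · rintro ⟨-, -, h⟩
    refine (Pos.congr fun b hb => ?_).1 h
    show b.toZFSet ∈ os (w j) _ ↔ _
    rw [ord_mem_os]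
    exact ⟨fun h => h.2, fun h => ⟨hb, h⟩⟩

theorem do_Cf (hLA : T_LA.{u}) (i j : ℕ) : DO.{u} fun w => Cf (w i) (w j) := by
  refine (hLA.dz.ren (fun n => if n = 0 then i else j)).do.congr fun w => ?_
  show _ ↔ (ov w i).IsOrdinal ∧ (ov w j).IsOrdinal ∧ Cf (ov w i).rank (ov w j).rank
  have e1 : (ov w i).rank = w i := rank_toZFSet _
  have e2 : (ov w j).rank = w j := rank_toZFSet _
  rw [e1, e2]
  exact ⟨fun h => ⟨ZFSet.isOrdinal_toZFSet _, ZFSet.isOrdinal_toZFSet _, h⟩, fun h => h.2.2⟩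

/-! ## DB -/

/-- `g` is an increasing enumeration of `s` of length `a`, at the level of sets -/
def EnZ (a s g : ZFSet.{u}) : Prop :=
  (∀ x ∈ a, ∃ y ∈ s, ZFSet.pair x y ∈ g) ∧
  (∀ y ∈ s, ∃ x ∈ a, ZFSet.pair x y ∈ g) ∧
  (∀ x ∈ a, ∀ x' ∈ a, ∀ y ∈ s, ∀ y' ∈ s, ZFSet.pair x y ∈ g → ZFSet.pair x' y' ∈ g →
    (x ∈ x' ↔ y ∈ y'))

theorem nth_iff (X : Set Ordinal.{u}) (a z : Ordinal.{u}) : nth X a z ↔ z ∈ X ∧
    ∃ g : ZFSet.{u}, EnZ a.toZFSet (os z X) g := by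
  unfold nth
  refine and_congr_right fun _ => ?_
  constructor
  · rintro ⟨g, h1, h2, h3⟩
    have hlt : ∀ x < a, ∀ x' < a, (x < x' ↔ g x < g x') := by
      intro x hx x' hx'
      constructor
      · intro h
        exact h1 x x' h hx'
      · intro h
        rcases lt_trichotomy x x' with h4 | rfl | h4
        · exact h4
        · exact absurd h (lt_irrefl _)
        · exact absurd h (not_lt.2 (h1 x' x h4 hx).le)
    refine ⟨rs a z (fun x y => y = g x), ?_, ?_, ?_⟩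
    · intro x hx
      obtain ⟨x, hx', rfl⟩ := mem_toZFSet_iff.1 hx
      exact ⟨(g x).toZFSet, ord_mem_os.2 ⟨(h2 x hx').2, (h2 x hx').1⟩,
        pair_mem_rs.2 ⟨hx', (h2 x hx').2, rfl⟩⟩
    · intro y hy
      obtain ⟨y, hy', hyX, rfl⟩ := mem_os.1 hy
      obtain ⟨x, hx, rfl⟩ := h3 y hyX hy'
      exact ⟨x.toZFSet, toZFSet_mem_toZFSet_iff.2 hx, pair_mem_rs.2 ⟨hx, hy', rfl⟩⟩
    · intro x hx x' hx' y hy y' hy' h4 h5
      obtain ⟨x, hx2, rfl⟩ := mem_toZFSet_iff.1 hx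
      obtain ⟨x', hx2', rfl⟩ := mem_toZFSet_iff.1 hx'
      obtain ⟨y, -, -, rfl⟩ := mem_os.1 hy
      obtain ⟨y', -, -, rfl⟩ := mem_os.1 hy'
      obtain ⟨-, -, rfl⟩ := pair_mem_rs.1 h4
      obtain ⟨-, -, rfl⟩ := pair_mem_rs.1 h5
      rw [toZFSet_mem_toZFSet_iff, toZFSet_mem_toZFSet_iff]
      exact hlt x hx2 x' hx2'
  · rintro ⟨g, h1, h2, h3⟩
    have h4 : ∀ x < a, ∃ y, (y < z ∧ y ∈ X) ∧ ZFSet.pair x.toZFSet y.toZFSet ∈ g := by
      intro x hx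
      obtain ⟨y, hy, h⟩ := h1 _ (toZFSet_mem_toZFSet_iff.2 hx)
      obtain ⟨y, hy1, hy2, rfl⟩ := mem_os.1 hy
      exact ⟨y, ⟨hy1, hy2⟩, h⟩
    have h4' : ∀ x, ∃ y, x < a → (y < z ∧ y ∈ X) ∧ ZFSet.pair x.toZFSet y.toZFSet ∈ g := by
      intro x
      by_cases hx : x < a
      · obtain ⟨y, h⟩ := h4 x hx
        exact ⟨y, fun _ => h⟩
      · exact ⟨0, fun h => absurd h hx⟩
    choose f hf using h4'
    have h5 : ∀ x < a, ∀ x' < a, ∀ y < z, y ∈ X → ∀ y' < z, y' ∈ X →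
        ZFSet.pair x.toZFSet y.toZFSet ∈ g → ZFSet.pair x'.toZFSet y'.toZFSet ∈ g →
        (x < x' ↔ y < y') := by
      intro x hx x' hx' y hy hyX y' hy' hyX' h h'
      have := h3 _ (toZFSet_mem_toZFSet_iff.2 hx) _ (toZFSet_mem_toZFSet_iff.2 hx') _
        (ord_mem_os.2 ⟨hy, hyX⟩) _ (ord_mem_os.2 ⟨hy', hyX'⟩) h h'
      rwa [toZFSet_mem_toZFSet_iff, toZFSet_mem_toZFSet_iff] at this
    refine ⟨f, fun x y hxy hy => ?_, fun x hx => ⟨(hf x hx).1.2, (hf x hx).1.1⟩, fun y hy hyz => ?_⟩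
    · have hx := hxy.trans hy
      exact (h5 x hx y hy _ (hf x hx).1.1 (hf x hx).1.2 _ (hf y hy).1.1 (hf y hy).1.2
        (hf x hx).2 (hf y hy).2).1 hxy
    · obtain ⟨x, hx, h⟩ := h2 _ (ord_mem_os.2 ⟨hyz, hy⟩)
      obtain ⟨x, hx', rfl⟩ := mem_toZFSet_iff.1 hx
      refine ⟨x, hx', ?_⟩
      have e1 := h5 x hx' x hx' _ (hf x hx').1.1 (hf x hx').1.2 y hyz hy (hf x hx').2 h
      have e2 := h5 x hx' x hx' y hyz hy _ (hf x hx').1.1 (hf x hx').1.2 h (hf x hx').2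
      apply le_antisymm
      · exact not_lt.1 fun hlt => lt_irrefl _ (e2.2 hlt)
      · exact not_lt.1 fun hlt => lt_irrefl _ (e1.2 hlt)

theorem dz_EnZ (i j k : ℕ) : DZ.{u} (fun v => EnZ (v i) (v j) (v k)) :=
  (DZ.allMem _ (DZ.exMem _ (loc_pmem _ _ _).dz)).and ((DZ.allMem _ (DZ.exMem _
    (loc_pmem _ _ _).dz)).and (DZ.allMem _ (DZ.allMem _ (DZ.allMem _ (DZ.allMem _
      ((loc_pmem _ _ _).dz.imp ((loc_pmem _ _ _).dz.imp ((DZ.mem _ _).iff (DZ.mem _ _)))))))))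

theorem t_DB : T_DB.{u} := by
  intro X hX
  have h1 : DO.{u} fun w => X (w 1) (fun n => w (n + 2)) := by
    refine (hX.ren (fun n => if n = 0 then 1 else n + 1)).congr fun w => ?_
    simp
  have h2 : DO.{u} fun w => X (w 0) (fun n => w (n + 3)) := by
    refine (hX.ren (fun n => if n = 0 then 0 else n + 2)).congr fun w => ?_
    simp
  have h3 := DO.setArg (R := fun s v => ∃ g : ZFSet.{u}, EnZ (v 0) s g)
    (DZ.ex (dz_EnZ 2 1 0)) (X := fun a w => X a (fun n => w (n + 2))) h2 1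
  refine (h1.and h3).congr fun w => ?_
  show nth {a | X a (fun n => w (n + 2))} (w 0) (w 1) ↔ _
  rw [nth_iff]
  rfl

/-! ## EA -/

theorem t_EA : T_EA.{u} := by
  intro en hen
  have hE : ∀ {R : ZFSet.{u} → (ℕ → ZFSet.{u}) → Prop}, (DZ fun v => R (v 0) (fun n => v (n + 1))) →
      ∀ i : ℕ, DO fun w => R (en (w i)) (ov w) := by
    intro R hR i
    refine ⟨fun v => ∃ x, ((v i).IsOrdinal ∧ x = en (v i).rank) ∧ R x v, DZ.ex (DZ.and ?_ hR),
      fun w => ?_⟩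
    · exact hen.dz.ren (fun n => if n = 0 then i + 1 else 0)
    · have e1 : (ov w i).rank = w i := rank_toZFSet _
      show R (en (w i)) (ov w) ↔ ∃ x, ((ov w i).IsOrdinal ∧ x = en (ov w i).rank) ∧ R x (ov w)
      rw [e1]
      constructor
      · intro h
        exact ⟨_, ⟨ZFSet.isOrdinal_toZFSet _, rfl⟩, h⟩
      · rintro ⟨x, ⟨-, rfl⟩, h⟩
        exact h
  refine ⟨?_, ?_, fun X hX β => ?_, fun R hR β => ?_⟩
  · exact hE (R := fun x v => v 0 ∈ x) (DZ.mem 1 0) 1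
  · exact hE (R := fun x v => ZFSet.pair (v 1) (v 0) ∈ x) (loc_pmem 2 1 0).dz 2
  · obtain ⟨c, hc⟩ := (hen.od _).1 (od_os hX β)
    refine ⟨c, ?_⟩
    ext a
    show a.toZFSet ∈ en c ↔ _
    rw [hc, ord_mem_os]
    exact and_comm
  · obtain ⟨c, hc⟩ := (hen.od _).1 (od_rs hR β β)
    refine ⟨c, fun a b => ?_⟩
    show ZFSet.pair a.toZFSet b.toZFSet ∈ en c ↔ _
    rw [hc, pair_mem_rs]

/-! ## EB -/

theorem t_EB (hEA : T_EA.{u}) : T_EB.{u} := by
  intro en hen Φ hΦ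
  obtain ⟨h1, -, h3, -⟩ := hEA en hen
  -- the definition by codes
  let Ψ : Ordinal.{u} → (ℕ → Ordinal.{u}) → Prop := fun x w => ∃ s,
    (∀ z < x, (z ∈ E en s ↔ Φ z (E en s ∩ Iio z) w)) ∧ Φ x (E en s ∩ Iio x) w
  have hΨ : DO fun w => Ψ (w 0) (fun n => w (n + 1)) := by
    refine DO.ex (R := fun s w => (∀ z < w 0, (z ∈ E en s ↔
      Φ z (E en s ∩ Iio z) (fun n => w (n + 1)))) ∧ Φ (w 0) (E en s ∩ Iio (w 0))
        (fun n => w (n + 1))) (DO.and ?_ ?_)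
    · refine DO.allLt (R := fun z w => z ∈ E en (w 0) ↔
        Φ z (E en (w 0) ∩ Iio z) (fun n => w (n + 2))) 1 (DO.iff ?_ ?_)
      · exact h1
      · refine (hΦ.ren (fun n => if n = 0 then 0 else if n = 1 then 1 else n + 1)).congr
          fun w => ?_
        simp
    · refine (hΦ.ren (fun n => if n = 0 then 1 else if n = 1 then 0 else n)).congr
          fun w => ?_
      simp
  have key : ∀ w : ℕ → Ordinal.{u}, ∀ x, recJ Φ w x ↔ Ψ x w := by
    intro w x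
    induction x using WellFoundedLT.induction with
    | ind x ih =>
      have hds : DS {y | Ψ y w} := by
        have := DO.sect (P := fun y w => Ψ y w) hΨ w
        exact this
      obtain ⟨s, hs⟩ := h3 _ hds x
      have hs' : ∀ z < x, (z ∈ E en s ↔ recJ Φ w z) := by
        intro z hz
        rw [hs, ih z hz]
        exact ⟨fun h => h.1, fun h => ⟨h, hz⟩⟩
      have hset : ∀ z ≤ x, {y | y < z ∧ recJ Φ w y} = E en s ∩ Iio z := by
        intro z hz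
        ext y
        constructor
        · rintro ⟨h4, h5⟩
          exact ⟨(hs' y (h4.trans_le hz)).2 h5, h4⟩
        · rintro ⟨h4, h5⟩
          exact ⟨h5, (hs' y (lt_of_lt_of_le h5 hz)).1 h4⟩
      constructor
      · intro h
        refine ⟨s, fun z hz => ?_, ?_⟩
        · rw [hs' z hz, recJ_iff, hset z hz.le]
        · rw [recJ_iff, hset x le_rfl] at h
          exact h
      · rintro ⟨t, ht1, ht2⟩
        have hts : ∀ z < x, (z ∈ E en t ↔ z ∈ E en s) := by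
          intro z
          induction z using WellFoundedLT.induction with
          | ind z ih2 =>
            intro hz
            have : E en t ∩ Iio z = E en s ∩ Iio z := by
              ext y
              constructor
              · rintro ⟨h4, h5⟩
                exact ⟨(ih2 y h5 (lt_trans h5 hz)).1 h4, h5⟩
              · rintro ⟨h4, h5⟩
                exact ⟨(ih2 y h5 (lt_trans h5 hz)).2 h4, h5⟩
            rw [ht1 z hz, this, hs' z hz, recJ_iff, hset z hz.le]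
        have : E en t ∩ Iio x = E en s ∩ Iio x := by
          ext y
          constructor
          · rintro ⟨h4, h5⟩
            exact ⟨(hts y h5).1 h4, h5⟩
          · rintro ⟨h4, h5⟩
            exact ⟨(hts y h5).2 h4, h5⟩
        rw [recJ_iff, hset x le_rfl, ← this]
        exact ht2
  exact hΨ.congr fun w => key _ _

end HD
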