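import Pool.Agent.H7.HD.Pr
import Pool.Agent.H7.HD.Clo

/-!
# MP_e37c09_lc: targets of the second list of modules
-/

open Ordinal Cardinal Order Set
open scoped ZFSet

universe u

namespace HD

/-! ## Statement-level definitions -/

/-- `α` is regular in HOD: a limit ordinal which is not singular in HOD. -/
def RegHOD (α : Ordinal.{u}) : Prop := IsSuccLimit α ∧ ¬ SingHOD α

/-- In HOD there is a function on `β` whose values include all subsets of `τ`. -/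
def PowHOD (τ β : Ordinal.{u}) : Prop :=
  ∃ f y, HOD f ∧ ZFSet.IsFunc β.toZFSet y f ∧
    ∀ x, HOD x → x ⊆ τ.toZFSet → ∃ b < β, ZFSet.pair b.toZFSet x ∈ f

/-- `α` is inaccessible in HOD. -/
def InacHOD (α : Ordinal.{u}) : Prop := ω < α ∧ RegHOD α ∧ ∀ τ < α, ∃ β < α, PowHOD τ β

/-- `U` is in HOD, and in HOD it is a uniform weakly normal ultrafilter on `α` which is closed
under intersections of fewer than `ν` sets. -/
structure HUlt (α ν : Ordinal.{u}) (U : ZFSet.{u}) : Prop where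
  hod : HOD U
  sub : ∀ x ∈ U, x ⊆ α.toZFSet
  ultra : ∀ x, HOD x → x ⊆ α.toZFSet → (x ∈ U ↔ α.toZFSet \ x ∉ U)
  up : ∀ x ∈ U, ∀ y, HOD y → x ⊆ y → y ⊆ α.toZFSet → y ∈ U
  unif : ∀ x ∈ U, ∀ b < α, ∃ a, b ≤ a ∧ a.toZFSet ∈ x
  compl : ∀ τ < ν, ∀ f, HOD f → ZFSet.IsFunc τ.toZFSet U f →
    (α.toZFSet).sep (fun b => ∀ a x, ZFSet.pair a x ∈ f → b ∈ x) ∈ U
  wn : ∀ f, HOD f → ZFSet.IsFunc α.toZFSet α.toZFSet f →
    (α.toZFSet).sep (fun a => ∃ b ∈ a, ZFSet.pair a b ∈ f) ∈ U →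
    ∃ c < α, (α.toZFSet).sep (fun a => ∃ b ∈ c.toZFSet, ZFSet.pair a b ∈ f) ∈ U

/-! ## The argument of Solovay at ordinals of cofinality at least `δ` -/

/-- The situation of the argument of Solovay, at an ordinal `κ` of cofinality at least `δ`. -/
structure Sol2 (δ η θ : Ordinal.{u}) (j : ZFSet.{u} → ZFSet.{u}) (M : Cardinal.{u})
    (κ γ : Ordinal.{u}) (f : ZFSet.{u}) : Prop where
  emb : Emb δ η θ j
  dreg : δ.cof.ord = δ
  dom : ω < δ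
  mreg : M.IsRegular
  mlt : M.ord < δ
  kcof : δ ≤ κ.cof.ord
  kη : κ < η
  γη : γ < η
  fη : f ∈ V_ η
  od : OD f
  odj : OD (j f)
  fn : ∀ b i i', ZFSet.pair b i ∈ f → ZFSet.pair b i' ∈ f → i = i'
  pos : ∀ i < γ, Pos M.ord κ (fib f i)

/-- YF. The argument of Solovay. -/
def T_YF : Prop := ∀ (δ η θ : Ordinal.{u}) j (M : Cardinal.{u}) κ γ f, Sol2 δ η θ j M κ γ f →
  ∀ ρ : Ordinal.{u}, (∀ x < κ, Jo j x < ρ) → (∀ y < ρ, ∃ x < κ, y < Jo j x) →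
    ∀ i < Jo j γ, (Pos M.ord ρ (fib (j f) i) ↔ ∃ i0 < γ, i = Jo j i0)

/-- YG. The embedding is definable from ordinals on `γ`. -/
def T_YG : Prop := ∀ (δ η θ : Ordinal.{u}) j (M : Cardinal.{u}) κ γ f, Sol2 δ η θ j M κ γ f →
  DR fun a b => a < γ ∧ b = Jo j a

/-- YH. First step of the covering argument. -/
def T_YH : Prop := ∀ (δ η θ : Ordinal.{u}) j (M : Cardinal.{u}) κ γ f, Sol2 δ η θ j M κ γ f →
  ∀ α, HReg α → δ < α → α ≤ γ → δ ≤ α.cof.ord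

/-- YI. Second step of the covering argument. -/
def T_YI : Prop := ∀ (δ η θ : Ordinal.{u}) j (M : Cardinal.{u}) κ γ f, Sol2 δ η θ j M κ γ f →
  ∀ α, IsSuccLimit α → δ ≤ α.cof.ord → α ≤ γ →
    ∃ (S : Set Ordinal.{u}) (E' : Set Ordinal.{u}), S ⊆ Iio α ∧ DS E' ∧
      (∃ e : Ordinal.{u} → Ordinal.{u}, ∀ x ∈ S, ∃ a < α.cof.ord, e a = x) ∧
      (∀ ξ < α, ∃ ζ < α, ξ < ζ ∧ ∃ x ∈ E', Jo j ξ ≤ x ∧ x < Jo j ζ) ∧
      (∀ ξ < α, ∀ ζ < α, (∃ x ∈ E', Jo j ξ ≤ x ∧ x < Jo j ζ) → ∃ y ∈ S, ξ ≤ y ∧ y < ζ)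

/-- YJ. Third step of the covering argument. -/
def T_YJ : Prop := ∀ (δ η θ : Ordinal.{u}) j (M : Cardinal.{u}) κ γ f, Sol2 δ η θ j M κ γ f →
  ∀ α, HReg α → δ < α → α ≤ γ → α.card ≤ α.cof

/-- YL. No splitting at ordinals of cofinality at least `δ`. -/
def T_YL : Prop := ∀ δ : Ordinal.{u}, Extendible δ → ¬ CaseA δ → ∀ M : Cardinal.{u},
  M.IsRegular → M.ord < δ → ∀ κ : Ordinal.{u}, δ ≤ κ.cof.ord → NS δ M.ord κ

/-! ## Reflection below `δ` -/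

/-- `δ` is inaccessible and the ordinal definable sets do not split the points of cofinality `μ`
of an ordinal of cofinality at least `δ` into `δ` stationary sets (`μ < δ` regular). -/
def GoodN (D : Cardinal.{u}) : Prop := D.IsRegular ∧ D.IsStrongLimit ∧ ℵ₀ < D ∧
  ∀ M : Cardinal.{u}, M.IsRegular → M < D → ∀ κ : Ordinal.{u}, D ≤ κ.cof → NS D.ord M.ord κ

/-- ordinal definable with a name of level less than `β` -/
def ODb (β : Ordinal.{u}) (x : ZFSet.{u}) : Prop := ∃ N : Nm.{u}, N.a < β ∧ N.ok ∧ N.den x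

/-- RL. Bounded ordinal definability is locally definable. -/
def T_RL : Prop := Loc.{u} fun v => (v 1).IsOrdinal ∧ ODb (v 1).rank (v 0)

/-- `GoodN` below `β` -/
def GoodB (β δ : Ordinal.{u}) : Prop :=
  (∃ D : Cardinal.{u}, δ = D.ord ∧ D.IsRegular ∧ D.IsStrongLimit ∧ ℵ₀ < D) ∧
  ∀ μ < δ, ω ≤ μ → Cf μ μ → ∀ κ < β, δ ≤ κ.cof.ord → ∀ f, ODb β f →
    (∀ b i i', ZFSet.pair b i ∈ f → ZFSet.pair b i' ∈ f → i = i') →
    ¬ ∀ i < δ, Pos μ κ (fib f i)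

/-- RC. Being inaccessible is locally definable. -/
def T_RC : Prop := Loc.{u} fun v => (v 0).IsOrdinal ∧
  ∃ D : Cardinal.{u}, (v 0).rank = D.ord ∧ D.IsRegular ∧ D.IsStrongLimit ∧ ℵ₀ < D

/-- RB. `GoodB` is locally definable. -/
def T_RB : Prop := Loc.{u} fun v => (v 0).IsOrdinal ∧ (v 1).IsOrdinal ∧
  GoodB (v 0).rank (v 1).rank

/-- RA. Reflection. -/
def T_RA : Prop := ∀ D : Cardinal.{u}, Extendible D.ord → GoodN D → ∀ l < D.ord,
  ∃ D' : Cardinal.{u}, D' < D ∧ l < D'.ord ∧ GoodN D'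

/-! ## Atoms at ordinals of cofinality greater than `δ` -/

/-- HB2. Atoms. -/
def T_HB2 : Prop := ∀ en : Ordinal.{u} → ZFSet.{u}, EN en → ∀ (D M : Cardinal.{u})
  (κ : Ordinal.{u}), D.IsRegular → D.IsStrongLimit → ℵ₀ < D → M.IsRegular → M < D →
  D < κ.cof → NSX D.ord M.ord κ → ∀ X : Set Ordinal.{u}, DS X → Pos M.ord κ X →
    ∃ c, E en c ⊆ X ∧ Atom en M.ord κ c

/-- UV. Fodor's theorem at ordinals of uncountable cofinality. -/
def T_UV : Prop := ∀ (μ α : Ordinal.{u}), ℵ₀ < α.cof →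
  ∀ (X : Set Ordinal.{u}) (h : Ordinal.{u} → Ordinal.{u}), Pos μ α X →
    (∀ b ∈ X, b < α → 0 < b → h b < b) → ∃ a < α, Pos μ α {b | b ∈ X ∧ h b < a}

/-- UA. Atoms give uniform weakly normal ultrafilters of HOD. -/
def T_UA : Prop := ∀ en : Ordinal.{u} → ZFSet.{u}, EN en → ∀ μ α c : Ordinal.{u},
  ℵ₀ < α.cof → Atom en μ α c → HUlt α α.cof.ord (uz en μ α c)

/-! ## The club of cardinals which are inaccessible in HOD -/

/-- KA. The ordinals which are singular in HOD are a null set. -/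
def T_KA : Prop := ∀ en : Ordinal.{u} → ZFSet.{u}, EN en → ∀ M K : Cardinal.{u},
  K.IsRegular → ℵ₀ < K →
  (∀ X : Set Ordinal.{u}, DS X → Pos M.ord K.ord X → ∃ c, E en c ⊆ X ∧ Atom en M.ord K.ord c) →
    ¬ Pos M.ord K.ord {α | SingHOD α}

/-- KB. From points of countable cofinality to a club. -/
def T_KB : Prop := ∀ K : Cardinal.{u}, K.IsRegular → ℵ₀ < K →
  ¬ Pos (ℵ₀ : Cardinal.{u}).ord K.ord {α | SingHOD α} →
    ∃ C, Clb K.ord C ∧ ∀ α ∈ C, α < K.ord → RegHOD α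

/-- KC. `K` is a strong limit cardinal in HOD. -/
def T_KC : Prop := ∀ en : Ordinal.{u} → ZFSet.{u}, EN en → ∀ (μ : Ordinal.{u}) (K : Cardinal.{u})
  (c), K.IsRegular → ℵ₀ < K → Atom en μ K.ord c → ∀ τ < K.ord, ∃ β < K.ord, PowHOD τ β

/-- KD. The club of cardinals which are inaccessible in HOD. -/
def T_KD : Prop := ∀ D K : Cardinal.{u}, GoodN D → K.IsRegular → D < K →
  ∃ C, Clb K.ord C ∧ ∀ α ∈ C, α < K.ord → InacHOD α

/-! ## The theorems -/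

/-- the dichotomy with the Mitchell order -/
def T_M1 : Prop := ∀ δ : Ordinal.{u}, Extendible δ → CaseA δ ∨ ∀ l < δ, ∃ δ₀ < δ, l < δ₀ ∧
  ∀ K : Cardinal.{u}, K.IsRegular → δ₀ < K.ord → ∀ ξ < δ₀, ∃ U, MGe K.ord ξ U

/-- the dichotomy with clubs of cardinals which are inaccessible in HOD -/
def T_M2 : Prop := ∀ δ : Ordinal.{u}, Extendible δ → CaseA δ ∨ ∀ l < δ, ∃ δ₀ < δ, l < δ₀ ∧
  ∀ K : Cardinal.{u}, K.IsRegular → δ₀ < K.ord →
    ∃ C, Clb K.ord C ∧ ∀ α ∈ C, α < K.ord → InacHOD α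

/-- the dichotomy with ultrafilters on the regular cardinals of HOD -/
def T_M3 : Prop := ∀ δ : Ordinal.{u}, Extendible δ → CaseA δ ∨ ∀ l < δ, ∃ δ₀ < δ, l < δ₀ ∧
  ∀ α : Ordinal.{u}, RegHOD α → δ₀ < α.cof.ord → ∃ U, HUlt α α.cof.ord U

end HD
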