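import Pool.Agent.H7.HD.All
import Pool.Agent.H2.HD.UV
import Pool.Agent.H2.HD.YF
import Pool.Agent.H2.HD.YI
import Pool.Agent.H43.HD.KA
import Pool.Agent.H43.HD.KB
import Pool.Agent.H43.HD.UA
import Pool.Agent.H65.HD.YH
import Pool.Agent.H75.HD.KC
import Pool.Agent.H75.HD.RA
import Pool.Agent.H76.HD.WE
import Pool.Agent.H78.HD.YJ
import Pool.Agent.H78.HD.YL
import Pool.Agent.H81.HD.RB
import Pool.Agent.H85.HD.YG
import Pool.Agent.H69.HD.HB2
import Pool.Agent.H54.HD.RC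
import Pool.Agent.H54.HD.KD
import Pool.Agent.H4.HD.WA
import Pool.Agent.H4.HD.WB
import Pool.Agent.H4.HD.WC
import Pool.Agent.H4.HD.WD

/-!
# MP_e37c09_lc: assembly of the second list of modules
-/

open Ordinal Cardinal Order Set
open scoped ZFSet

universe u

namespace HD

namespace All

theorem yf : T_YF.{u} := Pool.Agent.H2.HD.YF.X xe
theorem yg : T_YG.{u} := Pool.Agent.H85.HD.YG.X yf vh da db
theorem yh : T_YH.{u} := Pool.Agent.H65.HD.YH.yh yf lb da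
theorem yi : T_YI.{u} := Pool.Agent.H2.HD.YI.X la lb vg da yf
theorem yj : T_YJ.{u} := Pool.Agent.H78.HD.YJ.X yg yh yi en ea eb
theorem yl : T_YL.{u} := Pool.Agent.H78.HD.YL.X xa xb xc la yj xk lb
theorem rc : T_RC.{u} := Pool.Agent.H54.HD.RC.X la
theorem rb : T_RB.{u} := Pool.Agent.H81.HD.RB.t_RB rc t_RL la
theorem ra : T_RA.{u} := Pool.Agent.H75.HD.RA.pf_RA rb xa
theorem hb2 : T_HB2.{u} := Pool.Agent.H69.HD.HB2.X ea eb da va vh
theorem uv : T_UV.{u} := Pool.Agent.H2.HD.UV.X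
theorem ua : T_UA.{u} := Pool.Agent.H43.HD.UA.X ea da va vb uv
theorem ka : T_KA.{u} := Pool.Agent.H43.HD.KA.X ea va vd
theorem kb : T_KB.{u} := Pool.Agent.H43.HD.KB.X ve
theorem kc : T_KC.{u} := Pool.Agent.H75.HD.KC.pf_KC ea db va vb vh
theorem kd : T_KD.{u} := Pool.Agent.H54.HD.KD.X en ha hb2 ka kb kc vc ve
theorem wa : T_WA.{u} := Pool.Agent.H4.HD.WA.X
theorem wb : T_WB.{u} := Pool.Agent.H4.HD.WB.X he ea da va la wa
theorem wc : T_WC.{u} := Pool.Agent.H4.HD.WC.X hi hj vf va wa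
theorem wd : T_WD.{u} := Pool.Agent.H4.HD.WD.X wb wc he hf hi hj va
theorem we : T_WE.{u} := Pool.Agent.H76.HD.WE.we wd en ha hb hc hf va

theorem m1 : T_M1.{u} := asm_m1 xa xb yl ra hl
theorem m2 : T_M2.{u} := asm_m2 xa xb yl ra kd
theorem m4 : T_M4.{u} := asm_m4 xa xb yl ra we

theorem m3 : ∀ δ : Ordinal.{u}, Extendible δ → CaseA δ ∨ ∀ l < δ, ∃ δ₀ < δ, l < δ₀ ∧
    ∀ α : Ordinal.{u}, δ₀ < α.cof.ord → ∃ U, HUlt α α.cof.ord U :=
  asm_m3 xa xb yl ra en ha hb2 vc ua ((DO.cst True).congr fun _ => Iff.rfl)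

end All

end HD
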