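import Pool.Agent.H7.HD.Targets2

/-!
# Local definability of the satisfaction relation and of bounded ordinal definability
-/

open Ordinal Cardinal Order Set
open scoped ZFSet

universe u

namespace HD

theorem snd_mem_V {η : Ordinal.{u}} {b y f : ZFSet.{u}} (h : ZFSet.pair b y ∈ f)
    (hf : f ∈ V_ η) : y ∈ V_ η := by
  have h1 := mem_V_of_mem h hf
  have h2 : {b, y} ∈ ZFSet.pair b y := by
    unfold ZFSet.pair
    simp
  have h3 : y ∈ ({b, y} : ZFSet.{u}) := by simp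
  exact mem_V_of_mem h3 (mem_V_of_mem h2 h1)

theorem fst_mem_V {η : Ordinal.{u}} {b y f : ZFSet.{u}} (h : ZFSet.pair b y ∈ f)
    (hf : f ∈ V_ η) : b ∈ V_ η := by
  have h1 := mem_V_of_mem h hf
  have h2 : {b, y} ∈ ZFSet.pair b y := by
    unfold ZFSet.pair
    simp
  have h3 : b ∈ ({b, y} : ZFSet.{u}) := by simp
  exact mem_V_of_mem h3 (mem_V_of_mem h2 h1)

/-- quantifier over the second components of the elements of `v i` -/
theorem Loc.exSnd {R : ZFSet.{u} → (ℕ → ZFSet.{u}) → Prop} (i k : ℕ)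
    (h : Loc (fun v => R (v 0) (fun n => v (n + 1)))) :
    Loc (fun v => ∃ y, ZFSet.pair (v i) y ∈ v k ∧ R y v) :=
  Loc.ex (R := fun y v => ZFSet.pair (v i) y ∈ v k ∧ R y v) ((loc_pmem (i + 1) 0 (k + 1)).and h)
    fun _ _ _ hv _ hx => snd_mem_V hx.1 (hv k)

theorem Loc.allSnd {R : ZFSet.{u} → (ℕ → ZFSet.{u}) → Prop} (i k : ℕ)
    (h : Loc (fun v => R (v 0) (fun n => v (n + 1)))) :
    Loc (fun v => ∀ y, ZFSet.pair (v i) y ∈ v k → R y v) :=
  (Loc.exSnd (R := fun x v => ¬ R x v) i k h.not).not.congr fun v => by push Not; rfl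

/-- Local definability of a function defined by recursion. -/
theorem Loc.rec {Φ : ZFSet.{u} → ZFSet.{u} → ZFSet.{u} → ZFSet.{u} → Prop}
    (hΦ : Loc fun v => Φ (v 0) (v 1) (v 2) (v 3)) {F : ZFSet.{u} → Ordinal.{u} → ZFSet.{u}}
    (hF : ∀ a c y, y = F a c ↔ Φ a c.toZFSet (gr (F a) c) y)
    (hb : ∀ η, Gd η → ∀ a ∈ V_ η, ∃ B ∈ V_ η, ∀ c, F a c ∈ B) :
    Loc fun v => (v 1).IsOrdinal ∧ v 2 = F (v 0) (v 1).rank := by
  have key : ∀ (a f : ZFSet.{u}) (c : Ordinal.{u}),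
      ((∀ b ∈ (succ c).toZFSet, ∃ y, ZFSet.pair b y ∈ f) ∧
      (∀ b ∈ (succ c).toZFSet, ∀ y, ZFSet.pair b y ∈ f →
        ∃ g, (∀ p, p ∈ g ↔ p ∈ f ∧ ∃ b' ∈ b, ∃ z, p = ZFSet.pair b' z) ∧ Φ a b g y)) →
      ∀ b ≤ c, ∀ y, ZFSet.pair b.toZFSet y ∈ f ↔ y = F a b := by
    rintro a f c ⟨h1, h2⟩ b
    induction b using WellFoundedLT.induction with
    | ind b ih =>
      intro hb
      have hbm : b.toZFSet ∈ (succ c).toZFSet := toZFSet_mem_toZFSet_iff.2 (lt_succ_iff.2 hb)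
      have h3 : ∀ y, ZFSet.pair b.toZFSet y ∈ f → y = F a b := by
        intro y hy
        obtain ⟨g, hg, hP⟩ := h2 _ hbm y hy
        have : g = gr (F a) b := by
          ext p
          rw [hg, mem_gr]
          constructor
          · rintro ⟨hp, b', hb', z, rfl⟩
            obtain ⟨b', hb'', rfl⟩ := mem_toZFSet_iff.1 hb'
            exact ⟨b', hb'', by rw [(ih b' hb'' (hb''.le.trans hb) z).1 hp]⟩
          · rintro ⟨b', hb', rfl⟩
            exact ⟨(ih b' hb' (hb'.le.trans hb) _).2 rfl, _, toZFSet_mem_toZFSet_iff.2 hb', _, rfl⟩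
        rw [this] at hP
        exact (hF a b y).2 hP
      intro y
      refine ⟨h3 y, ?_⟩
      rintro rfl
      obtain ⟨z, hz⟩ := h1 _ hbm
      rwa [h3 z hz] at hz
  -- the formula
  have hloc : Loc.{u} (fun v => (v 1).IsOrdinal ∧ ∃ f : ZFSet.{u}, ∃ s : ZFSet.{u},
      s = insert (v 1) (v 1) ∧ f = gr (F (v 0)) (succ (v 1).rank) ∧
      ZFSet.pair (v 1) (v 2) ∈ f) := by
    refine Loc.congr (P := fun v => (v 1).IsOrdinal ∧ ∃ f : ZFSet.{u}, ((v 1).IsOrdinal ∧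
      f = gr (F (v 0)) (succ (v 1).rank)) ∧ ZFSet.pair (v 1) (v 2) ∈ f)
      ((loc_ord 1).and (Loc.ex (Loc.and ?_ (loc_pmem 2 3 0)) ?_)) ?_
    · -- graph as a locally definable predicate
      refine Loc.congr (P := fun v => (v 2).IsOrdinal ∧ ∃ s : ZFSet.{u}, s = insert (v 2) (v 2) ∧
        (∀ p ∈ v 0, ∃ b ∈ s, ∃ y, ZFSet.pair b y ∈ v 0 ∧ p = ZFSet.pair b y) ∧
        (∀ b ∈ s, ∃ y, ZFSet.pair b y ∈ v 0 ∧ y = y) ∧
        (∀ b ∈ s, ∀ y, ZFSet.pair b y ∈ v 0 → ∃ g ⊆ v 0,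
          (∀ p ∈ g, ∃ b' ∈ b, ∃ z, ZFSet.pair b' z ∈ v 0 ∧ p = ZFSet.pair b' z) ∧
          (∀ b' ∈ b, ∀ z, ZFSet.pair b' z ∈ v 0 → ZFSet.pair b' z ∈ g) ∧ Φ (v 1) b g y)) ?_ ?_
      · refine (loc_ord 2).and (Loc.ex ((loc_insert _ _ _).and (Loc.and ?_ (Loc.and ?_ ?_))) ?_)
        · exact Loc.allMem 1 (Loc.exMem 1 (Loc.exSnd 0 3 (loc_pair 2 1 0)))
        · exact Loc.allMem 0 (Loc.exSnd 0 2 (Loc.eq 0 0))
        · refine Loc.allMem 0 (Loc.allSnd 0 2 (Loc.exSub 3 (Loc.and ?_ (Loc.and ?_ ?_))))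
          · exact Loc.allMem 0 (Loc.exMem 3 (Loc.exSnd 0 6 (loc_pair 2 1 0)))
          · exact Loc.allMem 2 (Loc.allSnd 0 5 (loc_pmem 1 0 2))
          · exact hΦ.ren fun n => if n = 0 then 5 else if n = 1 then 2 else if n = 2 then 0 else 1
        · rintro η hη v hv x ⟨rfl, -⟩
          exact hη.insert (hv _) (hv _)
      · intro v
        refine and_congr_right fun h1 => ?_
        obtain ⟨c, hc⟩ := ord_of h1
        have hc' : v 2 = c.toZFSet := hc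
        rw [hc, rank_toZFSet]
        show v 0 = gr (F (v 1)) (succ c) ↔ _
        rw [hc']
        constructor
        · intro h
          refine ⟨_, rfl, ?_⟩
          rw [← toZFSet_add_one, ← Order.succ_eq_add_one, h]
          refine ⟨?_, ?_, ?_⟩
          · intro p hp
            obtain ⟨b, hb, rfl⟩ := mem_gr.1 hp
            exact ⟨_, toZFSet_mem_toZFSet_iff.2 hb, _, pair_mem_gr.2 ⟨hb, rfl⟩, rfl⟩
          · intro b hb
            obtain ⟨b, hb', rfl⟩ := mem_toZFSet_iff.1 hb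
            exact ⟨_, pair_mem_gr.2 ⟨hb', rfl⟩, rfl⟩
          · intro b hb y hy
            obtain ⟨b, hb', rfl⟩ := mem_toZFSet_iff.1 hb
            obtain ⟨-, rfl⟩ := pair_mem_gr.1 hy
            refine ⟨gr (F (v 1)) b, fun p hp => ?_, fun p hp => ?_, fun b' hb'' z hz => ?_,
              (hF _ _ _).1 rfl⟩
            · obtain ⟨b', hb'', rfl⟩ := mem_gr.1 hp
              exact pair_mem_gr.2 ⟨hb''.trans hb', rfl⟩
            · obtain ⟨b', hb'', rfl⟩ := mem_gr.1 hp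
              exact ⟨_, toZFSet_mem_toZFSet_iff.2 hb'', _, pair_mem_gr.2 ⟨hb''.trans hb', rfl⟩, rfl⟩
            · obtain ⟨b', hb3, rfl⟩ := mem_toZFSet_iff.1 hb''
              obtain ⟨-, rfl⟩ := pair_mem_gr.1 hz
              exact pair_mem_gr.2 ⟨hb3, rfl⟩
        · rintro ⟨s, rfl, h2, h3, h4⟩
          rw [← toZFSet_add_one, ← Order.succ_eq_add_one] at h2 h3 h4
          have hk := key (v 1) (v 0) c ⟨fun b hb => by
            obtain ⟨y, hy, -⟩ := h3 b hb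
            exact ⟨y, hy⟩, fun b hb y hy => by
            obtain ⟨g, hg1, hg2, hg3, hg4⟩ := h4 b hb y hy
            refine ⟨g, fun p => ⟨fun hp => ?_, ?_⟩, hg4⟩
            · obtain ⟨b', hb', z, -, he⟩ := hg2 p hp
              exact ⟨hg1 hp, b', hb', z, he⟩
            · rintro ⟨hp, b', hb', z, rfl⟩
              exact hg3 b' hb' z hp⟩
          ext p
          rw [mem_gr]
          constructor
          · intro hp
            obtain ⟨b, hb, y, hy, rfl⟩ := h2 p hp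
            obtain ⟨b, hb', rfl⟩ := mem_toZFSet_iff.1 hb
            exact ⟨b, hb', by rw [(hk b (lt_succ_iff.1 hb') y).1 hy]⟩
          · rintro ⟨b, hb, rfl⟩
            exact (hk b (lt_succ_iff.1 hb) _).2 rfl
    · rintro η hη v hv x ⟨⟨h1, rfl⟩, -⟩
      obtain ⟨c, hc⟩ := ord_of h1
      rw [hc, rank_toZFSet]
      have hcη : c < η := by
        have := hv 1
        rwa [hc, Gd.ord] at this
      obtain ⟨B, hB, hB'⟩ := hb η hη (v 0) (hv 0)
      refine mem_V_of_sub (y := ZFSet.prod (succ c).toZFSet B) ?_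
        (hη.prod (Gd.ord.2 (hη.succ_lt hcη)) hB)
      intro p hp
      obtain ⟨b, hb, rfl⟩ := mem_gr.1 hp
      exact ZFSet.pair_mem_prod.2 ⟨toZFSet_mem_toZFSet_iff.2 hb, hB' b⟩
    · intro v
      refine and_congr_right fun h1 => ?_
      constructor
      · rintro ⟨f, s, -, h2, h3⟩
        exact ⟨f, ⟨h1, h2⟩, h3⟩
      · rintro ⟨f, ⟨-, h2⟩, h3⟩
        exact ⟨f, _, rfl, h2, h3⟩
  refine hloc.congr fun v => and_congr_right fun h1 => ?_
  obtain ⟨c, hc⟩ := ord_of h1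
  rw [hc, rank_toZFSet]
  constructor
  · intro h
    exact ⟨_, _, rfl, rfl, pair_mem_gr.2 ⟨lt_succ c, h⟩⟩
  · rintro ⟨f, s, -, rfl, h⟩
    exact (pair_mem_gr.1 h).2

/-! ## `UF` -/

theorem loc_Nx (i j k : ℕ) : Loc.{u} (fun v => Nx (v i) (v j) (v k)) := by
  have h := Loc.congr (Q := fun v : ℕ → ZFSet.{u} => Nx (v 0) (v 1) (v 2))
    (P := fun v => ∃ a' : ZFSet.{u}, a' = insert (v 0) (v 0) ∧ ∃ b' : ZFSet.{u},
      b' = insert (v 1) (v 1) ∧ ∃ e : ZFSet.{u}, e = ∅ ∧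
      ((a' ∈ v 1 ∧ v 2 = ZFSet.pair a' (v 1)) ∨ (v 1 = a' ∧ v 2 = ZFSet.pair (v 1) e) ∨
      (v 1 ∈ v 0 ∧ v 2 = ZFSet.pair (v 0) b') ∨ (v 1 = v 0 ∧ v 2 = ZFSet.pair e a')))
    (Loc.ex ((loc_insert _ _ _).and (Loc.ex ((loc_insert _ _ _).and (Loc.ex ((loc_empty _).and
      (((Loc.mem _ _).and (loc_pair _ _ _)).or (((Loc.eq _ _).and (loc_pair _ _ _)).or
      (((Loc.mem _ _).and (loc_pair _ _ _)).or ((Loc.eq _ _).and (loc_pair _ _ _))))))
      (by rintro η hη v hv x ⟨rfl, -⟩; exact hη.empty)))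
      (by rintro η hη v hv x ⟨rfl, -⟩; exact hη.insert (hv _) (hv _))))
      (by rintro η hη v hv x ⟨rfl, -⟩; exact hη.insert (hv _) (hv _))) fun v => by
        unfold Nx
        simp only [exists_eq_left]
  exact h.ren fun n => if n = 0 then i else if n = 1 then j else k

theorem nz_V {η : Ordinal.{u}} (h : Gd η) (n : ℕ) : nz.{u} n ∈ V_ η :=
  Gd.ord.2 ((natCast_lt_omega0 n).trans h.2)

theorem loc_UF : Loc.{u} fun v => (v 1).IsOrdinal ∧ v 2 = UF (v 0) (v 1).rank := by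
  refine Loc.rec (Φ := fun _ c f y =>
    (c ∈ (ω : Ordinal.{u}).toZFSet ∧ ((c = ∅ ∧ ∃ e : ZFSet.{u}, e = ∅ ∧ y = ZFSet.pair e e) ∨
      ∃ d ∈ c, c = insert d d ∧ ∃ x : ZFSet.{u}, ZFSet.pair d x ∈ f ∧
        ∃ a : ZFSet.{u}, ∃ b : ZFSet.{u}, x = ZFSet.pair a b ∧ Nx a b y)) ∨
    (c ∉ (ω : Ordinal.{u}).toZFSet ∧ y = ∅)) ?_ ?_ ?_
  · refine ((loc_in_omega 1).and (((loc_empty 1).and (Loc.ex ((loc_empty _).and (loc_pair _ _ _))
      ?_)).or (Loc.exMem 1 ((loc_insert _ _ _).and (Loc.exSnd 0 3 (Loc.ex (Loc.ex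
      ((loc_pair _ _ _).and (loc_Nx _ _ _)) ?_) ?_)))))).or
      ((loc_in_omega 1).not.and (loc_empty 3))
    · rintro η hη v hv x ⟨rfl, -⟩
      exact hη.empty
    · rintro η hη v hv x ⟨h, -⟩
      have h' : v 1 = ZFSet.pair (v 0) x := h
      have h1 : {v 0, x} ∈ v 1 := by
        rw [h']; unfold ZFSet.pair; simp
      have h2 : x ∈ ({v 0, x} : ZFSet.{u}) := by simp
      exact mem_V_of_mem h2 (mem_V_of_mem h1 (hv 1))
    · rintro η hη v hv x ⟨b, h, -⟩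
      have h1 : {x, b} ∈ v 0 := by
        rw [h]; unfold ZFSet.pair; simp
      have h2 : x ∈ ({x, b} : ZFSet.{u}) := by simp
      exact mem_V_of_mem h2 (mem_V_of_mem h1 (hv 0))
  · intro a c y
    by_cases hc : c < ω
    · obtain ⟨n, rfl⟩ := lt_omega0.1 hc
      have hm : (n : Ordinal.{u}).toZFSet ∈ (ω : Ordinal.{u}).toZFSet := nz_omega n
      rw [UF_nat]
      rcases n with _ | n
      · constructor
        · rintro rfl
          left
          refine ⟨hm, Or.inl ⟨by simp, ∅, rfl, ?_⟩⟩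
          simp [nz_zero]
        · rintro (⟨-, ⟨-, e, rfl, rfl⟩ | ⟨d, hd, -⟩⟩ | ⟨h, -⟩)
          · simp [nz_zero]
          · simp at hd
          · exact absurd hm h
      · have hs : ((n + 1 : ℕ) : Ordinal.{u}).toZFSet = nz (n + 1) := rfl
        have hp : ∀ x : ZFSet.{u}, ZFSet.pair (nz n) x ∈ gr (UF a) ((n + 1 : ℕ) : Ordinal.{u}) ↔
            x = ZFSet.pair (nz n.unpair.1) (nz n.unpair.2) := by
          intro x
          unfold nz
          rw [pair_mem_gr, UF_nat]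
          unfold nz
          constructor
          · exact fun h => h.2
          · exact fun h => ⟨by exact_mod_cast Nat.lt_succ_self n, h⟩
        rw [hs, unpair_succ]
        constructor
        · rintro rfl
          left
          refine ⟨hm, Or.inr ⟨nz n, nz_mem.2 (Nat.lt_succ_self n), nz_succ n, _,
            (hp _).2 rfl, _, _, rfl, ?_⟩⟩
          rw [Nx_iff]
        · rintro (⟨-, ⟨h, -⟩ | ⟨d, hd, he, x, hx, p, q, hpq, h⟩⟩ | ⟨h, -⟩)
          · rw [← nz_zero, nz_inj] at h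
            omega
          · obtain ⟨m, hm', rfl⟩ := mem_nz.1 hd
            rw [← nz_succ, nz_inj] at he
            have : m = n := by omega
            subst this
            rw [hp] at hx
            rw [hx] at hpq
            obtain ⟨rfl, rfl⟩ := ZFSet.pair_injective hpq
            rwa [Nx_iff] at h
          · exact absurd hm h
    · have hm : c.toZFSet ∉ (ω : Ordinal.{u}).toZFSet := by
        rw [toZFSet_mem_toZFSet_iff]
        exact hc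
      unfold UF
      rw [if_neg hc]
      constructor
      · rintro rfl
        exact Or.inr ⟨hm, rfl⟩
      · rintro (⟨h, -⟩ | ⟨-, h⟩)
        · exact absurd h hm
        · exact h
  · intro η hη a ha
    refine ⟨V_ ω, ?_, fun c => ?_⟩
    · rw [ZFSet.mem_vonNeumann, ZFSet.rank_vonNeumann]
      exact hη.2
    · have hn : ∀ n : ℕ, nz.{u} n ∈ V_ (ω : Ordinal.{u}) := fun n => Gd.ord.2 (natCast_lt_omega0 n)
      have hlim : ∀ x y : ZFSet.{u}, x ∈ V_ (ω : Ordinal.{u}) → y ∈ V_ (ω : Ordinal.{u}) →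
          ({x, y} : ZFSet.{u}) ∈ V_ (ω : Ordinal.{u}) := by
        intro x y hx hy
        rw [ZFSet.mem_vonNeumann] at *
        rw [ZFSet.rank_pair]
        exact max_lt (isSuccLimit_omega0.succ_lt hx) (isSuccLimit_omega0.succ_lt hy)
      unfold UF
      split_ifs
      · unfold ZFSet.pair
        refine hlim _ _ ?_ (hlim _ _ (hn _) (hn _))
        have := hlim _ _ (hn (no c).unpair.1) (hn (no c).unpair.1)
        rwa [ZFSet.pair_eq_singleton] at this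
      · rw [ZFSet.mem_vonNeumann, ZFSet.rank_empty]
        exact omega0_pos

theorem Dec_iff (x y z w : ZFSet.{u}) : Dec x y z w ↔ x ∈ (ω : Ordinal.{u}).toZFSet ∧
    ∃ p : ZFSet.{u}, (x.IsOrdinal ∧ p = UF x x.rank) ∧ ∃ q : ZFSet.{u}, p = ZFSet.pair y q ∧
      ∃ p' : ZFSet.{u}, (q.IsOrdinal ∧ p' = UF x q.rank) ∧ p' = ZFSet.pair z w := by
  constructor
  · rintro ⟨n, h0, h1, h2, h3⟩
    refine ⟨by rw [h0]; exact nz_omega n, _, ⟨by rw [h0]; exact ZFSet.isOrdinal_toZFSet _,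
      rfl⟩, nz n.unpair.2, ?_, _, ⟨ZFSet.isOrdinal_toZFSet _, rfl⟩, ?_⟩
    · rw [h0, h1]
      unfold nz
      rw [rank_toZFSet, UF_nat]
      rfl
    · rw [h2, h3]
      have : (nz.{u} n.unpair.2).rank = (n.unpair.2 : Ordinal.{u}) := rank_toZFSet _
      rw [this, UF_nat]
  · rintro ⟨h0, p, ⟨-, rfl⟩, z', h1, p', ⟨-, rfl⟩, h2⟩
    obtain ⟨n, h0⟩ := mem_omega.1 h0
    have e1 : x.rank = (n : Ordinal.{u}) := by rw [h0]; exact rank_toZFSet _
    rw [e1, UF_nat] at h1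
    obtain ⟨h3, rfl⟩ := ZFSet.pair_injective h1
    have : (nz.{u} n.unpair.2).rank = (n.unpair.2 : Ordinal.{u}) := rank_toZFSet _
    rw [this, UF_nat] at h2
    obtain ⟨h4, h5⟩ := ZFSet.pair_injective h2
    exact ⟨n, h0, h3.symm, h4.symm, h5.symm⟩

theorem pair_V {η : Ordinal.{u}} {x y : ZFSet.{u}} (h : ZFSet.pair x y ∈ V_ η) :
    x ∈ V_ η ∧ y ∈ V_ η := by
  have h2 : {x, y} ∈ ZFSet.pair x y := by
    unfold ZFSet.pair
    simp
  have h3 := mem_V_of_mem h2 h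
  exact ⟨mem_V_of_mem (by simp) h3, mem_V_of_mem (by simp) h3⟩

theorem UF_V {η : Ordinal.{u}} (h : Gd η) (a : ZFSet.{u}) (c : Ordinal.{u}) : UF a c ∈ V_ η := by
  unfold UF
  split_ifs
  · exact h.pair (nz_V h _) (nz_V h _)
  · exact h.empty

theorem loc_Dec (a b c d : ℕ) : Loc.{u} (fun v => Dec (v a) (v b) (v c) (v d)) := by
  refine Loc.congr (P := fun v => v a ∈ (ω : Ordinal.{u}).toZFSet ∧
    ∃ p : ZFSet.{u}, ((v a).IsOrdinal ∧ p = UF (v a) (v a).rank) ∧ ∃ q : ZFSet.{u},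
      p = ZFSet.pair (v b) q ∧ ∃ p' : ZFSet.{u}, (q.IsOrdinal ∧ p' = UF (v a) q.rank) ∧
        p' = ZFSet.pair (v c) (v d))
    ((loc_in_omega a).and (Loc.ex ((loc_UF.ren fun n => if n = 0 then a + 1 else
      if n = 1 then a + 1 else 0).and (Loc.ex ((loc_pair _ _ _).and (Loc.ex
        ((loc_UF.ren fun n => if n = 0 then a + 3 else if n = 1 then 1 else 0).and
          (loc_pair _ _ _)) ?_)) ?_)) ?_)) fun v => Dec_iff _ _ _ _
  · rintro η hη v hv x ⟨⟨-, rfl⟩, -⟩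
    exact UF_V hη _ _
  · rintro η hη v hv x ⟨h, -⟩
    have := hv 0
    rw [h] at this
    exact (pair_V this).2
  · rintro η hη v hv x ⟨⟨-, rfl⟩, -⟩
    exact UF_V hη _ _

/-! ## Satisfaction -/

theorem omega_V {η : Ordinal.{u}} (h : Gd η) : (ω : Ordinal.{u}).toZFSet ∈ V_ η :=
  Gd.ord.2 h.2

theorem loc_isSeq (i j : ℕ) : Loc.{u} (fun v => IsSeq (v i) (v j)) := by
  have h : Loc.{u} (fun v => ∃ x, x = (ω : Ordinal.{u}).toZFSet ∧ ZFSet.IsFunc x (v i) (v j)) :=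
    Loc.ex ((loc_omega 0).and (loc_func 0 (i + 1) (j + 1))) (by
      rintro η hη v hv x ⟨rfl, -⟩
      exact omega_V hη)
  exact h.congr fun v => by simp [IsSeq]

theorem loc_shf (i j k : ℕ) : Loc.{u} (fun v => Shf (v i) (v j) (v k)) := by
  have h : Loc.{u} (fun v => (∃ e, e = ∅ ∧ ZFSet.pair e (v i) ∈ v k) ∧
      ∃ o, o = (ω : Ordinal.{u}).toZFSet ∧ ∀ n ∈ o, ∀ y, ZFSet.pair n y ∈ v j →
      ∃ m, m = insert n n ∧ ZFSet.pair m y ∈ v k) :=
    (Loc.ex ((loc_empty _).and (loc_pmem _ _ _)) (by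
      rintro η hη v hv x ⟨rfl, -⟩
      exact hη.empty)).and (Loc.ex ((loc_omega 0).and (Loc.allMem 0 (Loc.allSnd 0 (j + 2)
      (Loc.ex ((loc_insert _ _ _).and (loc_pmem _ _ _)) (by
        rintro η hη v hv x ⟨rfl, -⟩
        exact hη.insert (hv _) (hv _)))))) (by
      rintro η hη v hv x ⟨rfl, -⟩
      exact omega_V hη))
  refine h.congr fun v => ?_
  unfold Shf
  simp only [exists_eq_left]

theorem loc_RC : Loc.{u} (fun v => RC (v 0) (v 1) (v 2) (v 3) (v 4) (v 5) (v 6)) := by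
  refine Loc.congr (P := fun v =>
    (v 4 = nz 0 ∧ ∃ x : ZFSet.{u}, ZFSet.pair (v 5) x ∈ v 3 ∧ ∃ y : ZFSet.{u},
      ZFSet.pair (v 6) y ∈ v 3 ∧ x ∈ y) ∨
    (v 4 = nz 1 ∧ ∃ x : ZFSet.{u}, ZFSet.pair (v 5) x ∈ v 3 ∧ ZFSet.pair (v 6) x ∈ v 3) ∨
    (v 4 = nz 2 ∧ v 5 ∈ v 1 ∧ ¬ ∃ r : ZFSet.{u}, ZFSet.pair (v 5) r ∈ v 2 ∧ v 3 ∈ r) ∨
    (v 4 = nz 3 ∧ v 5 ∈ v 1 ∧ v 6 ∈ v 1 ∧ (∃ r : ZFSet.{u}, ZFSet.pair (v 5) r ∈ v 2 ∧
      v 3 ∈ r) ∧ ∃ r : ZFSet.{u}, ZFSet.pair (v 6) r ∈ v 2 ∧ v 3 ∈ r) ∨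
    (v 4 = nz 4 ∧ v 5 ∈ v 1 ∧ ∃ r : ZFSet.{u}, ZFSet.pair (v 5) r ∈ v 2 ∧
      ∃ x ∈ v 0, ∃ s' ∈ r, Shf x (v 3) s')) ?_ fun v => ?_
  · exact ((loc_nz _ _).and (Loc.exSnd 5 3 (Loc.exSnd 7 4 (Loc.mem _ _)))).or
      (((loc_nz _ _).and (Loc.exSnd 5 3 (loc_pmem 7 0 4))).or
      (((loc_nz _ _).and ((Loc.mem _ _).and (Loc.exSnd 5 2 (Loc.mem _ _)).not)).or
      (((loc_nz _ _).and ((Loc.mem _ _).and ((Loc.mem _ _).and ((Loc.exSnd 5 2
        (Loc.mem _ _)).and (Loc.exSnd 6 2 (Loc.mem _ _)))))).or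
      ((loc_nz _ _).and ((Loc.mem _ _).and (Loc.exSnd 5 2 (Loc.exMem 1 (Loc.exMem 1
        (loc_shf _ _ _)))))))))
  · unfold RC
    refine or_congr (and_congr_right fun _ => ?_) Iff.rfl
    constructor
    · rintro ⟨x, y, h1, h2, h3⟩
      exact ⟨x, h1, y, h2, h3⟩
    · rintro ⟨x, h1, y, h2, h3⟩
      exact ⟨x, y, h1, h2, h3⟩

theorem isSeq_sub {A s : ZFSet.{u}} (h : IsSeq A s) :
    s ⊆ ZFSet.prod (ω : Ordinal.{u}).toZFSet A := h.1

theorem loc_RF : Loc.{u} fun v => (v 1).IsOrdinal ∧ v 2 = RF (v 0) (v 1).rank := by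
  refine Loc.rec (Φ := fun a c f y =>
    (c ∈ (ω : Ordinal.{u}).toZFSet ∧ ∃ w : ZFSet.{u}, w = (ω : Ordinal.{u}).toZFSet ∧
      ∃ q : ZFSet.{u}, q = ZFSet.prod w a ∧ ∃ o ∈ w, ∃ i ∈ w, ∃ j ∈ w,
      Dec c o i j ∧ (∀ s ∈ y, s ⊆ q) ∧ ∀ s ⊆ q, (s ∈ y ↔ IsSeq a s ∧ RC a c f s o i j)) ∨
    (c ∉ (ω : Ordinal.{u}).toZFSet ∧ y = ∅)) ?_ ?_ ?_
  · refine ((loc_in_omega 1).and (Loc.ex ((loc_omega 0).and (Loc.ex ((loc_prod 0 1 2).and
      (Loc.exMem 1 (Loc.exMem 2 (Loc.exMem 3 ((loc_Dec _ _ _ _).and ((Loc.allMem _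
      (Loc.sub _ _)).and (Loc.allSub _ ((Loc.mem _ _).iff ((loc_isSeq _ _).and ?_)))))))))
      ?_)) ?_)).or ((loc_in_omega 1).not.and (loc_empty 3))
    · exact loc_RC.ren fun n => if n = 0 then 6 else if n = 1 then 7 else if n = 2 then 8 else
        if n = 3 then 0 else if n = 4 then 3 else if n = 5 then 2 else 1
    · rintro η hη v hv x ⟨rfl, -⟩
      exact hη.prod (hv _) (hv _)
    · rintro η hη v hv x ⟨rfl, -⟩
      exact omega_V hη
  · intro a c y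
    by_cases hc : c < ω
    · obtain ⟨n, rfl⟩ := lt_omega0.1 hc
      have hm : (n : Ordinal.{u}).toZFSet ∈ (ω : Ordinal.{u}).toZFSet := nz_omega n
      rw [RF_nat]
      have hR : ∀ s, s ∈ RS a n ↔ IsSeq a s ∧ RC a (nz n) (gr (RF a) (n : Ordinal.{u})) s
          (nz n.unpair.1) (nz n.unpair.2.unpair.1) (nz n.unpair.2.unpair.2) := by
        intro s
        rw [mem_RS, isSeq_iff]
        constructor
        · rintro ⟨w, hw, rfl, h⟩
          exact ⟨⟨w, hw, rfl⟩, (RC_iff hw).2 h⟩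
        · rintro ⟨⟨w, hw, rfl⟩, h⟩
          exact ⟨w, hw, rfl, (RC_iff hw).1 h⟩
      constructor
      · rintro rfl
        refine Or.inl ⟨hm, _, rfl, _, rfl, _, nz_omega _, _, nz_omega _, _, nz_omega _,
          ⟨n, rfl, rfl, rfl, rfl⟩, fun s hs => ?_, fun s _ => hR s⟩
        exact isSeq_sub ((hR s).1 hs).1
      · rintro (⟨-, w, rfl, q, rfl, o, -, i, -, j, -, ⟨m, h1, rfl, rfl, rfl⟩, h2, h⟩ | ⟨h, -⟩)
        · have : n = m := nz_inj.1 h1
          subst this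
          ext s
          rw [hR]
          constructor
          · intro hs
            exact (h s (h2 s hs)).1 hs
          · intro hs
            exact (h s (isSeq_sub hs.1)).2 hs
        · exact absurd hm h
    · have hm : c.toZFSet ∉ (ω : Ordinal.{u}).toZFSet := by
        rw [toZFSet_mem_toZFSet_iff]
        exact hc
      unfold RF
      rw [if_neg hc]
      constructor
      · rintro rfl
        exact Or.inr ⟨hm, rfl⟩
      · rintro (⟨h, -⟩ | ⟨-, h⟩)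
        · exact absurd h hm
        · exact h
  · intro η hη a ha
    refine ⟨ZFSet.powerset (ZFSet.powerset (ZFSet.prod (ω : Ordinal.{u}).toZFSet a)),
      hη.powerset (hη.powerset (hη.prod (omega_V hη) ha)), fun c => ?_⟩
    rw [ZFSet.mem_powerset]
    unfold RF
    split_ifs
    · intro s hs
      rw [ZFSet.mem_powerset]
      obtain ⟨w, hw, rfl, -⟩ := mem_RS.1 hs
      exact (isSeq_sq.2 hw).1
    · intro s hs
      exact absurd hs (ZFSet.notMem_empty _)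

theorem RF_V {η : Ordinal.{u}} (hη : Gd η) {a : ZFSet.{u}} (ha : a ∈ V_ η) (c : Ordinal.{u}) :
    RF a c ∈ V_ η := by
  refine mem_V_of_sub (y := ZFSet.powerset (ZFSet.prod (ω : Ordinal.{u}).toZFSet a)) ?_
    (hη.powerset (hη.prod (omega_V hη) ha))
  unfold RF
  split_ifs
  · intro s hs
    rw [ZFSet.mem_powerset]
    obtain ⟨w, hw, rfl, -⟩ := mem_RS.1 hs
    exact (isSeq_sq.2 hw).1
  · intro s hs
    exact absurd hs (ZFSet.notMem_empty _)

theorem loc_NZ : Loc.{u} (fun v => NZ (v 0) (v 1) (v 2) (v 3)) := by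
  refine Loc.congr (P := fun v => (v 0).IsOrdinal ∧ v 1 ∈ (ω : Ordinal.{u}).toZFSet ∧
    IsSeq (v 0) (v 2) ∧ (∃ w : ZFSet.{u}, w = (ω : Ordinal.{u}).toZFSet ∧ ∀ n ∈ w, n ∉ v 1 →
      ∃ e : ZFSet.{u}, e = ∅ ∧ ZFSet.pair n e ∈ v 2) ∧
    ∃ A : ZFSet.{u}, ((v 0).IsOrdinal ∧ A = V_ (v 0).rank) ∧ v 3 ∈ A ∧ ∃ r : ZFSet.{u},
      ((v 1).IsOrdinal ∧ r = RF A (v 1).rank) ∧ ∀ y ∈ A, ((∃ s' ∈ r, Shf y (v 2) s') ↔ y = v 3))
    ?_ fun v => ?_
  · refine (loc_ord 0).and ((loc_in_omega 1).and ((loc_isSeq 0 2).and (Loc.and (Loc.ex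
      ((loc_omega 0).and (Loc.allMem 0 ((Loc.mem _ _).not.imp (Loc.ex ((loc_empty _).and
      (loc_pmem _ _ _)) ?_)))) ?_) (Loc.ex ((loc_V 1 0).and ((Loc.mem _ _).and (Loc.ex
      (Loc.and ?_ (Loc.allMem _ ((Loc.exMem _ (loc_shf _ _ _)).iff (Loc.eq _ _)))) ?_))) ?_))))
    · rintro η hη v hv x ⟨rfl, -⟩
      exact hη.empty
    · rintro η hη v hv x ⟨rfl, -⟩
      exact omega_V hη
    · exact loc_RF.ren fun n => if n = 0 then 1 else if n = 1 then 3 else 0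
    · rintro η hη v hv x ⟨⟨-, rfl⟩, -⟩
      exact RF_V hη (hv 0) _
    · rintro η hη v hv x ⟨⟨h, rfl⟩, -⟩
      rw [ZFSet.mem_vonNeumann, ZFSet.rank_vonNeumann]
      exact ZFSet.mem_vonNeumann.1 (hv 0)
  · unfold NZ
    simp only [exists_eq_left]

theorem t_RL : T_RL.{u} := by
  refine Loc.congr (P := fun v => (v 1).IsOrdinal ∧ ∃ α ∈ v 1, ∃ w : ZFSet.{u},
    w = (ω : Ordinal.{u}).toZFSet ∧ ∃ q : ZFSet.{u}, q = ZFSet.prod w α ∧ ∃ c ∈ w, ∃ s ⊆ q,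
      NZ α c s (v 0)) ?_ fun v => ?_
  · refine (loc_ord 1).and (Loc.exMem 1 (Loc.ex ((loc_omega 0).and (Loc.ex ((loc_prod 0 1 2).and
      (Loc.exMem 1 (Loc.exSub 1 ?_))) ?_)) ?_))
    · exact loc_NZ.ren fun n => if n = 0 then 4 else if n = 1 then 1 else if n = 2 then 0 else 5
    · rintro η hη v hv x ⟨rfl, -⟩
      exact hη.prod (hv _) (hv _)
    · rintro η hη v hv x ⟨rfl, -⟩
      exact omega_V hη
  · refine and_congr_right fun h1 => ?_
    obtain ⟨β, hβ⟩ := ord_of h1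
    rw [hβ, rank_toZFSet]
    constructor
    · rintro ⟨N, h2, h3, h4⟩
      have h5 := (NZ_iff N (v 0)).2 ⟨h3, h4⟩
      exact ⟨_, toZFSet_mem_toZFSet_iff.2 h2, _, rfl, _, rfl, _, nz_omega _, _,
        isSeq_sub h5.2.2.1, h5⟩
    · rintro ⟨α, hα, w, rfl, q, rfl, c, -, s, -, h⟩
      obtain ⟨N, rfl, rfl, rfl⟩ := NZ_form h
      exact ⟨N, toZFSet_mem_toZFSet_iff.1 hα, (NZ_iff N (v 0)).1 h⟩

end HD
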