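import Pool.Agent.H7.HD.Asm
import Pool.Agent.H7.HD.LocR
import Pool.Agent.H17.HD.HB
import Pool.Agent.H17.HD.XD
import Pool.Agent.H17.HD.XK
import Pool.Agent.H3.HD.VA
import Pool.Agent.H3.HD.VB
import Pool.Agent.H3.HD.VE
import Pool.Agent.H33.HD.VC
import Pool.Agent.H33.HD.VD
import Pool.Agent.H4.HD.HC
import Pool.Agent.H4.HD.HE
import Pool.Agent.H4.HD.XB
import Pool.Agent.H4.HD.XJ
import Pool.Agent.H48.HD.HK
import Pool.Agent.H54.HD.LA
import Pool.Agent.H54.HD.XG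
import Pool.Agent.H59.HD.HL
import Pool.Agent.H59.HD.VH
import Pool.Agent.H67.HD.XC
import Pool.Agent.H67.HD.XL
import Pool.Agent.H74.HD.HA
import Pool.Agent.H74.HD.HD
import Pool.Agent.H74.HD.XH
import Pool.Agent.H77.HD.HF
import Pool.Agent.H77.HD.HI
import Pool.Agent.H78.HD.HJ
import Pool.Agent.H87.HD.XF
import Pool.Agent.H87.HD.XI
import Pool.Agent.H89.HD.HG
import Pool.Agent.H89.HD.XE
import Pool.Agent.H20.HD.HH
import Pool.Agent.H20.HD.VG
import Pool.Agent.H20.HD.XA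

/-!
# MP_e37c09_lc: assembly of the first list of modules
-/

open Ordinal Cardinal Order Set
open scoped ZFSet

universe u

namespace HD

namespace All

theorem va : T_VA.{u} := Pool.Agent.H3.HD.VA.X
theorem vb : T_VB.{u} := Pool.Agent.H3.HD.VB.X
theorem vc : T_VC.{u} := Pool.Agent.H33.HD.VC.vc
theorem vd : T_VD.{u} := Pool.Agent.H33.HD.VD.vd
theorem ve : T_VE.{u} := Pool.Agent.H3.HD.VE.X
theorem vf : T_VF.{u} := Pool.Agent.H33.HD.VD.vf
theorem vg : T_VG.{u} := Pool.Agent.H20.HD.VG.vg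
theorem vh : T_VH.{u} := Pool.Agent.H59.HD.VH.thm
theorem la : T_LA.{u} := Pool.Agent.H54.HD.LA.X
theorem lb : T_LB.{u} := t_LB la
theorem da : T_DA.{u} := t_DA la
theorem db : T_DB.{u} := t_DB
theorem en : T_EN.{u} := t_EN
theorem ea : T_EA.{u} := t_EA
theorem eb : T_EB.{u} := t_EB ea
theorem pr : T_PR.{u} := t_PR
theorem xa : T_XA.{u} := Pool.Agent.H20.HD.XA.xa
theorem xb : T_XB.{u} := Pool.Agent.H4.HD.XB.X
theorem xc : T_XC.{u} := Pool.Agent.H67.HD.XC.X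
theorem xd : T_XD.{u} := Pool.Agent.H17.HD.XD.X la
theorem xe : T_XE.{u} := Pool.Agent.H89.HD.XE.X la
theorem xf : T_XF.{u} := Pool.Agent.H87.HD.XF.X ve xe
theorem xg : T_XG.{u} := Pool.Agent.H54.HD.XG.X xf vh da db
theorem xh : T_XH.{u} := Pool.Agent.H74.HD.XH.xh_cof xf lb da
theorem xi : T_XI.{u} := Pool.Agent.H87.HD.XI.X la lb vg da xf
theorem xj : T_XJ.{u} := Pool.Agent.H4.HD.XJ.X xg xh xi en ea eb
theorem xk : T_XK.{u} := Pool.Agent.H17.HD.XK.X vh db en ea pr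
theorem xl : T_XL.{u} := Pool.Agent.H67.HD.XL.X xa xb xc xd xj xk lb
theorem ha : T_HA.{u} := Pool.Agent.H74.HD.HA.ha_flex vh db
theorem hb : T_HB.{u} := Pool.Agent.H17.HD.HB.X ea eb da va vh
theorem hc : T_HC.{u} := Pool.Agent.H4.HD.HC.X ea da db va vc vh
theorem hd : T_HD.{u} := Pool.Agent.H74.HD.HD.hd_normal vd
theorem he : T_HE.{u} := Pool.Agent.H4.HD.HE.X ea da va vb
theorem hf : T_HF.{u} := Pool.Agent.H77.HD.HF.T_HF_proof ea da va vc vf
theorem hg : T_HG.{u} := Pool.Agent.H89.HD.HG.X ea da vd va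
theorem hh : T_HH.{u} := Pool.Agent.H20.HD.HH.hh ea va vf
theorem hi : T_HI.{u} := Pool.Agent.H77.HD.HI.T_HI_proof hg hh ea da va
theorem hj : T_HJ.{u} := Pool.Agent.H78.HD.HJ.X hg hh hd ea da va vf vb
theorem hk : T_HK.{u} := Pool.Agent.H48.HD.HK.hk he hi hj hh ea da va la
theorem hl : T_HL.{u} := Pool.Agent.H59.HD.HL.thm en ha hb hc hd he hf hk vc

/-- the dichotomy with the Mitchell order -/
theorem main : T_MAIN.{u} := asm_main xa xb xl hl

end All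

end HD

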