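import Pool.Agent.H7.HD.Tools2

/-!
# Definability of functions defined by recursion on the ordinals
-/

open Ordinal Cardinal Order Set
open scoped ZFSet

universe u

namespace HD

/-- the graph of `F` below `c` -/
noncomputable def gr (F : Ordinal.{u} → ZFSet.{u}) (c : Ordinal.{u}) : ZFSet.{u} :=
  ZFSet.range (fun b : Iio c => ZFSet.pair b.1.toZFSet (F b.1))

theorem mem_gr {F : Ordinal.{u} → ZFSet.{u}} {c : Ordinal.{u}} {p : ZFSet.{u}} :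
    p ∈ gr F c ↔ ∃ b < c, p = ZFSet.pair b.toZFSet (F b) := by
  unfold gr
  rw [ZFSet.mem_range]
  constructor
  · rintro ⟨b, rfl⟩
    exact ⟨b.1, b.2, rfl⟩
  · rintro ⟨b, hb, rfl⟩
    exact ⟨⟨b, hb⟩, rfl⟩

theorem pair_mem_gr {F : Ordinal.{u} → ZFSet.{u}} {c b : Ordinal.{u}} {y : ZFSet.{u}} :
    ZFSet.pair b.toZFSet y ∈ gr F c ↔ b < c ∧ y = F b := by
  rw [mem_gr]
  constructor
  · rintro ⟨b', hb, h⟩
    obtain ⟨h1, rfl⟩ := ZFSet.pair_injective h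
    rw [toZFSet_injective h1]
    exact ⟨hb, rfl⟩
  · rintro ⟨hb, rfl⟩
    exact ⟨b, hb, rfl⟩

/-- Definability of a function defined by recursion: `F a c` is the only `y` such that
`Φ a c (F a restricted to c) y`. -/
theorem DZ.rec {Φ : ZFSet.{u} → ZFSet.{u} → ZFSet.{u} → ZFSet.{u} → Prop}
    (hΦ : DZ fun v => Φ (v 0) (v 1) (v 2) (v 3)) {F : ZFSet.{u} → Ordinal.{u} → ZFSet.{u}}
    (hF : ∀ a c y, y = F a c ↔ Φ a c.toZFSet (gr (F a) c) y) :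
    DZ fun v => (v 1).IsOrdinal ∧ v 2 = F (v 0) (v 1).rank := by
  have key : ∀ (a f : ZFSet.{u}) (c : Ordinal.{u}),
      ((∀ b ∈ (succ c).toZFSet, ∃ y, ZFSet.pair b y ∈ f) ∧
      (∀ b ∈ (succ c).toZFSet, ∀ y, ZFSet.pair b y ∈ f →
        ∃ g, (∀ p, p ∈ g ↔ p ∈ f ∧ ∃ b' ∈ b, ∃ z, p = ZFSet.pair b' z) ∧ Φ a b g y)) →
      ∀ b ≤ c, ∀ y, ZFSet.pair b.toZFSet y ∈ f ↔ y = F a b := by
    rintro a f c ⟨h1, h2⟩ b
    induction b using WellFoundedLT.induction with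
    | ind b ih =>
      intro hb
      have hbm : b.toZFSet ∈ (succ c).toZFSet := toZFSet_mem_toZFSet_iff.2 (lt_succ_iff.2 hb)
      have h3 : ∀ y, ZFSet.pair b.toZFSet y ∈ f → y = F a b := by
        intro y hy
        obtain ⟨g, hg, hP⟩ := h2 _ hbm y hy
        have : g = gr (F a) b := by
          ext p
          rw [hg, mem_gr]
          constructor
          · rintro ⟨hp, b', hb', z, rfl⟩
            obtain ⟨b', hb'', rfl⟩ := mem_toZFSet_iff.1 hb'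
            exact ⟨b', hb'', by rw [(ih b' hb'' (hb''.le.trans hb) z).1 hp]⟩
          · rintro ⟨b', hb', rfl⟩
            exact ⟨(ih b' hb' (hb'.le.trans hb) _).2 rfl, _, toZFSet_mem_toZFSet_iff.2 hb', _, rfl⟩
        rw [this] at hP
        exact (hF a b y).2 hP
      intro y
      refine ⟨h3 y, ?_⟩
      rintro rfl
      obtain ⟨z, hz⟩ := h1 _ hbm
      rwa [h3 z hz] at hz
  refine DZ.congr (P := fun v => (v 1).IsOrdinal ∧ ∃ f : ZFSet.{u}, ∃ s : ZFSet.{u},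
      s = insert (v 1) (v 1) ∧
      (∀ b ∈ s, ∃ y, ZFSet.pair b y ∈ f) ∧
      (∀ b ∈ s, ∀ y, ZFSet.pair b y ∈ f →
        ∃ g : ZFSet.{u}, (∀ p, p ∈ g ↔ p ∈ f ∧ ∃ b' ∈ b, ∃ z, p = ZFSet.pair b' z) ∧ Φ (v 0) b g y) ∧
      ZFSet.pair (v 1) (v 2) ∈ f) ?_ ?_
  · refine DZ.and (DZ.ord 1) (DZ.ex (DZ.ex (DZ.and (loc_insert _ _ _).dz
      (DZ.and (DZ.allMem 0 (DZ.ex (loc_pmem 1 0 3).dz)) (DZ.and (DZ.allMem 0 (DZ.all
        (DZ.imp (loc_pmem 1 0 3).dz (DZ.ex (DZ.and ?_ ?_))))) (loc_pmem 3 4 1).dz)))))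
    · refine DZ.all (DZ.iff (DZ.mem 0 1) (DZ.and (DZ.mem 0 5) (DZ.exMem 3 (DZ.ex ?_))))
      exact (loc_pair _ _ _).dz
    · exact hΦ.ren fun n => if n = 0 then 5 else if n = 1 then 2 else if n = 2 then 0 else 1
  · intro v
    constructor
    · rintro ⟨h1, h2⟩
      refine ⟨h1, ?_⟩
      obtain ⟨c, hc⟩ := ord_of h1
      rw [hc, rank_toZFSet] at h2
      refine ⟨gr (F (v 0)) (succ c), _, rfl, ?_⟩
      rw [hc, ← toZFSet_add_one, ← Order.succ_eq_add_one]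
      refine ⟨?_, ?_, ?_⟩
      · intro b hb
        obtain ⟨b, hb', rfl⟩ := mem_toZFSet_iff.1 hb
        exact ⟨_, pair_mem_gr.2 ⟨hb', rfl⟩⟩
      · intro b hb y hy
        obtain ⟨b, hb', rfl⟩ := mem_toZFSet_iff.1 hb
        obtain ⟨-, rfl⟩ := pair_mem_gr.1 hy
        refine ⟨gr (F (v 0)) b, fun p => ?_, (hF _ _ _).1 rfl⟩
        rw [mem_gr, mem_gr]
        constructor
        · rintro ⟨b', hb'', rfl⟩
          exact ⟨⟨b', hb''.trans hb', rfl⟩, _, toZFSet_mem_toZFSet_iff.2 hb'', _, rfl⟩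
        · rintro ⟨⟨b', hb'', rfl⟩, x, hx, z, he⟩
          obtain ⟨x, hx', rfl⟩ := mem_toZFSet_iff.1 hx
          obtain ⟨h3, -⟩ := ZFSet.pair_injective he
          rw [← toZFSet_injective h3] at hx'
          exact ⟨b', hx', rfl⟩
      · exact pair_mem_gr.2 ⟨lt_succ c, h2⟩
    · rintro ⟨h1, f, s, rfl, h2, h3, h4⟩
      refine ⟨h1, ?_⟩
      obtain ⟨c, hc⟩ := ord_of h1
      rw [hc, ← toZFSet_add_one, ← Order.succ_eq_add_one] at h2 h3
      rw [hc] at h4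
      rw [hc, rank_toZFSet]
      exact (key (v 0) f c ⟨h2, h3⟩ c le_rfl (v 2)).1 h4

end HD
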