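import Pool.Agent.H7.HD.All2

/-!
# MP_e37c09_lc: targets of the fifth list of modules (strong compactness in HOD)
-/

open Ordinal Cardinal Order Set
open scoped ZFSet

universe u

namespace HD

/-! ## Statement-level definitions -/

/-- the set of the subsets of `lam` in HOD which have fewer than `κ` elements in HOD: images of
functions in HOD whose domain is an ordinal less than `κ`. -/
noncomputable def PkHOD (κ lam : Ordinal.{u}) : ZFSet.{u} :=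
  ZFSet.sep (fun x => ∃ τ < κ, ∃ f, HOD f ∧ ZFSet.IsFunc τ.toZFSet x f ∧
    ∀ b ∈ x, ∃ a < τ, ZFSet.pair a.toZFSet b ∈ f) (ZFSet.powerset lam.toZFSet)

/-- `U` is in HOD, and in HOD it is a fine ultrafilter on `P_κ(lam)` which is closed under
intersections of fewer than `ν` sets. -/
structure HFine (κ lam ν : Ordinal.{u}) (U : ZFSet.{u}) : Prop where
  hod : HOD U
  sub : ∀ x ∈ U, x ⊆ PkHOD κ lam
  ultra : ∀ x, HOD x → x ⊆ PkHOD κ lam → (x ∈ U ↔ PkHOD κ lam \ x ∉ U)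
  up : ∀ x ∈ U, ∀ y, HOD y → x ⊆ y → y ⊆ PkHOD κ lam → y ∈ U
  fine : ∀ a < lam, (PkHOD κ lam).sep (fun s => a.toZFSet ∈ s) ∈ U
  compl : ∀ τ < ν, ∀ f, HOD f → ZFSet.IsFunc τ.toZFSet U f →
    (PkHOD κ lam).sep (fun s => ∀ a x, ZFSet.pair a x ∈ f → s ∈ x) ∈ U

/-! ## Modules -/

/-- CO. The cofinality in HOD. -/
def T_CO : Prop := ∀ en : Ordinal.{u} → ZFSet.{u}, EN en → ∀ β : Ordinal.{u}, IsSuccLimit β →
  ∃ e τ : Ordinal.{u}, τ ≤ β ∧ RegHOD τ ∧ τ.cof = β.cof ∧ E en e ⊆ Iio β ∧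
    (∀ b < β, ∃ a ∈ E en e, b ≤ a) ∧ ∀ z ∈ E en e, ∃ a < τ, nth (E en e) a z

/-- OT. Unbounded sets of an ordinal which is regular in HOD. -/
def T_OT : Prop := ∀ (lam : Ordinal.{u}) (I : Set Ordinal.{u}), RegHOD lam → DS I →
  I ⊆ Iio lam → (∀ b < lam, ∃ z ∈ I, b ≤ z) → ∀ i < lam, ∃ z, nth I i z

/-- BD. Small sets are bounded. -/
def T_BD : Prop := ∀ (κ lam : Ordinal.{u}) (x : ZFSet.{u}), RegHOD κ → x ∈ PkHOD κ lam →
  ∃ b < κ, ∀ a < κ, a.toZFSet ∈ x → a < b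

/-- A family of sets `{i | x β i}` which is fine for the atom `c` at `lam`. -/
structure Fam (en : Ordinal.{u} → ZFSet.{u}) (M : Cardinal.{u}) (κ lam c : Ordinal.{u})
    (x : Ordinal.{u} → Ordinal.{u} → Prop) : Prop where
  dr : DR x
  small : ¬ Pos M.ord lam {β | β ∈ E en c ∧ os lam {i | x β i} ∉ PkHOD κ lam}
  fine : ∀ i < lam, ¬ Pos M.ord lam {β | β ∈ E en c ∧ ¬ x β i}

/-- FU. The fine ultrafilter. -/
def T_FU : Prop := ∀ en : Ordinal.{u} → ZFSet.{u}, EN en → ∀ (M : Cardinal.{u})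
  (κ lam c : Ordinal.{u}) x, ℵ₀ < lam.cof → Atom en M.ord lam c → Fam en M κ lam c x →
  ∃ U, HFine κ lam lam.cof.ord U

/-- CF. The cofinalities are equal. -/
def T_CF : Prop := ∀ en : Ordinal.{u} → ZFSet.{u}, EN en → ∀ (M : Cardinal.{u})
  (κ lam c : Ordinal.{u}) x, ℵ₀ < lam.cof → Atom en M.ord lam c → Fam en M κ lam c x →
  RegHOD κ → κ < lam → κ.cof = lam.cof

/-- `A β`, for `κ < β < lam` of cofinality `M`, is a cofinal subset of `β` of order type less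
than `κ`. -/
structure Lad (M : Cardinal.{u}) (κ lam : Ordinal.{u}) (A : Ordinal.{u} → Ordinal.{u} → Prop) :
    Prop where
  dr : DR A
  lt : ∀ β, κ < β → β < lam → β.cof = M → ∀ a, A β a → a < β
  unb : ∀ β, κ < β → β < lam → β.cof = M → ∀ b < β, ∃ a, A β a ∧ b ≤ a
  otp : ∀ β, κ < β → β < lam → β.cof = M → ∃ τ < κ, ∀ z, A β z → ∃ a < τ, nth {a | A β a} a z

/-- CA. Cofinal subsets of small order type. -/
def T_CA : Prop := ∀ (M : Cardinal.{u}) (κ lam : Ordinal.{u}), M.IsRegular → κ < lam →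
  (∀ τ, κ ≤ τ → τ < lam → RegHOD τ → τ.cof ≠ M) → ∃ A, Lad M κ lam A

/-- KF. The function `F`. -/
def T_KF : Prop := ∀ en : Ordinal.{u} → ZFSet.{u}, EN en → ∀ (M : Cardinal.{u})
  (κ lam c : Ordinal.{u}) A, M.IsRegular → ℵ₀ < lam.cof → Atom en M.ord lam c → κ < lam →
  Lad M κ lam A → ∃ F : Ordinal.{u} → Ordinal.{u}, DR (fun a b => b = F a) ∧
    (∀ ξ < lam, F ξ < lam) ∧ (∀ ζ ξ, ζ ≤ ξ → ξ < lam → F ζ ≤ F ξ) ∧
    ∀ ξ < lam, ¬ Pos M.ord lam {β | β ∈ E en c ∧ ¬ ∃ a, A β a ∧ ξ ≤ a ∧ a < F ξ}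

/-- KI. The closure points of `F`. -/
def T_KI : Prop := ∀ (lam : Ordinal.{u}) (F : Ordinal.{u} → Ordinal.{u}), ℵ₀ < lam.cof →
  RegHOD lam → DR (fun a b => b = F a) → (∀ ξ < lam, F ξ < lam) →
  (∀ ζ ξ, ζ ≤ ξ → ξ < lam → F ζ ≤ F ξ) →
  DS {ξ | ξ < lam ∧ ∀ ζ < ξ, F ζ ≤ ξ} ∧
    ∀ i < lam, ∃ z, nth {ξ | ξ < lam ∧ ∀ ζ < ξ, F ζ ≤ ξ} i z

/-- KE. The argument of Ketonen. -/
def T_KE : Prop := ∀ en : Ordinal.{u} → ZFSet.{u}, EN en → ∀ (M : Cardinal.{u})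
  (κ lam c : Ordinal.{u}) A, M.IsRegular → ℵ₀ < lam.cof → Atom en M.ord lam c →
  RegHOD lam → κ < lam → Lad M κ lam A → ∃ x, Fam en M κ lam c x

/-- CS. The cofinalities are equal if `κ` is a singular cardinal. -/
def T_CS : Prop := ∀ en : Ordinal.{u} → ZFSet.{u}, EN en → ∀ (D M : Cardinal.{u}) (K : Cardinal.{u})
  (lam c : Ordinal.{u}) x, ℵ₀ < lam.cof → Atom en M.ord lam c → Fam en M K.ord lam c x →
  GoodN D → D < K → ¬ K.IsRegular → K.ord < lam → K.ord.cof = lam.cof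

/-- SC. Strong compactness in HOD. -/
def T_SC : Prop := ∀ D M : Cardinal.{u}, GoodN D → M.IsRegular → M < D →
  ∀ κ lam : Ordinal.{u}, RegHOD lam → κ < lam → D < lam.cof →
  (∀ τ, κ ≤ τ → τ < lam → RegHOD τ → τ.cof ≠ M) →
    (∃ U, HFine κ lam lam.cof.ord U) ∧ (RegHOD κ → κ.cof = lam.cof) ∧
    ∀ K : Cardinal.{u}, κ = K.ord → D < K → κ.cof = lam.cof

end HD
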