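import Pool.Agent.H7.HD.All3
import Pool.Agent.H7.HD.Targets5
import Pool.Agent.H20.HD.OT
import Pool.Agent.H20.HD.CO
import Pool.Agent.H20.HD.CS
import Pool.Agent.H65.HD.BD
import Pool.Agent.H4.HD.FU
import Pool.Agent.H74.HD.CF
import Pool.Agent.H69.HD.CA
import Pool.Agent.H69.HD.KF
import Pool.Agent.H62.HD.KI
import Pool.Agent.H62.HD.KE
import Pool.Agent.H62.HD.SC

/-!
# MP_e37c09_lc: assembly of the theorem on strong compactness in HOD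
-/

open Ordinal Cardinal Order Set
open scoped ZFSet

universe u

namespace HD

namespace All

theorem ot : T_OT.{u} := Pool.Agent.H20.HD.OT.ot
theorem co : T_CO.{u} := Pool.Agent.H20.HD.CO.co
theorem bd : T_BD.{u} := Pool.Agent.H65.HD.BD.X
theorem fu : T_FU.{u} := Pool.Agent.H4.HD.FU.X
theorem cf : T_CF.{u} := Pool.Agent.H74.HD.CF.cf bd
theorem cs : T_CS.{u} := Pool.Agent.H20.HD.CS.cs cf
theorem ca : T_CA.{u} := Pool.Agent.H69.HD.CA.X co en ea db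
theorem kf : T_KF.{u} := Pool.Agent.H69.HD.KF.X uv vb ea da va
theorem ki : T_KI.{u} := Pool.Agent.H62.HD.KI.ki ot
theorem ke : T_KE.{u} := Pool.Agent.H62.HD.KE.ke kf ki
theorem sc : T_SC.{u} := Pool.Agent.H62.HD.SC.sc ca ke fu cf cs

/-- strong compactness in HOD -/
theorem m7 (δ : Ordinal.{u}) (hδ : Extendible δ) : CaseA δ ∨
    ∀ M : Cardinal.{u}, M.IsRegular → M.ord < δ → ∃ δ₀ < δ, ∀ κ lam : Ordinal.{u},
      RegHOD lam → κ < lam → δ₀ < lam.cof.ord →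
      (∀ τ, κ ≤ τ → τ < lam → RegHOD τ → τ.cof ≠ M) →
        (∃ U, HFine κ lam lam.cof.ord U) ∧
        ((RegHOD κ ∨ ∃ K : Cardinal.{u}, κ = K.ord ∧ δ₀ < κ) → κ.cof = lam.cof) := by
  by_cases hA : CaseA δ
  · exact Or.inl hA
  refine Or.inr fun M hM hMδ => ?_
  obtain ⟨D, h1, h2, h3⟩ := asm_refl xa xb yl ra hδ hA M.ord hMδ
  refine ⟨D.ord, h1, ?_⟩
  intro κ lam hl hκ hcf hno
  obtain ⟨g1, g2, g3⟩ := sc D M h3 hM (Cardinal.ord_lt_ord.1 h2) κ lam hl hκ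
    (Cardinal.ord_lt_ord.1 hcf) hno
  refine ⟨g1, ?_⟩
  rintro (h | ⟨K, rfl, hK⟩)
  · exact g2 h
  · exact g3 K rfl (Cardinal.ord_lt_ord.1 hK)

/-- The successor of a cardinal in HOD. -/
theorem m7succ (δ : Ordinal.{u}) (hδ : Extendible δ) : CaseA δ ∨
    ∃ δ₀ < δ, ∀ K : Cardinal.{u}, δ₀ < K.ord → ∀ lam : Ordinal.{u}, RegHOD lam → K.ord < lam →
      (∀ τ, K.ord < τ → τ < lam → ¬ RegHOD τ) →
        lam.cof.ord ≤ δ₀ ∨ (lam.cof = K.ord.cof ∧ ∃ U, HFine K.ord lam lam.cof.ord U) := by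
  by_cases hA : CaseA δ
  · exact Or.inl hA
  have h := (m7 δ hδ).resolve_left hA
  obtain ⟨D, rfl, hD⟩ := goodU hδ hA
  have hlt : (ℵ₀ : Cardinal.{u}).ord < D.ord := Cardinal.ord_lt_ord.2 hD.2.2.1
  have hlt1 : (succ ℵ₀ : Cardinal.{u}).ord < D.ord :=
    Cardinal.ord_lt_ord.2 (hD.2.1.isSuccLimit.succ_lt hD.2.2.1)
  obtain ⟨d0, h0, h0'⟩ := h ℵ₀ Cardinal.isRegular_aleph0 hlt
  obtain ⟨d1, h1, h1'⟩ := h (succ ℵ₀) (Cardinal.isRegular_succ le_rfl) hlt1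
  refine Or.inr ⟨max d0 d1, max_lt h0 h1, ?_⟩
  intro K hK lam hl hKl hno
  by_cases hc : lam.cof.ord ≤ max d0 d1
  · exact Or.inl hc
  right
  push Not at hc
  by_cases hM : K.ord.cof = ℵ₀
  · obtain ⟨g1, g2⟩ := h1' K.ord lam hl hKl ((le_max_right _ _).trans_lt hc) (by
      intro τ hτ hτl hτr hτc
      rcases hτ.eq_or_lt with rfl | hτ
      · rw [hM] at hτc
        exact (lt_succ ℵ₀).ne hτc
      · exact hno τ hτ hτl hτr)
    exact ⟨(g2 (Or.inr ⟨K, rfl, (le_max_right _ _).trans_lt hK⟩)).symm, g1⟩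
  · obtain ⟨g1, g2⟩ := h0' K.ord lam hl hKl ((le_max_left _ _).trans_lt hc) (by
      intro τ hτ hτl hτr hτc
      rcases hτ.eq_or_lt with rfl | hτ
      · exact hM hτc
      · exact hno τ hτ hτl hτr)
    exact ⟨(g2 (Or.inr ⟨K, rfl, (le_max_left _ _).trans_lt hK⟩)).symm, g1⟩

end All

end HD
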