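import Pool.Agent.H7.HD.Targets7
import Pool.Agent.H3.HD.Iter
import Pool.Agent.H58.HD6.IN
import Pool.Agent.H20.HD.CS

/-!
# Modules CI and MI
-/

open Ordinal Cardinal Order Set

universe u

namespace Pool.Agent.H7.HD.CIMI

open _root_.HD
open Pool.Agent.H58.HD6 (lim_of_cof)

/-- CI. -/
theorem ci : T_CI.{u} := by
  intro ρ C C' hρ hC hC'
  have hlim := lim_of_cof hρ
  constructor
  · intro a ha
    obtain ⟨x, hx, s, hs0, hsx, hP, hcof⟩ := Pool.Agent.H3.HD.exists_iter hρ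
      (fun b b' => (∃ z ∈ C, b < z ∧ z < b') ∧ ∃ z ∈ C', b < z ∧ z < b') (fun b hb => by
        obtain ⟨z, hz, h1, h2⟩ := hC.unb b hb
        obtain ⟨z', hz', h3, h4⟩ := hC'.unb b hb
        refine ⟨succ (max z z'), hlim.succ_lt (max_lt hz hz'), ?_, ⟨z, h2, h1, ?_⟩, ⟨z', h4, h3, ?_⟩⟩
        · exact (h1.trans_le (le_max_left _ _)).trans (lt_succ _)
        · exact lt_succ_iff.2 (le_max_left _ _)
        · exact lt_succ_iff.2 (le_max_right _ _)) a ha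
    have hax : a < x := by
      rw [← hs0]
      exact hsx 0
    have h0x : 0 < x := lt_of_le_of_lt bot_le hax
    refine ⟨x, hx, hax, hC.cls x hx h0x ?_, hC'.cls x hx h0x ?_⟩
    · intro y hy
      obtain ⟨n, hn⟩ := hcof y hy
      obtain ⟨⟨z, hz, h1, h2⟩, -⟩ := hP n
      exact ⟨z, h2.trans (hsx (n + 1)), hn.trans h1, hz⟩
    · intro y hy
      obtain ⟨n, hn⟩ := hcof y hy
      obtain ⟨-, ⟨z, hz, h1, h2⟩⟩ := hP n
      exact ⟨z, h2.trans (hsx (n + 1)), hn.trans h1, hz⟩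
  · intro x hx h0 h
    refine ⟨hC.cls x hx h0 fun y hy => ?_, hC'.cls x hx h0 fun y hy => ?_⟩
    · obtain ⟨z, hz, h1, h2⟩ := h y hy
      exact ⟨z, hz, h1, h2.1⟩
    · obtain ⟨z, hz, h1, h2⟩ := h y hy
      exact ⟨z, hz, h1, h2.2⟩

theorem null_compl {μ : Cardinal.{u}} {ρ : Ordinal.{u}} {X : Set Ordinal.{u}}
    (hρ : ℵ₀ < ρ.cof)
    (hX : ∀ x < ρ, x.cof = μ → (∀ y < x, ∃ z ∈ X, y < z ∧ z < x) → x ∈ X)
    (hc : ∀ y < ρ, ∃ z ∈ X, y < z ∧ z < ρ) : ¬ Pos μ.ord ρ Xᶜ := by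
  intro hpos
  have hlim := lim_of_cof hρ
  have hC : Clb ρ {x | ∀ y < x, ∃ z ∈ X, y < z ∧ z < x} := by
    refine ⟨?_, ?_⟩
    · intro a ha
      obtain ⟨x, hx, s, hs0, hsx, hP, hcof⟩ := Pool.Agent.H3.HD.exists_iter hρ
        (fun b b' => ∃ z ∈ X, b < z ∧ z < b') (fun b hb => by
          obtain ⟨z, hz, hbz, hzν⟩ := hc b hb
          exact ⟨succ z, hlim.succ_lt hzν, hbz.trans (lt_succ z), z, hz, hbz, lt_succ z⟩) a ha
      refine ⟨x, hx, ?_, ?_⟩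
      · rw [← hs0]
        exact hsx 0
      · intro y hy
        obtain ⟨n, hn⟩ := hcof y hy
        obtain ⟨z, hz, h1, h2⟩ := hP n
        exact ⟨z, hz, hn.trans h1, h2.trans (hsx (n + 1))⟩
    · intro x hx _ h y hy
      obtain ⟨z, hzx, hyz, hz⟩ := h y hy
      obtain ⟨w, hw, h1, h2⟩ := hz y hyz
      exact ⟨w, hw, h1, h2.trans hzx⟩
  obtain ⟨b, hb, hbC, hbX, hcf⟩ := hpos _ hC
  exact hbX (hX b hb (Cardinal.ord_injective hcf) hbC)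

/-- MI. -/
theorem mi : T_MI.{u} := by
  intro μ ρ X X' hμ hμρ h1 h2 h3 h4
  have hρ : ℵ₀ < ρ.cof := hμ.aleph0_le.trans_lt hμρ
  have hlim := lim_of_cof hρ
  have g1 := null_compl hρ h1 h3
  have g2 := null_compl hρ h2 h4
  refine ⟨g1, fun y hy => ?_⟩
  have g3 : Pos μ.ord ρ univ := All.vc μ ρ hμ hμρ
  have g4 : ¬ Pos μ.ord ρ (Iio (succ y)) := All.vb _ ρ (succ y) hlim (hlim.succ_lt hy)
  obtain ⟨b, hb, ⟨⟨-, hb1⟩, hb2⟩, hb3⟩ := Pool.Agent.H20.HD.CS.pos_ex hlim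
    (pos_diff All.va hρ (pos_diff All.va hρ (pos_diff All.va hρ g3 g1) g2) g4)
  refine ⟨b, ⟨not_not.1 hb1, not_not.1 hb2⟩, ?_, hb⟩
  by_contra h
  exact hb3 (lt_succ_iff.2 (not_lt.1 h))

end Pool.Agent.H7.HD.CIMI
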