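import Pool.Agent.H7.HD.Targets6

/-!
# MP_e37c09_lc: module NU, the normal fine ultrafilter of a family
-/

open Ordinal Cardinal Order Set
open scoped ZFSet

universe u

namespace Pool.Agent.H7.HD.NU

open _root_.HD Pool.Agent.H4.HD.FU

/-- the ultrafilter `Uf` is fine -/
theorem fine_Uf {en : Ordinal.{u} → ZFSet.{u}} (hen : EN en) {M : Cardinal.{u}}
    {κ lam c : Ordinal.{u}} {x : Ordinal.{u} → Ordinal.{u} → Prop} (hcof : ℵ₀ < lam.cof)
    (hc : Atom en M.ord lam c) (hfam : Fam en M κ lam c x) :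
    HFine κ lam lam.cof.ord (Uf en M.ord κ lam c x) := by
  have hVA := HD.All.va.{u}
  have hE := (HD.All.ea en hen).1
  refine ⟨?_, ?_, ?_, ?_, ?_, ?_⟩
  · -- hod
    refine hod_iff.2 ⟨od_Uf hen _ _ _ _ hfam.dr, fun y hy => ?_⟩
    rw [mem_Uf] at hy
    exact hod_sub hy.2.1 hy.1
  · -- sub
    intro y hy
    exact (mem_Uf.1 hy).1
  · -- ultra
    intro y hy hyk
    constructor
    · intro h1 h2
      rw [mem_Uf] at h1 h2
      refine null_union hVA hcof h1.2.2 h2.2.2 (hc.pos.mono fun b hb hbE _ => ?_)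
      by_cases hby : os lam {i | x b i} ∈ y
      · exact Or.inr ⟨hbE, fun h3 => (ZFSet.mem_sdiff.1 h3).2 hby⟩
      · exact Or.inl ⟨hbE, hby⟩
    · intro h1
      refine mem_Uf.2 ⟨hyk, hy.od, fun h3 => ?_⟩
      have h2 : Pos M.ord lam {β | β ∈ E en c ∧ os lam {i | x β i} ∉ PkHOD κ lam \ y} := by
        by_contra h3
        exact h1 (mem_Uf.2 ⟨fun z hz => (ZFSet.mem_sdiff.1 hz).1, od_diff hy.od, h3⟩)
      have h4 := pos_diff hVA hcof h2 hfam.small
      obtain ⟨z, hz⟩ := (hen.od _).1 hy.od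
      have hDS : DS {β | os lam {i | x β i} ∈ y} := by
        rw [← hz]
        exact DO.sub z (R := fun z w => os lam {i | x (w 0) i} ∈ en z)
          ((do_mem hen hfam.dr lam).s2 (X := fun a b => os lam {i | x a i} ∈ en b) 1 0)
      obtain ⟨e, he⟩ := (HD.All.ea en hen).2.2.1 _ hDS lam
      refine hc.ult e ⟨h4.mono fun b hb hbE _ => ⟨hbE.1.1, ?_⟩,
        h3.mono fun b hb hbE _ => ⟨hbE.1, fun h5 => ?_⟩⟩
      · rw [he]
        refine ⟨?_, hb⟩
        by_contra h5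
        have h6 : os lam {i | x b i} ∈ PkHOD κ lam := by
          by_contra h7
          exact hbE.2 ⟨hbE.1.1, h7⟩
        exact hbE.1.2 (ZFSet.mem_sdiff.2 ⟨h6, h5⟩)
      · rw [he] at h5
        exact hbE.2 h5.1
  · -- up
    intro y hy z hz hyz hzk
    rw [mem_Uf] at hy ⊢
    exact ⟨hzk, hz.od, fun h1 => hy.2.2 (h1.mono fun b _ hb _ => ⟨hb.1, fun h2 =>
      hb.2 (hyz h2)⟩)⟩
  · -- fine
    intro a ha
    refine mem_Uf.2 ⟨fun z hz => (ZFSet.mem_sep.1 hz).1, ?_, fun h => ?_⟩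
    · refine OD.of_mem (P := fun v => v 0 ∈ PkHOD κ lam ∧ a.toZFSet ∈ v 0) ?_ fun v => ?_
      · exact (dz_pk κ lam 0).and (DZ.od (R := fun a v => a ∈ v 0) (OD.ordinal a) (DZ.mem 0 1))
      · rw [ZFSet.mem_sep]
    · refine null_union hVA hcof hfam.small (hfam.fine a ha) (h.mono fun b hb hbE _ => ?_)
      by_cases h1 : os lam {i | x b i} ∈ PkHOD κ lam
      · refine Or.inr ⟨hbE.1, fun h2 => hbE.2 (ZFSet.mem_sep.2 ⟨h1, ?_⟩)⟩
        exact ord_mem_os.2 ⟨ha, h2⟩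
      · exact Or.inl ⟨hbE.1, h1⟩
  · -- compl
    intro τ hτ f hf hfn
    refine mem_Uf.2 ⟨fun z hz => (ZFSet.mem_sep.1 hz).1, ?_, fun h => ?_⟩
    · refine OD.of_mem (P := fun v => v 0 ∈ PkHOD κ lam ∧ ∀ a, ∀ x, ZFSet.pair a x ∈ f →
        v 0 ∈ x) ?_ fun v => ?_
      · refine (dz_pk κ lam 0).and ?_
        refine DZ.od (R := fun F v => ∀ a, ∀ x, ZFSet.pair a x ∈ F → v 0 ∈ x) hf.od ?_
        refine DZ.all (R := fun a v => ∀ x, ZFSet.pair a x ∈ v 0 → v 1 ∈ x) ?_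
        refine DZ.all (R := fun x v => ZFSet.pair (v 0) x ∈ v 1 → v 2 ∈ x) ?_
        exact (loc_pmem 1 0 2).dz.imp (DZ.mem 3 0)
      · rw [ZFSet.mem_sep]
    · have h1 := hVA M.ord lam hcof τ (Cardinal.lt_ord.1 hτ)
        (fun i => {b | b ∈ E en c ∧ ∃ y, ZFSet.pair i.toZFSet y ∈ f ∧
          os lam {i | x b i} ∉ y}) (fun i hi => by
          obtain ⟨y, hy, huy⟩ := hfn.2 i.toZFSet (toZFSet_mem_toZFSet_iff.2 hi)
          have hyU : y ∈ Uf en M.ord κ lam c x := (ZFSet.pair_mem_prod.1 (hfn.1 hy)).2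
          rw [mem_Uf] at hyU
          intro hP
          refine hyU.2.2 (hP.mono fun b hb hbE _ => ⟨hbE.1, fun h3 => ?_⟩)
          obtain ⟨-, y', hy', hby'⟩ := hbE
          rw [huy y' hy'] at hby'
          exact hby' h3)
      refine null_union hVA hcof hfam.small h1 (h.mono fun b hb hbE _ => ?_)
      by_cases h2 : os lam {i | x b i} ∈ PkHOD κ lam
      · right
        by_contra hcon
        refine hbE.2 (ZFSet.mem_sep.2 ⟨h2, fun a y hp => ?_⟩)
        have hp' := ZFSet.pair_mem_prod.1 (hfn.1 hp)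
        obtain ⟨a, ha', rfl⟩ := mem_toZFSet_iff.1 hp'.1
        by_contra hby
        exact hcon ⟨a, ha', hbE.1, y, hp, hby⟩
      · exact Or.inl ⟨hbE.1, h2⟩

/-- definability of the values of a function on the sets of the family -/
theorem dr_val {f : ZFSet.{u}} (hf : OD f) {x : Ordinal.{u} → Ordinal.{u} → Prop} (hx : DR x)
    (lam : Ordinal.{u}) :
    DR fun β i => ZFSet.pair (os lam {i' | x β i'}) i.toZFSet ∈ f := by
  have h1 : DO fun w => ZFSet.pair (os (w 0) {i' | x (w 1) i'}) (w 2).toZFSet ∈ f := by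
    refine (DO.setArg (R := fun s v => ZFSet.pair s (v 2) ∈ f)
      (X := fun i w => x (w 1) i) ?_ ?_ 0).congr fun w => Iff.rfl
    · exact DZ.od (R := fun g v => ZFSet.pair (v 0) (v 3) ∈ g) hf (loc_pmem 1 4 0).dz
    · exact DO.s2 (X := fun a b => x a b) hx 2 0
  exact DO.sub lam (R := fun l w => ZFSet.pair (os l {i' | x (w 0) i'}) (w 1).toZFSet ∈ f) h1

/-- NU. -/
theorem nu : T_NU.{u} := by
  intro en hen M κ lam c x hcof hκ hc hfam hno
  have hVA := HD.All.va.{u}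
  refine ⟨Uf en M.ord κ lam c x, ?_, ?_⟩
  · have h := fine_Uf hen hcof hc hfam
    rwa [hκ] at h
  · intro f y hf hfn hU
    rw [mem_Uf] at hU
    obtain ⟨i, hi, hin⟩ := hno _ (dr_val hf.od hfam.dr lam) (by
      intro hP
      refine hU.2.2 (hP.mono fun b hb hbE _ => ⟨hbE.1, fun h3 => ?_⟩)
      rw [ZFSet.mem_sep] at h3
      obtain ⟨-, a, ha, hp⟩ := h3
      obtain ⟨i, hi, hxi, rfl⟩ := mem_os.1 ha
      exact hbE.2 ⟨i, hxi, hp⟩)
    refine ⟨i, hi, mem_Uf.2 ⟨fun z hz => (ZFSet.mem_sep.1 hz).1, ?_, fun h => ?_⟩⟩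
    · refine OD.of_mem (P := fun v => v 0 ∈ PkHOD κ lam ∧ ZFSet.pair (v 0) i.toZFSet ∈ f) ?_
        fun v => ?_
      · refine (dz_pk κ lam 0).and ?_
        refine DZ.od (R := fun F v => ZFSet.pair (v 0) i.toZFSet ∈ F) hf.od ?_
        exact DZ.od (R := fun j v => ZFSet.pair (v 1) j ∈ v 0) (OD.ordinal i) (loc_pmem 2 0 1).dz
      · rw [ZFSet.mem_sep]
    · refine null_union hVA hcof hfam.small hin (h.mono fun b hb hbE _ => ?_)
      by_cases h1 : os lam {i | x b i} ∈ PkHOD κ lam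
      · exact Or.inr ⟨hbE.1, fun h2 => hbE.2 (ZFSet.mem_sep.2 ⟨h1, h2⟩)⟩
      · exact Or.inl ⟨hbE.1, h1⟩

end Pool.Agent.H7.HD.NU
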