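import Pool.Agent.H7.HD.Targets7

/-!
# MP_e37c09_lc: modules UN and RR
-/

open Ordinal Cardinal Order Set
open scoped ZFSet

universe u

namespace Pool.Agent.H7.HD.UN

open _root_.HD

/-- one half of the induction step -/
theorem step {κ : Ordinal.{u}} {μ : Cardinal.{u}} {p : Ordinal.{u} → Ordinal.{u}}
    {s r v : Ordinal.{u} → Ordinal.{u} → Ordinal.{u}} {ν : Ordinal.{u}} {X X' : Set Ordinal.{u}}
    (hPI : PI p s r) (hX : Ph κ μ p s r v ν X) (hX' : Ph κ μ p s r v ν X') {a : Ordinal.{u}}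
    (haX : a ∈ X) (haX' : a ∈ X')
    (ih : ∀ b < a, b ∈ X → b ∈ X' → ∀ z < b, z ∈ X → z ∈ X')
    (hreg : κ ≤ a → RegHOD a → ∀ y < v a ν, ∃ b ∈ X ∩ X', y < b ∧ b < a) :
    ∀ z < a, z ∈ X → z ∈ X' := by
  intro z hza hz
  by_cases haκ : a < κ
  · exact hX'.cz.ini a haX' haκ z hza
  push Not at haκ
  rcases Ordinal.zero_or_succ_or_isSuccLimit a with rfl | ⟨b, rfl⟩ | hlim
  · exact absurd hza (not_lt.2 bot_le)
  · have hb : b ∈ X := hX.cz.pr b haX
    have hb' : b ∈ X' := hX'.cz.pr b haX'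
    rcases (Order.lt_succ_iff.1 hza).eq_or_lt with rfl | h
    · exact hb'
    · exact ih b (lt_succ b) hb hb' z h hz
  · by_cases hsing : SingHOD a
    · have hp : p a ∈ X := hX.cz.cp a haX hsing
      have hp' : p a ∈ X' := hX'.cz.cp a haX' hsing
      have hi : r a z ∈ X := hX.cz.cr a haX hsing z hz hza
      have hil : r a z < p a := hPI.rl a hsing z hza
      have hi' : r a z ∈ X' := ih _ (hPI.pl a hsing) hp hp' _ hil hi
      have hb : s a (r a z) ∈ X := hX.cz.cs a haX hsing _ hi hil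
      have hb' : s a (r a z) ∈ X' := hX'.cz.cs a haX' hsing _ hi' hil
      have hbl : s a (r a z) < a := hPI.sl a hsing _ hil
      rcases (hPI.sr a hsing z hza).eq_or_lt with h | h
      · rw [h]
        exact hb'
      · exact ih _ hbl hb hb' z h hz
    · have hR : RegHOD a := ⟨hlim, hsing⟩
      obtain ⟨b, ⟨hb, hb'⟩, hzb, hba⟩ := hreg haκ hR z (hX.vl a haX haκ hR z hz hza)
      exact ih b hba hb hb' z hzb hz

/-- UN. -/
theorem un (hMI : T_MI.{u}) : T_UN.{u} := by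
  intro κ μ p s r v ν X X' hPI hμ hμν hX hX' hv
  have hμ0 : ℵ₀ ≤ μ := hμ.aleph0_le
  -- the intersection is cofinal
  have hW : ∀ y < ν, ∃ z ∈ X ∩ X', y < z ∧ z < ν := by
    refine (hMI μ ν X X' hμ hμν ?_ ?_ ?_ ?_).2
    · intro x hx hxc h
      obtain ⟨z, hz, hxz⟩ := hX.cf x hx
      exact hX.cz.oc x hxc h ⟨z, hz, hxz.le⟩
    · intro x hx hxc h
      obtain ⟨z, hz, hxz⟩ := hX'.cf x hx
      exact hX'.cz.oc x hxc h ⟨z, hz, hxz.le⟩
    · intro y hy
      obtain ⟨z, hz, hyz⟩ := hX.cf y hy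
      exact ⟨z, hz, hyz, hX.lt z hz⟩
    · intro y hy
      obtain ⟨z, hz, hyz⟩ := hX'.cf y hy
      exact ⟨z, hz, hyz, hX'.lt z hz⟩
  -- below a HOD-regular element
  have hreg : ∀ a ∈ X, a ∈ X' → κ ≤ a → RegHOD a → ∀ y < v a ν, ∃ b ∈ X ∩ X', y < b ∧ b < a := by
    intro a ha ha' haκ hR
    have hcof := hv a ha haκ hR
    have hlim : IsSuccLimit (v a ν) := by
      rw [← Ordinal.one_lt_cof_iff]
      exact Cardinal.one_lt_aleph0.trans_le (hμ0.trans hcof.le)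
    have key : ∀ {Y : Set Ordinal.{u}}, Ph κ μ p s r v ν Y → a ∈ Y →
        (∀ x < v a ν, x.cof = μ → (∀ y < x, ∃ z ∈ Y, y < z ∧ z < x) → x ∈ Y) ∧
        ∀ y < v a ν, ∃ z ∈ Y, y < z ∧ z < v a ν := by
      intro Y hY haY
      refine ⟨fun x hx hxc h => ?_, fun y hy => ?_⟩
      · obtain ⟨z, hz, -, hxz⟩ := hY.vu a haY haκ hR x hx
        exact hY.cz.oc x hxc h ⟨z, hz, hxz⟩
      · obtain ⟨z, hz, hza, hyz⟩ := hY.vu a haY haκ hR (succ y) (hlim.succ_lt hy)
        exact ⟨z, hz, (lt_succ y).trans_le hyz, hY.vl a haY haκ hR z hz hza⟩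
    obtain ⟨h1, h2⟩ := key hX ha
    obtain ⟨h3, h4⟩ := key hX' ha'
    have h5 := (hMI μ (v a ν) X X' hμ hcof h1 h3 h2 h4).2
    have hle : v a ν ≤ a := by
      by_contra hc
      push Not at hc
      obtain ⟨z, hz, hza, haz⟩ := hX.vu a ha haκ hR a hc
      exact absurd hza (not_lt.2 haz)
    intro y hy
    obtain ⟨b, hb, hyb, hbv⟩ := h5 y hy
    exact ⟨b, hb, hyb, hbv.trans_le hle⟩
  have hmain : ∀ a, a ∈ X → a ∈ X' → ∀ z < a, (z ∈ X ↔ z ∈ X') := by
    intro a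
    induction a using WellFoundedLT.induction with
    | ind a ih =>
      intro ha ha' z hz
      constructor
      · refine step hPI hX hX' ha ha' (fun b hb hbX hbX' y hy hyX => (ih b hb hbX hbX' y hy).1 hyX)
          (hreg a ha ha') z hz
      · refine step hPI hX' hX ha' ha (fun b hb hbX hbX' y hy hyX => (ih b hb hbX' hbX y hy).2 hyX)
          ?_ z hz
        intro h1 h2 y hy
        obtain ⟨b, hb, h3⟩ := hreg a ha ha' h1 h2 y hy
        exact ⟨b, ⟨hb.2, hb.1⟩, h3⟩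
  ext z
  constructor
  · intro hz
    obtain ⟨b, hb, hzb, -⟩ := hW z (hX.lt z hz)
    exact (hmain b hb.1 hb.2 z hzb).1 hz
  · intro hz
    obtain ⟨b, hb, hzb, -⟩ := hW z (hX'.lt z hz)
    exact (hmain b hb.1 hb.2 z hzb).2 hz

/-- RR. -/
theorem rr : T_RR.{u} := by
  intro D N K lam hD hN hND hK hDK hreg hKl hDl h
  have hKr := Pool.Agent.H20.HD.CS.regHOD_ord hK
  have h1 := (All.sc D N hD hN hND K.ord lam hreg hKl hDl h).2.1 hKr
  rw [hK.cof_ord] at h1
  have h2 : ∀ τ, K.ord ≤ τ → τ ≤ lam → RegHOD τ → τ.cof = K := by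
    intro τ hτ hτl hτr
    rcases hτl.eq_or_lt with rfl | hlt
    · exact h1.symm
    · have h3 := (All.sc D N hD hN hND τ lam hreg hlt hDl fun τ' h4 h5 h6 =>
        h τ' (hτ.trans h4) h5 h6).2.1 hτr
      rw [h3, h1]
  refine ⟨?_, h2⟩
  by_contra hc
  push Not at hc
  have hsK : (succ K).IsRegular := Cardinal.isRegular_succ hK.aleph0_le
  have h3 := h2 (succ K).ord (Cardinal.ord_le_ord.2 (le_succ K)) hc
    (Pool.Agent.H20.HD.CS.regHOD_ord hsK)
  rw [hsK.cof_ord] at h3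
  exact absurd h3 (lt_succ K).ne'

end Pool.Agent.H7.HD.UN
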