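import Pool.Agent.H7.HD.Fin2
import Pool.Agent.H14.HD.QE
import Pool.Agent.H14.HD.QK
import Pool.Agent.H58.HD6.LS
import Pool.Agent.H65.HD.CB
import Pool.Agent.H58.HD6.CL
import Pool.Agent.H65.HD.NF
import Pool.Agent.H47.HD.TR
import Pool.Agent.H92.HD.DZ
import Pool.Agent.H47.HD.TH
import Pool.Agent.H7.HD.NU
import Pool.Agent.H13.HD.PS
import Pool.Agent.H7.HD.CIMI
import Pool.Agent.H7.HD.UN
import Pool.Agent.H84.HD.CP
import Pool.Agent.H84.HD.OL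
import Pool.Agent.H68.HD.NC
import Pool.Agent.H56.HD.DV
import Pool.Agent.H56.HD.GX
import Pool.Agent.H66.HD.VL
import Pool.Agent.H14.HD.VU
import Pool.Agent.H86.HD.VK
import Pool.Agent.H14.HD.TY
import Pool.Agent.H50.HD.DP
import Pool.Agent.H59.HD.ZX
import Pool.Agent.H47.HD.YC
import Pool.Agent.H67.HD.FC
import Pool.Agent.H69.HD.HF2
import Pool.Agent.H51.HD.TW
import Pool.Agent.H89.HD.SP

/-!
# Assembly of the theorem on supercompactness in HOD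
-/

open Ordinal Cardinal Order Set
open scoped ZFSet

universe u

namespace HD

namespace All

theorem qe : T_QE.{u} := Pool.Agent.H14.HD.QE.qe
theorem qk : T_QK.{u} := Pool.Agent.H14.HD.QK.qk
theorem ls : T_LS.{u} := Pool.Agent.H58.HD6.ls
theorem cb : T_CB.{u} := Pool.Agent.H65.HD.CB.cb
theorem cl : T_CL.{u} := Pool.Agent.H58.HD6.cl cb
theorem nf : T_NF.{u} := Pool.Agent.H65.HD.NF.nf
theorem tr : T_TR.{u} := Pool.Agent.H47.HD.TR.X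
theorem dz : T_DZ.{u} := Pool.Agent.H92.HD.DZ.dz
theorem th : T_TH.{u} := Pool.Agent.H47.HD.TH.X qe qk ls cl dz
theorem nu : T_NU.{u} := Pool.Agent.H7.HD.NU.nu
theorem ps : T_PS.{u} := Pool.Agent.H13.HD.PS.ps
theorem mi : T_MI.{u} := Pool.Agent.H7.HD.CIMI.mi
theorem un : T_UN.{u} := Pool.Agent.H7.HD.UN.un mi
theorem ci : T_CI.{u} := Pool.Agent.H7.HD.CIMI.ci
theorem cp : T_CP.{u} := Pool.Agent.H84.HD.CP.cp
theorem ol : T_OL.{u} := Pool.Agent.H84.HD.OL.ol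
theorem nc : T_NC.{u} := Pool.Agent.H68.HD.NC.nc
theorem dv : T_DV.{u} := Pool.Agent.H56.HD.DV.X
theorem gx : T_GX.{u} := Pool.Agent.H56.HD.GX.X
theorem vl : T_VL.{u} := Pool.Agent.H66.HD.VL.vl tr gx
theorem vu : T_VU.{u} := Pool.Agent.H14.HD.VU.vu tr gx cp ol nc ci mi
theorem vk : T_VK.{u} := Pool.Agent.H86.HD.VK.vk vl vu cp ol ci
theorem ty : T_TY.{u} := Pool.Agent.H14.HD.TY.ty vl vu vk cp ol nc ci
theorem dp : T_DP.{u} := Pool.Agent.H50.HD.DP.dp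
theorem yc : T_YC.{u} := Pool.Agent.H47.HD.YC.yc
theorem fc : T_FC.{u} := Pool.Agent.H67.HD.FC.fc yc
theorem hf2 : T_HF2.{u} := Pool.Agent.H69.HD.HF2.hf2
theorem rr : T_RR.{u} := Pool.Agent.H7.HD.UN.rr
theorem tw : T_TW.{u} := Pool.Agent.H51.HD.TW.tw rr hf2
theorem zx : T_ZX.{u} := Pool.Agent.H59.HD.ZX.zx ty un dp ps tr nf dv
theorem sp : T_SP.{u} := Pool.Agent.H89.HD.SP.sp tw zx fc

/-- supercompactness in HOD -/
theorem m9 (δ : Ordinal.{u}) (hδ : Extendible δ) : CaseA δ ∨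
    ((∀ l < δ, ∃ δ₀ < δ, l < δ₀ ∧ ∀ K : Cardinal.{u}, K.IsRegular → δ₀ < K.ord →
      ∃ τ₀, K.ord < τ₀ ∧ τ₀ < (succ K).ord ∧ RegHOD τ₀ ∧ τ₀.cof.ord ≤ δ₀ ∧
        (Few τ₀.cof.ord (SH K.ord τ₀) → τ₀.cof = ℵ₀) ∧
        ∀ lam, K.ord < lam → lam < τ₀ → RegHOD lam → lam.cof = K ∧ ∃ U, HSup K.ord lam U) ∧
    ∀ M : Cardinal.{u}, M.IsRegular → M.ord < δ → ∃ δ₀ < δ, ∀ κ lam : Ordinal.{u},
      RegHOD lam → κ < lam → δ₀ < lam.cof.ord →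
      (∀ τ, κ ≤ τ → τ < lam → RegHOD τ → τ.cof ≠ M) →
        (∃ U, HFine κ lam lam.cof.ord U) ∧
        ((RegHOD κ ∨ ∃ K : Cardinal.{u}, κ = K.ord ∧ δ₀ < κ) → κ.cof = lam.cof) ∧
        ∀ K : Cardinal.{u}, K.IsRegular → κ = K.ord → δ₀ < κ → ∃ U, HSup κ lam U) :=
  fin_main rr sp th δ hδ

end All

end HD
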