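import Pool.Agent.H7.HD.Names

/-!
# A definable pairing function
-/

open Ordinal Cardinal Order Set
open scoped ZFSet

universe u

namespace HD

/-- the maximum of the first pair is less than the maximum of the second one -/
def ML (p q : Ordinal.{u} × Ordinal.{u}) : Prop :=
  (p.1 < q.1 ∨ p.1 < q.2) ∧ (p.2 < q.1 ∨ p.2 < q.2)

/-- the order of pairs -/
def GO (p q : Ordinal.{u} × Ordinal.{u}) : Prop :=
  ML p q ∨ (¬ ML q p ∧ (p.1 < q.1 ∨ (p.1 = q.1 ∧ p.2 < q.2)))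

theorem ML_iff {p q : Ordinal.{u} × Ordinal.{u}} : ML p q ↔ max p.1 p.2 < max q.1 q.2 := by
  unfold ML
  rw [max_lt_iff, lt_max_iff, lt_max_iff]

theorem GO_total {p q : Ordinal.{u} × Ordinal.{u}} (h : p ≠ q) : GO p q ∨ GO q p := by
  unfold GO
  by_cases h1 : ML p q
  · exact Or.inl (Or.inl h1)
  by_cases h2 : ML q p
  · exact Or.inr (Or.inl h2)
  rcases lt_trichotomy p.1 q.1 with h3 | h3 | h3
  · exact Or.inl (Or.inr ⟨h2, Or.inl h3⟩)
  · rcases lt_trichotomy p.2 q.2 with h4 | h4 | h4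
    · exact Or.inl (Or.inr ⟨h2, Or.inr ⟨h3, h4⟩⟩)
    · exact absurd (Prod.ext h3 h4) h
    · exact Or.inr (Or.inr ⟨h1, Or.inr ⟨h3.symm, h4⟩⟩)
  · exact Or.inr (Or.inr ⟨h1, Or.inl h3⟩)

theorem GO_min (S : Set (Ordinal.{u} × Ordinal.{u})) (hS : S.Nonempty) :
    ∃ p ∈ S, ∀ q ∈ S, ¬ GO q p := by
  obtain ⟨p1, hp1, h1⟩ := HD.exists_min S hS (fun p => max p.1 p.2)
  obtain ⟨p2, hp2, h2⟩ := HD.exists_min {p | p ∈ S ∧ max p.1 p.2 = max p1.1 p1.2} ⟨p1, hp1, rfl⟩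
    (fun p => p.1)
  obtain ⟨p3, hp3, h3⟩ := HD.exists_min {p | p ∈ S ∧ max p.1 p.2 = max p1.1 p1.2 ∧ p.1 = p2.1}
    ⟨p2, hp2.1, hp2.2, rfl⟩ (fun p => p.2)
  refine ⟨p3, hp3.1, fun q hq hlt => ?_⟩
  have hm : max p3.1 p3.2 = max p1.1 p1.2 := hp3.2.1
  have h4 : ¬ ML q p3 := by
    rw [ML_iff, hm]
    exact not_lt.2 (h1 q hq)
  rcases hlt with h | ⟨h5, h6⟩
  · exact h4 h
  · rw [ML_iff, not_lt, hm] at h5
    have hqm : max q.1 q.2 = max p1.1 p1.2 := le_antisymm h5 (h1 q hq)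
    have h7 : p2.1 ≤ q.1 := h2 q ⟨hq, hqm⟩
    rw [hp3.2.2] at h6
    rcases h6 with h6 | ⟨h6, h8⟩
    · exact absurd h7 (not_le.2 h6)
    · exact absurd (h3 q ⟨hq, hqm, h6⟩) (not_le.2 h8)

/-- `p` is the first pair which is not in `S` -/
def NP (S : Ordinal.{u} × Ordinal.{u} → Prop) (p : Ordinal.{u} × Ordinal.{u}) : Prop :=
  ¬ S p ∧ ∀ q, ¬ S q → ¬ GO q p

theorem NP.unique {S : Ordinal.{u} × Ordinal.{u} → Prop} {p q : Ordinal.{u} × Ordinal.{u}}
    (hp : NP S p) (hq : NP S q) : p = q := by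
  by_contra h
  rcases GO_total h with h | h
  · exact hq.2 p hp.1 h
  · exact hp.2 q hq.1 h

open Classical in
/-- the first pair not in `S` -/
noncomputable def np (S : Ordinal.{u} × Ordinal.{u} → Prop) : Ordinal.{u} × Ordinal.{u} :=
  if h : ∃ p, NP S p then Classical.choose h else (0, 0)

/-- the enumeration of the pairs -/
noncomputable def pe (c : Ordinal.{u}) : Ordinal.{u} × Ordinal.{u} :=
  np fun p => ∃ b : Iio c, p = pe b.1
termination_by c
decreasing_by exact b.2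

theorem pe_spec (c : Ordinal.{u}) : NP (fun p => ∃ b < c, p = pe b) (pe c) := by
  have hex : ∃ p, NP (fun p => ∃ b < c, p = pe b) p := by
    have hne : {p | ¬ ∃ b < c, p = pe b}.Nonempty := by
      have hbd : BddAbove (range fun b : Iio c => (pe b.1).1) := bddAbove_of_small
      refine ⟨(succ (⨆ b : Iio c, (pe b.1).1), 0), ?_⟩
      rintro ⟨b, hb, he⟩
      have h1 : (pe b).1 ≤ ⨆ b : Iio c, (pe b.1).1 := le_ciSup hbd ⟨b, hb⟩
      rw [← he] at h1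
      exact absurd (lt_succ _) (not_lt.2 h1)
    obtain ⟨p, hp, h⟩ := GO_min _ hne
    exact ⟨p, hp, fun q hq => h q hq⟩
  have e1 : (fun p => ∃ b : Iio c, p = pe b.1) = fun p => ∃ b < c, p = pe b := by
    funext x
    apply propext
    constructor
    · rintro ⟨b, h⟩; exact ⟨b.1, b.2, h⟩
    · rintro ⟨b, hb, h⟩; exact ⟨⟨b, hb⟩, h⟩
  rw [pe, e1]
  unfold np
  rw [dif_pos hex]
  exact Classical.choose_spec hex

theorem pe_inj {b c : Ordinal.{u}} (h : pe b = pe c) : b = c := by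
  rcases lt_trichotomy b c with hbc | hbc | hbc
  · exact absurd ⟨b, hbc, h.symm⟩ (pe_spec c).1
  · exact hbc
  · exact absurd ⟨c, hbc, h⟩ (pe_spec b).1

/-- pairs enumerated before a pair which is not yet enumerated have smaller maximum -/
theorem pe_max {c : Ordinal.{u}} {p : Ordinal.{u} × Ordinal.{u}} (h : ∀ b < c, p ≠ pe b) :
    max (pe c).1 (pe c).2 ≤ max p.1 p.2 := by
  have := (pe_spec c).2 p (by rintro ⟨b, hb, he⟩; exact h b hb he)
  by_contra hlt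
  exact this (Or.inl (ML_iff.2 (not_le.1 hlt)))

theorem pe_surj (p : Ordinal.{u} × Ordinal.{u}) : ∃ c, pe c = p := by
  by_contra hcon
  push Not at hcon
  have h1 : ∀ c, max (pe c).1 (pe c).2 ≤ max p.1 p.2 := fun c =>
    pe_max fun b _ he => hcon b he.symm
  let f : Ordinal.{u} → Iio (succ (max p.1 p.2)) × Iio (succ (max p.1 p.2)) := fun c =>
    (⟨(pe c).1, lt_succ_iff.2 ((le_max_left _ _).trans (h1 c))⟩,
      ⟨(pe c).2, lt_succ_iff.2 ((le_max_right _ _).trans (h1 c))⟩)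
  have hf : Function.Injective f := by
    intro b c h
    simp only [f, Prod.mk.injEq, Subtype.mk.injEq] at h
    exact pe_inj (Prod.ext h.1 h.2)
  have h2 : Small.{u} Ordinal.{u} := small_of_injective hf
  exact not_small_ordinal h2

/-- the pairing function -/
noncomputable def tp (a b : Ordinal.{u}) : Ordinal.{u} := Classical.choose (pe_surj (a, b))

theorem pe_tp (a b : Ordinal.{u}) : pe (tp a b) = (a, b) := Classical.choose_spec (pe_surj (a, b))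

theorem tp_lt {C : Cardinal.{u}} (hC : ℵ₀ ≤ C) {a b : Ordinal.{u}} (ha : a < C.ord)
    (hb : b < C.ord) : tp a b < C.ord := by
  have hm : max a b < C.ord := max_lt ha hb
  have h1 : ∀ c < tp a b, max (pe c).1 (pe c).2 ≤ max a b := by
    intro c hc
    refine pe_max (p := (a, b)) fun d hd he => ?_
    have : tp a b = d := pe_inj (by rw [pe_tp, he])
    exact absurd hd (not_lt.2 (by rw [← this]; exact hc.le))
  let f : Iio (tp a b) → Iio (succ (max a b)) × Iio (succ (max a b)) := fun c =>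
    (⟨(pe c.1).1, lt_succ_iff.2 ((le_max_left _ _).trans (h1 c.1 c.2))⟩,
      ⟨(pe c.1).2, lt_succ_iff.2 ((le_max_right _ _).trans (h1 c.1 c.2))⟩)
  have hf : Function.Injective f := by
    intro b c h
    simp only [f, Prod.mk.injEq, Subtype.mk.injEq] at h
    exact Subtype.ext (pe_inj (Prod.ext h.1 h.2))
  have h2 := Cardinal.mk_le_of_injective hf
  rw [Cardinal.mk_Iio_ordinal, Cardinal.mk_prod, Cardinal.lift_id, Cardinal.mk_Iio_ordinal,
    ← Cardinal.lift_mul, Cardinal.lift_le] at h2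
  rw [Cardinal.lt_ord]
  refine h2.trans_lt (Cardinal.mul_lt_of_lt hC ?_ ?_)
  all_goals
    rw [← Cardinal.lt_ord]
    exact (Cardinal.isSuccLimit_ord hC).succ_lt hm

/-! ## Definability -/

/-- `GO` at the level of sets -/
def GZ (a b a' b' : ZFSet.{u}) : Prop :=
  ((a ∈ a' ∨ a ∈ b') ∧ (b ∈ a' ∨ b ∈ b')) ∨ (¬ ((a' ∈ a ∨ a' ∈ b) ∧ (b' ∈ a ∨ b' ∈ b)) ∧
    (a ∈ a' ∨ (a = a' ∧ b ∈ b')))

theorem dz_GZ (i j k l : ℕ) : DZ.{u} (fun v => GZ (v i) (v j) (v k) (v l)) :=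
  (((DZ.mem _ _).or (DZ.mem _ _)).and ((DZ.mem _ _).or (DZ.mem _ _))).or
    ((((DZ.mem _ _).or (DZ.mem _ _)).and ((DZ.mem _ _).or (DZ.mem _ _))).not.and
      ((DZ.mem _ _).or ((DZ.eq _ _).and (DZ.mem _ _))))

theorem GZ_iff (a b a' b' : Ordinal.{u}) :
    GZ a.toZFSet b.toZFSet a'.toZFSet b'.toZFSet ↔ GO (a, b) (a', b') := by
  unfold GZ GO ML
  simp only [toZFSet_mem_toZFSet_iff, toZFSet_injective.eq_iff]

/-- `NP` at the level of sets -/
def NPZ (f y : ZFSet.{u}) : Prop := ∃ a : ZFSet.{u}, ∃ b : ZFSet.{u}, a.IsOrdinal ∧ b.IsOrdinal ∧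
  y = ZFSet.pair a b ∧ (¬ ∃ c : ZFSet.{u}, ZFSet.pair c y ∈ f) ∧
  ∀ a' b' : ZFSet.{u}, a'.IsOrdinal → b'.IsOrdinal → ∀ y', y' = ZFSet.pair a' b' →
    (¬ ∃ c : ZFSet.{u}, ZFSet.pair c y' ∈ f) → ¬ GZ a' b' a b

theorem dz_NPZ (i j : ℕ) : DZ.{u} (fun v => NPZ (v i) (v j)) :=
  DZ.ex (DZ.ex ((DZ.ord _).and ((DZ.ord _).and ((dz_pair _ _ _).and
    ((DZ.ex (dz_pmem _ _ _)).not.and (DZ.all (DZ.all ((DZ.ord _).imp ((DZ.ord _).imp (DZ.all
      ((dz_pair _ _ _).imp ((DZ.ex (dz_pmem _ _ _)).not.imp (dz_GZ _ _ _ _).not))))))))))))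

/-- the enumeration of pairs as sets -/
noncomputable def pz (c : Ordinal.{u}) : ZFSet.{u} :=
  ZFSet.pair (pe c).1.toZFSet (pe c).2.toZFSet

theorem dz_pz : DZ.{u} fun v => (v 0).IsOrdinal ∧ v 1 = pz (v 0).rank := by
  have h := DZ.rec (Φ := fun _ _ f y => NPZ f y) (F := fun _ c => pz c) (dz_NPZ 2 3) ?_
  · exact h.ren fun n => if n = 0 then 0 else n - 1
  · intro _ c y
    have hS : ∀ p : Ordinal.{u} × Ordinal.{u}, (∃ d : ZFSet.{u}, ZFSet.pair d
        (ZFSet.pair p.1.toZFSet p.2.toZFSet) ∈ gr (fun c => pz c) c) ↔ ∃ b < c, p = pe b := by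
      intro p
      constructor
      · rintro ⟨b, hb⟩
        obtain ⟨b', hb', he⟩ := mem_gr.1 hb
        obtain ⟨-, h2⟩ := ZFSet.pair_injective he
        obtain ⟨h3, h4⟩ := pair_ord_inj h2
        exact ⟨b', hb', Prod.ext h3 h4⟩
      · rintro ⟨b, hb, rfl⟩
        exact ⟨b.toZFSet, pair_mem_gr.2 ⟨hb, rfl⟩⟩
    have key : ∀ p : Ordinal.{u} × Ordinal.{u}, NP (fun p => ∃ b < c, p = pe b) p →
        NPZ (gr (fun c => pz c) c) (ZFSet.pair p.1.toZFSet p.2.toZFSet) := by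
      rintro p ⟨h1, h2⟩
      refine ⟨_, _, ZFSet.isOrdinal_toZFSet _, ZFSet.isOrdinal_toZFSet _, rfl, ?_, ?_⟩
      · rw [hS]
        exact h1
      · rintro a' b' ha' hb' y' rfl h3 h4
        obtain ⟨a', rfl⟩ := ord_of ha'
        obtain ⟨b', rfl⟩ := ord_of hb'
        rw [GZ_iff] at h4
        refine h2 (a', b') ?_ h4
        rwa [hS (a', b')] at h3
    constructor
    · rintro rfl
      exact key _ (pe_spec c)
    · rintro ⟨a, b, ha, hb, rfl, h1, h2⟩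
      obtain ⟨a, rfl⟩ := ord_of ha
      obtain ⟨b, rfl⟩ := ord_of hb
      have h3 : NP (fun p => ∃ b < c, p = pe b) (a, b) := by
        refine ⟨?_, fun q hq hGO => ?_⟩
        · rwa [hS (a, b)] at h1
        · refine h2 _ _ (ZFSet.isOrdinal_toZFSet _) (ZFSet.isOrdinal_toZFSet _) _ rfl ?_
            ((GZ_iff q.1 q.2 a b).2 hGO)
          rwa [hS q]
      have h4 := h3.unique (pe_spec c)
      show _ = pz c
      unfold pz
      rw [← h4]

theorem t_PR : T_PR.{u} := by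
  refine ⟨tp, ?_, ?_, fun C hC a ha b hb => tp_lt hC ha hb⟩
  · have h : DZ.{u} fun v => ∃ x : ZFSet.{u}, ((v 2).IsOrdinal ∧ x = pz (v 2).rank) ∧
        x = ZFSet.pair (v 0) (v 1) :=
      DZ.ex ((dz_pz.ren fun n => if n = 0 then 3 else 0).and (dz_pair _ _ _))
    refine h.do.congr fun w => ?_
    have e1 : (ov w 2).rank = w 2 := rank_toZFSet _
    show _ ↔ ∃ x : ZFSet.{u}, ((ov w 2).IsOrdinal ∧ x = pz (ov w 2).rank) ∧
      x = ZFSet.pair (ov w 0) (ov w 1)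
    rw [e1]
    constructor
    · intro h
      refine ⟨_, ⟨ZFSet.isOrdinal_toZFSet _, rfl⟩, ?_⟩
      rw [h]
      unfold pz
      rw [pe_tp]
      rfl
    · rintro ⟨x, ⟨-, rfl⟩, h⟩
      obtain ⟨h1, h2⟩ := pair_ord_inj h
      apply pe_inj
      rw [pe_tp]
      exact Prod.ext h1 h2
  · intro a b a' b' h
    have h1 := pe_tp a b
    rw [h, pe_tp] at h1
    exact ⟨(congrArg Prod.fst h1).symm, (congrArg Prod.snd h1).symm⟩

end HD
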