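import Pool.Agent.H7.HD.Targets8

/-!
# Targets of the ninth list of modules: `V`-sequences of subsets in HOD (MP_e37c09_lc)

The ordinal `ω` is written as `(ℵ₀ : Cardinal).ord`, as in the other modules.
-/

open Ordinal Cardinal Order Set
open scoped ZFSet

universe u

namespace HD

/-! ## The base -/

/-- every ordinal of cofinality at least `D` carries an ultrafilter as in `WN` -/
def GoodW (D : Cardinal.{u}) : Prop := ∀ κ : Ordinal.{u}, D ≤ κ.cof → ∃ W, WN D κ W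

/-- `GoodW` below `β` -/
def GoodWB (β δ : Ordinal.{u}) : Prop :=
  ∃ D : Cardinal.{u}, δ = D.ord ∧ D.IsRegular ∧ D.IsStrongLimit ∧ ℵ₀ < D ∧
    ∀ κ < β, D ≤ κ.cof → ∃ W, WN D κ W

/-- GE. -/
def T_GE : Prop := ∀ D : Cardinal.{u}, Extendible D.ord → GoodW D

/-- LW. `GoodWB` is locally definable. -/
def T_LW : Prop := Loc.{u} fun v => (v 0).IsOrdinal ∧ (v 1).IsOrdinal ∧
  GoodWB (v 0).rank (v 1).rank

/-- RW. Reflection. -/
def T_RW : Prop := ∀ D : Cardinal.{u}, Extendible D.ord → GoodN D → GoodW D → ∀ l < D.ord,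
  ∃ D' : Cardinal.{u}, D' < D ∧ l < D'.ord ∧ GoodN D' ∧ GoodW D'

/-- The common hypotheses of the modules: `D` is regular and carries the ultrafilters, and there
are no `G` many disjoint positive sets in an ordinal definable sequence at ordinals of cofinality
greater than `G` (for points of cofinality less than `D`). -/
structure BG (D G : Cardinal.{u}) : Prop where
  dreg : D.IsRegular
  dunc : ℵ₀ < D
  greg : G.IsRegular
  dg : D ≤ G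
  ns : ∀ M : Cardinal.{u}, M.IsRegular → M < D → ∀ κ : Ordinal.{u}, G < κ.cof →
    NS G.ord M.ord κ
  atm : ∀ en : Ordinal.{u} → ZFSet.{u}, EN en → ∀ M : Cardinal.{u}, M.IsRegular → M < D →
    ∀ κ : Ordinal.{u}, G < κ.cof → ∀ X : Set Ordinal.{u}, DS X → Pos M.ord κ X →
      ∃ c, E en c ⊆ X ∧ Atom en M.ord κ c
  w : GoodW D

/-- B1. -/
def T_B1 : Prop := ∀ D : Cardinal.{u}, GoodN D → GoodW D → BG D D

/-- B2. -/
def T_B2 : Prop := ∀ D K₀ : Cardinal.{u}, StrComp D → OmSM K₀ → D < K₀ → BG D K₀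

/-! ## Functions and classes of functions -/

/-- the value at `a` of the function with code `g` -/
noncomputable def af (en : Ordinal.{u} → ZFSet.{u}) (g a : Ordinal.{u}) : Ordinal.{u} :=
  sInf (E2 en g a)

/-- `g < h` at almost all points of `S` -/
def Lw (μ ρ : Ordinal.{u}) (S : Set Ordinal.{u}) (g h : Ordinal.{u} → Ordinal.{u}) : Prop :=
  ¬ Pos μ ρ {a | a ∈ S ∧ h a ≤ g a}

/-- At `ρ` the function `h` is a least upper bound (in the sense of `V`, modulo null subsets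
of `S`) of the ordinal definable functions which are below it. -/
structure LU (en : Ordinal.{u} → ZFSet.{u}) (μ ρ : Ordinal.{u}) (S : Set Ordinal.{u})
    (h : Ordinal.{u} → Ordinal.{u}) : Prop where
  cmp : ∀ g g', ¬ (Pos μ ρ {a | a ∈ S ∧ af en g a < af en g' a} ∧
    Pos μ ρ {a | a ∈ S ∧ af en g' a ≤ af en g a})
  up : ∃ f, ∀ a < ρ, h a ≤ af en f a
  lub : ∀ (T : Set Ordinal.{u}) (k : Ordinal.{u} → Ordinal.{u}), Pos μ ρ T →
    (∀ a ∈ T, a < ρ → a ∈ S ∧ k a < h a) →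
      ∃ e, Lw μ ρ S (af en e) h ∧ Pos μ ρ {a | a ∈ T ∧ k a ≤ af en e a}

/-- `h` is as in `LU`, and the ordinal definable functions below `h` are those below `g` -/
def Cl (en : Ordinal.{u} → ZFSet.{u}) (μ ρ : Ordinal.{u}) (S : Set Ordinal.{u}) (g : Ordinal.{u})
    (h : Ordinal.{u} → Ordinal.{u}) : Prop :=
  LU en μ ρ S h ∧ ∀ e, (Lw μ ρ S (af en e) h ↔ Lw μ ρ S (af en e) (af en g))

/-- WF. Functions modulo null sets are well-founded. -/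
def T_WF : Prop := ∀ (μ ρ : Ordinal.{u}) (S : Set Ordinal.{u}), ℵ₀ < ρ.cof → Pos μ ρ S →
  ∀ (N : Set Ordinal.{u}) (f : Ordinal.{u} → Ordinal.{u} → Ordinal.{u}), N.Nonempty →
    ∃ e ∈ N, ∀ e' ∈ N, ¬ Lw μ ρ S (f e') (f e)

/-- CE. Existence of the code. -/
def T_CE : Prop := ∀ (en : Ordinal.{u} → ZFSet.{u}) (μ ρ : Ordinal.{u}) (S : Set Ordinal.{u}) h,
  EN en → ℵ₀ < ρ.cof → Pos μ ρ S → LU en μ ρ S h → ∃ g, Cl en μ ρ S g h

/-- CU. Uniqueness of the class. -/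
def T_CU : Prop := ∀ (en : Ordinal.{u} → ZFSet.{u}) (μ ρ : Ordinal.{u}) (S : Set Ordinal.{u}) g
  h h', EN en → ℵ₀ < ρ.cof → Cl en μ ρ S g h → Cl en μ ρ S g h' →
    ¬ Pos μ ρ {a | a ∈ S ∧ h a ≠ h' a}

/-- CD. Definability of the class. -/
def T_CD : Prop := ∀ (en : Ordinal.{u} → ZFSet.{u}) (μ : Ordinal.{u}) (S : Set Ordinal.{u}),
  EN en → DS S → ∀ Y : Ordinal.{u} → Ordinal.{u} → (ℕ → Ordinal.{u}) → Prop,
  (DO fun w => Y (w 0) (w 1) (fun n => w (n + 2))) → ∀ i k : ℕ,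
    DO fun w => ∃ h : Ordinal.{u} → Ordinal.{u}, Cl en μ (w i) S (w k) h ∧
      Pos μ (w i) {a | a ∈ S ∧ Y a (h a) w}

/-- FD. Codes of definable functions. -/
def T_FD : Prop := ∀ en : Ordinal.{u} → ZFSet.{u}, EN en →
  (DO fun w => w 2 = af en (w 1) (w 0)) ∧
  ∀ g : Ordinal.{u} → Ordinal.{u}, (DR fun a b => b = g a) → ∀ β, ∃ c, ∀ a < β, af en c a = g a

/-! ## Disjoint positive classes -/

/-- SH. Splitting by classes (an adaptation of SV). -/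
def T_SH : Prop := ∀ (en : Ordinal.{u} → ZFSet.{u}) (D K : Cardinal.{u}) (κ : Ordinal.{u})
  (W : Ultrafilter Ordinal.{u}) (S : Set Ordinal.{u}) (h : Ordinal.{u} → Ordinal.{u})
  (R : Ordinal.{u} → Ordinal.{u} → Ordinal.{u} → Prop), EN en → D.IsRegular → ℵ₀ < D →
  K.IsRegular → D < K → D ≤ κ.cof → WN D κ W → DS S → (DO fun w => R (w 0) (w 1) (w 2)) →
  (∀ a b i i', R a b i → R a b i' → i = i') →
  {ν | LU en (ℵ₀ : Cardinal.{u}).ord ν S h} ∈ W →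
  (∀ i < K.ord, Pos (ℵ₀ : Cardinal.{u}).ord κ {a | a ∈ S ∧ R a (h a) i}) →
    ∀ τ, 0 < τ → τ < K.ord → HODPart τ K.ord

/-- A definable `κ`-additive notion of positivity of sets of ordinals below `κ`. -/
structure PO (κ : Ordinal.{u}) (P : Set Ordinal.{u} → Prop) : Prop where
  mono : ∀ X Y, P X → (∀ b < κ, b ∈ X → b ∈ Y) → P Y
  ne : ∀ X, P X → ∃ b < κ, b ∈ X
  add : ∀ τ : Ordinal.{u}, τ.card < κ.cof → ∀ X : Ordinal.{u} → Set Ordinal.{u},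
    (∀ i < τ, ¬ P (X i)) → ¬ P {b | ∃ i < τ, b ∈ X i}
  dfn : ∀ Y : Ordinal.{u} → (ℕ → Ordinal.{u}) → Prop,
    (DO fun w => Y (w 0) (fun n => w (n + 1))) → DO fun w => P {a | Y a w}

/-- AB. Existence of atoms, general form (an adaptation of AT). -/
def T_AB : Prop := ∀ en : Ordinal.{u} → ZFSet.{u}, EN en → ∀ (G κ : Ordinal.{u})
  (P : Set Ordinal.{u} → Prop), PO κ P → ℵ₀ < κ.cof → G.card < κ.cof →
  (∀ τ < G, ∃ β : Ordinal.{u}, β.card < κ.cof ∧ PowHOD τ β) →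
  (∀ s : Ordinal.{u} → Ordinal.{u} → Prop, DR s → (∀ b i i', s b i → s b i' → i = i') →
    ¬ ∀ i < G, P {b | s b i}) →
  ∀ X : Set Ordinal.{u}, DS X → P X → ∃ c, E en c ⊆ X ∧ P (E en c) ∧
    ∀ x, ¬ (P (E en c ∩ E en x) ∧ P (E en c \ E en x))

/-- a pairing function as in `T_PR` -/
structure Prf (t : Ordinal.{u} → Ordinal.{u} → Ordinal.{u}) : Prop where
  dfn : DO fun w => w 2 = t (w 0) (w 1)
  inj : ∀ a b a' b', t a b = t a' b' → a = a' ∧ b = b'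
  lt : ∀ C : Cardinal.{u}, ℵ₀ ≤ C → ∀ a < C.ord, ∀ b < C.ord, t a b < C.ord

/-- the set `X` contains `(a, h a)` for positively many `a ∈ S` -/
def Phh (κ : Ordinal.{u}) (S : Set Ordinal.{u}) (t : Ordinal.{u} → Ordinal.{u} → Ordinal.{u})
    (h : Ordinal.{u} → Ordinal.{u}) (X : Set Ordinal.{u}) : Prop :=
  Pos (ℵ₀ : Cardinal.{u}).ord κ {a | a ∈ S ∧ t a (h a) ∈ X}

/-- PH. -/
def T_PH : Prop := ∀ (en : Ordinal.{u} → ZFSet.{u}) (K : Cardinal.{u}) (S : Set Ordinal.{u}) t h,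
  EN en → K.IsRegular → ℵ₀ < K → DS S → Prf t → (∀ a < K.ord, h a < K.ord) →
  LU en (ℵ₀ : Cardinal.{u}).ord K.ord S h → PO K.ord (Phh K.ord S t h)

/-! ## Almost all points -/

/-- NP. The points which are split by ordinal definable sets are null. -/
def T_NP : Prop := ∀ (en : Ordinal.{u} → ZFSet.{u}) (D G K : Cardinal.{u}) (c : Ordinal.{u}),
  EN en → BG D G → K.IsRegular → G < K → Atom en (ℵ₀ : Cardinal.{u}).ord K.ord c →
    ∃ C, Clb K.ord C ∧ ∀ ν ∈ C, ν < K.ord → ℵ₀ < ν.cof → ν.cof < D → ∀ x,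
      ¬ (Pos (ℵ₀ : Cardinal.{u}).ord ν (E en c ∩ E en x) ∧
        Pos (ℵ₀ : Cardinal.{u}).ord ν (E en c \ E en x))

/-- LF. The least upper bound `h` of the ordinal definable functions below `f`. -/
def T_LF : Prop := ∀ (en : Ordinal.{u} → ZFSet.{u}) (K : Cardinal.{u}) (c f : Ordinal.{u})
  (e : Ordinal.{u} → Ordinal.{u}), EN en → K.IsRegular → ℵ₀ < K →
  Atom en (ℵ₀ : Cardinal.{u}).ord K.ord c →
  (∀ g, Lw (ℵ₀ : Cardinal.{u}).ord K.ord (E en c) (af en g) (af en f) → ∃ i < K.ord,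
    ¬ Pos (ℵ₀ : Cardinal.{u}).ord K.ord {a | a ∈ E en c ∧ af en (e i) a ≠ af en g a}) →
  ∃ (h : Ordinal.{u} → Ordinal.{u}) (θ : Ordinal.{u}) (C : Set Ordinal.{u}),
    (∀ a, h a ≤ af en f a) ∧
    (∀ g, Lw (ℵ₀ : Cardinal.{u}).ord K.ord (E en c) (af en g) (af en f) →
      Lw (ℵ₀ : Cardinal.{u}).ord K.ord (E en c) (af en g) h) ∧
    LU en (ℵ₀ : Cardinal.{u}).ord K.ord (E en c) h ∧
    Clb K.ord C ∧ ∀ ν ∈ C, ν < K.ord → ℵ₀ < ν.cof → ν.cof.ord ≠ θ →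
      (∀ x, ¬ (Pos (ℵ₀ : Cardinal.{u}).ord ν (E en c ∩ E en x) ∧
        Pos (ℵ₀ : Cardinal.{u}).ord ν (E en c \ E en x))) →
      LU en (ℵ₀ : Cardinal.{u}).ord ν (E en c) h

/-- LW2. `LU` at almost all points. -/
def T_LX : Prop := ∀ (en : Ordinal.{u} → ZFSet.{u}) (D G K : Cardinal.{u}) (c : Ordinal.{u}) h
  (θ : Ordinal.{u}) (C : Set Ordinal.{u}) (W : Ultrafilter Ordinal.{u}),
  EN en → BG D G → K.IsRegular → G < K → Atom en (ℵ₀ : Cardinal.{u}).ord K.ord c →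
  WN D K.ord W → Clb K.ord C → (∀ ν ∈ C, ν < K.ord → ℵ₀ < ν.cof → ν.cof.ord ≠ θ →
      (∀ x, ¬ (Pos (ℵ₀ : Cardinal.{u}).ord ν (E en c ∩ E en x) ∧
        Pos (ℵ₀ : Cardinal.{u}).ord ν (E en c \ E en x))) →
      LU en (ℵ₀ : Cardinal.{u}).ord ν (E en c) h) →
    {ν | LU en (ℵ₀ : Cardinal.{u}).ord ν (E en c) h} ∈ W

/-! ## Enumeration of the subsets in HOD -/

/-- the least codes of the subsets of `ξ` -/
def Cs (en : Ordinal.{u} → ZFSet.{u}) (ξ : Ordinal.{u}) : Set Ordinal.{u} :=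
  {x | en x ⊆ ξ.toZFSet ∧ ∀ x' < x, en x' ≠ en x}

/-- `ζ` is an element of the `z`-th subset of `ξ` -/
def PX (en : Ordinal.{u} → ZFSet.{u}) (ξ z ζ : Ordinal.{u}) : Prop :=
  ∃ x, nth (Cs en ξ) z x ∧ ζ ∈ E en x

/-- the number of subsets of `ξ` in HOD -/
noncomputable def pn (en : Ordinal.{u} → ZFSet.{u}) (ξ : Ordinal.{u}) : Ordinal.{u} :=
  sInf {z | ¬ ∃ x, nth (Cs en ξ) z x}

/-- the index of `y` among the subsets of `ξ` -/
noncomputable def ix (en : Ordinal.{u} → ZFSet.{u}) (ξ : Ordinal.{u}) (y : ZFSet.{u}) :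
    Ordinal.{u} := sInf {z | ∃ x, nth (Cs en ξ) z x ∧ en x = y}

/-- IX. -/
def T_IX : Prop := ∀ (en : Ordinal.{u} → ZFSet.{u}), EN en →
  (DO fun w => PX en (w 0) (w 1) (w 2)) ∧ (DR fun a b => b = pn en a) ∧
  (∀ A : Set Ordinal.{u}, DS A → DR fun a b => b = ix en a (os a A)) ∧
  (∀ ξ y, HOD y → y ⊆ ξ.toZFSet → ix en ξ y < pn en ξ ∧
    ∀ ζ < ξ, (PX en ξ (ix en ξ y) ζ ↔ ζ.toZFSet ∈ y)) ∧
  (∀ ξ z, z < pn en ξ → ∃ y, HOD y ∧ y ⊆ ξ.toZFSet ∧ z = ix en ξ y) ∧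
  (∀ (K : Cardinal.{u}) ξ, K.IsRegular → (∃ β < K.ord, PowHOD ξ β) → pn en ξ < K.ord)

/-- EK. Enumeration of the subsets of `K`. -/
def T_EK : Prop := ∀ (D G K : Cardinal.{u}), BG D G → K.IsRegular → G < K →
  ∃ e : Ordinal.{u} → ZFSet.{u}, (∀ ζ, HOD (e ζ) ∧ e ζ ⊆ K.ord.toZFSet) ∧
    ∀ x, HOD x → x ⊆ K.ord.toZFSet → ∃ ζ < K.ord, x = e ζ

/-- EF. Enumeration of the functions below `f`. -/
def T_EF : Prop := ∀ (en : Ordinal.{u} → ZFSet.{u}) (D G K : Cardinal.{u}) (c f : Ordinal.{u}),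
  EN en → BG D G → K.IsRegular → G < K → (∀ a < K.ord, af en f a < K.ord) →
  ∃ e : Ordinal.{u} → Ordinal.{u},
    ∀ g, Lw (ℵ₀ : Cardinal.{u}).ord K.ord (E en c) (af en g) (af en f) → ∃ i < K.ord,
      ¬ Pos (ℵ₀ : Cardinal.{u}).ord K.ord {a | a ∈ E en c ∧ af en (e i) a ≠ af en g a}

/-- PK. All ordinals below `K` have few subsets in HOD. -/
def T_PK : Prop := ∀ (D G K : Cardinal.{u}), BG D G → K.IsRegular → G < K →
  ∀ τ < K.ord, ∃ β < K.ord, PowHOD τ β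

/-! ## The theorem -/

/-- GO. There is no least upper bound strictly below `f`. -/
def T_GO : Prop := ∀ (en : Ordinal.{u} → ZFSet.{u}) (D G K : Cardinal.{u}) (c f : Ordinal.{u})
  (h : Ordinal.{u} → Ordinal.{u}) (W : Ultrafilter Ordinal.{u}),
  EN en → BG D G → K.IsRegular → succ G < K → Atom en (ℵ₀ : Cardinal.{u}).ord K.ord c →
  WN D K.ord W → (∀ a < K.ord, af en f a ≤ pn en a) → (∀ a, h a ≤ af en f a) →
  (∀ g, Lw (ℵ₀ : Cardinal.{u}).ord K.ord (E en c) (af en g) (af en f) →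
    Lw (ℵ₀ : Cardinal.{u}).ord K.ord (E en c) (af en g) h) →
  LU en (ℵ₀ : Cardinal.{u}).ord K.ord (E en c) h →
  {ν | LU en (ℵ₀ : Cardinal.{u}).ord ν (E en c) h} ∈ W →
    ¬ Pos (ℵ₀ : Cardinal.{u}).ord K.ord {a | a ∈ E en c ∧ h a < af en f a}

/-- NF2. Definable sequences of subsets are initial segments of one set. -/
def T_CH : Prop := ∀ (en : Ordinal.{u} → ZFSet.{u}) (K : Cardinal.{u}) (c : Ordinal.{u})
  (k : Ordinal.{u} → Ordinal.{u}), EN en → K.IsRegular → ℵ₀ < K →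
  Atom en (ℵ₀ : Cardinal.{u}).ord K.ord c → (DR fun a b => b = k a) →
    ∃ A, HOD A ∧ A ⊆ K.ord.toZFSet ∧ ¬ Pos (ℵ₀ : Cardinal.{u}).ord K.ord
      {a | a ∈ E en c ∧ ¬ ∀ ζ < a, (PX en a (k a) ζ ↔ ζ.toZFSet ∈ A)}

/-- OC. The case of points of cofinality `ω`. -/
def T_OC : Prop := ∀ (D G K : Cardinal.{u}), BG D G → K.IsRegular → succ G < K →
  ∀ (T : Set Ordinal.{u}) (y : Ordinal.{u} → ZFSet.{u}), Pos (ℵ₀ : Cardinal.{u}).ord K.ord T →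
  (∀ a ∈ T, a < K.ord → HOD (y a) ∧ y a ⊆ a.toZFSet) →
    ∃ A, HOD A ∧ A ⊆ K.ord.toZFSet ∧
      Pos (ℵ₀ : Cardinal.{u}).ord K.ord {a | a ∈ T ∧ y a = A ∩ a.toZFSet}

/-- There are an enumeration `e` of the subsets of `K` in HOD and a club set `C` such that for
`ξ ∈ C` the subsets of `ξ` in HOD are the sets `e ζ ∩ ξ`, `ζ < ξ`. -/
def VF (K : Cardinal.{u}) : Prop := ∃ (C : Set Ordinal.{u}) (e : Ordinal.{u} → ZFSet.{u}),
  Clb K.ord C ∧ (∀ ζ, HOD (e ζ) ∧ e ζ ⊆ K.ord.toZFSet) ∧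
  (∀ x, HOD x → x ⊆ K.ord.toZFSet → ∃ ζ < K.ord, x = e ζ) ∧
  ∀ ξ ∈ C, ξ < K.ord → ∀ x, HOD x → x ⊆ ξ.toZFSet → ∃ ζ < ξ, x = e ζ ∩ ξ.toZFSet

/-- AC. All cofinalities. -/
def T_AC : Prop := ∀ (D G K : Cardinal.{u}), BG D G → K.IsRegular → succ G < K → VF K

/-- VS. `VF` in terms of stationary sets. -/
def T_VS : Prop := ∀ K : Cardinal.{u}, K.IsRegular → ℵ₀ < K → VF K →
  ∀ (S : Set Ordinal.{u}) (y : Ordinal.{u} → ZFSet.{u}),
  (∀ C, Clb K.ord C → ∃ a < K.ord, a ∈ C ∧ a ∈ S) →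
  (∀ a ∈ S, a < K.ord → HOD (y a) ∧ y a ⊆ a.toZFSet) →
    ∃ A, HOD A ∧ A ⊆ K.ord.toZFSet ∧
      ∀ C, Clb K.ord C → ∃ a < K.ord, a ∈ C ∧ a ∈ S ∧ y a = A ∩ a.toZFSet

end HD
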