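import Pool.Agent.H7.HD.Targets8

/-!
# Module P3: a partition in HOD gives disjoint positive sets
-/

open Ordinal Cardinal Order Set
open scoped ZFSet
open _root_.HD

universe u

namespace Pool.Agent.H7.HD.P3

theorem p3 {κ lam : Ordinal.{u}} (h : HODPart κ lam) : ¬ NS κ (ℵ₀ : Cardinal.{u}).ord lam := by
  obtain ⟨F, y, hF, hfun, h1, h2, h3, h4⟩ := h
  intro hNS
  refine hNS (fun b i => i < κ ∧ ∃ S, ZFSet.pair i.toZFSet S ∈ F ∧ b.toZFSet ∈ S) ?_ ?_ ?_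
  · refine DO.and (DO.ltc 1 κ) ?_
    refine ⟨fun v => ∃ S, ZFSet.pair (v 1) S ∈ F ∧ v 0 ∈ S, ?_, fun _ => Iff.rfl⟩
    refine DZ.od (R := fun f v => ∃ S, ZFSet.pair (v 1) S ∈ f ∧ v 0 ∈ S) hF.od ?_
    refine DZ.ex (R := fun S v => ZFSet.pair (v 2) S ∈ v 0 ∧ v 1 ∈ S) ?_
    exact DZ.and (loc_pmem 3 0 1).dz (DZ.mem 2 0)
  · rintro b i i' ⟨hi, S, hS, hb⟩ ⟨hi', S', hS', hb'⟩
    by_contra hne
    exact h4 i hi i' hi' S S' hS hS' hne _ hb hb'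
  · intro i hi C hC
    obtain ⟨S, hS, -⟩ := hfun.2 i.toZFSet (toZFSet_mem_toZFSet_iff.2 hi)
    obtain ⟨b, hb, hbC, hbS⟩ := h1 i hi S hS C hC
    obtain ⟨b', -, he, hcf⟩ := h2 i hi S hS _ hbS
    have e : b = b' := toZFSet_injective he
    subst e
    exact ⟨b, hb, hbC, ⟨hi, S, hS, hbS⟩, by rw [Cf, hcf]⟩

end Pool.Agent.H7.HD.P3
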