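import Pool.Agent.H7.HD.All4

/-!
# MP_e37c09_lc: targets of the sixth list of modules (supercompactness in HOD)
-/

open Ordinal Cardinal Order Set
open scoped ZFSet

universe u

namespace HD

/-! ## Statement-level definitions -/

/-- `τ` is a cardinal in HOD. -/
def CardHOD (τ : Ordinal.{u}) : Prop := ∀ β < τ, ¬ OntoHOD β τ

/-- the cardinals of HOD in the interval `[κ, lam)` -/
def SH (κ lam : Ordinal.{u}) : Set Ordinal.{u} := {τ | κ ≤ τ ∧ τ < lam ∧ CardHOD τ}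

/-- `U` is in HOD, and in HOD it is a `κ`-complete normal fine ultrafilter on `P_κ(lam)`:
`κ` is `lam`-supercompact in HOD. -/
structure HSup (κ lam : Ordinal.{u}) (U : ZFSet.{u}) : Prop where
  fine : HFine κ lam κ U
  normal : ∀ f y, HOD f → ZFSet.IsFunc (PkHOD κ lam) y f →
    (PkHOD κ lam).sep (fun s => ∃ a ∈ s, ZFSet.pair s a ∈ f) ∈ U →
    ∃ a < lam, (PkHOD κ lam).sep (fun s => ZFSet.pair s a.toZFSet ∈ f) ∈ U

/-! ## Closed sets of ordinals -/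

/-- `X` is closed: below `κ` it is an initial segment, it is closed under `e` and `m`, and under
limits of cofinality `ω` which are not above all its elements. -/
structure Cld (κ : Ordinal.{u}) (q : Ordinal.{u} → Ordinal.{u})
    (e m : Ordinal.{u} → Ordinal.{u} → Ordinal.{u}) (X : Set Ordinal.{u}) : Prop where
  ini : ∀ y ∈ X, y < κ → ∀ z < y, z ∈ X
  ce : ∀ b ∈ X, κ ≤ b → ∀ x ∈ X, x < q b → e b x ∈ X
  cm : ∀ b ∈ X, κ ≤ b → ∀ z ∈ X, z < b → m b z ∈ X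
  oc : ∀ x, x.cof = ℵ₀ → (∀ y < x, ∃ z ∈ X, y < z ∧ z < x) → (∃ z ∈ X, x ≤ z) → x ∈ X

/-- `X` is a closed subset of `ν` which is cofinal in `ν`. -/
structure Mb (κ : Ordinal.{u}) (q : Ordinal.{u} → Ordinal.{u})
    (e m : Ordinal.{u} → Ordinal.{u} → Ordinal.{u}) (ν : Ordinal.{u}) (X : Set Ordinal.{u}) :
    Prop where
  cld : Cld κ q e m X
  lt : ∀ z ∈ X, z < ν
  cf : ∀ y < ν, ∃ z ∈ X, y < z

/-- the intersection of all closed cofinal subsets of `ν` -/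
def Zs (κ : Ordinal.{u}) (q : Ordinal.{u} → Ordinal.{u})
    (e m : Ordinal.{u} → Ordinal.{u} → Ordinal.{u}) (ν : Ordinal.{u}) : Set Ordinal.{u} :=
  {z | z < ν ∧ ∀ X, Mb κ q e m ν X → z ∈ X}

/-- `e b` maps `q b` onto `b`, and `m b` is a right inverse of `e b`. -/
structure EM (q : Ordinal.{u} → Ordinal.{u}) (e m : Ordinal.{u} → Ordinal.{u} → Ordinal.{u}) :
    Prop where
  ql : ∀ b, q b ≤ b
  el : ∀ b x, x < q b → e b x < b
  ml : ∀ b z, z < b → m b z < q b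
  em : ∀ b z, z < b → e b (m b z) = z

/-- `q b` is the cardinality of `b` in HOD, and `q`, `e`, `m` are definable. -/
structure QEM (q : Ordinal.{u} → Ordinal.{u}) (e m : Ordinal.{u} → Ordinal.{u} → Ordinal.{u}) :
    Prop where
  em : EM q e m
  dq : DR fun b t => t = q b
  de : DO fun w => w 2 = e (w 0) (w 1)
  dm : DO fun w => w 2 = m (w 0) (w 1)
  card : ∀ b, CardHOD (q b)

/-- QE. -/
def T_QE : Prop := ∃ (q : Ordinal.{u} → Ordinal.{u}) (e m : Ordinal.{u} → Ordinal.{u} → Ordinal.{u}),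
  QEM q e m

/-- QK. -/
def T_QK : Prop := ∀ (q : Ordinal.{u} → Ordinal.{u}) (e m : Ordinal.{u} → Ordinal.{u} → Ordinal.{u}),
  QEM q e m → ∀ (K : Cardinal.{u}) (lam b : Ordinal.{u}), K.ord ≤ b → b < lam →
    q b ∈ SH K.ord lam

/-- IN. Intersections of closed cofinal sets. -/
def T_IN : Prop := ∀ (κ : Ordinal.{u}) (q : Ordinal.{u} → Ordinal.{u})
  (e m : Ordinal.{u} → Ordinal.{u} → Ordinal.{u}) (ν τ : Ordinal.{u}), ℵ₀ < ν.cof → 0 < τ →
  τ.card < ν.cof → ∀ X : Ordinal.{u} → Set Ordinal.{u}, (∀ i < τ, Mb κ q e m ν (X i)) →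
    Mb κ q e m ν {z | ∀ i < τ, z ∈ X i}

/-- LS. The least closed cofinal set. -/
def T_LS : Prop := ∀ (κ : Ordinal.{u}) (q : Ordinal.{u} → Ordinal.{u})
  (e m : Ordinal.{u} → Ordinal.{u} → Ordinal.{u}) (ν τ : Ordinal.{u})
  (g : Ordinal.{u} → Ordinal.{u}), EM q e m → ℵ₀ < ν.cof → τ.card < ν.cof →
  (∀ b, κ ≤ b → b < ν → ∃ i < τ, g i = q b) → (∃ X, Mb κ q e m ν X) →
    Mb κ q e m ν (Zs κ q e m ν)

/-- `f` maps `K` onto `lam` -/
structure Sj (K : Cardinal.{u}) (lam : Ordinal.{u}) (f : Ordinal.{u} → Ordinal.{u}) : Prop where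
  lt : ∀ x < K.ord, f x < lam
  onto : ∀ z < lam, ∃ x < K.ord, f x = z

/-- CB. Closure points of a function of two variables. -/
def T_CB : Prop := ∀ K : Cardinal.{u}, K.IsRegular → ℵ₀ < K →
  ∀ G : Ordinal.{u} → Ordinal.{u} → Ordinal.{u}, (∀ x < K.ord, ∀ y < K.ord, G x y < K.ord) →
    Clb K.ord {γ | 0 < γ ∧ ∀ x < γ, ∀ y < γ, G x y < γ}

/-- CL. Almost all sets `f '' γ` are closed. -/
def T_CL : Prop := ∀ (K : Cardinal.{u}) (lam : Ordinal.{u}) (q : Ordinal.{u} → Ordinal.{u})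
  (e m : Ordinal.{u} → Ordinal.{u} → Ordinal.{u}) (f : Ordinal.{u} → Ordinal.{u}),
  K.IsRegular → ℵ₀ < K → K.ord ≤ lam → EM q e m → Sj K lam f →
    ∃ C, Clb K.ord C ∧ ∀ γ ∈ C, γ < K.ord → ℵ₀ < γ.cof → Cld K.ord q e m (f '' Iio γ)

/-- `n` is a continuous strictly increasing cofinal function from `K` to `lam`. -/
structure Nrm (K : Cardinal.{u}) (lam : Ordinal.{u}) (n : Ordinal.{u} → Ordinal.{u}) : Prop where
  mono : ∀ x y, x < y → y < K.ord → n x < n y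
  lt : ∀ x < K.ord, n x < lam
  unb : ∀ y < lam, ∃ x < K.ord, y < n x
  cont : ∀ x < K.ord, IsSuccLimit x → ∀ y < n x, ∃ z < x, y < n z

/-- NF. -/
def T_NF : Prop := ∀ (K : Cardinal.{u}) (lam : Ordinal.{u}), K.IsRegular → ℵ₀ < K →
  lam.cof = K → ∃ n, Nrm K lam n

/-- TR. Transfer of positive sets between `K` and `lam`. -/
def T_TR : Prop := ∀ (K M : Cardinal.{u}) (lam : Ordinal.{u}) (n : Ordinal.{u} → Ordinal.{u}),
  K.IsRegular → ℵ₀ < K → M.IsRegular → Nrm K lam n →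
  (∀ S : Set Ordinal.{u}, Pos M.ord lam S ↔ Pos M.ord K.ord {γ | n γ ∈ S}) ∧
  ∀ γ < K.ord, IsSuccLimit γ → (n γ).cof = γ.cof

/-- ME. Almost all sets `f '' γ` are closed cofinal subsets of `n γ`. -/
def T_ME : Prop := ∀ (K : Cardinal.{u}) (lam : Ordinal.{u}) (q : Ordinal.{u} → Ordinal.{u})
  (e m : Ordinal.{u} → Ordinal.{u} → Ordinal.{u}) (f n : Ordinal.{u} → Ordinal.{u}),
  K.IsRegular → ℵ₀ < K → K.ord ≤ lam → EM q e m → Sj K lam f → Nrm K lam n →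
    ∃ C, Clb K.ord C ∧ ∀ γ ∈ C, γ < K.ord → ℵ₀ < γ.cof → Mb K.ord q e m (n γ) (f '' Iio γ)

/-- DZ. The least closed cofinal set is definable. -/
def T_DZ : Prop := ∀ (κ : Ordinal.{u}) (q : Ordinal.{u} → Ordinal.{u})
  (e m : Ordinal.{u} → Ordinal.{u} → Ordinal.{u}), QEM q e m →
    DR fun ν z => z ∈ Zs κ q e m ν

/-- TH. The theorem on the cofinality of the regular cardinals of HOD. -/
def T_TH : Prop := ∀ (K : Cardinal.{u}) (lam : Ordinal.{u}), K.IsRegular → ℵ₀ < K →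
  RegHOD lam → K.ord < lam → lam < (succ K).ord → Few lam.cof.ord (SH K.ord lam) →
    lam.cof = ℵ₀ ∨ lam.cof = K

/-! ## The normal ultrafilter -/

/-- `Z β`, for almost all `β < lam` of cofinality `M`, is a cofinal subset of `β` with fewer than
`K` elements, and functions `g` with `g β ∈ Z β` are constant on a positive set. -/
structure ZG (M K : Cardinal.{u}) (lam : Ordinal.{u}) (Z : Ordinal.{u} → Ordinal.{u} → Prop) :
    Prop where
  dr : DR Z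
  few : ¬ Pos M.ord lam {β | ¬ Few K.ord {z | Z β z}}
  unb : ¬ Pos M.ord lam {β | ∃ y < β, ∀ z, Z β z → z ≤ y}
  fod : ∀ (g : Ordinal.{u} → Ordinal.{u}) (S : Set Ordinal.{u}), Pos M.ord lam S →
    (∀ β ∈ S, β < lam → Z β (g β)) → ∃ z < lam, Pos M.ord lam {β | β ∈ S ∧ g β = z}

/-- GZ. -/
def T_GZ : Prop := ∀ (M K : Cardinal.{u}) (lam τ : Ordinal.{u}) (g : Ordinal.{u} → Ordinal.{u}),
  M.IsRegular → ℵ₀ < M → M < K → K.IsRegular → lam.cof = K → K.ord < lam → lam < (succ K).ord →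
  τ.card < M → (∀ x ∈ SH K.ord lam, ∃ i < τ, g i = x) → ∃ Z, ZG M K lam Z

/-- the elements which are in almost all `Z β` -/
def Yz (en : Ordinal.{u} → ZFSet.{u}) (M : Cardinal.{u}) (lam c : Ordinal.{u})
    (Z : Ordinal.{u} → Ordinal.{u} → Prop) : Set Ordinal.{u} :=
  {ξ | ξ < lam ∧ ¬ Pos M.ord lam {β | β ∈ E en c ∧ ¬ Z β ξ}}

/-- YY. -/
def T_YY : Prop := ∀ (en : Ordinal.{u} → ZFSet.{u}) (M K : Cardinal.{u}) (lam c : Ordinal.{u}) Z,
  EN en → ℵ₀ < lam.cof → Atom en M.ord lam c → ZG M K lam Z →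
    DS (Yz en M lam c Z) ∧ (∀ b < lam, ∃ z ∈ Yz en M lam c Z, b ≤ z) ∧
    ∀ g : Ordinal.{u} → Ordinal.{u}, DR (fun a b => b = g a) →
      ¬ Pos M.ord lam {β | β ∈ E en c ∧ ¬ Z β (g β)} →
      ∃ z ∈ Yz en M lam c Z, ¬ Pos M.ord lam {β | β ∈ E en c ∧ g β ≠ z}

/-- the sets of the family: `i` such that the `i`-th element of `Y` is in `Z β` -/
def Xz (Y : Set Ordinal.{u}) (Z : Ordinal.{u} → Ordinal.{u} → Prop) (β i : Ordinal.{u}) : Prop :=
  ∃ z, nth Y i z ∧ Z β z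

/-- FA. -/
def T_FA : Prop := ∀ (en : Ordinal.{u} → ZFSet.{u}) (M K : Cardinal.{u}) (lam c : Ordinal.{u}) Z,
  EN en → ℵ₀ < lam.cof → RegHOD lam → Atom en M.ord lam c → ZG M K lam Z →
    Fam en M K.ord lam c (Xz (Yz en M lam c Z) Z)

/-- A family which is normal for the atom `c` at `lam`. -/
def NoF (en : Ordinal.{u} → ZFSet.{u}) (M : Cardinal.{u}) (lam c : Ordinal.{u})
    (x : Ordinal.{u} → Ordinal.{u} → Prop) : Prop :=
  ∀ R : Ordinal.{u} → Ordinal.{u} → Prop, DR R →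
    ¬ Pos M.ord lam {β | β ∈ E en c ∧ ¬ ∃ i, x β i ∧ R β i} →
    ∃ i < lam, ¬ Pos M.ord lam {β | β ∈ E en c ∧ ¬ R β i}

/-- NO. -/
def T_NO : Prop := ∀ (en : Ordinal.{u} → ZFSet.{u}) (M K : Cardinal.{u}) (lam c : Ordinal.{u}) Z,
  EN en → ℵ₀ < lam.cof → RegHOD lam → Atom en M.ord lam c → ZG M K lam Z →
    NoF en M lam c (Xz (Yz en M lam c Z) Z)

/-- NU. The normal fine ultrafilter. -/
def T_NU : Prop := ∀ en : Ordinal.{u} → ZFSet.{u}, EN en → ∀ (M : Cardinal.{u})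
  (κ lam c : Ordinal.{u}) x, ℵ₀ < lam.cof → lam.cof.ord = κ → Atom en M.ord lam c →
  Fam en M κ lam c x → NoF en M lam c x → ∃ U, HSup κ lam U

/-- LK. -/
def T_LK : Prop := ∀ (D K : Cardinal.{u}) (lam : Ordinal.{u}), GoodN D → K.IsRegular → D < K →
  Few D.ord (SH K.ord lam) → lam < (succ K).ord

/-- SU. Supercompactness in HOD. -/
def T_SU : Prop := ∀ (D K : Cardinal.{u}) (lam : Ordinal.{u}), GoodN D → K.IsRegular → D < K →
  RegHOD lam → K.ord < lam → Few D.ord (SH K.ord lam) → lam.cof = K → ∃ U, HSup K.ord lam U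

/-- The theorem. -/
def T_M8 : Prop := ∀ δ : Ordinal.{u}, Extendible δ → CaseA δ ∨ ∀ l < δ, ∃ δ₀ < δ, l < δ₀ ∧
  ∀ K : Cardinal.{u}, K.IsRegular → δ₀ < K.ord → ∀ lam : Ordinal.{u}, RegHOD lam → K.ord < lam →
    Few δ₀ (SH K.ord lam) → Few lam.cof.ord (SH K.ord lam) →
      lam.cof = ℵ₀ ∨ (lam.cof = K ∧ ∃ U, HSup K.ord lam U)

end HD
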