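import Pool.Agent.H7.HD.Targets10
import Pool.Agent.H54.CL.Cod

/-!
# Targets of the eleventh list of modules: stationary sets and normal measures of HOD
(MP_e37c09_lc)
-/

open Ordinal Cardinal Order Set
open scoped ZFSet

universe u

namespace HD

/-- the ordinal `ω`, as the initial ordinal of `ℵ₀` -/
noncomputable abbrev om : Ordinal.{u} := (ℵ₀ : Cardinal.{u}).ord

/-! ## Exceptional cofinalities, coverings -/

/-- `τ` is a cardinal of HOD with `K < τ ≤ lam` whose cofinality is not `K` -/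
def Exc (K : Cardinal.{u}) (lam τ : Ordinal.{u}) : Prop :=
  K.ord < τ ∧ τ ≤ lam ∧ CardHOD τ ∧ τ.cof ≠ K

/-- the cofinality of `ν` is uncountable and it is not the cofinality of a `τ` as in `Exc` -/
def NE (K : Cardinal.{u}) (lam ν : Ordinal.{u}) : Prop :=
  ℵ₀ < ν.cof ∧ ∀ τ, Exc K lam τ → τ.cof ≠ ν.cof

/-- COV. Covering of a positive part of a regressive family of elements of `lam`. -/
def T_COV : Prop := ∀ en : Ordinal.{u} → ZFSet.{u}, EN en → ∀ (K : Cardinal.{u})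
  (lam : Ordinal.{u}), K.IsRegular → ℵ₀ < K → lam < (succ K).ord →
  ∀ f : Ordinal.{u} → Ordinal.{u}, (∀ x < K.ord, f x < lam) →
  ∃ C, Clb K.ord C ∧ ∀ ν ≤ K.ord, (ν ∈ C ∨ ν = K.ord) → NE K lam ν →
    ∀ (T : Set Ordinal.{u}) (g : Ordinal.{u} → Ordinal.{u}), Pos om ν T →
    (∀ γ ∈ T, γ < ν → g γ < γ) →
      ∃ z, ∃ i < ν, Pos om ν {γ | γ ∈ T ∧ ∃ j < i, af en z j = f (g γ)}

/-- SRG. The successor cardinals of HOD are regular in HOD. -/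
def T_SRG : Prop := ∀ τ : Ordinal.{u}, CardHOD τ → ω < τ →
  (∃ σ < τ, ∀ x, σ < x → x < τ → ¬ CardHOD x) → RegHOD τ

/-- EX. The exceptional cofinalities are less than `D`. -/
def T_EX : Prop := ∀ (D K : Cardinal.{u}) (lam : Ordinal.{u}), D.IsRegular → ℵ₀ < D →
  K.IsRegular → D < K → lam < (succ K).ord →
  Few D.ord {τ | K.ord < τ ∧ τ ≤ lam ∧ CardHOD τ} → ∀ τ, Exc K lam τ → τ.cof < D

/-- NX. Almost all points are not exceptional. -/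
def T_NX : Prop := ∀ (D K : Cardinal.{u}) (lam : Ordinal.{u}) (W : Ultrafilter Ordinal.{u}),
  D.IsRegular → ℵ₀ < D → K.IsRegular → D < K → WN D K.ord W →
  Few D.ord {τ | Exc K lam τ} → {ν | NE K lam ν} ∈ W

/-! ## Enumeration of the subsets of `K` in HOD -/

/-- `Q β`, `β < lam`, are the subsets of `K` in HOD, `Q` is definable, and `f` maps `K` onto
`lam`. -/
structure EQ (K : Cardinal.{u}) (lam : Ordinal.{u}) (Q : Ordinal.{u} → Ordinal.{u} → Prop)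
    (f : Ordinal.{u} → Ordinal.{u}) : Prop where
  dr : DR Q
  enu : ∀ X : Set Ordinal.{u}, DS X → ∃ β < lam, ∀ a < K.ord, (Q β a ↔ a ∈ X)
  sj : Sj K lam f
  lt : lam < (succ K).ord

/-- QF. Existence of the enumeration. -/
def T_QF : Prop := ∀ (D G K : Cardinal.{u}), BG D G → K.IsRegular → G < K →
  ∃ lam Q f, EQ K lam Q f ∧
    ∀ τ, K.ord < τ → τ ≤ lam → CardHOD τ → ∀ β < τ, ¬ PowHOD K.ord β

/-- VQ. `VF` in terms of `Q` and `f`. -/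
def T_VQ : Prop := ∀ (K : Cardinal.{u}) (lam : Ordinal.{u}) Q f, K.IsRegular → ℵ₀ < K → VF K →
  EQ K lam Q f → ∃ C, Clb K.ord C ∧ ∀ ν ∈ C, ν < K.ord → ∀ X : Set Ordinal.{u}, DS X →
    ∃ ζ < ν, ∀ a < ν, (Q (f ζ) a ↔ a ∈ X)

/-! ## Good points -/

/-- `γ` is good for `ξ` -/
def Gdd (Q : Ordinal.{u} → Ordinal.{u} → Prop) (f : Ordinal.{u} → Ordinal.{u})
    (t : Ordinal.{u} → Ordinal.{u} → Ordinal.{u}) (γ ξ : Ordinal.{u}) : Prop :=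
  ∀ ζ < γ, (∀ a < γ, Q (f ζ) (t a ξ)) → ∀ a < ξ, Q (f ζ) (t a ξ)

/-- GDD. Almost all `γ` are good for `ξ`. -/
def T_GDD : Prop := ∀ (K : Cardinal.{u}) (lam : Ordinal.{u}) Q f t, K.IsRegular → ℵ₀ < K →
  Prf t → EQ K lam Q f → ∃ C, Clb K.ord C ∧ ∀ ξ ∈ C, ξ < K.ord → NE K lam ξ → RegHOD ξ →
    ¬ Pos om ξ {γ | ¬ Gdd Q f t γ ξ}

/-- the `γ` such that there is a `ξ ∈ X` for which `γ` is good -/
def Tg (K : Cardinal.{u}) (X : Set Ordinal.{u}) (Q : Ordinal.{u} → Ordinal.{u} → Prop)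
    (f : Ordinal.{u} → Ordinal.{u}) (t : Ordinal.{u} → Ordinal.{u} → Ordinal.{u}) :
    Set Ordinal.{u} :=
  {γ | ∃ ξ, γ < ξ ∧ ξ < K.ord ∧ ξ ∈ X ∧ Gdd Q f t γ ξ}

/-- the least `ξ ∈ X` for which `γ` is good -/
noncomputable def gg (K : Cardinal.{u}) (X : Set Ordinal.{u})
    (Q : Ordinal.{u} → Ordinal.{u} → Prop) (f : Ordinal.{u} → Ordinal.{u})
    (t : Ordinal.{u} → Ordinal.{u} → Ordinal.{u}) (γ : Ordinal.{u}) : Ordinal.{u} :=
  sInf {ξ | γ < ξ ∧ ξ < K.ord ∧ ξ ∈ X ∧ Gdd Q f t γ ξ}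

/-- TP. The set `Tg` is positive. -/
def T_TP : Prop := ∀ (K : Cardinal.{u}) (lam : Ordinal.{u}) Q f t (X : Set Ordinal.{u}),
  K.IsRegular → ℵ₀ < K → Prf t → EQ K lam Q f →
  (∀ C, Clb K.ord C → ∃ ξ < K.ord, ξ ∈ C ∧ ξ ∈ X ∧ RegHOD ξ ∧ NE K lam ξ) →
    Pos om K.ord (Tg K X Q f t)

/-- `ν` is less than `K`, its cofinality is greater than `D'` and less than `D`, and it is not
exceptional -/
def St (D' D K : Cardinal.{u}) (lam ν : Ordinal.{u}) : Prop :=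
  ν < K.ord ∧ D' < ν.cof ∧ ν.cof < D ∧ NE K lam ν

/-- CO. Almost all points of cofinality `ω` are in `Tg`. -/
def T_CO1 : Prop := ∀ (D' D K : Cardinal.{u}) (lam : Ordinal.{u}) Q f t (X C : Set Ordinal.{u})
  (W : Ultrafilter Ordinal.{u}), D'.IsRegular → D.IsRegular → ℵ₀ < D → D' < D → K.IsRegular →
  D < K → WN D K.ord W → Prf t → EQ K lam Q f → Few D.ord {τ | Exc K lam τ} → Clb K.ord C →
  (∀ ν ∈ C, St D' D K lam ν → ν ∈ X ∧ RegHOD ν) →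
    ¬ Pos om K.ord {γ | γ ∉ Tg K X Q f t}

/-! ## The class of `(T, g)` -/

/-- `g` maps `T` into `X`, and it is good for all definable sets almost everywhere -/
structure LN (en : Ordinal.{u} → ZFSet.{u}) (t : Ordinal.{u} → Ordinal.{u} → Ordinal.{u})
    (X : Set Ordinal.{u}) (ν : Ordinal.{u}) (T : Set Ordinal.{u})
    (g : Ordinal.{u} → Ordinal.{u}) : Prop where
  lt : ∀ γ ∈ T, γ < ν → γ < g γ ∧ g γ < ν ∧ g γ ∈ X
  gd : ∀ z, ¬ Pos om ν {γ | γ ∈ T ∧ (∀ a < γ, t a (g γ) ∈ E en z) ∧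
    ∃ a < g γ, t a (g γ) ∉ E en z}

/-- `(T, g)` is minimal with this property -/
def LM (en : Ordinal.{u} → ZFSet.{u}) (t : Ordinal.{u} → Ordinal.{u} → Ordinal.{u})
    (X : Set Ordinal.{u}) (ν : Ordinal.{u}) (T : Set Ordinal.{u})
    (g : Ordinal.{u} → Ordinal.{u}) : Prop :=
  LN en t X ν T g ∧ ∀ (T' : Set Ordinal.{u}) (g' : Ordinal.{u} → Ordinal.{u}),
    LN en t X ν T' g' → ¬ Pos om ν {γ | γ ∈ T' ∧ (γ ∉ T ∨ g' γ < g γ)}

/-- LMM. Almost all `ν` are such that `(Tg, gg)` is minimal at `ν`. -/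
def T_LMM : Prop := ∀ en : Ordinal.{u} → ZFSet.{u}, EN en → ∀ (K : Cardinal.{u})
  (lam : Ordinal.{u}) Q f t (X : Set Ordinal.{u}), K.IsRegular → ℵ₀ < K → VF K → Prf t →
  EQ K lam Q f → (∀ ξ ∈ X, RegHOD ξ) → ∃ C, Clb K.ord C ∧
    ∀ ν ≤ K.ord, (ν ∈ C ∨ ν = K.ord) → NE K lam ν →
      LM en t X ν (Tg K X Q f t) (gg K X Q f t)

/-- UQ. Uniqueness. -/
def T_UQ : Prop := ∀ en : Ordinal.{u} → ZFSet.{u}, EN en → ∀ t X (ν : Ordinal.{u}) T g T' g',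
  ℵ₀ < ν.cof → LM en t X ν T g → LM en t X ν T' g' →
    ¬ Pos om ν {γ | γ ∈ T ∧ (γ ∉ T' ∨ g γ ≠ g' γ)}

/-- LD. Definability. -/
def T_LD : Prop := ∀ en : Ordinal.{u} → ZFSet.{u}, EN en → ∀ t (X : Set Ordinal.{u}), Prf t →
  DS X → ∀ Y : Ordinal.{u} → Ordinal.{u} → (ℕ → Ordinal.{u}) → Prop,
  (DO fun w => Y (w 0) (w 1) (fun n => w (n + 2))) → ∀ i : ℕ,
    DO fun w => ∃ (T : Set Ordinal.{u}) (g : Ordinal.{u} → Ordinal.{u}),
      LM en t X (w i) T g ∧ Pos om (w i) {γ | γ ∈ T ∧ Y γ (g γ) w}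

/-- SH2. Splitting (a general form of SH). -/
def T_SH2 : Prop := ∀ (D K : Cardinal.{u}) (κ : Ordinal.{u}) (W : Ultrafilter Ordinal.{u})
  (A : Ordinal.{u} → Ordinal.{u} → Prop), D.IsRegular → ℵ₀ < D → K.IsRegular → D < K →
  D ≤ κ.cof → WN D κ W → DR A →
  (∀ ν, IsSuccLimit ν → ν.cof < D → Few D.ord {i | A ν i}) →
  (∀ i < K.ord, {ν | A ν i} ∈ W) → ∀ τ, 0 < τ → τ < K.ord → HODPart τ K.ord

/-- the positivity notion given by `T` and `g` -/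
def Pg (κ : Ordinal.{u}) (T : Set Ordinal.{u}) (g : Ordinal.{u} → Ordinal.{u})
    (t : Ordinal.{u} → Ordinal.{u} → Ordinal.{u}) (Y : Set Ordinal.{u}) : Prop :=
  Pos om κ {γ | γ ∈ T ∧ t γ (g γ) ∈ Y}

/-- PO2. -/
def T_PO2 : Prop := ∀ en : Ordinal.{u} → ZFSet.{u}, EN en → ∀ t X (K : Cardinal.{u}) T g,
  Prf t → DS X → K.IsRegular → ℵ₀ < K → LM en t X K.ord T g → PO K.ord (Pg K.ord T g t)

/-- NO2. There are no long sequences of disjoint classes. -/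
def T_NO2 : Prop := ∀ en : Ordinal.{u} → ZFSet.{u}, EN en → ∀ t X T g (D G K : Cardinal.{u})
  (W : Ultrafilter Ordinal.{u}), Prf t → DS X → BG D G → K.IsRegular → succ G < K →
  WN D K.ord W → {ν | LM en t X ν T g} ∈ W → ∀ s : Ordinal.{u} → Ordinal.{u} → Prop, DR s →
  (∀ b i i', s b i → s b i' → i = i') → ¬ ∀ i < (succ G).ord, Pg K.ord T g t {b | s b i}

/-- `c` is an atom for `P` -/
def AtP (en : Ordinal.{u} → ZFSet.{u}) (P : Set Ordinal.{u} → Prop) (c : Ordinal.{u}) : Prop :=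
  P (E en c) ∧ ∀ x, ¬ (P (E en c ∩ E en x) ∧ P (E en c \ E en x))

/-- CVR. A definable family of atoms (an adaptation of ZA). -/
def T_CVR : Prop := ∀ en : Ordinal.{u} → ZFSet.{u}, EN en → ∀ (G : Cardinal.{u})
  (κ : Ordinal.{u}) (P : Set Ordinal.{u} → Prop), PO κ P → G.IsRegular → ℵ₀ < G → G < κ.cof →
  (∀ s : Ordinal.{u} → Ordinal.{u} → Prop, DR s → (∀ b i i', s b i → s b i' → i = i') →
    ¬ ∀ i < G.ord, P {b | s b i}) →
  (∀ X : Set Ordinal.{u}, DS X → P X → ∃ c, E en c ⊆ X ∧ AtP en P c) →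
  ∃ I : Set Ordinal.{u}, DS I ∧ Few G.ord I ∧ (∀ c ∈ I, AtP en P c) ∧
    ¬ P {b | ∀ c ∈ I, b ∉ E en c}

/-! ## Normal measures of HOD in terms of definable sets of ordinals -/

/-- `W` is a normal measure of HOD on `κ`, in terms of definable sets of ordinals -/
structure NMe (κ : Ordinal.{u}) (W : ZFSet.{u}) : Prop where
  lim : IsSuccLimit κ
  hod : HOD W
  sub : ∀ x ∈ W, x ⊆ κ.toZFSet
  ult : ∀ X : Set Ordinal.{u}, DS X → (os κ X ∈ W ↔ os κ Xᶜ ∉ W)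
  up : ∀ X Y : Set Ordinal.{u}, DS X → DS Y → os κ X ∈ W → (∀ b < κ, b ∈ X → b ∈ Y) →
    os κ Y ∈ W
  int : ∀ X Y : Set Ordinal.{u}, DS X → DS Y → os κ X ∈ W → os κ Y ∈ W → os κ (X ∩ Y) ∈ W
  gt : ∀ a < κ, os κ {b | a < b} ∈ W
  nrm : ∀ R : Ordinal.{u} → Ordinal.{u} → Prop, DR R → (∀ a < κ, os κ {b | R a b} ∈ W) →
    os κ {b | ∀ a < b, R a b} ∈ W

/-- HI. -/
def T_HMI : Prop := ∀ (κ : Ordinal.{u}) (W : ZFSet.{u}), HMeas κ W ↔ NMe κ W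

/-- the limit along `W` of the measures with codes `c b` -/
noncomputable def lmz (en : Ordinal.{u} → ZFSet.{u}) (c : Ordinal.{u} → Ordinal.{u})
    (κ : Ordinal.{u}) (W : ZFSet.{u}) : ZFSet.{u} :=
  ZFSet.sep (fun x => HOD x ∧ os κ {b | x ∩ b.toZFSet ∈ en (c b)} ∈ W)
    (ZFSet.powerset κ.toZFSet)

/-- LI. The limit of measures. -/
def T_LI : Prop := ∀ en : Ordinal.{u} → ZFSet.{u}, EN en → ∀ c : Ordinal.{u} → Ordinal.{u},
  (DR fun a b => b = c a) → ∀ (κ : Ordinal.{u}) (W : ZFSet.{u}), NMe κ W →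
  os κ {b | NMe b (en (c b))} ∈ W → NMe κ (lmz en c κ W) ∧ MLt κ (lmz en c κ W) W ∧
    ∀ X : Set Ordinal.{u}, DS X →
      (os κ X ∈ lmz en c κ W ↔ os κ {b | os b X ∈ en (c b)} ∈ W)

/-- ML. The Mitchell order in terms of codes. -/
def T_MLC : Prop := ∀ en : Ordinal.{u} → ZFSet.{u}, EN en → ∀ (κ : Ordinal.{u})
  (U W : ZFSet.{u}), NMe κ W → MLt κ U W → ∃ c : Ordinal.{u} → Ordinal.{u},
  (DR fun a b => b = c a) ∧ os κ {b | NMe b (en (c b))} ∈ W ∧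
    ∀ X : Set Ordinal.{u}, DS X → (os κ X ∈ U ↔ os κ {b | os b X ∈ en (c b)} ∈ W)

/-- DG. Definability of the Mitchell order with codes. -/
def T_DG : Prop := ∀ en : Ordinal.{u} → ZFSet.{u}, EN en →
  DO fun w => MGe (w 0) (w 1) (en (w 2))

/-- the order type of the set of the `π j < a`, `j < ξ` -/
noncomputable def Rk (π : Ordinal.{u} → Ordinal.{u}) (ξ a : Ordinal.{u}) : Ordinal.{u} :=
  sInf {i | ¬ ∃ z, nth {z | z < a ∧ ∃ j < ξ, z = π j} i z}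

/-- RK. -/
def T_RK : Prop := ∀ π : Ordinal.{u} → Ordinal.{u},
  (∀ ξ a ζ, ζ < Rk π ξ a ↔ ∃ j < ξ, π j < a ∧ ζ = Rk π ξ (π j)) ∧
  ((DR fun a b => b = π a) → (DO fun w => w 2 = Rk π (w 0) (w 1)) ∧
    ∀ ξ a, 0 < ξ → Rk π ξ a < hs ξ) ∧
  ∀ κ ζ, (∀ j < κ, π j < ζ) → (∀ z < ζ, ∃ j < κ, z = π j) → Rk π κ ζ = ζ

/-- DN. The Mitchell rank of the members of a sequence of measures. -/
def T_DN : Prop := ∀ en : Ordinal.{u} → ZFSet.{u}, EN en → ∀ π : Ordinal.{u} → Ordinal.{u},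
  (DR fun a b => b = π a) → ∀ (a κ : Ordinal.{u}) (c : Ordinal.{u} → Ordinal.{u})
  (U U' : ZFSet.{u}), (DR fun a b => b = c a) → NMe κ U →
  os κ {b | NMe b (en (c b))} ∈ U →
  (∀ X : Set Ordinal.{u}, DS X → (os κ X ∈ U' ↔ os κ {b | os b X ∈ en (c b)} ∈ U)) →
  MGe κ (Rk π κ a) U' → os κ {b | MGe b (Rk π b a) (en (c b))} ∈ U

/-- UP. Measures of large Mitchell rank below a given measure. -/
def T_UP : Prop := ∀ π : Ordinal.{u} → Ordinal.{u}, (DR fun a b => b = π a) →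
  ∀ (a κ : Ordinal.{u}) (W : ZFSet.{u}), NMe κ W →
  os κ {b | ∃ U, MGe b (Rk π b a) U} ∈ W → ∃ W', MGe κ (Rk π κ a) W' ∧ MLt κ W' W

/-! ## The measures given by `(T, g)` and an atom -/

/-- the filter given by `T`, `g` and `c` at `ν` -/
noncomputable def wz (en : Ordinal.{u} → ZFSet.{u}) (ν : Ordinal.{u}) (T : Set Ordinal.{u})
    (g : Ordinal.{u} → Ordinal.{u}) (t : Ordinal.{u} → Ordinal.{u} → Ordinal.{u})
    (c : Ordinal.{u}) : ZFSet.{u} :=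
  ZFSet.sep (fun x => HOD x ∧ ¬ Pos om ν {γ | γ ∈ T ∧ t γ (g γ) ∈ E en c ∧ (g γ).toZFSet ∉ x})
    (ZFSet.powerset ν.toZFSet)

/-- WH. The filter is in HOD. -/
def T_WH : Prop := ∀ en : Ordinal.{u} → ZFSet.{u}, EN en → ∀ t X (ν : Ordinal.{u}) T g c,
  Prf t → DS X → ℵ₀ < ν.cof → LM en t X ν T g → HOD (wz en ν T g t c)

/-- NM. The measure at `K`. -/
def T_NM : Prop := ∀ en : Ordinal.{u} → ZFSet.{u}, EN en → ∀ t X (K : Cardinal.{u}) T g c,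
  Prf t → DS X → K.IsRegular → ℵ₀ < K → LM en t X K.ord T g → AtP en (Pg K.ord T g t) c →
    NMe K.ord (wz en K.ord T g t c) ∧ os K.ord X ∈ wz en K.ord T g t c

/-- NR. Reflection of null sets. -/
def T_NR : Prop := ∀ K : Cardinal.{u}, K.IsRegular → ℵ₀ < K → ∀ X : Set Ordinal.{u},
  ¬ Pos om K.ord X → ∃ C, Clb K.ord C ∧ ∀ ν ∈ C, ν < K.ord → ℵ₀ < ν.cof → ¬ Pos om ν X

/-- WN2. The measures at almost all `ν`. -/
def T_WN2 : Prop := ∀ en : Ordinal.{u} → ZFSet.{u}, EN en → ∀ t X (K : Cardinal.{u})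
  (lam : Ordinal.{u}) Q f T g c, Prf t → DS X → K.IsRegular → ℵ₀ < K → VF K → EQ K lam Q f →
  LM en t X K.ord T g → AtP en (Pg K.ord T g t) c → ∃ C, Clb K.ord C ∧
    ∀ ν ∈ C, ν < K.ord → ℵ₀ < ν.cof → LM en t X ν T g → Pg ν T g t (E en c) →
      NMe ν (wz en ν T g t c) ∧ os ν X ∈ wz en ν T g t c

/-! ## The theorems -/

/-- CS2. Cofinalities of the points of a stationary set. -/
def T_CS2 : Prop := ∀ (D K : Cardinal.{u}) (X : Set Ordinal.{u}), ℵ₀ < D → K.IsRegular →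
  D < K → (∀ C, Clb K.ord C → ∃ a < K.ord, a ∈ C ∧ a ∈ X) →
  (∃ M : Cardinal.{u}, M.IsRegular ∧ M < D ∧ Pos M.ord K.ord X) ∨
    ∀ C, Clb K.ord C → ∃ a < K.ord, a ∈ C ∧ a ∈ X ∧ D ≤ a.cof

/-- the cardinals of HOD greater than `K` and at most `2 ^ K` (computed in HOD) -/
def PC (K : Cardinal.{u}) : Set Ordinal.{u} :=
  {τ | K.ord < τ ∧ CardHOD τ ∧ ∀ β < τ, ¬ PowHOD K.ord β}

/-- N. Each stationary set in HOD belongs to a normal measure of HOD. -/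
def T_N : Prop := ∀ D K : Cardinal.{u}, GoodN D → GoodW D → K.IsRegular → succ D < K →
  Few D.ord (PC K) → ∀ x, HOD x → x ⊆ K.ord.toZFSet →
  (∀ C, Clb K.ord C → ∃ a < K.ord, a ∈ C ∧ a.toZFSet ∈ x) → ∃ U, HMeas K.ord U ∧ x ∈ U

/-- HS. Local enumeration of the ordinals below the successor in HOD. -/
def T_HS : Prop := ∀ K : Cardinal.{u}, K.IsRegular → ℵ₀ < K → VF K →
  ∃ (π : Ordinal.{u} → Ordinal.{u} → Ordinal.{u}) (A : Ordinal.{u} → Ordinal.{u})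
    (C : Set Ordinal.{u}), (∀ η, DR fun a b => b = π η a) ∧ Clb K.ord C ∧
    ∀ ν ∈ C, ν < K.ord → ∀ ζ < hs ν, 0 < ζ → ∃ η < ν, Rk (π η) ν (A η) = ζ

/-- HSD. -/
def T_HSD : Prop := (DR.{u} fun a b => b = hs a) ∧ (DS.{u} {a | RegHOD a}) ∧
  ∀ κ ζ : Ordinal.{u}, 0 < ζ → ζ < hs κ → ∃ π : Ordinal.{u} → Ordinal.{u},
    (DR fun a b => b = π a) ∧ (∀ j < κ, π j < ζ) ∧ ∀ z < ζ, ∃ j < κ, z = π j

/-- PB. The induction. -/
def T_PB : Prop := ∀ (D' D K : Cardinal.{u}) (lam : Ordinal.{u}) Q f, GoodN D' → GoodW D' →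
  GoodN D → GoodW D → D' < D → K.IsRegular → succ D < K → EQ K lam Q f →
  Few D'.ord {τ | Exc K lam τ} → ∀ π : Ordinal.{u} → Ordinal.{u}, (DR fun a b => b = π a) →
  ∀ a, ∃ C, Clb K.ord C ∧ ∀ ν ∈ C, St D' D K lam ν → ∃ U, MGe ν (Rk π ν a) U

/-- MO. The Mitchell order of `K` in HOD is greater than the successor of `K` in HOD. -/
def T_MO : Prop := ∀ D' D K : Cardinal.{u}, GoodN D' → GoodW D' → GoodN D → GoodW D → D' < D →
  K.IsRegular → succ D < K → Few D'.ord (PC K) → (∃ U, MGe K.ord (hs K.ord) U) ∧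
    ∃ Ξ : Set Ordinal.{u}, Few D'.ord Ξ ∧ ∃ C, Clb K.ord C ∧ ∀ ν ∈ C, ν < K.ord →
      D' < ν.cof → ν.cof < D → ν.cof.ord ∉ Ξ → ∃ U, MGe ν (hs ν) U

end HD
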