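import Pool.Agent.H7.HD.Unp

/-!
# Numbering of the formulas and definability of the satisfaction relation
-/

open Ordinal Cardinal Order Set
open scoped ZFSet

universe u

namespace HD

/-! ## Numbering of the formulas -/

/-- the formula with number `c` -/
def fm (c : ℕ) : Fml :=
  if c.unpair.1 = 0 then .mem c.unpair.2.unpair.1 c.unpair.2.unpair.2
  else if c.unpair.1 = 1 then .eq c.unpair.2.unpair.1 c.unpair.2.unpair.2
  else if h : c.unpair.1 = 2 ∧ c.unpair.2.unpair.1 < c then .neg (fm c.unpair.2.unpair.1)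
  else if h : c.unpair.1 = 3 ∧ c.unpair.2.unpair.1 < c ∧ c.unpair.2.unpair.2 < c then
    .and (fm c.unpair.2.unpair.1) (fm c.unpair.2.unpair.2)
  else if h : c.unpair.1 = 4 ∧ c.unpair.2.unpair.1 < c then .ex (fm c.unpair.2.unpair.1)
  else .mem 0 0
termination_by c
decreasing_by
  · exact h.2
  · exact h.2.1
  · exact h.2.2
  · exact h.2

theorem fm_eq (c : ℕ) : fm c =
    if c.unpair.1 = 0 then .mem c.unpair.2.unpair.1 c.unpair.2.unpair.2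
    else if c.unpair.1 = 1 then .eq c.unpair.2.unpair.1 c.unpair.2.unpair.2
    else if c.unpair.1 = 2 ∧ c.unpair.2.unpair.1 < c then .neg (fm c.unpair.2.unpair.1)
    else if c.unpair.1 = 3 ∧ c.unpair.2.unpair.1 < c ∧ c.unpair.2.unpair.2 < c then
      .and (fm c.unpair.2.unpair.1) (fm c.unpair.2.unpair.2)
    else if c.unpair.1 = 4 ∧ c.unpair.2.unpair.1 < c then .ex (fm c.unpair.2.unpair.1)
    else .mem 0 0 := by
  rw [fm]
  rfl

theorem lt_pair {a b : ℕ} (h : 0 < a) : b < Nat.pair a b := by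
  have := Nat.add_le_pair a b
  omega

theorem lt_pair3 {o a b : ℕ} (h : 0 < o) : a < Nat.pair o (Nat.pair a b) ∧
    b < Nat.pair o (Nat.pair a b) :=
  ⟨lt_of_le_of_lt (Nat.left_le_pair a b) (lt_pair h),
    lt_of_le_of_lt (Nat.right_le_pair a b) (lt_pair h)⟩

theorem fm_surj (φ : Fml) : ∃ c, fm c = φ := by
  induction φ with
  | mem i j => exact ⟨Nat.pair 0 (Nat.pair i j), by rw [fm]; simp⟩
  | eq i j => exact ⟨Nat.pair 1 (Nat.pair i j), by rw [fm]; simp⟩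
  | neg φ ih =>
    obtain ⟨c, rfl⟩ := ih
    refine ⟨Nat.pair 2 (Nat.pair c 0), ?_⟩
    have := (lt_pair3 (o := 2) (a := c) (b := 0) (by norm_num)).1
    rw [fm]
    simp [this]
  | and φ ψ ih1 ih2 =>
    obtain ⟨c, rfl⟩ := ih1
    obtain ⟨d, rfl⟩ := ih2
    refine ⟨Nat.pair 3 (Nat.pair c d), ?_⟩
    have h1 := (lt_pair3 (o := 3) (a := c) (b := d) (by norm_num)).1
    have h2 := (lt_pair3 (o := 3) (a := c) (b := d) (by norm_num)).2
    rw [fm]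
    simp [h1, h2]
  | ex φ ih =>
    obtain ⟨c, rfl⟩ := ih
    refine ⟨Nat.pair 4 (Nat.pair c 0), ?_⟩
    have := (lt_pair3 (o := 4) (a := c) (b := 0) (by norm_num)).1
    rw [fm]
    simp [this]

theorem unpair2_le (c : ℕ) : c.unpair.2.unpair.1 ≤ c ∧ c.unpair.2.unpair.2 ≤ c :=
  ⟨(Nat.unpair_left_le _).trans (Nat.unpair_right_le _),
    (Nat.unpair_right_le _).trans (Nat.unpair_right_le _)⟩

/-- the formula with number `c` only depends on the variables `0, ..., c` -/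
theorem fm_vars (c : ℕ) : ∀ (M : ZFSet.{u} → Prop) (v v' : ℕ → ZFSet.{u}),
    (∀ n ≤ c, v n = v' n) → (Sat M (fm c) v ↔ Sat M (fm c) v') := by
  induction c using Nat.strong_induction_on with
  | _ c ih =>
    intro M v v' h
    have h1 := h _ (unpair2_le c).1
    have h2 := h _ (unpair2_le c).2
    rw [fm]
    split_ifs with h3 h4 h5 h6 h7
    · show _ ∈ _ ↔ _ ∈ _
      rw [h1, h2]
    · show _ = _ ↔ _ = _
      rw [h1, h2]
    · exact not_congr (ih _ h5.2 M v v' fun n hn => h n (by omega))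
    · exact and_congr (ih _ h6.2.1 M v v' fun n hn => h n (by omega))
        (ih _ h6.2.2 M v v' fun n hn => h n (by omega))
    · refine exists_congr fun x => and_congr_right fun _ => ih _ h7.2 M _ _ ?_
      rintro (_ | n) hn
      · rfl
      · exact h n (by omega)
    · show v 0 ∈ v 0 ↔ v' 0 ∈ v' 0
      rw [h 0 (Nat.zero_le _)]

/-! ## Sequences -/

/-- the sequence `w` as a set -/
noncomputable def sq (w : ℕ → ZFSet.{u}) : ZFSet.{u} :=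
  ZFSet.range (fun n : ℕ => ZFSet.pair (nz n) (w n))

theorem mem_sq {w : ℕ → ZFSet.{u}} {p : ZFSet.{u}} :
    p ∈ sq w ↔ ∃ n : ℕ, p = ZFSet.pair (nz n) (w n) := by
  unfold sq
  rw [ZFSet.mem_range]
  exact exists_congr fun n => eq_comm

theorem pair_mem_sq {w : ℕ → ZFSet.{u}} {n : ℕ} {x : ZFSet.{u}} :
    ZFSet.pair (nz n) x ∈ sq w ↔ x = w n := by
  rw [mem_sq]
  constructor
  · rintro ⟨m, h⟩
    obtain ⟨h1, rfl⟩ := ZFSet.pair_injective h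
    rw [nz_inj.1 h1]
  · rintro rfl
    exact ⟨n, rfl⟩

theorem sq_inj {w w' : ℕ → ZFSet.{u}} (h : sq w = sq w') : w = w' := by
  funext n
  exact pair_mem_sq.1 (h ▸ pair_mem_sq.2 rfl)

/-- `s` is a sequence of elements of `A` -/
def IsSeq (A s : ZFSet.{u}) : Prop := ZFSet.IsFunc (ω : Ordinal.{u}).toZFSet A s

theorem isSeq_sq {A : ZFSet.{u}} {w : ℕ → ZFSet.{u}} : IsSeq A (sq w) ↔ ∀ n, w n ∈ A := by
  unfold IsSeq ZFSet.IsFunc
  constructor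
  · rintro ⟨h1, -⟩ n
    exact (ZFSet.pair_mem_prod.1 (h1 (pair_mem_sq.2 rfl))).2
  · intro h
    refine ⟨fun p hp => ?_, fun z hz => ?_⟩
    · obtain ⟨n, rfl⟩ := mem_sq.1 hp
      exact ZFSet.pair_mem_prod.2 ⟨nz_omega n, h n⟩
    · obtain ⟨n, rfl⟩ := mem_omega.1 hz
      exact ⟨w n, pair_mem_sq.2 rfl, fun y hy => pair_mem_sq.1 hy⟩

theorem isSeq_iff {A s : ZFSet.{u}} : IsSeq A s ↔ ∃ w : ℕ → ZFSet.{u}, (∀ n, w n ∈ A) ∧ s = sq w := by
  constructor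
  · intro h
    have h2 : ∀ n : ℕ, ∃! x, ZFSet.pair (nz n) x ∈ s := fun n => h.2 _ (nz_omega n)
    choose w hw hw' using h2
    have hs : s = sq w := by
      ext p
      rw [mem_sq]
      constructor
      · intro hp
        obtain ⟨a, ha, b, hb, rfl⟩ := ZFSet.mem_prod.1 (h.1 hp)
        obtain ⟨n, rfl⟩ := mem_omega.1 ha
        exact ⟨n, by rw [← hw' n b hp]⟩
      · rintro ⟨n, rfl⟩
        exact hw n
    refine ⟨w, ?_, hs⟩
    rw [hs, isSeq_sq] at h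
    exact h
  · rintro ⟨w, h, rfl⟩
    exact isSeq_sq.2 h

theorem dz_isSeq (i j : ℕ) : DZ.{u} (fun v => IsSeq (v i) (v j)) := by
  have h : DZ.{u} (fun v => ∃ x, x = (ω : Ordinal.{u}).toZFSet ∧ ZFSet.IsFunc x (v i) (v j)) :=
    DZ.ex ((loc_omega 0).dz.and (loc_func 0 (i + 1) (j + 1)).dz)
  exact h.congr fun v => by simp [IsSeq]

/-- `s'` is the sequence `x, s` -/
def Shf (x s s' : ZFSet.{u}) : Prop := ZFSet.pair ∅ x ∈ s' ∧
  ∀ n ∈ (ω : Ordinal.{u}).toZFSet, ∀ y, ZFSet.pair n y ∈ s → ZFSet.pair (insert n n) y ∈ s'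

theorem shf_iff {x : ZFSet.{u}} {w w' : ℕ → ZFSet.{u}} :
    Shf x (sq w) (sq w') ↔ w' = cons x w := by
  unfold Shf
  rw [← nz_zero, pair_mem_sq]
  constructor
  · rintro ⟨h1, h2⟩
    funext n
    rcases n with _ | n
    · exact h1.symm
    · have := h2 _ (nz_omega n) _ (pair_mem_sq.2 rfl)
      rw [← nz_succ, pair_mem_sq] at this
      exact this.symm
  · rintro rfl
    refine ⟨rfl, fun n hn y hy => ?_⟩
    obtain ⟨n, rfl⟩ := mem_omega.1 hn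
    rw [pair_mem_sq] at hy
    rw [← nz_succ, pair_mem_sq, hy]
    rfl

theorem dz_shf (i j k : ℕ) : DZ.{u} (fun v => Shf (v i) (v j) (v k)) := by
  have h : DZ.{u} (fun v => (∃ e, e = ∅ ∧ ZFSet.pair e (v i) ∈ v k) ∧ ∀ n,
      n ∈ (ω : Ordinal.{u}).toZFSet → ∀ y, ZFSet.pair n y ∈ v j →
      ∃ m, m = insert n n ∧ ZFSet.pair m y ∈ v k) :=
    (DZ.ex ((dz_empty _).and (dz_pmem _ _ _))).and (DZ.all ((dz_omega 0).imp (DZ.all
      ((dz_pmem _ _ _).imp (DZ.ex ((dz_ins _ _ _).and (dz_pmem _ _ _)))))))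
  refine h.congr fun v => ?_
  unfold Shf
  simp only [exists_eq_left]

/-! ## Satisfaction -/

/-- the set of the sequences in `A` which satisfy the formula with number `c` -/
noncomputable def RS (A : ZFSet.{u}) (c : ℕ) : ZFSet.{u} :=
  ZFSet.sep (fun s => ∃ w, s = sq w ∧ Sat (· ∈ A) (fm c) w)
    (ZFSet.powerset (ZFSet.prod (ω : Ordinal.{u}).toZFSet A))

theorem mem_RS {A s : ZFSet.{u}} {c : ℕ} : s ∈ RS A c ↔
    ∃ w : ℕ → ZFSet.{u}, (∀ n, w n ∈ A) ∧ s = sq w ∧ Sat (· ∈ A) (fm c) w := by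
  unfold RS
  rw [ZFSet.mem_sep, ZFSet.mem_powerset]
  constructor
  · rintro ⟨h1, w, rfl, h⟩
    refine ⟨w, fun n => ?_, rfl, h⟩
    exact (ZFSet.pair_mem_prod.1 (h1 (pair_mem_sq.2 rfl))).2
  · rintro ⟨w, h1, rfl, h⟩
    exact ⟨(isSeq_sq.2 h1).1, w, rfl, h⟩

theorem sq_mem_RS {A : ZFSet.{u}} {w : ℕ → ZFSet.{u}} {c : ℕ} : sq w ∈ RS A c ↔
    (∀ n, w n ∈ A) ∧ Sat (· ∈ A) (fm c) w := by
  rw [mem_RS]
  constructor
  · rintro ⟨w', h1, h2, h3⟩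
    rw [sq_inj h2]
    exact ⟨h1, h3⟩
  · rintro ⟨h1, h2⟩
    exact ⟨w, h1, rfl, h2⟩

/-- the recursion for `RS` -/
def RC (a c f s o i j : ZFSet.{u}) : Prop :=
  (o = nz 0 ∧ ∃ x : ZFSet.{u}, ∃ y : ZFSet.{u}, ZFSet.pair i x ∈ s ∧ ZFSet.pair j y ∈ s ∧ x ∈ y) ∨
  (o = nz 1 ∧ ∃ x : ZFSet.{u}, ZFSet.pair i x ∈ s ∧ ZFSet.pair j x ∈ s) ∨
  (o = nz 2 ∧ i ∈ c ∧ ¬ ∃ r : ZFSet.{u}, ZFSet.pair i r ∈ f ∧ s ∈ r) ∨
  (o = nz 3 ∧ i ∈ c ∧ j ∈ c ∧ (∃ r : ZFSet.{u}, ZFSet.pair i r ∈ f ∧ s ∈ r) ∧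
    ∃ r : ZFSet.{u}, ZFSet.pair j r ∈ f ∧ s ∈ r) ∨
  (o = nz 4 ∧ i ∈ c ∧ ∃ r : ZFSet.{u}, ZFSet.pair i r ∈ f ∧ ∃ x ∈ a, ∃ s' ∈ r, Shf x s s')

theorem dz_RC : DZ.{u} (fun v => RC (v 0) (v 1) (v 2) (v 3) (v 4) (v 5) (v 6)) := by
  refine ((dz_nz _ _).and (DZ.ex (DZ.ex ((dz_pmem _ _ _).and ((dz_pmem _ _ _).and
    (DZ.mem _ _)))))).or (((dz_nz _ _).and (DZ.ex ((dz_pmem _ _ _).and (dz_pmem _ _ _)))).or
    (((dz_nz _ _).and ((DZ.mem _ _).and (DZ.ex ((dz_pmem _ _ _).and (DZ.mem _ _))).not)).or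
    (((dz_nz _ _).and ((DZ.mem _ _).and ((DZ.mem _ _).and ((DZ.ex ((dz_pmem _ _ _).and
      (DZ.mem _ _))).and (DZ.ex ((dz_pmem _ _ _).and (DZ.mem _ _))))))).or
    ((dz_nz _ _).and ((DZ.mem _ _).and (DZ.ex ((dz_pmem _ _ _).and (DZ.exMem 1 (DZ.exMem 1
      (dz_shf _ _ _))))))))))

/-- `RS` as a function on the ordinals -/
noncomputable def RF (A : ZFSet.{u}) (c : Ordinal.{u}) : ZFSet.{u} := if c < ω then RS A (no c) else ∅

theorem RF_nat (A : ZFSet.{u}) (n : ℕ) : RF A (n : Ordinal.{u}) = RS A n := by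
  unfold RF
  rw [if_pos (natCast_lt_omega0 n), no_nat]

theorem pair_gr_RF {A : ZFSet.{u}} {m n : ℕ} {r : ZFSet.{u}} :
    ZFSet.pair (nz m) r ∈ gr (RF A) (n : Ordinal.{u}) ↔ m < n ∧ r = RS A m := by
  unfold nz
  rw [pair_mem_gr, RF_nat]
  exact and_congr_left fun _ => by exact_mod_cast Iff.rfl

theorem RC_iff {A : ZFSet.{u}} {n : ℕ} {w : ℕ → ZFSet.{u}} (hw : ∀ n, w n ∈ A) :
    RC A (nz n) (gr (RF A) (n : Ordinal.{u})) (sq w) (nz n.unpair.1) (nz n.unpair.2.unpair.1)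
      (nz n.unpair.2.unpair.2) ↔ Sat (· ∈ A) (fm n) w := by
  have hE : ∀ m, (∃ r : ZFSet.{u}, ZFSet.pair (nz m) r ∈ gr (RF A) (n : Ordinal.{u}) ∧ sq w ∈ r) ↔
      m < n ∧ Sat (· ∈ A) (fm m) w := by
    intro m
    constructor
    · rintro ⟨r, hr, h⟩
      obtain ⟨h1, rfl⟩ := pair_gr_RF.1 hr
      exact ⟨h1, (sq_mem_RS.1 h).2⟩
    · rintro ⟨h1, h2⟩
      exact ⟨_, pair_gr_RF.2 ⟨h1, rfl⟩, sq_mem_RS.2 ⟨hw, h2⟩⟩
  have hX : ∀ m, (∃ r : ZFSet.{u}, ZFSet.pair (nz m) r ∈ gr (RF A) (n : Ordinal.{u}) ∧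
      ∃ x ∈ A, ∃ s' ∈ r, Shf x (sq w) s') ↔ m < n ∧ Sat (· ∈ A) (.ex (fm m)) w := by
    intro m
    constructor
    · rintro ⟨r, hr, x, hx, s', hs', h⟩
      obtain ⟨h1, rfl⟩ := pair_gr_RF.1 hr
      obtain ⟨w', hw', rfl, h2⟩ := mem_RS.1 hs'
      rw [shf_iff] at h
      subst h
      exact ⟨h1, x, hx, h2⟩
    · rintro ⟨h1, x, hx, h2⟩
      refine ⟨_, pair_gr_RF.2 ⟨h1, rfl⟩, x, hx, sq (cons x w), sq_mem_RS.2 ⟨?_, h2⟩, shf_iff.2 rfl⟩
      rintro (_ | n)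
      · exact hx
      · exact hw n
  unfold RC
  simp only [hE, hX, nz_inj, nz_mem, pair_mem_sq]
  rw [fm_eq n]
  set o := n.unpair.1
  set i := n.unpair.2.unpair.1
  set j := n.unpair.2.unpair.2
  by_cases h0 : o = 0
  · simp [h0, Sat]
  by_cases h1 : o = 1
  · simp [h1, Sat, eq_comm]
  by_cases h2 : o = 2
  · by_cases h : i < n
    · simp [h2, h, Sat]
    · simp [h2, h, Sat, ZFSet.mem_irrefl]
  by_cases h3 : o = 3
  · by_cases h : i < n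
    · by_cases h' : j < n
      · simp [h3, h, h', Sat]
      · simp [h3, h', Sat, ZFSet.mem_irrefl]
    · simp [h3, h, Sat, ZFSet.mem_irrefl]
  by_cases h4 : o = 4
  · by_cases h : i < n
    · simp [h4, h, Sat]
    · simp [h4, h, Sat, ZFSet.mem_irrefl]
  simp [h0, h1, h2, h3, h4, Sat, ZFSet.mem_irrefl]

theorem dz_RF : DZ.{u} fun v => (v 1).IsOrdinal ∧ v 2 = RF (v 0) (v 1).rank := by
  refine DZ.rec (Φ := fun a c f y =>
    (c ∈ (ω : Ordinal.{u}).toZFSet ∧ ∃ o : ZFSet.{u}, ∃ i : ZFSet.{u}, ∃ j : ZFSet.{u},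
      Dec c o i j ∧ ∀ s, s ∈ y ↔ IsSeq a s ∧ RC a c f s o i j) ∨
    (c ∉ (ω : Ordinal.{u}).toZFSet ∧ y = ∅)) ?_ ?_
  · refine ((dz_omega 1).and (DZ.ex (DZ.ex (DZ.ex ((dz_Dec _ _ _ _).and (DZ.all
      ((DZ.mem _ _).iff ((dz_isSeq _ _).and ?_)))))))).or ((dz_omega 1).not.and (dz_empty 3))
    exact dz_RC.ren fun n => if n = 0 then 4 else if n = 1 then 5 else if n = 2 then 6 else
      if n = 3 then 0 else if n = 4 then 3 else if n = 5 then 2 else 1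
  · intro a c y
    by_cases hc : c < ω
    · obtain ⟨n, rfl⟩ := lt_omega0.1 hc
      have hm : (n : Ordinal.{u}).toZFSet ∈ (ω : Ordinal.{u}).toZFSet := nz_omega n
      rw [RF_nat]
      have hR : ∀ s, s ∈ RS a n ↔ IsSeq a s ∧ RC a (nz n) (gr (RF a) (n : Ordinal.{u})) s
          (nz n.unpair.1) (nz n.unpair.2.unpair.1) (nz n.unpair.2.unpair.2) := by
        intro s
        rw [mem_RS, isSeq_iff]
        constructor
        · rintro ⟨w, hw, rfl, h⟩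
          exact ⟨⟨w, hw, rfl⟩, (RC_iff hw).2 h⟩
        · rintro ⟨⟨w, hw, rfl⟩, h⟩
          exact ⟨w, hw, rfl, (RC_iff hw).1 h⟩
      constructor
      · rintro rfl
        exact Or.inl ⟨hm, _, _, _, ⟨n, rfl, rfl, rfl, rfl⟩, hR⟩
      · rintro (⟨-, o, i, j, ⟨m, h1, rfl, rfl, rfl⟩, h⟩ | ⟨h, -⟩)
        · have : n = m := nz_inj.1 h1
          subst this
          ext s
          rw [h, hR]
          rfl
        · exact absurd hm h
    · have hm : c.toZFSet ∉ (ω : Ordinal.{u}).toZFSet := by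
        rw [toZFSet_mem_toZFSet_iff]
        exact hc
      unfold RF
      rw [if_neg hc]
      constructor
      · rintro rfl
        exact Or.inr ⟨hm, rfl⟩
      · rintro (⟨h, -⟩ | ⟨-, h⟩)
        · exact absurd h hm
        · exact h

end HD
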