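import Pool.Agent.H7.HD.AT
import Pool.Agent.H7.HD.NU

/-!
# Modules OM and R2
-/

open Ordinal Cardinal Order Set
open scoped ZFSet
open _root_.HD

universe u

namespace Pool.Agent.H7.HD.OM

theorem powHOD_mono {τ κ β : Ordinal.{u}} (h : τ ≤ κ) (hP : PowHOD κ β) : PowHOD τ β := by
  obtain ⟨f, y, h1, h2, h3⟩ := hP
  exact ⟨f, y, h1, h2, fun x hx hxs => h3 x hx fun z hz => by
    obtain ⟨a, ha, rfl⟩ := mem_toZFSet_iff.1 (hxs hz)
    exact toZFSet_mem_toZFSet_iff.2 (ha.trans_le h)⟩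

/-- OM. -/
theorem om (hP2 : T_P2.{u}) : T_OM.{u} := by
  rintro K ⟨hK, hK0, κ, hκ0, hκK, ⟨β, hβ, hpow⟩, hno⟩
  obtain ⟨en, hen⟩ := All.en.{u}
  have hNS : NS κ (ℵ₀ : Cardinal.{u}).ord K.ord := by
    by_contra h
    exact hno (hP2 K κ hK hK0 hκ0 h)
  have hcf : K.ord.cof = K := hK.cof_ord
  obtain ⟨c, -, hc⟩ := Pool.Agent.H7.HD.AT.at_ en hen ℵ₀ κ K.ord (by rw [hcf]; exact hK0)
    (by rw [hcf]; exact Cardinal.lt_ord.1 hκK)
    (fun τ hτ => ⟨β, by rw [hcf]; exact Cardinal.lt_ord.1 hβ, powHOD_mono hτ.le hpow⟩) hNS univ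
    ((DO.cst True).congr fun _ => by simp)
    (All.vc ℵ₀ K.ord Cardinal.isRegular_aleph0 (by rw [hcf]; exact hK0))
  exact All.kc en hen _ K c hK hK0 hc

/-- R2. -/
theorem r2 : T_R2.{u} := by
  intro en N K lam d hen hd hN hl0 hK hreg hKl hno
  have hKr := Pool.Agent.H20.HD.CS.regHOD_ord hK
  have key : ∀ κ, K.ord ≤ κ → κ < lam → RegHOD κ → κ.cof = lam.cof := by
    intro κ h1 h2 h3
    obtain ⟨A, hA⟩ := All.ca N κ lam hN h2 fun τ h4 h5 h6 => hno τ (h1.trans h4) h5 h6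
    obtain ⟨x, hx⟩ := All.ke en hen N κ lam d A hN hl0 hd hreg h2 hA
    exact All.cf en hen N κ lam d x hl0 hd hx h3 h2
  have h1 := key K.ord le_rfl hKl hKr
  rw [hK.cof_ord] at h1
  have h2 : ∀ τ, K.ord ≤ τ → τ ≤ lam → RegHOD τ → τ.cof = K := by
    intro τ hτ hτl hτr
    rcases hτl.eq_or_lt with rfl | hlt
    · exact h1.symm
    · rw [key τ hτ hlt hτr, h1]
  refine ⟨?_, h2⟩
  by_contra hc
  push Not at hc
  have hsK : (succ K).IsRegular := Cardinal.isRegular_succ hK.aleph0_le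
  have h3 := h2 (succ K).ord (Cardinal.ord_le_ord.2 (le_succ K)) hc
    (Pool.Agent.H20.HD.CS.regHOD_ord hsK)
  rw [hsK.cof_ord] at h3
  exact absurd h3 (lt_succ K).ne'

/-- Existence of the situation `Tw` above an `ω`-strongly measurable cardinal. -/
theorem t2 (hSV : T_SV.{u}) (hP2 : T_P2.{u}) (hRF : T_RF.{u}) {D K₀ N K : Cardinal.{u}}
    {lam : Ordinal.{u}} (hD : StrComp D) (hS : OmSM K₀) (hDK₀ : D < K₀) (hN : N.IsRegular)
    (hND : N < D) (hK : K.IsRegular) (hK₀K : K₀ < K) (hreg : RegHOD lam) (hKl : K.ord < lam)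
    (hcf : K₀ < lam.cof) (hno : ∀ τ, K.ord ≤ τ → τ < lam → RegHOD τ → τ.cof ≠ N) :
    ∃ en M c d x, Tw en N M K lam c d x := by
  have h0 : ℵ₀ < lam.cof := hS.2.1.trans hcf
  have hlim := Pool.Agent.H7.HD.OM.om hP2 K₀ hS
  -- no splitting
  have hNS : ∀ M : Cardinal.{u}, M.IsRegular → M < D → NS K₀.ord M.ord lam := by
    intro M hM hMD
    by_contra h
    obtain ⟨hK₀, -, κ, hκ0, hκK, -, hno⟩ := hS
    exact hno (hSV D K₀ M lam hD hK₀ hDK₀ hM hMD (hDK₀.trans hcf).le h κ hκ0 hκK)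
  obtain ⟨en, hen⟩ := All.en.{u}
  have hat : ∀ M : Cardinal.{u}, M.IsRegular → M < D → ∀ X : Set Ordinal.{u}, DS X →
      Pos M.ord lam X → ∃ c, E en c ⊆ X ∧ Atom en M.ord lam c := by
    intro M hM hMD
    refine Pool.Agent.H7.HD.AT.at_ en hen M K₀.ord lam h0 (by rw [Cardinal.card_ord]; exact hcf)
      (fun τ hτ => ?_) (hNS M hM hMD)
    obtain ⟨β, hβ, hpow⟩ := hlim τ hτ
    exact ⟨β, (Cardinal.lt_ord.1 hβ).trans hcf, hpow⟩
  have hvc : Pos N.ord lam univ := All.vc N lam hN (hND.trans (hDK₀.trans hcf))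
  obtain ⟨d, -, hd⟩ := hat N hN hND univ ((DO.cst True).congr fun _ => by simp) hvc
  obtain ⟨hlk, hrc⟩ := r2 en N K lam d hen hd hN h0 hK hreg hKl hno
  obtain ⟨A, hA⟩ := All.ca N K.ord lam hN hKl hno
  obtain ⟨x, hx⟩ := All.ke en hen N K.ord lam d A hN h0 hd hreg hKl hA
  obtain ⟨M, hM, hNM, hMD, hpos⟩ := hRF D N lam (E en d) hD hN hND (hDK₀.trans hcf) hd.pos
  have hDS : DS {ν | Pos N.ord ν (E en d)} := by
    have h1 : DO fun w => Pos N.ord (w 0) {a | a ∈ E en d} := by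
      refine DO.sub (R := fun m w => Pos m (w 0) {a | a ∈ E en d}) N.ord ?_
      refine All.da 0 1 (fun a _ => a ∈ E en d) ?_
      exact (DO.sect (P := fun b w => b ∈ E en (w 0))
        (Pool.Agent.H17.HD.HB.mem_do (All.ea en hen).1 0 1) (fun _ => d))
    exact h1
  obtain ⟨c, hcS, hc⟩ := hat M hM hMD _ hDS hpos
  refine ⟨en, M, c, d, x, ⟨hen, hN, hM, hK, hNM, hMD.trans (hDK₀.trans hK₀K), hKl, hlk, hreg, hrc,
    hc, hd, hx, ?_⟩⟩
  intro h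
  obtain ⟨b, -, -, hb, -⟩ := h univ (Pool.Agent.H69.HD.HB2.clb_univ2 h0.le)
  exact hb.2 (hcS hb.1)

/-- S2. -/
theorem s2 (hSV : T_SV.{u}) (hP2 : T_P2.{u}) (hRF : T_RF.{u}) (hZX : T_ZX.{u}) (hFC : T_FC.{u}) :
    T_S2.{u} := by
  intro D K₀ N K lam hD hS hDK₀ hN hND hK hK₀K hreg hKl hcf hno
  obtain ⟨en, M, c, d, x, hT⟩ := t2 hSV hP2 hRF hD hS hDK₀ hN hND hK hK₀K hreg hKl hcf hno
  have hlam : ℵ₀ < lam.cof := hS.2.1.trans hcf
  obtain ⟨Z, hZ⟩ := hZX en N M K lam c d x hT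
  obtain ⟨h1, h2⟩ := hFC en M K lam c Z hT.hen hlam hreg hT.ac hZ
  have hcf : lam.cof = K := hT.rc lam hKl.le le_rfl hreg
  exact ⟨hT.lk, hcf, Pool.Agent.H7.HD.NU.nu en hT.hen M K.ord lam c (Xz (Yz en M lam c Z) Z) hlam
    (by rw [hcf]) hT.ac h1 h2⟩

end Pool.Agent.H7.HD.OM
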