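import Pool.Agent.H7.HD.RG
import Pool.Agent.H7.HD.OM
import Pool.Agent.H12.HD.ZA

/-!
# MO. The Mitchell order above an `ω`-strongly measurable cardinal
-/

open Ordinal Cardinal Order Set
open scoped ZFSet

universe u

namespace Pool.Agent.H7.HD.MO

open _root_.HD

theorem mo (hSV : T_SV.{u}) (hP2 : T_P2.{u}) {D K₀ K : Cardinal.{u}} (hD : StrComp D)
    (hS : OmSM K₀) (hDK₀ : D < K₀) (hK : K.IsRegular) (hK₀K : K₀ < K) :
    ∀ ξ < D.ord, ∃ U, MGe K.ord ξ U := by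
  have hKc : K.ord.cof = K := hK.cof_ord
  have h0 : ℵ₀ < K := hS.2.1.trans hK₀K
  have hDK : D < K := hDK₀.trans hK₀K
  have hlim := Pool.Agent.H7.HD.OM.om hP2 K₀ hS
  have hNS : ∀ M : Cardinal.{u}, M.IsRegular → M < D → NS K₀.ord M.ord K.ord := by
    intro M hM hMD
    by_contra h
    obtain ⟨hK₀, -, κ, hκ0, hκK, -, hno⟩ := hS
    exact hno (hSV D K₀ M K.ord hD hK₀ hDK₀ hM hMD (by rw [hKc]; exact hDK.le) h κ hκ0 hκK)
  obtain ⟨en, hen⟩ := All.en.{u}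
  have hat : ∀ M : Cardinal.{u}, M.IsRegular → M < D → ∀ X : Set Ordinal.{u}, DS X →
      Pos M.ord K.ord X → ∃ c, E en c ⊆ X ∧ Atom en M.ord K.ord c := by
    intro M hM hMD
    refine Pool.Agent.H7.HD.AT.at_ en hen M K₀.ord K.ord (by rw [hKc]; exact h0)
      (by rw [Cardinal.card_ord, hKc]; exact hK₀K) (fun τ hτ => ?_) (hNS M hM hMD)
    obtain ⟨β, hβ, hpow⟩ := hlim τ hτ
    exact ⟨β, by rw [hKc]; exact (Cardinal.lt_ord.1 hβ).trans hK₀K, hpow⟩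
  have hZA : T_ZA.{u} := Pool.Agent.H12.HD.ZA.X All.ea All.da All.db All.va All.vh
  have key : ∀ ξ : Ordinal.{u}, ξ < D.ord → ∃ M : Cardinal.{u}, M.IsRegular ∧ M < D ∧
      ∃ c, Atom en M.ord K.ord c ∧ MGe K.ord ξ (uz en M.ord K.ord c) := by
    intro ξ
    induction ξ using WellFoundedLT.induction with
    | ind ξ ih =>
      intro hξ
      have ih' : ∀ ζ : Ordinal.{u}, ∃ (M : Cardinal.{u}) (c : Ordinal.{u}), ζ < ξ → M.IsRegular ∧
          M < D ∧ Atom en M.ord K.ord c ∧ MGe K.ord ζ (uz en M.ord K.ord c) := by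
        intro ζ
        by_cases hζ : ζ < ξ
        · obtain ⟨M, h1, h2, c, h3, h4⟩ := ih ζ hζ (hζ.trans hξ)
          exact ⟨M, c, fun _ => ⟨h1, h2, h3, h4⟩⟩
        · exact ⟨0, 0, fun h => absurd h hζ⟩
      choose Mf cf hf using ih'
      obtain ⟨N, hN, hND, hMN, hpos⟩ := Pool.Agent.H7.HD.RG.rg (lam := K.ord) hD
        (by rw [hKc]; exact hDK) hξ Mf (fun ζ => E en (cf ζ))
        (fun ζ hζ => ⟨(hf ζ hζ).1, (hf ζ hζ).2.1, (hf ζ hζ).2.2.1.pos⟩)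
      -- an atom which meets this set
      obtain ⟨I, -, ⟨τ, hτ, e0, he0⟩, hatI, hnI⟩ := hZA en hen K₀ N K.ord hS.1 hS.2.1 hN
        (hND.trans hDK₀) (by rw [hKc]; exact hK₀K) (All.ha _ _ _ (hNS N hN hND)) (hat N hN hND)
      have hcf : ℵ₀ < K.ord.cof := by rw [hKc]; exact h0
      obtain ⟨d, hdI, hdpos⟩ : ∃ d ∈ I, Pos N.ord K.ord
          {ν | ν ∈ E en d ∧ ∀ ζ < ξ, Pos (Mf ζ).ord ν (E en (cf ζ))} := by
        by_contra hc
        push Not at hc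
        have h1 : ¬ Pos N.ord K.ord {ν | ∃ i < τ, ν ∈ {ν | e0 i ∈ I ∧ ν ∈ E en (e0 i) ∧
            ∀ ζ < ξ, Pos (Mf ζ).ord ν (E en (cf ζ))}} := by
          refine All.va N.ord K.ord hcf τ (by
            rw [hKc]
            exact (Cardinal.lt_ord.1 hτ).trans hK₀K) _ fun i hi h => ?_
          by_cases h2 : e0 i ∈ I
          · exact hc _ h2 (h.mono fun ν _ hν _ => hν.2)
          · obtain ⟨b, -, -, hb, -⟩ := h univ (Pool.Agent.H69.HD.HB2.clb_univ2 hcf.le)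
            exact h2 hb.1
        have h2 := null_union All.va hcf h1 hnI
        refine h2 (hpos.mono fun ν _ hν _ => ?_)
        by_cases h3 : ∀ c ∈ I, ν ∉ E en c
        · exact Or.inr h3
        · push Not at h3
          obtain ⟨c, hc1, hc2⟩ := h3
          obtain ⟨a, ha, hac⟩ := he0 c hc1
          exact Or.inl ⟨a, ha, by rw [hac]; exact ⟨hc1, hc2, hν⟩⟩
      have hd := hatI d hdI
      refine ⟨N, hN, hND, d, hd, ?_⟩
      rw [MGe]
      refine ⟨All.he en hen _ _ _ (All.hd en _ K d hK h0 hd), ?_⟩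
      rintro ⟨ζ, hζ⟩
      have hζ' : ζ < ξ := hζ
      obtain ⟨g1, g2, g3, g4⟩ := hf ζ hζ'
      refine ⟨uz en (Mf ζ).ord K.ord (cf ζ), g4, ?_⟩
      refine All.hk en (Mf ζ) N K (cf ζ) d
        ⟨hen, g1, hN, hK, hMN ζ hζ', hND.trans hDK, g3, hd, ?_⟩
      have hDS : DS {ν | Pos (Mf ζ).ord ν (E en (cf ζ))} := by
        have h1 : DO fun w => Pos (Mf ζ).ord (w 0) {a | a ∈ E en (cf ζ)} := by
          refine DO.sub (R := fun m w => Pos m (w 0) {a | a ∈ E en (cf ζ)}) (Mf ζ).ord ?_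
          refine All.da 0 1 (fun a _ => a ∈ E en (cf ζ)) ?_
          exact (DO.sect (P := fun b w => b ∈ E en (w 0))
            (Pool.Agent.H17.HD.HB.mem_do (All.ea en hen).1 0 1) (fun _ => cf ζ))
        exact h1
      obtain ⟨x, hx⟩ := (All.ea en hen).2.2.1 _ hDS K.ord
      intro h
      refine hd.ult x ⟨hdpos.mono fun ν hν h1 _ => ⟨h1.1, ?_⟩, h.mono fun ν hν h1 _ => ⟨h1.1, ?_⟩⟩
      · rw [hx]
        exact ⟨h1.2 ζ hζ', hν⟩
      · rw [hx]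
        exact fun h2 => h1.2 h2.1
  intro ξ hξ
  obtain ⟨M, -, -, c, -, h⟩ := key ξ hξ
  exact ⟨_, h⟩

end Pool.Agent.H7.HD.MO
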