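import Pool.Agent.H7.HD.Fin3
import Pool.Agent.H7.HD.MO
import Pool.Agent.H7.HD.All6
import Pool.Agent.H59.HD.SV
import Pool.Agent.H33.HD.NA

/-!
# The final statements
-/

open Ordinal Cardinal Order Set
open scoped ZFSet

universe u

namespace HD

namespace All

/-- extendible cardinals: supercompactness in HOD -/
theorem m10 (δ : Ordinal.{u}) (hδ : Extendible δ) : CaseA δ ∨
    ((∀ l < δ, ∃ δ₀ < δ, l < δ₀ ∧ ∀ K : Cardinal.{u}, K.IsRegular → δ₀ < K.ord →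
      (∀ ξ < δ₀, ∃ U, MGe K.ord ξ U) ∧
      ∃ τ₀, K.ord < τ₀ ∧ τ₀ < (succ K).ord ∧ RegHOD τ₀ ∧ τ₀.cof.ord ≤ δ₀ ∧
        (Few τ₀.cof.ord (SH K.ord τ₀) → τ₀.cof = ℵ₀) ∧
        ∀ lam, K.ord < lam → lam < τ₀ → RegHOD lam → lam.cof = K ∧ ∃ U, HSup K.ord lam U) ∧
    ∀ M : Cardinal.{u}, M.IsRegular → M.ord < δ → ∃ δ₀ < δ, ∀ κ lam : Ordinal.{u},
      RegHOD lam → κ < lam → δ₀ < lam.cof.ord →
      (∀ τ, κ ≤ τ → τ < lam → RegHOD τ → τ.cof ≠ M) →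
        (∃ U, HFine κ lam lam.cof.ord U) ∧
        ((RegHOD κ ∨ ∃ K : Cardinal.{u}, κ = K.ord ∧ δ₀ < κ) → κ.cof = lam.cof) ∧
        ∀ K : Cardinal.{u}, K.IsRegular → κ = K.ord → δ₀ < κ → ∃ U, HSup κ lam U) := by
  by_cases hA : CaseA δ
  · exact Or.inl hA
  refine Or.inr ⟨fun l hl => ?_, ((m9 δ hδ).resolve_left hA).2⟩
  obtain ⟨D, h1, h2, h3⟩ := asm_refl xa xb yl ra hδ hA l hl
  refine ⟨D.ord, h1, h2, fun K hK hDK => ?_⟩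
  have hDK' := Cardinal.ord_lt_ord.1 hDK
  obtain ⟨τ₀, g1, g2, g3, g4, g5, g6⟩ := fin_tau rr sp th h3 hK hDK'
  refine ⟨hl' h3 hK hDK', τ₀, g1, g2, g3, Cardinal.ord_le_ord.2 g4, g5, g6⟩
where
  hl' {D K : Cardinal.{u}} (h3 : GoodN D) (hK : K.IsRegular) (hDK : D < K) :
      ∀ ξ < D.ord, ∃ U, MGe K.ord ξ U :=
    hl D K h3.1 h3.2.1 h3.2.2.1 hK hDK fun M hM hMD =>
      h3.2.2.2 M hM hMD K.ord (by rw [hK.cof_ord]; exact hDK.le)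

/-- strongly compact cardinals: supercompactness in HOD above an `ω`-strongly measurable
cardinal -/
theorem m11 (hP2 : T_P2.{u}) (hUB : T_UB.{u}) (D K₀ : Cardinal.{u}) (hD : StrComp D)
    (hDK₀ : D < K₀) (hS : OmSM K₀) (K : Cardinal.{u}) (hK : K.IsRegular) (hK₀K : K₀ < K) :
    OmSM K ∧ (∀ ξ < D.ord, ∃ U, MGe K.ord ξ U) ∧
    (∃ τ₀, K.ord < τ₀ ∧ τ₀ < (succ K).ord ∧ RegHOD τ₀ ∧ τ₀.cof ≤ K₀ ∧
      (Few τ₀.cof.ord (SH K.ord τ₀) → τ₀.cof = ℵ₀) ∧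
      ∀ lam, K.ord < lam → lam < τ₀ → RegHOD lam → lam.cof = K ∧ ∃ U, HSup K.ord lam U) ∧
    ∀ (N : Cardinal.{u}) (lam : Ordinal.{u}), N.IsRegular → N < D → RegHOD lam → K.ord < lam →
      K₀ < lam.cof → (∀ τ, K.ord ≤ τ → τ < lam → RegHOD τ → τ.cof ≠ N) →
        lam < (succ K).ord ∧ lam.cof = K ∧ ∃ U, HSup K.ord lam U := by
  have hSV : T_SV.{u} := Pool.Agent.H59.HD.SV.sv Pool.Agent.H74.HD.SW.sw Pool.Agent.H48.HD.SR.sr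
    (Pool.Agent.H33.HD.NA.na vg) hUB
  have hRF : T_RF.{u} := Pool.Agent.H33.HD.RF.rf Pool.Agent.H74.HD.SW.sw Pool.Agent.H48.HD.SR.sr
    Pool.Agent.H92.HD.pc
  obtain ⟨h1, h2, h3⟩ := fin_sc hSV hP2 hRF zx fc th D K₀ hD hDK₀ hS K hK hK₀K
  exact ⟨h1, Pool.Agent.H7.HD.MO.mo hSV hP2 hD hS hDK₀ hK hK₀K, h2, h3⟩

end All

end HD
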