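import Pool.Agent.H7.HD.Targets7

/-!
# Targets of the eighth list of modules: the HOD Hypothesis, strongly compact cardinals
(MP_e37c09_lc)
-/

open Ordinal Cardinal Order Set
open scoped ZFSet

universe u

namespace HD

/-! ## Statement-level definitions -/

/-- `D` is a strongly compact cardinal: it is regular and uncountable, and for every ordinal `lam`
there is a fine ultrafilter on the set of the subsets of `lam` with fewer than `D` elements which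
is closed under intersections of fewer than `D` sets. -/
def StrComp (D : Cardinal.{u}) : Prop := D.IsRegular ∧ ℵ₀ < D ∧ ∀ lam : Ordinal.{u},
  ∃ U : Ultrafilter (Set Ordinal.{u}),
    {s : Set Ordinal.{u} | s ⊆ Iio lam ∧ #s < Cardinal.lift.{u + 1} D} ∈ U ∧
    (∀ i < lam, {s : Set Ordinal.{u} | i ∈ s} ∈ U) ∧
    ∀ τ < D.ord, ∀ X : Ordinal.{u} → Set (Set Ordinal.{u}), (∀ i < τ, X i ∈ U) →
      {s | ∀ i < τ, s ∈ X i} ∈ U

/-- In HOD there is a sequence `F` of length `κ` which is a partition of the set of the ordinals of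
cofinality `ω` below `lam` into sets which are stationary in `lam`. -/
def HODPart (κ lam : Ordinal.{u}) : Prop := ∃ F y, HOD F ∧ ZFSet.IsFunc κ.toZFSet y F ∧
  (∀ i < κ, ∀ S, ZFSet.pair i.toZFSet S ∈ F → ∀ C, Clb lam C → ∃ b < lam, b ∈ C ∧ b.toZFSet ∈ S) ∧
  (∀ i < κ, ∀ S, ZFSet.pair i.toZFSet S ∈ F → ∀ z ∈ S, ∃ b < lam, z = b.toZFSet ∧ b.cof = ℵ₀) ∧
  (∀ b < lam, b.cof = ℵ₀ → ∃ i < κ, ∃ S, ZFSet.pair i.toZFSet S ∈ F ∧ b.toZFSet ∈ S) ∧
  ∀ i < κ, ∀ i' < κ, ∀ S S', ZFSet.pair i.toZFSet S ∈ F → ZFSet.pair i'.toZFSet S' ∈ F →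
    i ≠ i' → ∀ z ∈ S, z ∉ S'

/-- The regular cardinal `K` is `ω`-strongly measurable in HOD. -/
def OmSM (K : Cardinal.{u}) : Prop := K.IsRegular ∧ ℵ₀ < K ∧ ∃ κ : Ordinal.{u}, 0 < κ ∧
  κ < K.ord ∧ (∃ β < K.ord, PowHOD κ β) ∧ ¬ HODPart κ K.ord

/-- The HOD Hypothesis: the regular cardinals which are not `ω`-strongly measurable in HOD form a
proper class. -/
def HODHyp : Prop := ∀ l : Ordinal.{u}, ∃ K : Cardinal.{u}, l < K.ord ∧ K.IsRegular ∧ ℵ₀ < K ∧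
  ¬ OmSM K

/-! ## Partitions -/

/-- P2. A partition from disjoint stationary sets. -/
def T_P2 : Prop := ∀ (K : Cardinal.{u}) (κ : Ordinal.{u}), K.IsRegular → ℵ₀ < K → 0 < κ →
  ¬ NS κ (ℵ₀ : Cardinal.{u}).ord K.ord → HODPart κ K.ord

/-- UB. Unboundedly many disjoint stationary sets. -/
def T_UB : Prop := ∀ (K : Cardinal.{u}) (s : Ordinal.{u} → Ordinal.{u} → Prop), K.IsRegular →
  ℵ₀ < K → DR s → (∀ b i i', s b i → s b i' → i = i') →
  (∀ l < K.ord, ∃ i, l ≤ i ∧ i < K.ord ∧ Pos (ℵ₀ : Cardinal.{u}).ord K.ord {b | s b i}) →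
    ∀ κ, 0 < κ → κ < K.ord → HODPart κ K.ord

/-- UL. The matrix of Ulam. -/
def T_UL : Prop := ∀ γ : Cardinal.{u}, ℵ₀ ≤ γ →
  (∀ β, γ.ord < β → β < (succ γ).ord → OntoHOD γ.ord β) →
    ∀ κ, 0 < κ → κ < (succ γ).ord → HODPart κ (succ γ).ord

/-- HY. The HOD Hypothesis holds in the first case. -/
def T_HY : Prop := ∀ δ : Ordinal.{u}, CaseA δ → HODHyp.{u}

/-! ## Strongly compact cardinals -/

/-- `W` is a `D`-complete, uniform and weakly normal ultrafilter on `κ` which contains the set of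
the limit ordinals of cofinality less than `D`. -/
structure WN (D : Cardinal.{u}) (κ : Ordinal.{u}) (W : Ultrafilter Ordinal.{u}) : Prop where
  lt : {ν | ν < κ} ∈ W
  gt : ∀ ξ < κ, {ν | ξ < ν} ∈ W
  lim : {ν | IsSuccLimit ν} ∈ W
  cf : {ν | ν.cof < D} ∈ W
  cmp : ∀ τ < D.ord, ∀ X : Ordinal.{u} → Set Ordinal.{u}, (∀ i < τ, X i ∈ W) →
    {ν | ∀ i < τ, ν ∈ X i} ∈ W
  wn : ∀ g : Ordinal.{u} → Ordinal.{u}, {ν | g ν < ν} ∈ W → ∃ ξ < κ, {ν | g ν ≤ ξ} ∈ W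

/-- SW. -/
def T_SW : Prop := ∀ D : Cardinal.{u}, StrComp D → ∀ κ : Ordinal.{u}, D ≤ κ.cof → ∃ W, WN D κ W

/-- SR. Reflection of positive sets. -/
def T_SR : Prop := ∀ (D M : Cardinal.{u}) (κ : Ordinal.{u}) (W : Ultrafilter Ordinal.{u}),
  D.IsRegular → ℵ₀ < D → D ≤ κ.cof → WN D κ W → M.IsRegular → M < D →
    ∀ S : Set Ordinal.{u}, Pos M.ord κ S → {ν | Pos M.ord ν S} ∈ W

/-- NA. The number of disjoint positive sets. -/
def T_NA : Prop := ∀ (D M : Cardinal.{u}) (ν : Ordinal.{u})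
  (s : Ordinal.{u} → Ordinal.{u} → Prop), IsSuccLimit ν → ν.cof < D →
  (∀ b i i', s b i → s b i' → i = i') → Few D.ord {i | Pos M.ord ν {b | s b i}}

/-- SV. Splitting. -/
def T_SV : Prop := ∀ (D K M : Cardinal.{u}) (κ : Ordinal.{u}), StrComp D → K.IsRegular → D < K →
  M.IsRegular → M < D → D ≤ κ.cof → ¬ NS K.ord M.ord κ → ∀ τ, 0 < τ → τ < K.ord →
    HODPart τ K.ord

/-- AT. Atoms. -/
def T_AT : Prop := ∀ en : Ordinal.{u} → ZFSet.{u}, EN en → ∀ (M : Cardinal.{u})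
  (G κ : Ordinal.{u}), ℵ₀ < κ.cof → G.card < κ.cof →
  (∀ τ < G, ∃ β : Ordinal.{u}, β.card < κ.cof ∧ PowHOD τ β) → NS G M.ord κ →
    ∀ X : Set Ordinal.{u}, DS X → Pos M.ord κ X → ∃ c, E en c ⊆ X ∧ Atom en M.ord κ c

/-- OM. An `ω`-strongly measurable cardinal is a strong limit cardinal in HOD. -/
def T_OM : Prop := ∀ K : Cardinal.{u}, OmSM K → ∀ τ < K.ord, ∃ β < K.ord, PowHOD τ β

/-- PC. Positive sets at small cofinality. -/
def T_PC : Prop := ∀ (N : Cardinal.{u}) (ν : Ordinal.{u}) (S : Set Ordinal.{u}), N.IsRegular →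
  IsSuccLimit ν → Pos N.ord ν S → N < ν.cof

/-- RF. Reflection to points of one cofinality. -/
def T_RF : Prop := ∀ (D N : Cardinal.{u}) (lam : Ordinal.{u}) (S : Set Ordinal.{u}), StrComp D →
  N.IsRegular → N < D → D < lam.cof → Pos N.ord lam S →
    ∃ M : Cardinal.{u}, M.IsRegular ∧ N < M ∧ M < D ∧ Pos M.ord lam {ν | Pos N.ord ν S}

/-- R2. The cofinalities of the regular cardinals of HOD. -/
def T_R2 : Prop := ∀ (en : Ordinal.{u} → ZFSet.{u}) (N K : Cardinal.{u}) (lam d : Ordinal.{u}),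
  EN en → Atom en N.ord lam d → N.IsRegular → ℵ₀ < lam.cof → K.IsRegular → RegHOD lam →
  K.ord < lam → (∀ τ, K.ord ≤ τ → τ < lam → RegHOD τ → τ.cof ≠ N) →
    lam < (succ K).ord ∧ ∀ τ, K.ord ≤ τ → τ ≤ lam → RegHOD τ → τ.cof = K

/-- Supercompactness in HOD above an `ω`-strongly measurable cardinal `K₀` which is greater than a
strongly compact cardinal. -/
def T_S2 : Prop := ∀ (D K₀ N K : Cardinal.{u}) (lam : Ordinal.{u}), StrComp D → OmSM K₀ →
  D < K₀ → N.IsRegular → N < D → K.IsRegular → K₀ < K → RegHOD lam → K.ord < lam → K₀ < lam.cof →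
  (∀ τ, K.ord ≤ τ → τ < lam → RegHOD τ → τ.cof ≠ N) →
    lam < (succ K).ord ∧ lam.cof = K ∧ ∃ U, HSup K.ord lam U

end HD
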