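import Pool.Agent.H17.HD.HB
import Pool.Agent.H69.HD.HB2
import Pool.Agent.H7.HD.Targets8

/-!
# Module AT: existence of atoms, with the power set computed in HOD
(an adaptation of Pool/Agent/H69/HD/HB2.lean)
-/

open Ordinal Cardinal Order Set
open scoped ZFSet
open _root_.HD

universe u

namespace Pool.Agent.H7.HD.AT

open Pool.Agent.H17.HD Pool.Agent.H17.HD.HB Pool.Agent.H69.HD.HB2

theorem at_ : T_AT.{u} := by
  intro en hen M G κ hκ hG hP hNS X hX hXpos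
  have hVH := All.vh.{u}
  have hDA := All.da.{u}
  have hDB := All.db.{u}
  have hlim : ℵ₀ ≤ κ.cof := hκ.le
  obtain ⟨hE1, -, hE3, -⟩ := All.ea en hen
  obtain ⟨Θ, hΘ⟩ := theta hE3 κ
  have hrec := All.eb en hen _ (phi_do hDA hE1 hX M.ord κ Θ)
  by_contra hno
  push Not at hno
  -- the sets `J a`
  let J : Ordinal.{u} → Set Ordinal.{u} := fun a =>
    {x | recJ (Phi en X M.ord κ Θ) (fun _ => a) x}
  have hJ : ∀ a x, x ∈ J a ↔ Phi en X M.ord κ Θ x {y | y < x ∧ y ∈ J a} (fun _ => a) :=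
    fun a x => recJ_iff _ _ x
  have hJds : ∀ a, DS (J a) := fun a =>
    DO.sect (P := fun x w => recJ (Phi en X M.ord κ Θ) w x) hrec (fun _ => a)
  -- the order type of `J a`
  have hex : ∀ a, ∃ i < G, ¬ ∃ z, nth (J a) i z := by
    intro a
    by_contra hc
    push Not at hc
    refine hNS (fun b i => ∃ x, nth (J a) i x ∧
      (b ∈ Dd en X {y | y < x ∧ y ∈ J a} a ∧ ¬ (b ∈ E en x ↔ a ∈ E en x))) ?_ ?_ ?_
    · refine DO.ex (R := fun x w => nth (J a) (w 1) x ∧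
        (w 0 ∈ Dd en X {y | y < x ∧ y ∈ J a} a ∧ ¬ (w 0 ∈ E en x ↔ a ∈ E en x))) ?_
      refine DO.and ((XK.dr_nth hDB (hJds a)).s2 2 0) (DO.and ?_
        ((mem_do hE1 1 0).iff (memc_do hE1 a 0)).not)
      refine DO.and (hX.s1 1) ?_
      refine DO.all (R := fun y w => (y < w 0 ∧ y ∈ J a) → (w 1 ∈ E en y ↔ a ∈ E en y)) ?_
      exact (DO.and (DO.lt 0 1) (hJds a)).imp ((mem_do hE1 2 0).iff (memc_do hE1 a 0))
    · rintro b i i' ⟨x, hx, hb1, hb2⟩ ⟨x', hx', hb3, hb4⟩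
      rcases lt_trichotomy i i' with h | h | h
      · have hlt := ((hVH (J a)).2.1 i i' x x' hx hx').1 h
        exact absurd (hb3.2 x ⟨hlt, hx.1⟩) hb2
      · exact h
      · have hlt := ((hVH (J a)).2.1 i' i x' x hx' hx).1 h
        exact absurd (hb1.2 x' ⟨hlt, hx'.1⟩) hb4
    · intro i hi
      obtain ⟨x, hx⟩ := hc i hi
      obtain ⟨-, h1, h2⟩ := (hJ a x).1 hx.1
      by_cases ha : a ∈ E en x
      · exact h2.mono fun b _ hb _ => ⟨x, hx, hb.1, fun h => hb.2 (h.2 ha)⟩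
      · exact h1.mono fun b _ hb _ => ⟨x, hx, hb.1, fun h => ha (h.1 hb.2)⟩
  -- `D(a)` is null
  have hnull : ∀ a, ¬ Pos M.ord κ (Dd en X (J a) a) := by
    intro a hpos
    have hDds : DS (Dd en X (J a) a) := by
      refine DO.and hX ?_
      refine DO.all (R := fun y w => y ∈ J a → (w 0 ∈ E en y ↔ a ∈ E en y)) ?_
      exact (hJds a).imp ((mem_do hE1 1 0).iff (memc_do hE1 a 0))
    obtain ⟨c, hc⟩ := hE3 _ hDds κ
    refine hno c (fun b hb => ?_) ⟨?_, fun x hx => ?_⟩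
    · rw [hc] at hb
      exact hb.1.1
    · rw [hc]
      exact hpos.mono fun b hb h _ => ⟨h, hb⟩
    · obtain ⟨x', hx', hEx⟩ := hΘ (E en x)
        (DO.sect (P := fun b w => b ∈ E en (w 0)) (mem_do hE1 0 1) (fun _ => x))
      have hEx' : ∀ b < κ, (b ∈ E en x' ↔ b ∈ E en x) := by
        intro b hb
        rw [hEx]
        exact ⟨fun h => h.1, fun h => ⟨h, hb⟩⟩
      have hsub : ∀ b, b ∈ Dd en X (J a) a → b ∈ Dd en X {y | y < x' ∧ y ∈ J a} a :=
        fun b hb => ⟨hb.1, fun y hy => hb.2 y hy.2⟩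
      have hcD : ∀ b, b ∈ E en c → b ∈ Dd en X (J a) a := fun b hb => by
        rw [hc] at hb
        exact hb.1
      have hxJ : x' ∈ J a := by
        rw [hJ]
        refine ⟨hx', hx.1.mono fun b hb h _ => ?_, hx.2.mono fun b hb h _ => ?_⟩
        · exact ⟨hsub b (hcD b h.1), (hEx' b hb).2 h.2⟩
        · exact ⟨hsub b (hcD b h.1), fun h' => h.2 ((hEx' b hb).1 h')⟩
      by_cases ha : a ∈ E en x'
      · obtain ⟨b, hb, -, hb2, -⟩ := hx.2 univ (clb_univ2 hlim)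
        exact hb2.2 ((hEx' b hb).1 (((hcD b hb2.1).2 x' hxJ).2 ha))
      · obtain ⟨b, hb, -, hb2, -⟩ := hx.1 univ (clb_univ2 hlim)
        exact ha (((hcD b hb2.1).2 x' hxJ).1 ((hEx' b hb).2 hb2.2))
  -- the index sets
  have hidx : ∀ a, ∃ τ < G, ∀ i x, nth (J a) i x → i < τ := by
    intro a
    obtain ⟨i, hi, hi2⟩ := hex a
    refine ⟨i, hi, fun i' x hx => ?_⟩
    by_contra hc
    rcases (not_lt.1 hc).eq_or_lt with h | h
    · exact hi2 ⟨x, h ▸ hx⟩
    · obtain ⟨y, -, hy⟩ := (hVH (J a)).2.2.1 i' x hx i h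
      exact hi2 ⟨y, hy⟩
  choose τ hτ hi2 using hidx
  let Q : Ordinal.{u} → Set Ordinal.{u} := fun b => {i | ∃ y, nth (J b) i y ∧ b ∈ E en y}
  have hQds : ∀ b, DS (Q b) := by
    intro b
    refine DO.ex (R := fun y w => nth (J b) (w 0) y ∧ b ∈ E en y) ?_
    exact DO.and ((XK.dr_nth hDB (hJds b)).s2 1 0) (memc_do hE1 b 0)
  let P : Ordinal.{u} → ZFSet.{u} := fun b => os (τ b) (Q b)
  have hPh : ∀ b, HOD (P b) := fun b => hod_os (hQds b) _
  have hPs : ∀ b, P b ⊆ (τ b).toZFSet := fun b z hz => by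
    obtain ⟨a, ha, -, rfl⟩ := mem_os.1 hz
    exact toZFSet_mem_toZFSet_iff.2 ha
  have hQ : ∀ a b, τ a = τ b → P a = P b → ∀ i, (i ∈ Q a ↔ i ∈ Q b) := by
    intro a b hab hPab i
    constructor
    · rintro ⟨y, hy, hay⟩
      have h1 : i.toZFSet ∈ P a := ord_mem_os.2 ⟨hi2 a i y hy, y, hy, hay⟩
      rw [hPab] at h1
      exact (ord_mem_os.1 h1).2
    · rintro ⟨y, hy, hby⟩
      have h1 : i.toZFSet ∈ P b := ord_mem_os.2 ⟨hi2 b i y hy, y, hy, hby⟩
      rw [← hPab] at h1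
      exact (ord_mem_os.1 h1).2
  -- equal index sets
  have hsame : ∀ a b, (∀ i, (i ∈ Q a ↔ i ∈ Q b)) → ∀ x, (x ∈ J a ↔ x ∈ J b) ∧
      (x ∈ J a → (a ∈ E en x ↔ b ∈ E en x)) := by
    intro a b key x
    induction x using WellFoundedLT.induction with
    | ind x ih =>
      have hAB : {y | y < x ∧ y ∈ J a} = {y | y < x ∧ y ∈ J b} := by
        ext y
        exact and_congr_right fun h => (ih y h).1
      have hDD : Dd en X {y | y < x ∧ y ∈ J a} a = Dd en X {y | y < x ∧ y ∈ J b} b := by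
        ext c
        refine and_congr_right fun _ => forall_congr' fun y => ?_
        constructor
        · intro h hy
          rw [h ⟨hy.1, (ih y hy.1).1.2 hy.2⟩]
          exact (ih y hy.1).2 ((ih y hy.1).1.2 hy.2)
        · intro h hy
          rw [h ⟨hy.1, (ih y hy.1).1.1 hy.2⟩]
          exact ((ih y hy.1).2 hy.2).symm
      have hmem : x ∈ J a ↔ x ∈ J b := by
        rw [hJ, hJ]
        unfold Phi
        rw [hDD]
      refine ⟨hmem, fun hx => ?_⟩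
      obtain ⟨i, -, hi⟩ := (hVH (J a)).1 x hx
      have hib : nth (J b) i x := nth_congr (fun y hy => (ih y hy).1) (hmem.1 hx) hi
      constructor
      · intro h
        obtain ⟨y, hy, hby⟩ := (key i).1 ⟨x, hi, h⟩
        rwa [XK.nth_uniq hVH hib hy]
      · intro h
        obtain ⟨y, hy, hay⟩ := (key i).2 ⟨x, hib, h⟩
        rwa [XK.nth_uniq hVH hi hy]
  -- the number of index sets
  choose β hβ hpow using hP
  choose f y hf hfun hsur using hpow
  have hζ : ∀ b, ∃ ζ < β (τ b) (hτ b), ZFSet.pair ζ.toZFSet (P b) ∈ f (τ b) (hτ b) := fun b =>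
    hsur (τ b) (hτ b) (P b) (hPh b) (hPs b)
  choose ζ hζ1 hζ2 using hζ
  have key : ∀ a b, τ a = τ b → ζ a = ζ b → ∀ i, (i ∈ Q a ↔ i ∈ Q b) := by
    intro a b h1 h2
    refine hQ a b h1 ?_
    have h3 := hζ2 a
    have h4 := hζ2 b
    have e : f (τ a) (hτ a) = f (τ b) (hτ b) := by
      congr 1
    rw [e, h2] at h3
    obtain ⟨w, -, hw⟩ := (hfun (τ b) (hτ b)).2 (ζ b).toZFSet
      (toZFSet_mem_toZFSet_iff.2 (hζ1 b))
    exact (hw _ h3).trans (hw _ h4).symm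
  refine All.va M.ord κ hκ G hG (fun t => {b | b ∈ X ∧ τ b = t}) (fun t ht hpos => ?_) ?_
  · refine All.va M.ord κ hκ (β t ht) (hβ t ht) (fun z => {b | (b ∈ X ∧ τ b = t) ∧ ζ b = z})
      (fun z hz hpos2 => ?_) ?_
    · obtain ⟨a, -, -, ha, -⟩ := hpos2 univ (clb_univ2 hlim)
      refine hnull a (hpos2.mono fun b _ hb _ => ?_)
      have h3 := key a b (ha.1.2.trans hb.1.2.symm) (ha.2.trans hb.2.symm)
      exact ⟨hb.1.1, fun y hy => ((hsame a b h3 y).2 hy).symm⟩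
    · refine hpos.mono fun b _ hb _ => ?_
      obtain ⟨hb1, hb2⟩ := hb
      subst hb2
      exact ⟨_, hζ1 b, ⟨hb1, rfl⟩, rfl⟩
  · exact hXpos.mono fun b _ hb _ => ⟨_, hτ b, hb, rfl⟩

end Pool.Agent.H7.HD.AT
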