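import Pool.Agent.H7.HD.Fin
import Pool.Agent.H3.HD.DM
import Pool.Agent.H3.HD.ZE
import Pool.Agent.H74.HD.ZG
import Pool.Agent.H68.HD.ZH
import Pool.Agent.H76.HD.ZF

/-!
# MP_e37c09_lc: assembly of the theorems on stationary sets and on the order of all points
-/

open Ordinal Cardinal Order Set
open scoped ZFSet

universe u

namespace HD

namespace All

theorem dm : T_DM.{u} := Pool.Agent.H3.HD.DM.dm
theorem zf : T_ZF.{u} := Pool.Agent.H76.HD.ZF.zf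
theorem zg : T_ZG.{u} := Pool.Agent.H74.HD.ZG.zg
theorem zh : T_ZH.{u} := Pool.Agent.H68.HD.ZH.X zg dm

/-- the club of cardinals of HOD in which the measurable cardinals of HOD are stationary -/
theorem m2E (δ : Ordinal.{u}) (hδ : Extendible δ) : CaseA δ ∨ ∃ E ⊆ Iio δ, Clb δ E ∧
    ∀ K : Cardinal.{u}, K.IsRegular → (∃ δ₀ ∈ E, δ₀ < K.ord) → ∃ C, Clb K.ord C ∧
      ∀ α ∈ C, α < K.ord → InacHOD α ∧ ∀ δ₀ ∈ E, δ₀ ≤ α → ∀ ξ < δ₀, ∀ d, HOD d →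
        Clb α {b | b.toZFSet ∈ d} → ∃ β < α, β.toZFSet ∈ d ∧ ∃ U, MGe β ξ U := by
  by_cases hA : CaseA δ
  · exact Or.inl hA
  obtain ⟨D, rfl, hD⟩ := goodU hδ hA
  exact Or.inr (zh D hD)

/-- the Mitchell order in HOD of almost all points -/
theorem m4E (δ : Ordinal.{u}) (hδ : Extendible δ) : CaseA δ ∨ ∃ E ⊆ Iio δ, Clb δ E ∧
    ∀ K : Cardinal.{u}, K.IsRegular → ∃ C, Clb K.ord C ∧ ∀ α ∈ C, α < K.ord →
      ∀ δ₀ ∈ E, ∀ δ₁ ∈ E, δ₀ ≤ α.cof.ord → α.cof.ord < δ₁ → δ₁ < K.ord →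
        ∀ ξ < δ₀, ∃ U, MGe α ξ U := by
  by_cases hA : CaseA δ
  · exact Or.inl hA
  obtain ⟨D, rfl, hD⟩ := goodU hδ hA
  exact Or.inr (zf D hD)

end All

end HD
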