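import Pool.Agent.H7.HD.LocC

/-!
# MP_e37c09_lc: definitions used by the modules
-/

open Ordinal Cardinal Order Set
open scoped ZFSet

universe u

namespace HD

/-! ## Club sets and positive sets -/

/-- `β` has cofinality `μ` -/
def Cf (μ β : Ordinal.{u}) : Prop := β.cof.ord = μ

/-- `C` is closed and unbounded in `ρ` (only the elements of `C` below `ρ` matter). -/
structure Clb (ρ : Ordinal.{u}) (C : Set Ordinal.{u}) : Prop where
  unb : ∀ a < ρ, ∃ b < ρ, a < b ∧ b ∈ C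
  cls : ∀ x < ρ, 0 < x → (∀ y < x, ∃ z < x, y < z ∧ z ∈ C) → x ∈ C

/-- `X` is `μ`-positive at `ρ`: it meets every club set of `ρ` in a point of cofinality `μ`. -/
def Pos (μ ρ : Ordinal.{u}) (X : Set Ordinal.{u}) : Prop :=
  ∀ C, Clb ρ C → ∃ b < ρ, b ∈ C ∧ b ∈ X ∧ Cf μ b

/-! ## Sets of ordinals as sets -/

/-- the set of the ordinals below `β` which are in `X` -/
noncomputable def os (β : Ordinal.{u}) (X : Set Ordinal.{u}) : ZFSet.{u} :=
  ZFSet.sep (fun z => z.rank ∈ X) β.toZFSet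

theorem mem_os {β : Ordinal.{u}} {X : Set Ordinal.{u}} {z : ZFSet.{u}} :
    z ∈ os β X ↔ ∃ a < β, a ∈ X ∧ z = a.toZFSet := by
  unfold os
  rw [ZFSet.mem_sep]
  constructor
  · rintro ⟨h1, h2⟩
    obtain ⟨a, ha, rfl⟩ := mem_toZFSet_iff.1 h1
    rw [rank_toZFSet] at h2
    exact ⟨a, ha, h2, rfl⟩
  · rintro ⟨a, ha, h, rfl⟩
    rw [rank_toZFSet]
    exact ⟨toZFSet_mem_toZFSet_iff.2 ha, h⟩

theorem ord_mem_os {β a : Ordinal.{u}} {X : Set Ordinal.{u}} :
    a.toZFSet ∈ os β X ↔ a < β ∧ a ∈ X := by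
  rw [mem_os]
  constructor
  · rintro ⟨b, hb, h, he⟩
    rw [toZFSet_injective he]
    exact ⟨hb, h⟩
  · rintro ⟨h1, h2⟩
    exact ⟨a, h1, h2, rfl⟩

/-- the fibre of `f` at `i` -/
def fib (f : ZFSet.{u}) (i : Ordinal.{u}) : Set Ordinal.{u} :=
  {b | ZFSet.pair b.toZFSet i.toZFSet ∈ f}

/-- `z` is the `a`-th element of `X` -/
def nth (X : Set Ordinal.{u}) (a z : Ordinal.{u}) : Prop :=
  z ∈ X ∧ ∃ g : Ordinal.{u} → Ordinal.{u}, (∀ x y, x < y → y < a → g x < g y) ∧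
    (∀ x < a, g x ∈ X ∧ g x < z) ∧ ∀ y ∈ X, y < z → ∃ x < a, g x = y

/-- `X` has fewer than `δ` elements -/
def Few (δ : Ordinal.{u}) (X : Set Ordinal.{u}) : Prop :=
  ∃ τ < δ, ∃ e : Ordinal.{u} → Ordinal.{u}, ∀ x ∈ X, ∃ a < τ, e a = x

/-- A set of ordinals which is definable from ordinals. -/
def DS (X : Set Ordinal.{u}) : Prop := DO fun w => w 0 ∈ X

/-- A binary relation on ordinals which is definable from ordinals. -/
def DR (R : Ordinal.{u} → Ordinal.{u} → Prop) : Prop := DO fun w => R (w 0) (w 1)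

/-! ## Enumeration of the ordinal definable sets -/

/-- `en` enumerates the ordinal definable sets and its graph is definable from ordinals. -/
structure EN (en : Ordinal.{u} → ZFSet.{u}) : Prop where
  dz : DZ fun v => (v 0).IsOrdinal ∧ v 1 = en (v 0).rank
  od : ∀ x, OD x ↔ ∃ c, en c = x

/-- the set of ordinals with code `c` -/
def E (en : Ordinal.{u} → ZFSet.{u}) (c : Ordinal.{u}) : Set Ordinal.{u} :=
  {a | a.toZFSet ∈ en c}

/-- the section at `a` of the binary relation with code `c` -/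
def E2 (en : Ordinal.{u} → ZFSet.{u}) (c a : Ordinal.{u}) : Set Ordinal.{u} :=
  {b | ZFSet.pair a.toZFSet b.toZFSet ∈ en c}

/-! ## Atoms and measures -/

/-- the set with code `c` is a `μ`-atom at `κ` -/
structure Atom (en : Ordinal.{u} → ZFSet.{u}) (μ κ c : Ordinal.{u}) : Prop where
  pos : Pos μ κ (E en c)
  ult : ∀ x, ¬ (Pos μ κ (E en c ∩ E en x) ∧ Pos μ κ (E en c \ E en x))

/-- `c` is the code of a set which gives a normal measure of HOD on `α`. -/
structure CMe (en : Ordinal.{u} → ZFSet.{u}) (μ α c : Ordinal.{u}) : Prop where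
  cof : ℵ₀ < α.cof
  pos : Pos μ α (E en c)
  ult : ∀ x, ¬ (Pos μ α (E en c ∩ E en x) ∧ Pos μ α (E en c \ E en x))
  nrm : ∀ e, (∀ a < α, ¬ Pos μ α (E en c \ E2 en e a)) →
    ¬ Pos μ α {b | b ∈ E en c ∧ ∃ a < b, b ∉ E2 en e a}

/-- the filter on `α` given by `c` -/
noncomputable def uz (en : Ordinal.{u} → ZFSet.{u}) (μ α c : Ordinal.{u}) : ZFSet.{u} :=
  ZFSet.sep (fun x => OD x ∧ ¬ Pos μ α (E en c \ {a | a.toZFSet ∈ x}))
    (ZFSet.powerset α.toZFSet)

/-! ## Elementary embeddings -/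

/-- `j : V_ η → V_ θ` is an elementary embedding with critical point `δ` and `j δ > η`. -/
structure Emb (δ η θ : Ordinal.{u}) (j : ZFSet.{u} → ZFSet.{u}) : Prop where
  gd : Gd η
  gd' : Gd θ
  dlt : δ < η
  map : ∀ x ∈ V_ η, j x ∈ V_ θ
  elem : ∀ (φ : Fml) (v : ℕ → ZFSet.{u}), (∀ n, v n ∈ V_ η) →
    (Sat (· ∈ V_ η) φ v ↔ Sat (· ∈ V_ θ) φ (j ∘ v))
  fix : ∀ a < δ, j a.toZFSet = a.toZFSet
  crit : η < (j δ.toZFSet).rank

/-- the action of `j` on the ordinals -/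
noncomputable def Jo (j : ZFSet.{u} → ZFSet.{u}) (a : Ordinal.{u}) : Ordinal.{u} :=
  (j a.toZFSet).rank

/-- `α` is regular in HOD, in a weak sense: a set which is definable from ordinals and unbounded in
`α` has the same cardinality as `α`. -/
def HReg (α : Ordinal.{u}) : Prop :=
  ∀ X : Set Ordinal.{u}, DS X → (∀ b < α, ∃ c < α, b ≤ c ∧ c ∈ X) →
    ¬ Few α.card.ord (X ∩ Iio α)

/-- The situation of the argument of Solovay. -/
structure Sol (δ η θ : Ordinal.{u}) (j : ZFSet.{u} → ZFSet.{u}) (M K : Cardinal.{u})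
    (γ : Ordinal.{u}) (f : ZFSet.{u}) : Prop where
  emb : Emb δ η θ j
  dreg : δ.cof.ord = δ
  dom : ω < δ
  mreg : M.IsRegular
  mlt : M.ord < δ
  kreg : K.IsRegular
  dk : δ < K.ord
  kη : K.ord < η
  γη : γ < η
  fη : f ∈ V_ η
  od : OD f
  odj : OD (j f)
  fn : ∀ b i i', ZFSet.pair b i ∈ f → ZFSet.pair b i' ∈ f → i = i'
  pos : ∀ i < γ, Pos M.ord K.ord (fib f i)

end HD
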