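import Pool.Agent.H7.HD.LocB

/-!
# Definability from ordinals over `V`: predicates of sets (`DZ`) and predicates of ordinals (`DO`)
-/

open Ordinal Cardinal Order Set
open scoped ZFSet

universe u

namespace HD

/-! ## Definitions -/

/-- merge of the variables `v` (even places) and the parameters `p` (odd places) -/
noncomputable def mz (v : ℕ → ZFSet.{u}) (p : ℕ → Ordinal.{u}) : ℕ → ZFSet.{u} := fun n =>
  if n % 2 = 0 then v (n / 2) else (p (n / 2)).toZFSet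

/-- `P` is definable over `V` from ordinals. -/
def DZ (P : (ℕ → ZFSet.{u}) → Prop) : Prop :=
  ∃ (φ : Fml) (p : ℕ → Ordinal.{u}), ∀ v, P v ↔ Sat (fun _ => True) φ (mz v p)

/-- the sequence of sets corresponding to a sequence of ordinals -/
noncomputable def ov (w : ℕ → Ordinal.{u}) : ℕ → ZFSet.{u} := fun n => (w n).toZFSet

/-- `P`, a predicate of sequences of ordinals, is definable over `V` from ordinals. -/
def DO (P : (ℕ → Ordinal.{u}) → Prop) : Prop := ∃ Q, DZ Q ∧ ∀ w, P w ↔ Q (ov w)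

/-- the sequence `a, w 0, w 1, ...` -/
def cns (a : Ordinal.{u}) (w : ℕ → Ordinal.{u}) : ℕ → Ordinal.{u}
  | 0 => a
  | n + 1 => w n

@[simp] theorem cns_zero (a : Ordinal.{u}) (w) : cns a w 0 = a := rfl
@[simp] theorem cns_succ (a : Ordinal.{u}) (w) (n : ℕ) : cns a w (n + 1) = w n := rfl

theorem ov_cns (a : Ordinal.{u}) (w) : ov (cns a w) = cons a.toZFSet (ov w) := by
  funext n; cases n <;> rfl

theorem cns_eta (w : ℕ → Ordinal.{u}) : cns (w 0) (fun n => w (n + 1)) = w := by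
  funext n; cases n <;> rfl

/-! ## Closure of `DZ` -/

variable {P Q : (ℕ → ZFSet.{u}) → Prop}

theorem mz_even (v : ℕ → ZFSet.{u}) (p : ℕ → Ordinal.{u}) (n : ℕ) : mz v p (2 * n) = v n := by
  simp [mz]

theorem mz_odd (v : ℕ → ZFSet.{u}) (p : ℕ → Ordinal.{u}) (n : ℕ) :
    mz v p (2 * n + 1) = (p n).toZFSet := by
  have h1 : (2 * n + 1) % 2 = 1 := by omega
  have h2 : (2 * n + 1) / 2 = n := by omega
  simp [mz, h1, h2]

/-- the renaming which produces `mz v p1` from `mz v p` if `p (2 n) = p1 n` -/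
def rn1 (n : ℕ) : ℕ := if n % 2 = 0 then n else 2 * (2 * (n / 2)) + 1
/-- the renaming which produces `mz v p2` from `mz v p` if `p (2 n + 1) = p2 n` -/
def rn2 (n : ℕ) : ℕ := if n % 2 = 0 then n else 2 * (2 * (n / 2) + 1) + 1

theorem mz_rn1 (v : ℕ → ZFSet.{u}) (p p1 : ℕ → Ordinal.{u}) (h : ∀ n, p (2 * n) = p1 n) :
    mz v p ∘ rn1 = mz v p1 := by
  funext n
  rcases Nat.even_or_odd' n with ⟨k, rfl | rfl⟩
  · have : rn1 (2 * k) = 2 * k := by simp [rn1]
    rw [Function.comp_apply, this, mz_even, mz_even]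
  · have h1 : (2 * k + 1) % 2 = 1 := by omega
    have h2 : (2 * k + 1) / 2 = k := by omega
    have : rn1 (2 * k + 1) = 2 * (2 * k) + 1 := by simp [rn1, h1, h2]
    rw [Function.comp_apply, this, mz_odd, mz_odd, h]

theorem mz_rn2 (v : ℕ → ZFSet.{u}) (p p2 : ℕ → Ordinal.{u}) (h : ∀ n, p (2 * n + 1) = p2 n) :
    mz v p ∘ rn2 = mz v p2 := by
  funext n
  rcases Nat.even_or_odd' n with ⟨k, rfl | rfl⟩
  · have : rn2 (2 * k) = 2 * k := by simp [rn2]
    rw [Function.comp_apply, this, mz_even, mz_even]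
  · have h1 : (2 * k + 1) % 2 = 1 := by omega
    have h2 : (2 * k + 1) / 2 = k := by omega
    have : rn2 (2 * k + 1) = 2 * (2 * k + 1) + 1 := by simp [rn2, h1, h2]
    rw [Function.comp_apply, this, mz_odd, mz_odd, h]

theorem DZ.congr (hP : DZ P) (h : ∀ v, Q v ↔ P v) : DZ Q := by
  obtain ⟨φ, p, hφ⟩ := hP
  exact ⟨φ, p, fun v => (h v).trans (hφ v)⟩

theorem DV.dz (hP : DV P) : DZ P := by
  obtain ⟨φ, hφ⟩ := hP
  refine ⟨φ.ren (fun n => 2 * n), fun _ => 0, fun v => ?_⟩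
  rw [sat_ren, hφ]
  have : mz v (fun _ => 0) ∘ (fun n => 2 * n) = v := by
    funext n; exact mz_even _ _ _
  rw [this]

theorem DZ.not (hP : DZ P) : DZ (fun v => ¬ P v) := by
  obtain ⟨φ, p, hφ⟩ := hP
  exact ⟨.neg φ, p, fun v => not_congr (hφ v)⟩

theorem DZ.and (hP : DZ P) (hQ : DZ Q) : DZ (fun v => P v ∧ Q v) := by
  obtain ⟨φ, p1, hφ⟩ := hP
  obtain ⟨ψ, p2, hψ⟩ := hQ
  let p : ℕ → Ordinal.{u} := fun n => if n % 2 = 0 then p1 (n / 2) else p2 (n / 2)
  have h1 : ∀ n, p (2 * n) = p1 n := fun n => by simp [p]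
  have h2 : ∀ n, p (2 * n + 1) = p2 n := fun n => by
    have h1 : (2 * n + 1) % 2 = 1 := by omega
    have h2 : (2 * n + 1) / 2 = n := by omega
    simp [p, h1, h2]
  refine ⟨.and (φ.ren rn1) (ψ.ren rn2), p, fun v => ?_⟩
  show (P v ∧ Q v) ↔ Sat _ (φ.ren rn1) _ ∧ Sat _ (ψ.ren rn2) _
  rw [sat_ren, sat_ren, mz_rn1 _ _ _ h1, mz_rn2 _ _ _ h2, hφ, hψ]

theorem DZ.or (hP : DZ P) (hQ : DZ Q) : DZ (fun v => P v ∨ Q v) :=
  (hP.not.and hQ.not).not.congr fun v => by tauto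

theorem DZ.imp (hP : DZ P) (hQ : DZ Q) : DZ (fun v => P v → Q v) :=
  (hP.and hQ.not).not.congr fun v => by tauto

theorem DZ.iff (hP : DZ P) (hQ : DZ Q) : DZ (fun v => P v ↔ Q v) :=
  ((hP.imp hQ).and (hQ.imp hP)).congr fun v => by tauto

theorem DZ.cst (p : Prop) : DZ.{u} (fun _ => p) := (DV.cst p).dz
theorem DZ.mem (i j : ℕ) : DZ.{u} (fun v => v i ∈ v j) := (DV.mem i j).dz
theorem DZ.eq (i j : ℕ) : DZ.{u} (fun v => v i = v j) := (DV.eq i j).dz

/-- renaming used under a quantifier: variables `x, v` from `cons x (mz v p)` -/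
def rnq (n : ℕ) : ℕ := if n = 0 then 0 else if n % 2 = 0 then n - 1 else n + 1

theorem cons_mz (x : ZFSet.{u}) (v : ℕ → ZFSet.{u}) (p : ℕ → Ordinal.{u}) :
    cons x (mz v p) ∘ rnq = mz (cons x v) p := by
  funext n
  rcases Nat.even_or_odd' n with ⟨k, rfl | rfl⟩
  · rcases k with _ | k
    · simp [rnq, mz]
    · have : rnq (2 * (k + 1)) = (2 * k) + 1 := by
        unfold rnq
        rw [if_neg (by omega), if_pos (by omega)]
        omega
      rw [Function.comp_apply, this, cons_succ, mz_even, mz_even, cons_succ]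
  · have : rnq (2 * k + 1) = (2 * k + 1) + 1 := by
      unfold rnq
      rw [if_neg (by omega), if_neg (by omega)]
    rw [Function.comp_apply, this, cons_succ, mz_odd, mz_odd]

theorem DZ.ex {R : ZFSet.{u} → (ℕ → ZFSet.{u}) → Prop}
    (h : DZ (fun v => R (v 0) (fun n => v (n + 1)))) : DZ (fun v => ∃ x, R x v) := by
  obtain ⟨φ, p, hφ⟩ := h
  refine ⟨.ex (φ.ren rnq), p, fun v => exists_congr fun x => ?_⟩
  have := hφ (cons x v)
  rw [sat_ren, cons_mz, ← this]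
  simp

theorem DZ.all {R : ZFSet.{u} → (ℕ → ZFSet.{u}) → Prop}
    (h : DZ (fun v => R (v 0) (fun n => v (n + 1)))) : DZ (fun v => ∀ x, R x v) :=
  (DZ.ex (R := fun x v => ¬ R x v) h.not).not.congr fun v => by push Not; rfl

theorem DZ.exMem {R : ZFSet.{u} → (ℕ → ZFSet.{u}) → Prop} (i : ℕ)
    (h : DZ (fun v => R (v 0) (fun n => v (n + 1)))) : DZ (fun v => ∃ x ∈ v i, R x v) :=
  DZ.ex (R := fun x v => x ∈ v i ∧ R x v) ((DZ.mem 0 (i + 1)).and h)

theorem DZ.allMem {R : ZFSet.{u} → (ℕ → ZFSet.{u}) → Prop} (i : ℕ)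
    (h : DZ (fun v => R (v 0) (fun n => v (n + 1)))) : DZ (fun v => ∀ x ∈ v i, R x v) :=
  DZ.all (R := fun x v => x ∈ v i → R x v) ((DZ.mem 0 (i + 1)).imp h)

theorem DZ.ren (hP : DZ P) (σ : ℕ → ℕ) : DZ (fun v => P (fun n => v (σ n))) := by
  obtain ⟨φ, p, hφ⟩ := hP
  refine ⟨φ.ren (fun n => if n % 2 = 0 then 2 * σ (n / 2) else n), p, fun v => ?_⟩
  show P (fun n => v (σ n)) ↔ _
  rw [sat_ren, hφ]
  have : mz v p ∘ (fun n => if n % 2 = 0 then 2 * σ (n / 2) else n) =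
      mz (fun n => v (σ n)) p := by
    funext n
    rcases Nat.even_or_odd' n with ⟨k, rfl | rfl⟩
    · simp [mz_even]
    · have h1 : (2 * k + 1) % 2 = 1 := by omega
      simp [h1, mz_odd]
  rw [this]

/-- ordinals may be used as parameters -/
theorem DZ.eqOrd (a : Ordinal.{u}) (i : ℕ) : DZ.{u} (fun v => v i = a.toZFSet) := by
  refine ⟨.eq (2 * i) 1, fun _ => a, fun v => ?_⟩
  show _ ↔ mz v _ (2 * i) = mz v _ (2 * 0 + 1)
  rw [mz_even, mz_odd]

/-- substitution of a definable set for variable `0` -/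
theorem DZ.sub {a : ZFSet.{u}} (ha : DZ (fun v => v 0 = a)) {R : ZFSet.{u} → (ℕ → ZFSet.{u}) → Prop}
    (h : DZ (fun v => R (v 0) (fun n => v (n + 1)))) : DZ (R a) := by
  refine (DZ.ex (R := fun x v => x = a ∧ R x v) ((ha.ren fun _ => 0).and h)).congr fun v => ?_
  simp

/-! ## Closure of `DO` -/

variable {A B : (ℕ → Ordinal.{u}) → Prop}

theorem DO.congr (hA : DO A) (h : ∀ w, B w ↔ A w) : DO B := by
  obtain ⟨Q, hQ, h'⟩ := hA
  exact ⟨Q, hQ, fun w => (h w).trans (h' w)⟩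

theorem DZ.do (hP : DZ P) : DO (fun w => P (ov w)) := ⟨P, hP, fun _ => Iff.rfl⟩

theorem DO.not (hA : DO A) : DO (fun w => ¬ A w) := by
  obtain ⟨Q, hQ, h⟩ := hA
  exact ⟨_, hQ.not, fun w => not_congr (h w)⟩

theorem DO.and (hA : DO A) (hB : DO B) : DO (fun w => A w ∧ B w) := by
  obtain ⟨Q, hQ, h⟩ := hA
  obtain ⟨R, hR, h'⟩ := hB
  exact ⟨_, hQ.and hR, fun w => and_congr (h w) (h' w)⟩

theorem DO.or (hA : DO A) (hB : DO B) : DO (fun w => A w ∨ B w) :=
  (hA.not.and hB.not).not.congr fun v => by tauto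

theorem DO.imp (hA : DO A) (hB : DO B) : DO (fun w => A w → B w) :=
  (hA.and hB.not).not.congr fun v => by tauto

theorem DO.iff (hA : DO A) (hB : DO B) : DO (fun w => A w ↔ B w) :=
  ((hA.imp hB).and (hB.imp hA)).congr fun v => by tauto

theorem DO.cst (p : Prop) : DO.{u} (fun _ => p) := (DZ.cst p).do

theorem DO.ren (hA : DO A) (σ : ℕ → ℕ) : DO (fun w => A (fun n => w (σ n))) := by
  obtain ⟨Q, hQ, h⟩ := hA
  exact ⟨_, hQ.ren σ, fun w => h _⟩

theorem DO.lt (i j : ℕ) : DO.{u} (fun w => w i < w j) :=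
  ⟨_, DZ.mem i j, fun w => by simp [ov]⟩

theorem DO.le (i j : ℕ) : DO.{u} (fun w => w i ≤ w j) :=
  (DO.lt j i).not.congr fun w => by simp

theorem DO.eq (i j : ℕ) : DO.{u} (fun w => w i = w j) :=
  ⟨_, DZ.eq i j, fun w => by simp [ov, toZFSet_injective.eq_iff]⟩

theorem DO.eqc (i : ℕ) (a : Ordinal.{u}) : DO.{u} (fun w => w i = a) :=
  ⟨_, DZ.eqOrd a i, fun w => by simp [ov, toZFSet_injective.eq_iff]⟩

theorem DO.ex {R : Ordinal.{u} → (ℕ → Ordinal.{u}) → Prop}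
    (h : DO (fun w => R (w 0) (fun n => w (n + 1)))) : DO (fun w => ∃ x, R x w) := by
  obtain ⟨Q, hQ, h⟩ := h
  refine ⟨fun v => ∃ x, x.IsOrdinal ∧ Q (cons x v), DZ.ex (R := fun x v => x.IsOrdinal ∧
    Q (cons x v)) (DZ.and ?_ ?_), fun w => ?_⟩
  · refine DV.dz ?_
    refine DV.congr (P := fun v => (∀ x ∈ v 0, ∀ y ∈ x, y ∈ v 0) ∧
      ∀ y ∈ v 0, ∀ x ∈ y, ∀ z ∈ x, z ∈ y) ?_ fun v => ?_
    · exact (DV.allMem _ (DV.allMem _ (DV.mem _ _))).and
        (DV.allMem _ (DV.allMem _ (DV.allMem _ (DV.mem _ _))))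
    · rw [ZFSet.isOrdinal_iff_forall_mem_isTransitive]
      rfl
  · refine hQ.congr fun v => ?_
    rw [cons_eta]
  · constructor
    · rintro ⟨a, ha⟩
      refine ⟨a.toZFSet, ZFSet.isOrdinal_toZFSet a, ?_⟩
      have := (h (cns a w)).1 ha
      rwa [ov_cns] at this
    · rintro ⟨x, hx, hq⟩
      refine ⟨x.rank, ?_⟩
      have h1 : x.rank.toZFSet = x := hx.toZFSet_rank_eq
      have := (h (cns x.rank w)).2 (by rw [ov_cns, h1]; exact hq)
      exact this

theorem DO.all {R : Ordinal.{u} → (ℕ → Ordinal.{u}) → Prop}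
    (h : DO (fun w => R (w 0) (fun n => w (n + 1)))) : DO (fun w => ∀ x, R x w) :=
  (DO.ex (R := fun x v => ¬ R x v) h.not).not.congr fun v => by push Not; rfl

theorem DO.exLt {R : Ordinal.{u} → (ℕ → Ordinal.{u}) → Prop} (i : ℕ)
    (h : DO (fun w => R (w 0) (fun n => w (n + 1)))) : DO (fun w => ∃ x < w i, R x w) :=
  DO.ex (R := fun x w => x < w i ∧ R x w) ((DO.lt 0 (i + 1)).and h)

theorem DO.allLt {R : Ordinal.{u} → (ℕ → Ordinal.{u}) → Prop} (i : ℕ)
    (h : DO (fun w => R (w 0) (fun n => w (n + 1)))) : DO (fun w => ∀ x < w i, R x w) :=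
  DO.all (R := fun x w => x < w i → R x w) ((DO.lt 0 (i + 1)).imp h)

theorem DO.ltc (i : ℕ) (a : Ordinal.{u}) : DO.{u} (fun w => w i < a) :=
  (DO.ex (R := fun x w => x = a ∧ w i < x) ((DO.eqc 0 a).and (DO.lt (i + 1) 0))).congr
    fun w => by simp

theorem DO.gtc (i : ℕ) (a : Ordinal.{u}) : DO.{u} (fun w => a < w i) :=
  (DO.ex (R := fun x w => x = a ∧ x < w i) ((DO.eqc 0 a).and (DO.lt 0 (i + 1)))).congr
    fun w => by simp

theorem DO.lec (i : ℕ) (a : Ordinal.{u}) : DO.{u} (fun w => w i ≤ a) :=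
  (DO.gtc i a).not.congr fun w => by simp

theorem DO.gec (i : ℕ) (a : Ordinal.{u}) : DO.{u} (fun w => a ≤ w i) :=
  (DO.ltc i a).not.congr fun w => by simp

/-- substitution of an ordinal for variable `0` -/
theorem DO.sub {R : Ordinal.{u} → (ℕ → Ordinal.{u}) → Prop} (a : Ordinal.{u})
    (h : DO (fun w => R (w 0) (fun n => w (n + 1)))) : DO (R a) :=
  (DO.ex (R := fun x w => x = a ∧ R x w) ((DO.eqc 0 a).and h)).congr fun w => by simp

theorem DO.exLtc {R : Ordinal.{u} → (ℕ → Ordinal.{u}) → Prop} (a : Ordinal.{u})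
    (h : DO (fun w => R (w 0) (fun n => w (n + 1)))) : DO (fun w => ∃ x < a, R x w) :=
  DO.ex (R := fun x w => x < a ∧ R x w) ((DO.ltc 0 a).and h)

theorem DO.allLtc {R : Ordinal.{u} → (ℕ → Ordinal.{u}) → Prop} (a : Ordinal.{u})
    (h : DO (fun w => R (w 0) (fun n => w (n + 1)))) : DO (fun w => ∀ x < a, R x w) :=
  DO.all (R := fun x w => x < a → R x w) ((DO.ltc 0 a).imp h)

theorem DO.s1 {X : Ordinal.{u} → Prop} (h : DO (fun w => X (w 0))) (i : ℕ) :
    DO (fun w => X (w i)) := h.ren fun _ => i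

theorem DO.s2 {X : Ordinal.{u} → Ordinal.{u} → Prop} (h : DO (fun w => X (w 0) (w 1)))
    (i j : ℕ) : DO (fun w => X (w i) (w j)) := h.ren fun n => if n = 0 then i else j

theorem DO.s3 {X : Ordinal.{u} → Ordinal.{u} → Ordinal.{u} → Prop}
    (h : DO (fun w => X (w 0) (w 1) (w 2)))
    (i j k : ℕ) : DO (fun w => X (w i) (w j) (w k)) :=
  h.ren fun n => if n = 0 then i else if n = 1 then j else k

theorem DO.s4 {X : Ordinal.{u} → Ordinal.{u} → Ordinal.{u} → Ordinal.{u} → Prop}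
    (h : DO (fun w => X (w 0) (w 1) (w 2) (w 3)))
    (i j k l : ℕ) : DO (fun w => X (w i) (w j) (w k) (w l)) :=
  h.ren fun n => if n = 0 then i else if n = 1 then j else if n = 2 then k else l

end HD
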