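import Mathlib

/-!
# MP_e37c09_lc: the HOD dichotomy with Mitchell order. Definitions

`V` is the type `ZFSet` of sets. `V_ α` is the von Neumann hierarchy, `a.toZFSet` the von Neumann
ordinal of `a : Ordinal`.
-/

open Ordinal Cardinal Order Set
open scoped ZFSet

universe u

namespace HD

/-! ## Statement-level definitions -/

/-- First-order formulas of the language of set theory, variables are de Bruijn indices. -/
inductive Fml : Type
  /-- `v i ∈ v j` -/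
  | mem (i j : ℕ) : Fml
  /-- `v i = v j` -/
  | eq (i j : ℕ) : Fml
  /-- negation -/
  | neg (φ : Fml) : Fml
  /-- conjunction -/
  | and (φ ψ : Fml) : Fml
  /-- existential quantifier (over the variable `0`) -/
  | ex (φ : Fml) : Fml

/-- the sequence `x, v 0, v 1, ...` -/
def cons (x : ZFSet.{u}) (v : ℕ → ZFSet.{u}) : ℕ → ZFSet.{u}
  | 0 => x
  | n + 1 => v n

/-- satisfaction of a formula in the structure `(M, ∈)` -/
def Sat (M : ZFSet.{u} → Prop) : Fml → (ℕ → ZFSet.{u}) → Prop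
  | .mem i j, v => v i ∈ v j
  | .eq i j, v => v i = v j
  | .neg φ, v => ¬ Sat M φ v
  | .and φ ψ, v => Sat M φ v ∧ Sat M ψ v
  | .ex φ, v => ∃ x, M x ∧ Sat M φ (cons x v)

/-- `x` is ordinal definable: for some `α` it is the only element of `V_ α` with a first-order
property of the structure `(V_ α, ∈)` with ordinal parameters below `α`. -/
def OD (x : ZFSet.{u}) : Prop :=
  ∃ (α : Ordinal.{u}) (φ : Fml) (p : ℕ → Ordinal.{u}), (∀ n, p n < α) ∧ x ∈ V_ α ∧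
    ∀ y ∈ V_ α, (Sat (· ∈ V_ α) φ (cons y fun n => (p n).toZFSet) ↔ y = x)

/-- hereditarily ordinal definable sets -/
def HOD (x : ZFSet.{u}) : Prop := x.Hereditarily OD

/-- `δ` is extendible. -/
def Extendible (δ : Ordinal.{u}) : Prop :=
  ∀ η > δ, ∃ θ > η, ∃ j : ZFSet.{u} → ZFSet.{u},
    (∀ x ∈ V_ (η + 1), j x ∈ V_ (θ + 1)) ∧
    (∀ (φ : Fml) (v : ℕ → ZFSet.{u}), (∀ n, v n ∈ V_ (η + 1)) →
      (Sat (· ∈ V_ (η + 1)) φ v ↔ Sat (· ∈ V_ (θ + 1)) φ (j ∘ v))) ∧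
    (∀ a < δ, j a.toZFSet = a.toZFSet) ∧ ∃ d > η, j δ.toZFSet = d.toZFSet

/-- `γ` is singular in HOD. -/
def SingHOD (γ : Ordinal.{u}) : Prop :=
  ∃ τ < γ, ∃ f, HOD f ∧ ZFSet.IsFunc τ.toZFSet γ.toZFSet f ∧
    ∀ b < γ, ∃ a < τ, ∃ c, b ≤ c ∧ ZFSet.pair a.toZFSet c.toZFSet ∈ f

/-- In HOD there is a map from `γ` onto `β`. -/
def OntoHOD (γ β : Ordinal.{u}) : Prop :=
  ∃ f, HOD f ∧ ZFSet.IsFunc γ.toZFSet β.toZFSet f ∧
    ∀ b < β, ∃ a < γ, ZFSet.pair a.toZFSet b.toZFSet ∈ f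

/-- The first alternative: every singular cardinal `γ > δ` is singular in HOD and its successor is
its successor in HOD. -/
def CaseA (δ : Ordinal.{u}) : Prop :=
  ∀ γ : Cardinal.{u}, ℵ₀ ≤ γ → ¬ γ.IsRegular → δ < γ.ord →
    SingHOD γ.ord ∧ ∀ β, γ.ord < β → β < (succ γ).ord → OntoHOD γ.ord β

/-- `U` is in HOD, and in HOD it is a normal measure on `κ`. -/
structure HMeas (κ : Ordinal.{u}) (U : ZFSet.{u}) : Prop where
  hod : HOD U
  sub : ∀ x ∈ U, x ⊆ κ.toZFSet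
  ultra : ∀ x, HOD x → x ⊆ κ.toZFSet → (x ∈ U ↔ κ.toZFSet \ x ∉ U)
  up : ∀ x ∈ U, ∀ y, HOD y → x ⊆ y → y ⊆ κ.toZFSet → y ∈ U
  nonpr : ∀ a < κ, {a.toZFSet} ∉ U
  compl : ∀ τ < κ, ∀ f, HOD f → ZFSet.IsFunc τ.toZFSet U f →
    (κ.toZFSet).sep (fun b => ∀ a x, ZFSet.pair a x ∈ f → b ∈ x) ∈ U
  normal : ∀ f, HOD f → ZFSet.IsFunc κ.toZFSet U f →
    (κ.toZFSet).sep (fun b => ∀ a x, a ∈ b → ZFSet.pair a x ∈ f → b ∈ x) ∈ U

/-- The Mitchell order of HOD: `U` is in the ultrapower of HOD by `W`, that is, for a function `f`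
in HOD on `κ` whose values are `W`-almost everywhere normal measures on `b` (in HOD) a set `x` in
HOD is in `U` if and only if `x ∩ b ∈ f b` for `W`-almost all `b`. -/
def MLt (κ : Ordinal.{u}) (U W : ZFSet.{u}) : Prop :=
  ∃ f y, HOD f ∧ ZFSet.IsFunc κ.toZFSet y f ∧
    (κ.toZFSet).sep (fun b => ∃ u, ZFSet.pair b u ∈ f ∧ HMeas b.rank u) ∈ W ∧
    ∀ x, HOD x → x ⊆ κ.toZFSet →
      (x ∈ U ↔ (κ.toZFSet).sep (fun b => ∃ u, ZFSet.pair b u ∈ f ∧ x ∩ b ∈ u) ∈ W)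

/-- `U` is a normal measure on `κ` in HOD, and its rank in the Mitchell order of HOD is at
least `ξ`. -/
def MGe (κ : Ordinal.{u}) (ξ : Ordinal.{u}) (U : ZFSet.{u}) : Prop :=
  HMeas κ U ∧ ∀ ζ : Iio ξ, ∃ W, MGe κ ζ W ∧ MLt κ W U
termination_by ξ
decreasing_by exact ζ.2

end HD
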