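import Pool.Agent.H7.HD.Targets4

/-!
# MP_e37c09_lc: the first theorem
-/

open Ordinal Cardinal Order Set
open scoped ZFSet

universe u

namespace HD

namespace All

theorem goodU {δ : Ordinal.{u}} (hδ : Extendible δ) (hA : ¬ CaseA δ) :
    ∃ D : Cardinal.{u}, δ = D.ord ∧ GoodU D := by
  obtain ⟨D, rfl, hD⟩ := asm_good xa xb yl hδ hA
  exact ⟨D, rfl, hD.1, hD.2.1, hD.2.2.1, fun l hl => ra D hδ hD l hl⟩

/-- closure points of a choice of good cardinals -/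
theorem goodE {D : Cardinal.{u}} (hD : GoodU D) : ∃ E ⊆ Iio D.ord, Clb D.ord E ∧
    ∀ x ∈ E, ∀ y < x, ∃ D' : Cardinal.{u}, y < D'.ord ∧ D'.ord < x ∧ GoodN D' := by
  obtain ⟨h1, h2, h3, h4⟩ := hD
  choose! g hg1 hg2 hg3 using h4
  have h5 := ve D h1 h3 (fun x => (g x).ord) fun x hx => Cardinal.ord_lt_ord.2 (hg1 x hx)
  refine ⟨{x | x < D.ord ∧ 0 < x ∧ ∀ y < x, (g y).ord < x}, fun x hx => hx.1, ⟨?_, ?_⟩, ?_⟩
  · intro a ha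
    obtain ⟨b, hb, hab, hb2⟩ := h5.unb a ha
    exact ⟨b, hb, hab, hb, hb2⟩
  · intro x hx hx0 h
    refine ⟨hx, h5.cls x hx hx0 fun y hy => ?_⟩
    obtain ⟨z, hz, hyz, hz2⟩ := h y hy
    exact ⟨z, hz, hyz, hz2.2⟩
  · rintro x ⟨hx, -, hx2⟩ y hy
    exact ⟨g y, hg2 y (hy.trans hx), hx2 y hy, hg3 y (hy.trans hx)⟩

theorem m1E (δ : Ordinal.{u}) (hδ : Extendible δ) : CaseA δ ∨ ∃ E ⊆ Iio δ, Clb δ E ∧
    ∀ δ₀ ∈ E, ∀ K : Cardinal.{u}, K.IsRegular → δ₀ < K.ord → ∀ ξ < δ₀, ∃ U, MGe K.ord ξ U := by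
  by_cases hA : CaseA δ
  · exact Or.inl hA
  refine Or.inr ?_
  obtain ⟨D, rfl, hD⟩ := goodU hδ hA
  obtain ⟨E, hE, hE1, hE2⟩ := goodE hD
  refine ⟨E, hE, hE1, ?_⟩
  intro δ₀ h0 K hK hδK ξ hξ
  obtain ⟨D', h1, h2, h3⟩ := hE2 δ₀ h0 ξ hξ
  have hDK : D' < K := Cardinal.ord_lt_ord.1 (h2.trans hδK)
  exact hl D' K h3.1 h3.2.1 h3.2.2.1 hK hDK
    (fun M hM hMD => h3.2.2.2 M hM hMD K.ord (by rw [hK.cof_ord]; exact hDK.le)) ξ h1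

end All

end HD
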