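import Pool.Agent.H7.HD.UN

/-!
# MP_e37c09_lc: supercompactness in HOD, the final statements from the modules
-/

open Ordinal Cardinal Order Set
open scoped ZFSet

universe u

namespace HD

/-- For each regular `K > D` there is a first `τ₀ > K` which is regular in HOD and of cofinality
at most `D`; it is less than `K⁺`, and `K` is supercompact in HOD below it. -/
theorem fin_tau (hRR : T_RR.{u}) (hSP : T_SP.{u}) (hTH : T_TH.{u}) {D K : Cardinal.{u}}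
    (hD : GoodN D) (hK : K.IsRegular) (hDK : D < K) :
    ∃ τ₀, K.ord < τ₀ ∧ τ₀ < (succ K).ord ∧ RegHOD τ₀ ∧ τ₀.cof ≤ D ∧
      (Few τ₀.cof.ord (SH K.ord τ₀) → τ₀.cof = ℵ₀) ∧
      ∀ lam, K.ord < lam → lam < τ₀ → RegHOD lam → lam.cof = K ∧ ∃ U, HSup K.ord lam U := by
  have h0 : ℵ₀ < D := hD.2.2.1
  have hs : (succ K).IsRegular := Cardinal.isRegular_succ hK.aleph0_le
  have hKs : K.ord < (succ K).ord := Cardinal.ord_lt_ord.2 (lt_succ K)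
  -- ordinals below which all HOD-regular ordinals have large cofinality
  have hN : ∀ lam, (∀ τ, K.ord < τ → τ < lam → RegHOD τ → D < τ.cof) →
      ∀ τ, K.ord ≤ τ → τ < lam → RegHOD τ → τ.cof ≠ ℵ₀ := by
    intro lam h τ h1 h2 h3
    rcases h1.eq_or_lt with h4 | h4
    · rw [← h4, hK.cof_ord]
      exact (h0.trans hDK).ne'
    · exact (h0.trans (h τ h4 h2 h3)).ne'
  have hex : ∃ τ, K.ord < τ ∧ τ < (succ K).ord ∧ RegHOD τ ∧ τ.cof ≤ D := by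
    by_contra hc
    push Not at hc
    have h1 := hRR D ℵ₀ K (succ K).ord hD Cardinal.isRegular_aleph0 h0 hK hDK
      (Pool.Agent.H20.HD.CS.regHOD_ord hs) hKs (by rw [hs.cof_ord]; exact hDK.trans (lt_succ K))
      (hN _ hc)
    exact lt_irrefl _ h1.1
  obtain ⟨τ₀, ⟨h1, h2, h3, h4⟩, hmin⟩ := WellFounded.has_min (wellFounded_lt (α := Ordinal.{u}))
    {τ | K.ord < τ ∧ τ < (succ K).ord ∧ RegHOD τ ∧ τ.cof ≤ D} hex
  have hmin' : ∀ τ, K.ord < τ → τ < τ₀ → RegHOD τ → D < τ.cof := by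
    intro τ h5 h6 h7
    by_contra hc
    exact hmin τ ⟨h5, h6.trans h2, h7, not_lt.1 hc⟩ h6
  refine ⟨τ₀, h1, h2, h3, h4, ?_, ?_⟩
  · intro hF
    rcases hTH K τ₀ hK (h0.trans hDK) h3 h1 h2 hF with h | h
    · exact h
    · rw [h] at h4
      exact absurd hDK (not_lt.2 h4)
  · intro lam h5 h6 h7
    have h8 := hN lam fun τ h9 h10 h11 => hmin' τ h9 (h10.trans h6) h11
    have h9 := hmin' lam h5 h6 h7
    refine ⟨(hRR D ℵ₀ K lam hD Cardinal.isRegular_aleph0 h0 hK hDK h7 h5 h9 h8).2 lam h5.le le_rfl h7,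
      hSP D ℵ₀ K lam hD Cardinal.isRegular_aleph0 h0 hK hDK h7 h5 h9 h8⟩

/-- Supercompactness in HOD in the second alternative. -/
theorem fin_main (hRR : T_RR.{u}) (hSP : T_SP.{u}) (hTH : T_TH.{u}) (δ : Ordinal.{u})
    (hδ : Extendible δ) : CaseA δ ∨
    ((∀ l < δ, ∃ δ₀ < δ, l < δ₀ ∧ ∀ K : Cardinal.{u}, K.IsRegular → δ₀ < K.ord →
      ∃ τ₀, K.ord < τ₀ ∧ τ₀ < (succ K).ord ∧ RegHOD τ₀ ∧ τ₀.cof.ord ≤ δ₀ ∧
        (Few τ₀.cof.ord (SH K.ord τ₀) → τ₀.cof = ℵ₀) ∧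
        ∀ lam, K.ord < lam → lam < τ₀ → RegHOD lam → lam.cof = K ∧ ∃ U, HSup K.ord lam U) ∧
    ∀ M : Cardinal.{u}, M.IsRegular → M.ord < δ → ∃ δ₀ < δ, ∀ κ lam : Ordinal.{u},
      RegHOD lam → κ < lam → δ₀ < lam.cof.ord →
      (∀ τ, κ ≤ τ → τ < lam → RegHOD τ → τ.cof ≠ M) →
        (∃ U, HFine κ lam lam.cof.ord U) ∧
        ((RegHOD κ ∨ ∃ K : Cardinal.{u}, κ = K.ord ∧ δ₀ < κ) → κ.cof = lam.cof) ∧
        ∀ K : Cardinal.{u}, K.IsRegular → κ = K.ord → δ₀ < κ → ∃ U, HSup κ lam U) := by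
  by_cases hA : CaseA δ
  · exact Or.inl hA
  refine Or.inr ⟨fun l hl => ?_, fun M hM hMδ => ?_⟩
  · obtain ⟨D, h1, h2, h3⟩ := asm_refl All.xa All.xb All.yl All.ra hδ hA l hl
    refine ⟨D.ord, h1, h2, fun K hK hDK => ?_⟩
    obtain ⟨τ₀, g1, g2, g3, g4, g5, g6⟩ := fin_tau hRR hSP hTH h3 hK (Cardinal.ord_lt_ord.1 hDK)
    exact ⟨τ₀, g1, g2, g3, Cardinal.ord_le_ord.2 g4, g5, g6⟩
  · obtain ⟨D, h1, h2, h3⟩ := asm_refl All.xa All.xb All.yl All.ra hδ hA M.ord hMδ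
    refine ⟨D.ord, h1, ?_⟩
    intro κ lam hl hκ hcf hno
    have hMD := Cardinal.ord_lt_ord.1 h2
    have hcf' := Cardinal.ord_lt_ord.1 hcf
    obtain ⟨g1, g2, g3⟩ := All.sc D M h3 hM hMD κ lam hl hκ hcf' hno
    refine ⟨g1, ?_, ?_⟩
    · rintro (h | ⟨K, rfl, hK⟩)
      · exact g2 h
      · exact g3 K rfl (Cardinal.ord_lt_ord.1 hK)
    · rintro K hK rfl hDK
      exact hSP D M K lam h3 hM hMD hK (Cardinal.ord_lt_ord.1 hDK) hl hκ hcf' hno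

end HD
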