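import Pool.Agent.H7.HD.OM
import Pool.Agent.H7.HD.Fin2
import Pool.Agent.H7.HD.P3

/-!
# The final statements for strongly compact cardinals and for the HOD Hypothesis, from the modules
-/

open Ordinal Cardinal Order Set
open scoped ZFSet

universe u

namespace HD

/-- Above an `ω`-strongly measurable cardinal all regular cardinals are `ω`-strongly measurable. -/
theorem fin3_om (hSV : T_SV.{u}) (hP2 : T_P2.{u}) {D K₀ K : Cardinal.{u}} (hD : StrComp D)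
    (hS : OmSM K₀) (hDK₀ : D < K₀) (hK : K.IsRegular) (hK₀K : K₀ < K) : OmSM K := by
  have hK0 : ℵ₀ < K := hS.2.1.trans hK₀K
  have hlim := Pool.Agent.H7.HD.OM.om hP2 K₀ hS
  have hNS : NS K₀.ord (ℵ₀ : Cardinal.{u}).ord K.ord := by
    by_contra h
    obtain ⟨hK₀, -, κ, hκ0, hκK, -, hno⟩ := hS
    exact hno (hSV D K₀ ℵ₀ K.ord hD hK₀ hDK₀ Cardinal.isRegular_aleph0 hD.2.1
      (by rw [hK.cof_ord]; exact (hDK₀.trans hK₀K).le) h κ hκ0 hκK)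
  obtain ⟨en, hen⟩ := All.en.{u}
  obtain ⟨c, -, hc⟩ := Pool.Agent.H7.HD.AT.at_ en hen ℵ₀ K₀.ord K.ord
    (by rw [hK.cof_ord]; exact hK0) (by rw [hK.cof_ord, Cardinal.card_ord]; exact hK₀K)
    (fun τ hτ => by
      obtain ⟨β, hβ, hpow⟩ := hlim τ hτ
      exact ⟨β, by rw [hK.cof_ord]; exact (Cardinal.lt_ord.1 hβ).trans hK₀K, hpow⟩) hNS univ
    ((DO.cst True).congr fun _ => by simp)
    (All.vc ℵ₀ K.ord Cardinal.isRegular_aleph0 (by rw [hK.cof_ord]; exact hK0))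
  have hpow := All.kc en hen _ K c hK hK0 hc K₀.ord (Cardinal.ord_lt_ord.2 hK₀K)
  exact ⟨hK, hK0, K₀.ord, by simpa using (Cardinal.aleph0_pos.trans hS.2.1),
    Cardinal.ord_lt_ord.2 hK₀K, hpow, fun h => Pool.Agent.H7.HD.P3.p3 h hNS⟩

/-- For each regular `K > K₀` there is a first `τ₀ > K` which is regular in HOD and of cofinality
at most `K₀`; it is less than `K⁺`, and `K` is supercompact in HOD below it. -/
theorem fin3_tau (hSV : T_SV.{u}) (hP2 : T_P2.{u}) (hRF : T_RF.{u}) (hZX : T_ZX.{u})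
    (hFC : T_FC.{u}) (hTH : T_TH.{u}) {D K₀ K : Cardinal.{u}} (hD : StrComp D) (hS : OmSM K₀)
    (hDK₀ : D < K₀) (hK : K.IsRegular) (hK₀K : K₀ < K) :
    ∃ τ₀, K.ord < τ₀ ∧ τ₀ < (succ K).ord ∧ RegHOD τ₀ ∧ τ₀.cof ≤ K₀ ∧
      (Few τ₀.cof.ord (SH K.ord τ₀) → τ₀.cof = ℵ₀) ∧
      ∀ lam, K.ord < lam → lam < τ₀ → RegHOD lam → lam.cof = K ∧ ∃ U, HSup K.ord lam U := by
  have h0 : ℵ₀ < K₀ := hS.2.1
  have hs : (succ K).IsRegular := Cardinal.isRegular_succ hK.aleph0_le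
  have hKs : K.ord < (succ K).ord := Cardinal.ord_lt_ord.2 (lt_succ K)
  have hS2 := Pool.Agent.H7.HD.OM.s2 hSV hP2 hRF hZX hFC
  have hN : ∀ lam, (∀ τ, K.ord < τ → τ < lam → RegHOD τ → K₀ < τ.cof) →
      ∀ τ, K.ord ≤ τ → τ < lam → RegHOD τ → τ.cof ≠ ℵ₀ := by
    intro lam h τ h1 h2 h3
    rcases h1.eq_or_lt with h4 | h4
    · rw [← h4, hK.cof_ord]
      exact (h0.trans hK₀K).ne'
    · exact (h0.trans (h τ h4 h2 h3)).ne'
  have hex : ∃ τ, K.ord < τ ∧ τ < (succ K).ord ∧ RegHOD τ ∧ τ.cof ≤ K₀ := by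
    by_contra hc
    push Not at hc
    have h1 := hS2 D K₀ ℵ₀ K (succ K).ord hD hS hDK₀ Cardinal.isRegular_aleph0 hD.2.1 hK hK₀K
      (Pool.Agent.H20.HD.CS.regHOD_ord hs) hKs (by rw [hs.cof_ord]; exact hK₀K.trans (lt_succ K))
      (hN _ hc)
    exact lt_irrefl _ h1.1
  obtain ⟨τ₀, ⟨h1, h2, h3, h4⟩, hmin⟩ := WellFounded.has_min (wellFounded_lt (α := Ordinal.{u}))
    {τ | K.ord < τ ∧ τ < (succ K).ord ∧ RegHOD τ ∧ τ.cof ≤ K₀} hex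
  have hmin' : ∀ τ, K.ord < τ → τ < τ₀ → RegHOD τ → K₀ < τ.cof := by
    intro τ h5 h6 h7
    by_contra hc
    exact hmin τ ⟨h5, h6.trans h2, h7, not_lt.1 hc⟩ h6
  refine ⟨τ₀, h1, h2, h3, h4, ?_, ?_⟩
  · intro hF
    rcases hTH K τ₀ hK (h0.trans hK₀K) h3 h1 h2 hF with h | h
    · exact h
    · rw [h] at h4
      exact absurd hK₀K (not_lt.2 h4)
  · intro lam h5 h6 h7
    have h8 := hN lam fun τ h9 h10 h11 => hmin' τ h9 (h10.trans h6) h11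
    have h9 := hmin' lam h5 h6 h7
    exact (hS2 D K₀ ℵ₀ K lam hD hS hDK₀ Cardinal.isRegular_aleph0 hD.2.1 hK hK₀K h7 h5 h9 h8).2

/-- Above `D` all regular cardinals are `ω`-strongly measurable if `GoodN D`. -/
theorem fin3_good {D K : Cardinal.{u}} (hD : GoodN D) (hK : K.IsRegular) (hDK : D < K) :
    OmSM K := by
  have hD0 : ℵ₀ < D := hD.2.2.1
  have hK0 : ℵ₀ < K := hD0.trans hDK
  have hNS : NS D.ord (ℵ₀ : Cardinal.{u}).ord K.ord :=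
    hD.2.2.2 ℵ₀ Cardinal.isRegular_aleph0 hD0 K.ord (by rw [hK.cof_ord]; exact hDK.le)
  obtain ⟨en, hen⟩ := All.en.{u}
  obtain ⟨c, -, hc⟩ := All.hb2 en hen D ℵ₀ K.ord hD.1 hD.2.1 hD0 Cardinal.isRegular_aleph0 hD0
    (by rw [hK.cof_ord]; exact hDK) (All.ha _ _ _ hNS) univ
    ((DO.cst True).congr fun _ => by simp)
    (All.vc ℵ₀ K.ord Cardinal.isRegular_aleph0 (by rw [hK.cof_ord]; exact hK0))
  have hpow := All.kc en hen _ K c hK hK0 hc D.ord (Cardinal.ord_lt_ord.2 hDK)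
  exact ⟨hK, hK0, D.ord, by simpa using (Cardinal.aleph0_pos.trans hD0),
    Cardinal.ord_lt_ord.2 hDK, hpow, fun h => Pool.Agent.H7.HD.P3.p3 h hNS⟩

/-- Extendible cardinals: the HOD Hypothesis, or supercompactness in HOD. -/
theorem fin_ext (hHY : T_HY.{u}) (hRR : T_RR.{u}) (hSP : T_SP.{u}) (hTH : T_TH.{u})
    (δ : Ordinal.{u}) (hδ : Extendible δ) : HODHyp.{u} ∨
    ((∀ l < δ, ∃ δ₀ < δ, l < δ₀ ∧ ∀ K : Cardinal.{u}, K.IsRegular → δ₀ < K.ord → OmSM K ∧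
      ∃ τ₀, K.ord < τ₀ ∧ τ₀ < (succ K).ord ∧ RegHOD τ₀ ∧ τ₀.cof.ord ≤ δ₀ ∧
        (Few τ₀.cof.ord (SH K.ord τ₀) → τ₀.cof = ℵ₀) ∧
        ∀ lam, K.ord < lam → lam < τ₀ → RegHOD lam → lam.cof = K ∧ ∃ U, HSup K.ord lam U) ∧
    ∀ N : Cardinal.{u}, N.IsRegular → N.ord < δ → ∃ δ₀ < δ, ∀ (K : Cardinal.{u})
      (lam : Ordinal.{u}), K.IsRegular → δ₀ < K.ord → RegHOD lam → K.ord < lam →
      δ₀ < lam.cof.ord → (∀ τ, K.ord ≤ τ → τ < lam → RegHOD τ → τ.cof ≠ N) →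
        lam < (succ K).ord ∧ lam.cof = K ∧ ∃ U, HSup K.ord lam U) := by
  by_cases hA : CaseA δ
  · exact Or.inl (hHY δ hA)
  refine Or.inr ⟨fun l hl => ?_, fun N hN hNδ => ?_⟩
  · obtain ⟨D, h1, h2, h3⟩ := asm_refl All.xa All.xb All.yl All.ra hδ hA l hl
    refine ⟨D.ord, h1, h2, fun K hK hDK => ?_⟩
    obtain ⟨τ₀, g1, g2, g3, g4, g5, g6⟩ := fin_tau hRR hSP hTH h3 hK (Cardinal.ord_lt_ord.1 hDK)
    exact ⟨fin3_good h3 hK (Cardinal.ord_lt_ord.1 hDK), τ₀, g1, g2, g3,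
      Cardinal.ord_le_ord.2 g4, g5, g6⟩
  · obtain ⟨D, h1, h2, h3⟩ := asm_refl All.xa All.xb All.yl All.ra hδ hA N.ord hNδ
    refine ⟨D.ord, h1, ?_⟩
    intro K lam hK hDK hl hKl hcf hno
    have hND := Cardinal.ord_lt_ord.1 h2
    have hcf' := Cardinal.ord_lt_ord.1 hcf
    have hDK' := Cardinal.ord_lt_ord.1 hDK
    obtain ⟨g1, g2⟩ := hRR D N K lam h3 hN hND hK hDK' hl hKl hcf' hno
    exact ⟨g1, g2 lam hKl.le le_rfl hl, hSP D N K lam h3 hN hND hK hDK' hl hKl hcf' hno⟩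

/-- Strongly compact cardinals: no `ω`-strongly measurable cardinals above, or supercompactness
in HOD. -/
theorem fin_sc (hSV : T_SV.{u}) (hP2 : T_P2.{u}) (hRF : T_RF.{u}) (hZX : T_ZX.{u})
    (hFC : T_FC.{u}) (hTH : T_TH.{u}) (D K₀ : Cardinal.{u}) (hD : StrComp D) (hDK₀ : D < K₀)
    (hS : OmSM K₀) (K : Cardinal.{u}) (hK : K.IsRegular) (hK₀K : K₀ < K) : OmSM K ∧
    (∃ τ₀, K.ord < τ₀ ∧ τ₀ < (succ K).ord ∧ RegHOD τ₀ ∧ τ₀.cof ≤ K₀ ∧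
      (Few τ₀.cof.ord (SH K.ord τ₀) → τ₀.cof = ℵ₀) ∧
      ∀ lam, K.ord < lam → lam < τ₀ → RegHOD lam → lam.cof = K ∧ ∃ U, HSup K.ord lam U) ∧
    ∀ (N : Cardinal.{u}) (lam : Ordinal.{u}), N.IsRegular → N < D → RegHOD lam → K.ord < lam →
      K₀ < lam.cof → (∀ τ, K.ord ≤ τ → τ < lam → RegHOD τ → τ.cof ≠ N) →
        lam < (succ K).ord ∧ lam.cof = K ∧ ∃ U, HSup K.ord lam U :=
  ⟨fin3_om hSV hP2 hD hS hDK₀ hK hK₀K, fin3_tau hSV hP2 hRF hZX hFC hTH hD hS hDK₀ hK hK₀K,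
    fun N lam hN hND hl hKl hcf hno =>
      Pool.Agent.H7.HD.OM.s2 hSV hP2 hRF hZX hFC D K₀ N K lam hD hS hDK₀ hN hND hK hK₀K hl hKl hcf
        hno⟩

end HD
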