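import Pool.Agent.H7.HD.Defs

/-!
# Definability over `V` and local definability: closure properties
-/

open Ordinal Cardinal Order Set
open scoped ZFSet

universe u

namespace HD

/-! ## Sequences -/

@[simp] theorem cons_zero (x : ZFSet.{u}) (v) : cons x v 0 = x := rfl
@[simp] theorem cons_succ (x : ZFSet.{u}) (v) (n : ℕ) : cons x v (n + 1) = v n := rfl

theorem cons_eta (v : ℕ → ZFSet.{u}) : cons (v 0) (fun n => v (n + 1)) = v := by
  funext n; cases n <;> rfl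

/-- lift of a renaming under a quantifier -/
def lft (σ : ℕ → ℕ) : ℕ → ℕ
  | 0 => 0
  | n + 1 => σ n + 1

theorem cons_lft (x : ZFSet.{u}) (v : ℕ → ZFSet.{u}) (σ : ℕ → ℕ) :
    (cons x v) ∘ lft σ = cons x (v ∘ σ) := by
  funext n; cases n <;> rfl

/-- renaming of variables in a formula -/
def Fml.ren : Fml → (ℕ → ℕ) → Fml
  | .mem i j, σ => .mem (σ i) (σ j)
  | .eq i j, σ => .eq (σ i) (σ j)
  | .neg φ, σ => .neg (φ.ren σ)
  | .and φ ψ, σ => .and (φ.ren σ) (ψ.ren σ)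
  | .ex φ, σ => .ex (φ.ren (lft σ))

theorem sat_ren (M : ZFSet.{u} → Prop) (φ : Fml) : ∀ (σ : ℕ → ℕ) (v : ℕ → ZFSet.{u}),
    Sat M (φ.ren σ) v ↔ Sat M φ (v ∘ σ) := by
  induction φ with
  | mem i j => intro σ v; rfl
  | eq i j => intro σ v; rfl
  | neg φ ih => intro σ v; exact not_congr (ih σ v)
  | and φ ψ ih1 ih2 => intro σ v; exact and_congr (ih1 σ v) (ih2 σ v)
  | ex φ ih =>
    intro σ v
    refine exists_congr fun x => and_congr_right fun _ => ?_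
    rw [ih, cons_lft]

/-! ## Definitions -/

/-- admissible heights: limit ordinals above `ω` -/
def Gd (η : Ordinal.{u}) : Prop := IsSuccLimit η ∧ ω < η

/-- `P` is defined by one formula over all `V_ η`, `η` admissible. -/
def Loc (P : (ℕ → ZFSet.{u}) → Prop) : Prop :=
  ∃ φ : Fml, ∀ η : Ordinal.{u}, Gd η → ∀ v : ℕ → ZFSet.{u}, (∀ n, v n ∈ V_ η) →
    (P v ↔ Sat (· ∈ V_ η) φ v)

/-- `P` is definable over `V`. -/
def DV (P : (ℕ → ZFSet.{u}) → Prop) : Prop :=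
  ∃ φ : Fml, ∀ v, P v ↔ Sat (fun _ => True) φ v

variable {P Q : (ℕ → ZFSet.{u}) → Prop}

/-! ## Closure of `DV` -/

theorem DV.congr (hP : DV P) (h : ∀ v, Q v ↔ P v) : DV Q := by
  obtain ⟨φ, hφ⟩ := hP
  exact ⟨φ, fun v => (h v).trans (hφ v)⟩

theorem DV.mem (i j : ℕ) : DV.{u} (fun v => v i ∈ v j) := ⟨.mem i j, fun _ => Iff.rfl⟩
theorem DV.eq (i j : ℕ) : DV.{u} (fun v => v i = v j) := ⟨.eq i j, fun _ => Iff.rfl⟩

theorem DV.not (hP : DV P) : DV (fun v => ¬ P v) := by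
  obtain ⟨φ, hφ⟩ := hP
  exact ⟨.neg φ, fun v => not_congr (hφ v)⟩

theorem DV.and (hP : DV P) (hQ : DV Q) : DV (fun v => P v ∧ Q v) := by
  obtain ⟨φ, hφ⟩ := hP
  obtain ⟨ψ, hψ⟩ := hQ
  exact ⟨.and φ ψ, fun v => and_congr (hφ v) (hψ v)⟩

theorem DV.or (hP : DV P) (hQ : DV Q) : DV (fun v => P v ∨ Q v) :=
  (hP.not.and hQ.not).not.congr fun v => by tauto

theorem DV.imp (hP : DV P) (hQ : DV Q) : DV (fun v => P v → Q v) :=
  (hP.and hQ.not).not.congr fun v => by tauto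

theorem DV.iff (hP : DV P) (hQ : DV Q) : DV (fun v => P v ↔ Q v) :=
  ((hP.imp hQ).and (hQ.imp hP)).congr fun v => by tauto

theorem DV.true : DV.{u} (fun _ => True) := (DV.eq 0 0).congr fun v => by simp
theorem DV.false : DV.{u} (fun _ => False) := DV.true.not.congr fun v => by simp

/-- existential quantifier; the bound variable becomes variable `0` -/
theorem DV.ex {R : ZFSet.{u} → (ℕ → ZFSet.{u}) → Prop}
    (h : DV (fun v => R (v 0) (fun n => v (n + 1)))) : DV (fun v => ∃ x, R x v) := by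
  obtain ⟨φ, hφ⟩ := h
  refine ⟨.ex φ, fun v => exists_congr fun x => ?_⟩
  have := hφ (cons x v)
  simpa using this

theorem DV.all {R : ZFSet.{u} → (ℕ → ZFSet.{u}) → Prop}
    (h : DV (fun v => R (v 0) (fun n => v (n + 1)))) : DV (fun v => ∀ x, R x v) :=
  (DV.ex (R := fun x v => ¬ R x v) h.not).not.congr fun v => by push Not; rfl

/-- bounded quantifiers -/
theorem DV.exMem {R : ZFSet.{u} → (ℕ → ZFSet.{u}) → Prop} (i : ℕ)
    (h : DV (fun v => R (v 0) (fun n => v (n + 1)))) : DV (fun v => ∃ x ∈ v i, R x v) :=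
  DV.ex (R := fun x v => x ∈ v i ∧ R x v) ((DV.mem 0 (i + 1)).and h)

theorem DV.allMem {R : ZFSet.{u} → (ℕ → ZFSet.{u}) → Prop} (i : ℕ)
    (h : DV (fun v => R (v 0) (fun n => v (n + 1)))) : DV (fun v => ∀ x ∈ v i, R x v) :=
  DV.all (R := fun x v => x ∈ v i → R x v) ((DV.mem 0 (i + 1)).imp h)

theorem DV.ren (hP : DV P) (σ : ℕ → ℕ) : DV (fun v => P (fun n => v (σ n))) := by
  obtain ⟨φ, hφ⟩ := hP
  refine ⟨φ.ren σ, fun v => ?_⟩
  rw [sat_ren]
  exact hφ _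

theorem DV.cst (p : Prop) : DV.{u} (fun _ => p) := by
  by_cases h : p
  · exact DV.true.congr fun v => by simp [h]
  · exact DV.false.congr fun v => by simp [h]

/-! ## Closure of `Loc` -/

theorem Loc.congr (hP : Loc P) (h : ∀ v, Q v ↔ P v) : Loc Q := by
  obtain ⟨φ, hφ⟩ := hP
  exact ⟨φ, fun η hη v hv => (h v).trans (hφ η hη v hv)⟩

theorem Loc.mem (i j : ℕ) : Loc.{u} (fun v => v i ∈ v j) := ⟨.mem i j, fun _ _ _ _ => Iff.rfl⟩
theorem Loc.eq (i j : ℕ) : Loc.{u} (fun v => v i = v j) := ⟨.eq i j, fun _ _ _ _ => Iff.rfl⟩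

theorem Loc.not (hP : Loc P) : Loc (fun v => ¬ P v) := by
  obtain ⟨φ, hφ⟩ := hP
  exact ⟨.neg φ, fun η hη v hv => not_congr (hφ η hη v hv)⟩

theorem Loc.and (hP : Loc P) (hQ : Loc Q) : Loc (fun v => P v ∧ Q v) := by
  obtain ⟨φ, hφ⟩ := hP
  obtain ⟨ψ, hψ⟩ := hQ
  exact ⟨.and φ ψ, fun η hη v hv => and_congr (hφ η hη v hv) (hψ η hη v hv)⟩

theorem Loc.or (hP : Loc P) (hQ : Loc Q) : Loc (fun v => P v ∨ Q v) :=
  (hP.not.and hQ.not).not.congr fun v => by tauto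

theorem Loc.imp (hP : Loc P) (hQ : Loc Q) : Loc (fun v => P v → Q v) :=
  (hP.and hQ.not).not.congr fun v => by tauto

theorem Loc.iff (hP : Loc P) (hQ : Loc Q) : Loc (fun v => P v ↔ Q v) :=
  ((hP.imp hQ).and (hQ.imp hP)).congr fun v => by tauto

theorem Loc.true : Loc.{u} (fun _ => True) := (Loc.eq 0 0).congr fun v => by simp
theorem Loc.false : Loc.{u} (fun _ => False) := Loc.true.not.congr fun v => by simp

theorem Loc.cst (p : Prop) : Loc.{u} (fun _ => p) := by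
  by_cases h : p
  · exact Loc.true.congr fun v => by simp [h]
  · exact Loc.false.congr fun v => by simp [h]

theorem Loc.ren (hP : Loc P) (σ : ℕ → ℕ) : Loc (fun v => P (fun n => v (σ n))) := by
  obtain ⟨φ, hφ⟩ := hP
  refine ⟨φ.ren σ, fun η hη v hv => ?_⟩
  rw [sat_ren]
  exact hφ η hη _ fun n => hv _

/-- existential quantifier whose witnesses are automatically in `V_ η` -/
theorem Loc.ex {R : ZFSet.{u} → (ℕ → ZFSet.{u}) → Prop}
    (h : Loc (fun v => R (v 0) (fun n => v (n + 1))))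
    (hb : ∀ η, Gd η → ∀ v : ℕ → ZFSet.{u}, (∀ n, v n ∈ V_ η) → ∀ x, R x v → x ∈ V_ η) :
    Loc (fun v => ∃ x, R x v) := by
  obtain ⟨φ, hφ⟩ := h
  refine ⟨.ex φ, fun η hη v hv => exists_congr fun x => ?_⟩
  have key : x ∈ V_ η → (R x v ↔ Sat (· ∈ V_ η) φ (cons x v)) := fun hx => by
    have := hφ η hη (cons x v) (by rintro (_ | n); exacts [hx, hv n])
    simpa using this
  constructor
  · intro hR
    have hx := hb η hη v hv x hR
    exact ⟨hx, (key hx).1 hR⟩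
  · rintro ⟨hx, hs⟩
    exact (key hx).2 hs

theorem mem_V_of_mem {η : Ordinal.{u}} {x y : ZFSet.{u}} (h : x ∈ y) (hy : y ∈ V_ η) :
    x ∈ V_ η := (ZFSet.isTransitive_vonNeumann η).mem_trans h hy

/-- bounded quantifiers -/
theorem Loc.exMem {R : ZFSet.{u} → (ℕ → ZFSet.{u}) → Prop} (i : ℕ)
    (h : Loc (fun v => R (v 0) (fun n => v (n + 1)))) : Loc (fun v => ∃ x ∈ v i, R x v) :=
  Loc.ex (R := fun x v => x ∈ v i ∧ R x v) ((Loc.mem 0 (i + 1)).and h)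
    fun _ _ _ hv _ hx => mem_V_of_mem hx.1 (hv i)

theorem Loc.allMem {R : ZFSet.{u} → (ℕ → ZFSet.{u}) → Prop} (i : ℕ)
    (h : Loc (fun v => R (v 0) (fun n => v (n + 1)))) : Loc (fun v => ∀ x ∈ v i, R x v) :=
  (Loc.exMem (R := fun x v => ¬ R x v) i h.not).not.congr fun v => by push Not; rfl

theorem Loc.sub (i j : ℕ) : Loc.{u} (fun v => v i ⊆ v j) :=
  (Loc.allMem (R := fun x v => x ∈ v j) i (Loc.mem 0 (j + 1))).congr fun v => by
    rw [ZFSet.subset_def]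

theorem mem_V_of_sub {η : Ordinal.{u}} {x y : ZFSet.{u}} (h : x ⊆ y) (hy : y ∈ V_ η) :
    x ∈ V_ η := ZFSet.mem_vonNeumann_of_subset h hy

/-- quantifiers over subsets -/
theorem Loc.exSub {R : ZFSet.{u} → (ℕ → ZFSet.{u}) → Prop} (i : ℕ)
    (h : Loc (fun v => R (v 0) (fun n => v (n + 1)))) : Loc (fun v => ∃ x ⊆ v i, R x v) :=
  Loc.ex (R := fun x v => x ⊆ v i ∧ R x v) ((Loc.sub 0 (i + 1)).and h)
    fun _ _ _ hv _ hx => mem_V_of_sub hx.1 (hv i)

theorem Loc.allSub {R : ZFSet.{u} → (ℕ → ZFSet.{u}) → Prop} (i : ℕ)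
    (h : Loc (fun v => R (v 0) (fun n => v (n + 1)))) : Loc (fun v => ∀ x ⊆ v i, R x v) :=
  (Loc.exSub (R := fun x v => ¬ R x v) i h.not).not.congr fun v => by push Not; rfl

/-! ## Closure of `V_ η` -/

theorem Gd.succ_lt {η a : Ordinal.{u}} (h : Gd η) (ha : a < η) : succ a < η := h.1.succ_lt ha

theorem Gd.insert {η : Ordinal.{u}} (h : Gd η) {x y : ZFSet.{u}} (hx : x ∈ V_ η)
    (hy : y ∈ V_ η) : insert x y ∈ V_ η := by
  rw [ZFSet.mem_vonNeumann] at *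
  rw [ZFSet.rank_insert]
  exact max_lt (h.succ_lt hx) hy

theorem Gd.empty {η : Ordinal.{u}} (h : Gd η) : (∅ : ZFSet.{u}) ∈ V_ η := by
  rw [ZFSet.mem_vonNeumann, ZFSet.rank_empty]
  exact lt_of_le_of_lt bot_le h.2

theorem Gd.single {η : Ordinal.{u}} (h : Gd η) {x : ZFSet.{u}} (hx : x ∈ V_ η) :
    {x} ∈ V_ η := by
  have := h.insert hx h.empty
  simpa [ZFSet.insert_eq] using this

theorem Gd.upair {η : Ordinal.{u}} (h : Gd η) {x y : ZFSet.{u}} (hx : x ∈ V_ η)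
    (hy : y ∈ V_ η) : {x, y} ∈ V_ η := h.insert hx (h.single hy)

theorem Gd.pair {η : Ordinal.{u}} (h : Gd η) {x y : ZFSet.{u}} (hx : x ∈ V_ η)
    (hy : y ∈ V_ η) : ZFSet.pair x y ∈ V_ η := by
  unfold ZFSet.pair
  exact h.upair (h.single hx) (h.upair hx hy)

theorem Gd.powerset {η : Ordinal.{u}} (h : Gd η) {x : ZFSet.{u}} (hx : x ∈ V_ η) :
    ZFSet.powerset x ∈ V_ η := by
  rw [ZFSet.mem_vonNeumann] at *
  rw [ZFSet.rank_powerset]
  exact h.succ_lt hx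

theorem Gd.union {η : Ordinal.{u}} {x y : ZFSet.{u}} (hx : x ∈ V_ η)
    (hy : y ∈ V_ η) : x ∪ y ∈ V_ η := by
  rw [ZFSet.mem_vonNeumann] at *
  rw [ZFSet.rank_union]
  exact max_lt hx hy

theorem Gd.prod {η : Ordinal.{u}} (h : Gd η) {x y : ZFSet.{u}} (hx : x ∈ V_ η)
    (hy : y ∈ V_ η) : ZFSet.prod x y ∈ V_ η := by
  refine mem_V_of_sub (y := ZFSet.powerset (ZFSet.powerset (x ∪ y))) ?_
    (h.powerset (h.powerset (Gd.union hx hy)))
  intro z hz
  unfold ZFSet.prod ZFSet.pairSep at hz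
  exact (ZFSet.mem_sep.1 hz).1

theorem Gd.ord {η a : Ordinal.{u}} : a.toZFSet ∈ V_ η ↔ a < η := by
  rw [ZFSet.mem_vonNeumann, rank_toZFSet]

end HD
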