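import Pool.Agent.H7.HD.Loc

/-!
# Basic locally definable predicates
-/

open Ordinal Cardinal Order Set
open scoped ZFSet

universe u

namespace HD

theorem loc_empty (i : ℕ) : Loc.{u} (fun v => v i = ∅) :=
  Loc.congr (P := fun v => ∀ x ∈ v i, False) (Loc.allMem _ (Loc.cst _)) fun v => by
    rw [ZFSet.eq_empty]

theorem loc_upair (i j k : ℕ) : Loc.{u} (fun v => v i = {v j, v k}) :=
  Loc.congr (P := fun v => v j ∈ v i ∧ v k ∈ v i ∧ ∀ x ∈ v i, x = v j ∨ x = v k)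
    ((Loc.mem _ _).and ((Loc.mem _ _).and (Loc.allMem _ ((Loc.eq _ _).or (Loc.eq _ _)))))
    fun v => by
      constructor
      · intro h; rw [h]; simp
      · rintro ⟨h1, h2, h3⟩
        ext x
        rw [ZFSet.mem_pair]
        exact ⟨h3 x, by rintro (rfl | rfl) <;> assumption⟩

theorem loc_pair (i j k : ℕ) : Loc.{u} (fun v => v i = ZFSet.pair (v j) (v k)) :=
  Loc.congr (P := fun v => ∃ a ∈ v i, ∃ b ∈ v i, a = {v j, v j} ∧ b = {v j, v k} ∧
      ∀ x ∈ v i, x = a ∨ x = b)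
    (by
      exact Loc.exMem _ (Loc.exMem _ ((loc_upair 1 (j + 2) (j + 2)).and
        ((loc_upair 0 (j + 2) (k + 2)).and (Loc.allMem _ ((Loc.eq _ _).or (Loc.eq _ _)))))))
    fun v => by
      unfold ZFSet.pair
      constructor
      · intro h
        rw [h]
        refine ⟨{v j}, by simp, {v j, v k}, by simp, ?_, rfl, by simp⟩
        exact (ZFSet.pair_eq_singleton _).symm
      · rintro ⟨a, ha, b, hb, rfl, rfl, h⟩
        ext x
        rw [ZFSet.mem_pair, ← ZFSet.pair_eq_singleton (v j)]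
        exact ⟨h x, by rintro (rfl | rfl) <;> assumption⟩

theorem loc_pmem (i j k : ℕ) : Loc.{u} (fun v => ZFSet.pair (v i) (v j) ∈ v k) :=
  Loc.congr (P := fun v => ∃ z ∈ v k, z = ZFSet.pair (v i) (v j))
    (Loc.exMem _ (loc_pair 0 (i + 1) (j + 1))) fun v => by simp

theorem loc_ord (i : ℕ) : Loc.{u} (fun v => (v i).IsOrdinal) :=
  Loc.congr (P := fun v => (∀ x ∈ v i, x ⊆ v i) ∧ ∀ y ∈ v i, ∀ x ∈ y, x ⊆ y)
    ((Loc.allMem _ (Loc.sub _ _)).and (Loc.allMem _ (Loc.allMem _ (Loc.sub _ _))))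
    fun v => by
      rw [ZFSet.isOrdinal_iff_forall_mem_isTransitive]
      rfl

theorem loc_insert (i j k : ℕ) : Loc.{u} (fun v => v i = insert (v j) (v k)) :=
  Loc.congr (P := fun v => v j ∈ v i ∧ v k ⊆ v i ∧ ∀ x ∈ v i, x = v j ∨ x ∈ v k)
    ((Loc.mem _ _).and ((Loc.sub _ _).and (Loc.allMem _ ((Loc.eq _ _).or (Loc.mem _ _)))))
    fun v => by
      constructor
      · intro h
        rw [h]
        refine ⟨by simp, fun x hx => by simp [hx], by simp⟩
      · rintro ⟨h1, h2, h3⟩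
        ext x
        rw [ZFSet.mem_insert_iff]
        exact ⟨h3 x, by rintro (rfl | h); exacts [h1, h2 h]⟩

theorem loc_powerset (i j : ℕ) : Loc.{u} (fun v => v i = ZFSet.powerset (v j)) :=
  Loc.congr (P := fun v => (∀ x ∈ v i, x ⊆ v j) ∧ ∀ x ⊆ v j, x ∈ v i)
    ((Loc.allMem _ (Loc.sub _ _)).and (Loc.allSub _ (Loc.mem _ _)))
    fun v => by
      constructor
      · intro h
        rw [h]
        simp
      · rintro ⟨h1, h2⟩
        ext x
        rw [ZFSet.mem_powerset]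
        exact ⟨h1 x, h2 x⟩

theorem loc_func (i j k : ℕ) : Loc.{u} (fun v => ZFSet.IsFunc (v i) (v j) (v k)) :=
  Loc.congr (P := fun v => (∀ p ∈ v k, ∃ a ∈ v i, ∃ b ∈ v j, p = ZFSet.pair a b) ∧
      ∀ a ∈ v i, ∃ b ∈ v j, ZFSet.pair a b ∈ v k ∧ ∀ c ∈ v j, ZFSet.pair a c ∈ v k → c = b)
    (by
      refine Loc.and (Loc.allMem _ (Loc.exMem _ (Loc.exMem _ (loc_pair 2 1 0))))
        (Loc.allMem _ (Loc.exMem _ ((loc_pmem 1 0 (k + 2)).and (Loc.allMem _
          ((loc_pmem 2 0 (k + 3)).imp (Loc.eq 0 1)))))))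
    fun v => by
      constructor
      · rintro ⟨h1, h2⟩
        have h1' : ∀ a b, ZFSet.pair a b ∈ v k → a ∈ v i ∧ b ∈ v j := fun a b h =>
          ZFSet.pair_mem_prod.1 (h1 h)
        refine ⟨fun p hp => ?_, fun a ha => ?_⟩
        · exact ZFSet.mem_prod.1 (h1 hp)
        · obtain ⟨b, hb, hb'⟩ := h2 a ha
          exact ⟨b, (h1' a b hb).2, hb, fun c _ hc => hb' c hc⟩
      · rintro ⟨h1, h2⟩
        refine ⟨fun p hp => ZFSet.mem_prod.2 (h1 p hp), fun a ha => ?_⟩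
        obtain ⟨b, hb, hb1, hb2⟩ := h2 a ha
        refine ⟨b, hb1, fun c hc => hb2 c ?_ hc⟩
        obtain ⟨a', _, b', hb', he⟩ := h1 _ hc
        obtain ⟨-, rfl⟩ := ZFSet.pair_injective he
        exact hb'

theorem loc_prod (i j k : ℕ) : Loc.{u} (fun v => v i = ZFSet.prod (v j) (v k)) :=
  Loc.congr (P := fun v => (∀ p ∈ v i, ∃ a ∈ v j, ∃ b ∈ v k, p = ZFSet.pair a b) ∧
      ∀ a ∈ v j, ∀ b ∈ v k, ZFSet.pair a b ∈ v i)
    (Loc.and (Loc.allMem _ (Loc.exMem _ (Loc.exMem _ (loc_pair 2 1 0))))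
      (Loc.allMem _ (Loc.allMem _ (loc_pmem 1 0 (i + 2)))))
    fun v => by
      constructor
      · intro h
        rw [h]
        exact ⟨fun p hp => ZFSet.mem_prod.1 hp, fun a ha b hb => ZFSet.pair_mem_prod.2 ⟨ha, hb⟩⟩
      · rintro ⟨h1, h2⟩
        ext p
        rw [ZFSet.mem_prod]
        constructor
        · exact h1 p
        · rintro ⟨a, ha, b, hb, rfl⟩
          exact h2 a ha b hb

end HD
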