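import Pool.Agent.H7.HD.Refl

/-!
# Local definability of `ω`, of the levels `V_ α` and of relativised satisfaction
-/

open Ordinal Cardinal Order Set
open scoped ZFSet

universe u

namespace HD

theorem ord_of {x : ZFSet.{u}} (h : x.IsOrdinal) : ∃ a : Ordinal.{u}, x = a.toZFSet :=
  ⟨x.rank, h.toZFSet_rank_eq.symm⟩

theorem loc_omega (i : ℕ) : Loc.{u} (fun v => v i = (ω : Ordinal.{u}).toZFSet) :=
  Loc.congr (P := fun v => (v i).IsOrdinal ∧ (∃ x ∈ v i, x = ∅) ∧
      (∀ x ∈ v i, ∃ y ∈ v i, y = insert x x) ∧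
      ∀ y ∈ v i, y = ∅ ∨ ∃ x ∈ y, y = insert x x)
    ((loc_ord i).and ((Loc.exMem _ (loc_empty 0)).and
      ((Loc.allMem _ (Loc.exMem _ (loc_insert 0 1 1))).and
      (Loc.allMem _ ((loc_empty 0).or (Loc.exMem _ (loc_insert 1 0 0)))))))
    fun v => by
      constructor
      · intro h
        rw [h]
        refine ⟨ZFSet.isOrdinal_toZFSet _, ⟨∅, ?_, rfl⟩, ?_, ?_⟩
        · rw [← toZFSet_zero, toZFSet_mem_toZFSet_iff]
          exact omega0_pos
        · intro x hx
          obtain ⟨a, ha, rfl⟩ := mem_toZFSet_iff.1 hx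
          refine ⟨_, ?_, rfl⟩
          rw [← toZFSet_add_one, toZFSet_mem_toZFSet_iff]
          exact isSuccLimit_omega0.succ_lt ha
        · intro y hy
          obtain ⟨a, ha, rfl⟩ := mem_toZFSet_iff.1 hy
          obtain ⟨n, rfl⟩ := lt_omega0.1 ha
          rcases n with _ | n
          · left
            simp
          · right
            refine ⟨(n : Ordinal).toZFSet, ?_, ?_⟩
            · rw [toZFSet_mem_toZFSet_iff]
              exact_mod_cast Nat.lt_succ_self n
            · rw [← toZFSet_add_one]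
              norm_cast
      · rintro ⟨h1, ⟨z, h2, rfl⟩, h3, h4⟩
        obtain ⟨a, ha⟩ := ord_of h1
        rw [ha] at h2 h3 h4 ⊢
        congr 1
        apply le_antisymm
        · by_contra hlt
          push Not at hlt
          obtain h | ⟨x, hx, h⟩ := h4 _ (toZFSet_mem_toZFSet_iff.2 hlt)
          · rw [← toZFSet_zero] at h
            exact omega0_pos.ne' (toZFSet_injective h)
          · obtain ⟨b, hb, rfl⟩ := mem_toZFSet_iff.1 hx
            rw [← toZFSet_add_one] at h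
            have := toZFSet_injective h
            exact (isSuccLimit_omega0.succ_lt hb).ne' this
        · rw [omega0_le]
          intro n
          apply le_of_lt
          induction n with
          | zero =>
            rw [← toZFSet_zero, toZFSet_mem_toZFSet_iff] at h2
            simpa using h2
          | succ n ih =>
            obtain ⟨y, hy, h⟩ := h3 _ (toZFSet_mem_toZFSet_iff.2 ih)
            rw [h, ← toZFSet_add_one, toZFSet_mem_toZFSet_iff] at hy
            exact_mod_cast hy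

theorem V_iff {α : Ordinal.{u}} {z : ZFSet.{u}} : z ∈ V_ α ↔ ∃ γ < α, z ⊆ V_ γ :=
  ZFSet.mem_vonNeumann'

theorem loc_V (i j : ℕ) : Loc.{u} (fun v => (v i).IsOrdinal ∧ v j = V_ (v i).rank) := by
  refine Loc.congr (P := fun v => (v i).IsOrdinal ∧ ∃ s, s = insert (v i) (v i) ∧
    ∃ q, q = ZFSet.prod s (v j) ∧ ∃ F ⊆ q,
      (∀ b ∈ s, ∀ z ∈ v j, (ZFSet.pair b z ∈ F ↔ ∃ c ∈ b, ∀ y ∈ z, ZFSet.pair c y ∈ F)) ∧
      (∀ z ∈ v j, ZFSet.pair (v i) z ∈ F) ∧
      (∀ c ∈ v i, ∀ z ⊆ v j, (∀ y ∈ z, ZFSet.pair c y ∈ F) → z ∈ v j)) ?_ ?_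
  · refine (loc_ord i).and (Loc.ex ?_ ?_)
    · refine (loc_insert 0 (i + 1) (i + 1)).and (Loc.ex ?_ ?_)
      · refine (loc_prod 0 1 (j + 2)).and (Loc.exSub _ ?_)
        refine Loc.and (Loc.allMem _ (Loc.allMem _ (Loc.iff (loc_pmem 1 0 2)
          (Loc.exMem _ (Loc.allMem _ (loc_pmem 1 0 4)))))) (Loc.and
            (Loc.allMem _ (loc_pmem _ 0 1)) ?_)
        refine Loc.allMem _ (Loc.allSub _ (Loc.imp (Loc.allMem _ (loc_pmem 2 0 3)) (Loc.mem _ _)))
      · rintro η hη v hv x ⟨rfl, -⟩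
        exact hη.prod (hv _) (hv _)
    · rintro η hη v hv x ⟨rfl, -⟩
      exact hη.insert (hv _) (hv _)
  · intro v
    constructor
    · rintro ⟨h1, h2⟩
      refine ⟨h1, _, rfl, _, rfl, ?_⟩
      obtain ⟨a, ha⟩ := ord_of h1
      have hr : (v i).rank = a := by rw [ha, rank_toZFSet]
      rw [hr] at h2
      rw [ha, h2, ← toZFSet_add_one, ← Order.succ_eq_add_one]
      refine ⟨ZFSet.sep (fun p => ∃ b z, p = ZFSet.pair b z ∧ z ∈ V_ b.rank)
        (ZFSet.prod (succ a).toZFSet (V_ a)), fun p hp => (ZFSet.mem_sep.1 hp).1, ?_, ?_, ?_⟩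
      · intro b hb z hz
        obtain ⟨b, hb', rfl⟩ := mem_toZFSet_iff.1 hb
        have hmem : ∀ c ≤ a, ∀ y, ZFSet.pair c.toZFSet y ∈ ZFSet.sep (fun p => ∃ b z,
            p = ZFSet.pair b z ∧ z ∈ V_ b.rank) (ZFSet.prod (succ a).toZFSet (V_ a)) ↔
            y ∈ V_ c := by
          intro c hc y
          rw [ZFSet.mem_sep, ZFSet.pair_mem_prod]
          constructor
          · rintro ⟨-, b, z, h, hz⟩
            obtain ⟨rfl, rfl⟩ := ZFSet.pair_injective h
            rwa [rank_toZFSet] at hz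
          · intro hy
            refine ⟨⟨toZFSet_mem_toZFSet_iff.2 (lt_succ_iff.2 hc),
              ZFSet.vonNeumann_subset_of_le hc hy⟩, _, _, rfl, ?_⟩
            rwa [rank_toZFSet]
        rw [hmem b (lt_succ_iff.1 hb'), V_iff]
        constructor
        · rintro ⟨γ, hγ, hsub⟩
          refine ⟨γ.toZFSet, toZFSet_mem_toZFSet_iff.2 hγ, fun y hy => ?_⟩
          rw [hmem γ (hγ.le.trans (lt_succ_iff.1 hb'))]
          exact hsub hy
        · rintro ⟨c, hc, h⟩
          obtain ⟨γ, hγ, rfl⟩ := mem_toZFSet_iff.1 hc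
          refine ⟨γ, hγ, fun y hy => ?_⟩
          have := h y hy
          rwa [hmem γ (hγ.le.trans (lt_succ_iff.1 hb'))] at this
      · intro z hz
        rw [ZFSet.mem_sep, ZFSet.pair_mem_prod]
        refine ⟨⟨toZFSet_mem_toZFSet_iff.2 (lt_succ a), hz⟩, _, _, rfl, ?_⟩
        rwa [rank_toZFSet]
      · intro c hc z hz h
        obtain ⟨γ, hγ, rfl⟩ := mem_toZFSet_iff.1 hc
        rw [V_iff]
        refine ⟨γ, hγ, fun y hy => ?_⟩
        obtain ⟨-, b, z', he, hz'⟩ := ZFSet.mem_sep.1 (h y hy)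
        obtain ⟨rfl, rfl⟩ := ZFSet.pair_injective he
        rwa [rank_toZFSet] at hz'
    · rintro ⟨h1, _, rfl, _, rfl, F, hF, h2, h3, h4⟩
      refine ⟨h1, ?_⟩
      obtain ⟨a, ha⟩ := ord_of h1
      have hr : (v i).rank = a := by rw [ha, rank_toZFSet]
      rw [hr]
      rw [ha] at h2 h3 h4
      rw [← toZFSet_add_one, ← Order.succ_eq_add_one] at h2
      have key : ∀ b ≤ a, ∀ z, (ZFSet.pair b.toZFSet z ∈ F ∧ z ∈ v j) ↔ z ∈ V_ b := by
        intro b
        induction b using WellFoundedLT.induction with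
        | ind b ih =>
          intro hb z
          have hbm : b.toZFSet ∈ (succ a).toZFSet :=
            toZFSet_mem_toZFSet_iff.2 (lt_succ_iff.2 hb)
          rw [V_iff]
          constructor
          · rintro ⟨hp, hz⟩
            obtain ⟨c, hc, h⟩ := (h2 _ hbm z hz).1 hp
            obtain ⟨γ, hγ, rfl⟩ := mem_toZFSet_iff.1 hc
            refine ⟨γ, hγ, fun y hy => ?_⟩
            have hy2 := h y hy
            have hy3 : y ∈ v j := (ZFSet.pair_mem_prod.1 (hF hy2)).2
            exact (ih γ hγ (hγ.le.trans hb) y).1 ⟨hy2, hy3⟩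
          · rintro ⟨γ, hγ, hsub⟩
            have hz1 : ∀ y ∈ z, ZFSet.pair γ.toZFSet y ∈ F ∧ y ∈ v j := fun y hy =>
              (ih γ hγ (hγ.le.trans hb) y).2 (hsub hy)
            have hz : z ∈ v j := h4 _ (toZFSet_mem_toZFSet_iff.2 (hγ.trans_le hb)) z
              (fun y hy => (hz1 y hy).2) fun y hy => (hz1 y hy).1
            exact ⟨(h2 _ hbm z hz).2 ⟨_, toZFSet_mem_toZFSet_iff.2 hγ, fun y hy =>
              (hz1 y hy).1⟩, hz⟩
      ext z
      rw [← key a le_rfl z]
      exact ⟨fun hz => ⟨h3 z hz, hz⟩, fun h => h.2⟩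

theorem loc_sat (φ : Fml) : Loc.{u} (fun v => Sat (· ∈ v 0) φ (fun n => v (n + 1))) := by
  induction φ with
  | mem i j => exact Loc.mem _ _
  | eq i j => exact Loc.eq _ _
  | neg φ ih => exact ih.not
  | and φ ψ ih1 ih2 => exact ih1.and ih2
  | ex φ ih =>
    refine Loc.exMem (R := fun x v => Sat (· ∈ v 0) φ (cons x (fun n => v (n + 1)))) 0 ?_
    refine (ih.ren (fun n => if n = 0 then 1 else if n = 1 then 0 else n)).congr fun v => ?_
    show Sat (· ∈ v 1) φ _ ↔ Sat (· ∈ v 1) φ _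
    have : cons (v 0) (fun n => v (n + 1 + 1)) =
        fun n => v (if n + 1 = 0 then 1 else if n + 1 = 1 then 0 else n + 1) := by
      funext n
      rcases n with _ | n
      · simp
      · simp
    rw [this]

/-- `v 0` is the element of `V_ (v 1)` which is defined there by `φ` and `v 2, v 3, ...`. -/
def DefBy (φ : Fml) (v : ℕ → ZFSet.{u}) : Prop :=
  (v 1).IsOrdinal ∧ v 0 ∈ V_ (v 1).rank ∧ ∀ y ∈ V_ (v 1).rank,
    (Sat (· ∈ V_ (v 1).rank) φ (cons y fun n => v (n + 2)) ↔ y = v 0)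

theorem loc_defBy (φ : Fml) : Loc.{u} (DefBy φ) := by
  refine Loc.congr (P := fun v => ∃ A, ((v 1).IsOrdinal ∧ A = V_ (v 1).rank) ∧ v 0 ∈ A ∧
    ∀ y ∈ A, (Sat (· ∈ A) φ (cons y fun n => v (n + 2)) ↔ y = v 0)) ?_ fun v => ?_
  · refine Loc.ex ((loc_V 2 0).and ((Loc.mem _ _).and (Loc.allMem _ (Loc.iff ?_ (Loc.eq _ _))))) ?_
    · refine ((loc_sat φ).ren (fun n => if n = 0 then 1 else if n = 1 then 0 else n + 2)).congr
        fun v => ?_
      have : (cons (v 0) fun n => v (n + 2 + 1 + 1)) =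
          fun n => v (if n + 1 = 0 then 1 else if n + 1 = 1 then 0 else n + 1 + 2) := by
        funext n
        rcases n with _ | n
        · simp
        · simp
      rw [← this]
      rfl
    · rintro η hη v hv x ⟨⟨h1, rfl⟩, -⟩
      rw [ZFSet.mem_vonNeumann, ZFSet.rank_vonNeumann]
      exact ZFSet.mem_vonNeumann.1 (hv 1)
  · unfold DefBy
    constructor
    · rintro ⟨h1, h2, h3⟩
      exact ⟨_, ⟨h1, rfl⟩, h2, h3⟩
    · rintro ⟨_, ⟨h1, rfl⟩, h2, h3⟩
      exact ⟨h1, h2, h3⟩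

theorem OD.def {x : ZFSet.{u}} (h : OD x) : ∃ (α : Ordinal.{u}) (φ : Fml) (p : ℕ → Ordinal.{u}),
    (∀ n, p n < α) ∧ ∀ y, DefBy φ (cons y (ov (cns α p))) ↔ y = x := by
  obtain ⟨α, φ, p, h1, h2, h3⟩ := h
  refine ⟨α, φ, p, h1, fun y => ?_⟩
  have e1 : cons y (ov (cns α p)) 1 = α.toZFSet := rfl
  have e2 : ∀ n, cons y (ov (cns α p)) (n + 2) = (p n).toZFSet := fun n => rfl
  unfold DefBy
  simp only [e1, e2, rank_toZFSet, cons_zero]
  constructor
  · rintro ⟨-, h4, h5⟩
    have := (h5 x h2).1 ((h3 x h2).2 rfl)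
    exact this.symm
  · rintro rfl
    exact ⟨ZFSet.isOrdinal_toZFSet _, h2, h3⟩

theorem OD.dz {x : ZFSet.{u}} (h : OD x) : DZ (fun v => v 0 = x) := by
  obtain ⟨α, φ, p, -, h⟩ := h.def
  obtain ⟨ψ, hψ⟩ := (loc_defBy φ).dv
  refine ⟨ψ.ren (fun n => if n = 0 then 0 else 2 * (n - 1) + 1), cns α p, fun v => ?_⟩
  show v 0 = x ↔ _
  rw [sat_ren, ← h, hψ]
  have : mz v (cns α p) ∘ (fun n => if n = 0 then 0 else 2 * (n - 1) + 1) =
      cons (v 0) (ov (cns α p)) := by
    funext n
    rcases n with _ | n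
    · show mz v _ (2 * 0) = _
      rw [mz_even]
      rfl
    · show mz v _ (2 * n + 1) = _
      rw [mz_odd]
      rfl
  rw [this]

theorem OD.of_dz {x : ZFSet.{u}} (h : DZ (fun v => v 0 = x)) : OD x := by
  obtain ⟨φ, p, h⟩ := h
  obtain ⟨β, hβ⟩ := seq_bdd (cons x (fun n => (p n).toZFSet))
  obtain ⟨η, hη, h1, h2⟩ := elm_exists β
  have hp : ∀ n, p n < η := fun n => by
    have := hβ (n + 1)
    rw [cons_succ, rank_toZFSet] at this
    exact this.trans hη
  have h0 : 0 < η := lt_of_le_of_lt bot_le (hp 0)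
  -- new variables: `y, p 0, p 1, ...`; all even variables other than `0` become `p' 0 = 0`
  let q : ℕ → Ordinal.{u} := cns 0 p
  refine ⟨η, φ.ren (fun n => if n = 0 then 0 else if n % 2 = 0 then 1 else n / 2 + 2), q,
    fun n => ?_, ?_, fun y hy => ?_⟩
  · rcases n with _ | n
    · exact h0
    · exact hp n
  · rw [ZFSet.mem_vonNeumann]
    exact (hβ 0).trans hη
  · rw [sat_ren, h2 _ _ ?_]
    · have e : (cons y fun n => (q n).toZFSet) ∘
          (fun n => if n = 0 then 0 else if n % 2 = 0 then 1 else n / 2 + 2) =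
          mz (cons y fun _ => ∅) p := by
        funext n
        rcases Nat.even_or_odd' n with ⟨k, rfl | rfl⟩
        · rw [mz_even]
          rcases k with _ | k
          · simp
          · have : ¬ 2 * (k + 1) = 0 := by omega
            have h2 : 2 * (k + 1) % 2 = 0 := by omega
            simp [this, h2, q]
        · rw [mz_odd]
          have : ¬ 2 * k + 1 = 0 := by omega
          have h2 : (2 * k + 1) % 2 = 1 := by omega
          have h3 : (2 * k + 1) / 2 = k := by omega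
          simp [h2, h3, q]
      rw [e, ← h]
      rfl
    · intro n
      rw [Function.comp_apply]
      have : ∀ m, (cons y fun n => (q n).toZFSet) m ∈ V_ η := by
        rintro (_ | _ | m)
        · exact hy
        · exact Gd.ord.2 h0
        · exact Gd.ord.2 (hp m)
      exact this _

theorem od_iff {x : ZFSet.{u}} : OD x ↔ DZ (fun v => v 0 = x) := ⟨OD.dz, OD.of_dz⟩

end HD
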