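import Pool.Agent.H7.HD.SatI

/-!
# Names of the ordinal definable sets and a definable enumeration
-/

open Ordinal Cardinal Order Set
open scoped ZFSet

universe u

namespace HD

/-- names: a level, the number of a formula, parameters -/
structure Nm : Type (u + 1) where
  a : Ordinal.{u}
  c : ℕ
  p : ℕ → Ordinal.{u}

/-- admissible names -/
def Nm.ok (N : Nm.{u}) : Prop := (∀ n, N.p n < N.a) ∧ ∀ n, N.c ≤ n → N.p n = 0

/-- the name `N` denotes `x` -/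
def Nm.den (N : Nm.{u}) (x : ZFSet.{u}) : Prop := x ∈ V_ N.a ∧ ∀ y ∈ V_ N.a,
  (Sat (· ∈ V_ N.a) (fm N.c) (cons y (ov N.p)) ↔ y = x)

/-- the order of the names -/
def Nm.lt (N N' : Nm.{u}) : Prop := N.a < N'.a ∨ (N.a = N'.a ∧ (N.c < N'.c ∨ (N.c = N'.c ∧
  ∃ n, N.p n < N'.p n ∧ ∀ m < n, N.p m = N'.p m)))

theorem Nm.den_unique {N : Nm.{u}} {x x' : ZFSet.{u}} (h : N.den x) (h' : N.den x') : x = x' :=
  (h'.2 x h.1).1 ((h.2 x h.1).2 rfl)

theorem od_iff_nm {x : ZFSet.{u}} : OD x ↔ ∃ N : Nm.{u}, N.ok ∧ N.den x := by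
  constructor
  · rintro ⟨α, φ, p, h1, h2, h3⟩
    obtain ⟨c, rfl⟩ := fm_surj φ
    have h0 : 0 < α := lt_of_le_of_lt bot_le (h1 0)
    refine ⟨⟨α, c, fun n => if n < c then p n else 0⟩, ⟨fun n => ?_, fun n hn => ?_⟩, h2,
      fun y hy => ?_⟩
    · show (if n < c then p n else 0) < α
      split_ifs
      · exact h1 n
      · exact h0
    · show (if n < c then p n else 0) = 0
      rw [if_neg (not_lt.2 hn)]
    · rw [← h3 y hy]
      refine fm_vars c _ _ _ ?_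
      rintro (_ | n) hn
      · rfl
      · show (if n < c then p n else 0).toZFSet = _
        rw [if_pos (by omega)]
        rfl
  · rintro ⟨N, h1, h2⟩
    exact ⟨N.a, fm N.c, N.p, h1.1, h2.1, h2.2⟩

theorem Nm.lt_total {N N' : Nm.{u}} (h : N ≠ N') : N.lt N' ∨ N'.lt N := by
  unfold Nm.lt
  rcases lt_trichotomy N.a N'.a with ha | ha | ha
  · exact Or.inl (Or.inl ha)
  · rcases lt_trichotomy N.c N'.c with hc | hc | hc
    · exact Or.inl (Or.inr ⟨ha, Or.inl hc⟩)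
    · have hp : N.p ≠ N'.p := by
        intro hp
        apply h
        cases N; cases N'
        simp only at ha hc hp
        rw [ha, hc, hp]
      have hex : ∃ n, N.p n ≠ N'.p n := by
        by_contra hcon
        push Not at hcon
        exact hp (funext hcon)
      classical
      have h1 := Nat.find_spec hex
      have h2 : ∀ m < Nat.find hex, N.p m = N'.p m := fun m hm => by
        by_contra hcon
        exact Nat.find_min hex hm hcon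
      rcases lt_or_gt_of_ne h1 with h3 | h3
      · exact Or.inl (Or.inr ⟨ha, Or.inr ⟨hc, _, h3, h2⟩⟩)
      · exact Or.inr (Or.inr ⟨ha.symm, Or.inr ⟨hc.symm, _, h3, fun m hm => (h2 m hm).symm⟩⟩)
    · exact Or.inr (Or.inr ⟨ha.symm, Or.inl hc⟩)
  · exact Or.inr (Or.inl ha)

theorem exists_min {ι : Type*} (S : Set ι) (hS : S.Nonempty) (f : ι → Ordinal.{u}) :
    ∃ x ∈ S, ∀ y ∈ S, f x ≤ f y := by
  obtain ⟨x, hx, hx'⟩ := (wellFounded_lt (α := Ordinal.{u})).has_min (f '' S) (hS.image f)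
  obtain ⟨y, hy, rfl⟩ := hx
  exact ⟨y, hy, fun z hz => not_lt.1 (hx' _ ⟨z, hz, rfl⟩)⟩

theorem Nm.exists_min (S : Set Nm.{u}) (hS : S.Nonempty) (hok : ∀ N ∈ S, N.ok) :
    ∃ N ∈ S, ∀ N' ∈ S, ¬ N'.lt N := by
  obtain ⟨N1, hN1, h1⟩ := HD.exists_min S hS Nm.a
  obtain ⟨N2, hN2, h2⟩ := HD.exists_min {N | N ∈ S ∧ N.a = N1.a} ⟨N1, hN1, rfl⟩
    (fun N => (N.c : Ordinal.{u}))
  have key : ∀ k : ℕ, ∃ N ∈ {N | N ∈ S ∧ N.a = N1.a ∧ N.c = N2.c},
      ∀ N' ∈ {N | N ∈ S ∧ N.a = N1.a ∧ N.c = N2.c}, ∀ n < k,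
        (∀ m < n, N'.p m = N.p m) → N.p n ≤ N'.p n := by
    intro k
    induction k with
    | zero => exact ⟨N2, ⟨hN2.1, hN2.2, rfl⟩, fun _ _ n hn => absurd hn (Nat.not_lt_zero n)⟩
    | succ k ih =>
      obtain ⟨N, hN, h⟩ := ih
      obtain ⟨N', hN', h'⟩ := HD.exists_min {M | M ∈ {N : Nm.{u} | N ∈ S ∧ N.a = N1.a ∧ N.c = N2.c} ∧
        ∀ m < k, M.p m = N.p m} ⟨N, hN, fun _ _ => rfl⟩ (fun M => M.p k)
      refine ⟨N', hN'.1, fun M hM n hn hag => ?_⟩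
      rcases Nat.lt_succ_iff_lt_or_eq.1 hn with hn' | rfl
      · rw [hN'.2 n hn']
        refine h M hM n hn' fun m hm => ?_
        rw [hag m hm, hN'.2 m (hm.trans hn')]
      · exact h' M ⟨hM, fun m hm => by rw [hag m hm, hN'.2 m hm]⟩
  obtain ⟨N, hN, h⟩ := key N2.c
  refine ⟨N, hN.1, fun N' hN' hlt => ?_⟩
  rcases hlt with ha | ⟨ha, hc | ⟨hc, n, hn, hm⟩⟩
  · exact absurd (h1 N' hN') (not_le.2 (by rwa [← hN.2.1]))
  · have := h2 N' ⟨hN', by rw [ha, hN.2.1]⟩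
    have h3 : N2.c ≤ N'.c := by exact_mod_cast this
    rw [hN.2.2] at hc
    omega
  · have hnc : n < N2.c := by
      by_contra hcon
      have := (hok N hN.1).2 n (by rw [hN.2.2]; omega)
      rw [this] at hn
      exact absurd hn not_lt_bot
    have := h N' ⟨hN', by rw [ha, hN.2.1], by rw [hc, hN.2.2]⟩ n hnc hm
    exact absurd this (not_le.2 hn)

/-- `x` is the first ordinal definable set which is not in `S` -/
def Nxt (S : ZFSet.{u} → Prop) (x : ZFSet.{u}) : Prop := ¬ S x ∧ ∃ N : Nm.{u}, N.ok ∧ N.den x ∧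
  ∀ x', ¬ S x' → ∀ N' : Nm.{u}, N'.ok → N'.den x' → ¬ N'.lt N

theorem Nxt.unique {S : ZFSet.{u} → Prop} {x x' : ZFSet.{u}} (h : Nxt S x) (h' : Nxt S x') :
    x = x' := by
  obtain ⟨h1, N, h2, h3, h4⟩ := h
  obtain ⟨h1', N', h2', h3', h4'⟩ := h'
  have : N = N' := by
    by_contra hne
    rcases Nm.lt_total hne with h | h
    · exact h4' x h1 N h2 h3 h
    · exact h4 x' h1' N' h2' h3' h
  subst this
  exact Nm.den_unique h3 h3'

theorem Nxt.exists {S : ZFSet.{u} → Prop} (h : ∃ x, OD x ∧ ¬ S x) : ∃ x, Nxt S x := by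
  obtain ⟨x, h1, h2⟩ := h
  obtain ⟨N, hN, hN'⟩ := od_iff_nm.1 h1
  obtain ⟨M, ⟨hM, y, hy, hS⟩, hmin⟩ := Nm.exists_min {N | N.ok ∧ ∃ x, N.den x ∧ ¬ S x}
    ⟨N, hN, x, hN', h2⟩ fun N h => h.1
  exact ⟨y, hS, M, hM, hy, fun x' hx' N' hok hden => hmin N' ⟨hok, x', hden, hx'⟩⟩

open Classical in
/-- the next ordinal definable set -/
noncomputable def nxt (S : ZFSet.{u} → Prop) : ZFSet.{u} :=
  if h : ∃ x, Nxt S x then Classical.choose h else ∅

/-- the enumeration of the ordinal definable sets -/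
noncomputable def en (c : Ordinal.{u}) : ZFSet.{u} := nxt fun x => ∃ b : Iio c, x = en b.1
termination_by c
decreasing_by exact b.2

theorem en_spec (c : Ordinal.{u}) : Nxt (fun x => ∃ b < c, x = en b) (en c) := by
  have hex : ∃ x, Nxt (fun x => ∃ b < c, x = en b) x := by
    apply Nxt.exists
    have hbd : BddAbove (range fun b : Iio c => (en b.1).rank) := bddAbove_of_small
    refine ⟨(succ (⨆ b : Iio c, (en b.1).rank)).toZFSet, OD.ordinal _, ?_⟩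
    rintro ⟨b, hb, he⟩
    have h1 : (en b).rank ≤ ⨆ b : Iio c, (en b.1).rank := le_ciSup hbd ⟨b, hb⟩
    rw [← he, rank_toZFSet] at h1
    exact absurd (lt_succ _) (not_lt.2 h1)
  have e1 : (fun x => ∃ b : Iio c, x = en b.1) = fun x => ∃ b < c, x = en b := by
    funext x
    apply propext
    constructor
    · rintro ⟨b, h⟩; exact ⟨b.1, b.2, h⟩
    · rintro ⟨b, hb, h⟩; exact ⟨⟨b, hb⟩, h⟩
  rw [en, e1]
  unfold nxt
  rw [dif_pos hex]
  exact Classical.choose_spec hex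

theorem en_inj {b c : Ordinal.{u}} (h : en b = en c) : b = c := by
  rcases lt_trichotomy b c with hbc | hbc | hbc
  · exact absurd ⟨b, hbc, h.symm⟩ (en_spec c).1
  · exact hbc
  · exact absurd ⟨c, hbc, h⟩ (en_spec b).1

theorem en_od (c : Ordinal.{u}) : OD (en c) := by
  obtain ⟨-, N, h1, h2, -⟩ := en_spec c
  exact od_iff_nm.2 ⟨N, h1, h2⟩

/-- the names below a given name form a small set -/
theorem small_nm (a : Ordinal.{u}) : Small.{u} {N : Nm.{u} | N.ok ∧ N.a ≤ a} := by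
  have h : Small.{u} (Iio (succ a) × ℕ × (ℕ → Iio (succ a))) := inferInstance
  let f : {N : Nm.{u} | N.ok ∧ N.a ≤ a} → Iio (succ a) × ℕ × (ℕ → Iio (succ a)) := fun N =>
    (⟨N.1.a, lt_succ_iff.2 N.2.2⟩, N.1.c, fun n => ⟨N.1.p n, lt_succ_iff.2
      ((N.2.1.1 n).le.trans N.2.2)⟩)
  have hf : Function.Injective f := by
    rintro ⟨⟨a1, c1, p1⟩, h1⟩ ⟨⟨a2, c2, p2⟩, h2⟩ he
    simp only [f, Prod.mk.injEq, Subtype.mk.injEq] at he
    obtain ⟨rfl, rfl, h3⟩ := he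
    have : p1 = p2 := by
      funext n
      have := congrFun h3 n
      simpa using this
    subst this
    rfl
  exact small_of_injective hf

theorem en_surj {x : ZFSet.{u}} (hx : OD x) : ∃ c, en c = x := by
  by_contra hcon
  push Not at hcon
  obtain ⟨N, hN, hd⟩ := od_iff_nm.1 hx
  have h1 : ∀ c, ∃ M : Nm.{u}, (M.ok ∧ M.a ≤ N.a) ∧ M.den (en c) := by
    intro c
    obtain ⟨-, M, h2, h3, h4⟩ := en_spec c
    refine ⟨M, ⟨h2, ?_⟩, h3⟩
    have := h4 x (by rintro ⟨b, -, h⟩; exact hcon b h.symm) N hN hd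
    by_contra hlt
    exact this (Or.inl (not_le.1 hlt))
  choose M hM hM' using h1
  have hinj : Function.Injective (fun c => (⟨M c, hM c⟩ : {M : Nm.{u} | M.ok ∧ M.a ≤ N.a})) := by
    intro b c h
    have : M b = M c := congrArg Subtype.val h
    refine en_inj (Nm.den_unique (hM' b) ?_)
    rw [this]
    exact hM' c
  have := small_nm N.a
  have h2 : Small.{u} Ordinal.{u} := small_of_injective hinj
  exact not_small_ordinal h2

/-! ## Definability of the enumeration -/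

/-- names at the level of sets -/
def NZ (α c s x : ZFSet.{u}) : Prop := α.IsOrdinal ∧ c ∈ (ω : Ordinal.{u}).toZFSet ∧ IsSeq α s ∧
  (∀ n, n ∈ (ω : Ordinal.{u}).toZFSet → n ∉ c → ∃ e : ZFSet.{u}, e = ∅ ∧ ZFSet.pair n e ∈ s) ∧
  ∃ A : ZFSet.{u}, (α.IsOrdinal ∧ A = V_ α.rank) ∧ x ∈ A ∧ ∃ r : ZFSet.{u},
    (c.IsOrdinal ∧ r = RF A c.rank) ∧ ∀ y ∈ A, ((∃ s' ∈ r, Shf y s s') ↔ y = x)

/-- the order of the names at the level of sets -/
def LZ (α c s α' c' s' : ZFSet.{u}) : Prop := α ∈ α' ∨ (α = α' ∧ (c ∈ c' ∨ (c = c' ∧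
  ∃ n : ZFSet.{u}, n ∈ (ω : Ordinal.{u}).toZFSet ∧ ∃ x : ZFSet.{u}, ∃ y : ZFSet.{u},
    ZFSet.pair n x ∈ s ∧ ZFSet.pair n y ∈ s' ∧ x ∈ y ∧
    ∀ m ∈ n, ∀ z, ZFSet.pair m z ∈ s → ZFSet.pair m z ∈ s')))

theorem dz_NZ : DZ.{u} (fun v => NZ (v 0) (v 1) (v 2) (v 3)) := by
  refine (DZ.ord 0).and ((dz_omega 1).and ((dz_isSeq 0 2).and ((DZ.all ((dz_omega 0).imp
    ((DZ.mem _ _).not.imp (DZ.ex ((dz_empty _).and (dz_pmem _ _ _)))))).and (DZ.ex
    ((loc_V 1 0).dz.and ((DZ.mem _ _).and (DZ.ex (DZ.and ?_ (DZ.allMem _ ((DZ.exMem _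
      (dz_shf _ _ _)).iff (DZ.eq _ _)))))))))))
  exact dz_RF.ren fun n => if n = 0 then 1 else if n = 1 then 3 else 0

theorem dz_LZ : DZ.{u} (fun v => LZ (v 0) (v 1) (v 2) (v 3) (v 4) (v 5)) := by
  refine (DZ.mem _ _).or ((DZ.eq _ _).and ((DZ.mem _ _).or ((DZ.eq _ _).and (DZ.ex
    ((dz_omega _).and (DZ.ex (DZ.ex ((dz_pmem _ _ _).and ((dz_pmem _ _ _).and ((DZ.mem _ _).and
    (DZ.allMem _ (DZ.all ((dz_pmem _ _ _).imp (dz_pmem _ _ _)))))))))))))) 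

theorem NZ_iff (N : Nm.{u}) (x : ZFSet.{u}) :
    NZ N.a.toZFSet (nz N.c) (sq (ov N.p)) x ↔ N.ok ∧ N.den x := by
  have hR : (nz.{u} N.c).rank = (N.c : Ordinal.{u}) := rank_toZFSet _
  have hseq : IsSeq N.a.toZFSet (sq (ov N.p)) ↔ ∀ n, N.p n < N.a := by
    rw [isSeq_sq]
    exact forall_congr' fun n => toZFSet_mem_toZFSet_iff
  have hsup : (∀ n, n ∈ (ω : Ordinal.{u}).toZFSet → n ∉ nz.{u} N.c → ∃ e : ZFSet.{u}, e = ∅ ∧
      ZFSet.pair n e ∈ sq (ov N.p)) ↔ ∀ n, N.c ≤ n → N.p n = 0 := by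
    constructor
    · intro h n hn
      obtain ⟨e, rfl, h1⟩ := h (nz n) (nz_omega n) (by rw [nz_mem]; omega)
      rw [pair_mem_sq] at h1
      have : (N.p n).toZFSet = (0 : Ordinal.{u}).toZFSet := by rw [toZFSet_zero]; exact h1.symm
      exact toZFSet_injective this
    · intro h n hn hc
      obtain ⟨n, rfl⟩ := mem_omega.1 hn
      refine ⟨∅, rfl, pair_mem_sq.2 ?_⟩
      rw [nz_mem] at hc
      show ∅ = (N.p n).toZFSet
      rw [h n (by omega), toZFSet_zero]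
  unfold NZ
  rw [hseq, hsup]
  constructor
  · rintro ⟨h1, h2, h3, h4, A, ⟨-, rfl⟩, h5, r, ⟨-, rfl⟩, h6⟩
    rw [rank_toZFSet] at h5 h6
    refine ⟨⟨h3, h4⟩, h5, fun y hy => ?_⟩
    rw [← h6 y hy, hR, RF_nat]
    constructor
    · intro h
      refine ⟨sq (cons y (ov N.p)), sq_mem_RS.2 ⟨?_, h⟩, shf_iff.2 rfl⟩
      rintro (_ | n)
      · exact hy
      · exact Gd.ord.2 (h3 n)
    · rintro ⟨s', hs', h⟩
      obtain ⟨w, -, rfl, h7⟩ := mem_RS.1 hs'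
      rw [shf_iff] at h
      rwa [h] at h7
  · rintro ⟨⟨h3, h4⟩, h5, h6⟩
    refine ⟨ZFSet.isOrdinal_toZFSet _, nz_omega _, h3, h4, _, ⟨ZFSet.isOrdinal_toZFSet _, rfl⟩, ?_,
      _, ⟨ZFSet.isOrdinal_toZFSet _, rfl⟩, fun y hy => ?_⟩
    · rw [rank_toZFSet]
      exact h5
    · rw [rank_toZFSet] at hy ⊢
      rw [← h6 y hy, hR, RF_nat]
      constructor
      · rintro ⟨s', hs', h⟩
        obtain ⟨w, -, rfl, h7⟩ := mem_RS.1 hs'
        rw [shf_iff] at h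
        rwa [h] at h7
      · intro h
        refine ⟨sq (cons y (ov N.p)), sq_mem_RS.2 ⟨?_, h⟩, shf_iff.2 rfl⟩
        rintro (_ | n)
        · exact hy
        · exact Gd.ord.2 (h3 n)

theorem NZ_form {α c s x : ZFSet.{u}} (h : NZ α c s x) :
    ∃ N : Nm.{u}, α = N.a.toZFSet ∧ c = nz N.c ∧ s = sq (ov N.p) := by
  obtain ⟨h1, h2, h3, -⟩ := h
  obtain ⟨a, rfl⟩ := ord_of h1
  obtain ⟨n, rfl⟩ := mem_omega.1 h2
  obtain ⟨w, hw, rfl⟩ := isSeq_iff.1 h3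
  have : ∀ n, ∃ b : Ordinal.{u}, w n = b.toZFSet := fun n => by
    obtain ⟨b, -, h⟩ := mem_toZFSet_iff.1 (hw n)
    exact ⟨b, h.symm⟩
  choose p hp using this
  exact ⟨⟨a, n, p⟩, rfl, rfl, by rw [funext hp]; rfl⟩

theorem LZ_iff (N N' : Nm.{u}) : LZ N.a.toZFSet (nz N.c) (sq (ov N.p)) N'.a.toZFSet (nz N'.c)
    (sq (ov N'.p)) ↔ N.lt N' := by
  unfold LZ Nm.lt
  rw [toZFSet_mem_toZFSet_iff, toZFSet_injective.eq_iff, nz_mem, nz_inj]
  refine or_congr Iff.rfl (and_congr_right fun _ => or_congr Iff.rfl (and_congr_right fun _ => ?_))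
  constructor
  · rintro ⟨n, hn, x, y, h1, h2, h3, h4⟩
    obtain ⟨n, rfl⟩ := mem_omega.1 hn
    rw [pair_mem_sq] at h1 h2
    subst h1 h2
    refine ⟨n, toZFSet_mem_toZFSet_iff.1 h3, fun m hm => ?_⟩
    have := h4 (nz m) (nz_mem.2 hm) _ (pair_mem_sq.2 rfl)
    rw [pair_mem_sq] at this
    exact toZFSet_injective this
  · rintro ⟨n, h1, h2⟩
    refine ⟨nz n, nz_omega n, _, _, pair_mem_sq.2 rfl, pair_mem_sq.2 rfl,
      toZFSet_mem_toZFSet_iff.2 h1, fun m hm z hz => ?_⟩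
    obtain ⟨m, hm', rfl⟩ := mem_nz.1 hm
    rw [pair_mem_sq] at hz
    rw [pair_mem_sq, hz]
    unfold ov
    rw [h2 m hm']

/-- `Nxt` at the level of sets -/
def NxtZ (f x : ZFSet.{u}) : Prop := (¬ ∃ b : ZFSet.{u}, ZFSet.pair b x ∈ f) ∧
  ∃ α : ZFSet.{u}, ∃ c : ZFSet.{u}, ∃ s : ZFSet.{u}, NZ α c s x ∧
    ∀ x' : ZFSet.{u}, (¬ ∃ b : ZFSet.{u}, ZFSet.pair b x' ∈ f) →
      ∀ α' c' s' : ZFSet.{u}, NZ α' c' s' x' → ¬ LZ α' c' s' α c s

theorem NxtZ_iff (f x : ZFSet.{u}) : NxtZ f x ↔ Nxt (fun x => ∃ b : ZFSet.{u},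
    ZFSet.pair b x ∈ f) x := by
  unfold NxtZ Nxt
  refine and_congr_right fun _ => ?_
  constructor
  · rintro ⟨α, c, s, h1, h2⟩
    obtain ⟨N, rfl, rfl, rfl⟩ := NZ_form h1
    obtain ⟨h3, h4⟩ := (NZ_iff N x).1 h1
    refine ⟨N, h3, h4, fun x' hx' N' hok hden hlt => ?_⟩
    exact h2 x' hx' _ _ _ ((NZ_iff N' x').2 ⟨hok, hden⟩) ((LZ_iff N' N).2 hlt)
  · rintro ⟨N, h3, h4, h5⟩
    refine ⟨_, _, _, (NZ_iff N x).2 ⟨h3, h4⟩, fun x' hx' α' c' s' h6 h7 => ?_⟩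
    obtain ⟨N', rfl, rfl, rfl⟩ := NZ_form h6
    obtain ⟨h8, h9⟩ := (NZ_iff N' x').1 h6
    exact h5 x' hx' N' h8 h9 ((LZ_iff N' N).1 h7)

theorem dz_NxtZ (i j : ℕ) : DZ.{u} (fun v => NxtZ (v i) (v j)) := by
  refine (DZ.ex (dz_pmem _ _ _)).not.and (DZ.ex (DZ.ex (DZ.ex (DZ.and ?_ (DZ.all
    ((DZ.ex (dz_pmem _ _ _)).not.imp (DZ.all (DZ.all (DZ.all (DZ.imp ?_ (DZ.not ?_)))))))))))
  · exact dz_NZ.ren fun n => if n = 0 then 2 else if n = 1 then 1 else if n = 2 then 0 else j + 3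
  · exact dz_NZ.ren fun n => if n = 0 then 2 else if n = 1 then 1 else if n = 2 then 0 else 3
  · exact dz_LZ.ren fun n => if n = 0 then 2 else if n = 1 then 1 else if n = 2 then 0 else
      if n = 3 then 6 else if n = 4 then 5 else 4

theorem dz_en : DZ.{u} fun v => (v 0).IsOrdinal ∧ v 1 = en (v 0).rank := by
  have h := DZ.rec (Φ := fun _ _ f y => NxtZ f y) (F := fun _ c => en c) (dz_NxtZ 2 3) ?_
  · exact h.ren fun n => if n = 0 then 0 else n - 1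
  · intro a c y
    rw [NxtZ_iff]
    have hS : (fun x => ∃ b : ZFSet.{u}, ZFSet.pair b x ∈ gr (fun c => en c) c) =
        fun x => ∃ b < c, x = en b := by
      funext x
      apply propext
      constructor
      · rintro ⟨b, hb⟩
        obtain ⟨b', hb', he⟩ := mem_gr.1 hb
        obtain ⟨-, rfl⟩ := ZFSet.pair_injective he
        exact ⟨b', hb', rfl⟩
      · rintro ⟨b, hb, rfl⟩
        exact ⟨b.toZFSet, pair_mem_gr.2 ⟨hb, rfl⟩⟩
    rw [hS]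
    constructor
    · rintro rfl
      exact en_spec c
    · intro h
      exact h.unique (en_spec c)

theorem EN_en : EN en.{u} := ⟨dz_en, fun _ => ⟨en_surj, by rintro ⟨c, rfl⟩; exact en_od c⟩⟩

/-- EN. -/
theorem t_EN : T_EN.{u} := ⟨en, EN_en⟩

end HD
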