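import Pool.Agent.H7.HD.DZ

/-!
# Reflection: there are arbitrarily large admissible `η` with `V_ η` elementary in `V`
-/

open Ordinal Cardinal Order Set
open scoped ZFSet

universe u

namespace HD

/-- `V_ η` is an elementary substructure of `V`. -/
def Elm (η : Ordinal.{u}) : Prop := Gd η ∧ ∀ (φ : Fml) (v : ℕ → ZFSet.{u}),
  (∀ n, v n ∈ V_ η) → (Sat (· ∈ V_ η) φ v ↔ Sat (fun _ => True) φ v)

theorem sat_fin (φ : Fml) : ∃ k : ℕ, ∀ (M : ZFSet.{u} → Prop) (v v' : ℕ → ZFSet.{u}),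
    (∀ n < k, v n = v' n) → (Sat M φ v ↔ Sat M φ v') := by
  induction φ with
  | mem i j =>
    refine ⟨max i j + 1, fun M v v' h => ?_⟩
    show v i ∈ v j ↔ v' i ∈ v' j
    rw [h i (by omega), h j (by omega)]
  | eq i j =>
    refine ⟨max i j + 1, fun M v v' h => ?_⟩
    show v i = v j ↔ v' i = v' j
    rw [h i (by omega), h j (by omega)]
  | neg φ ih =>
    obtain ⟨k, hk⟩ := ih
    exact ⟨k, fun M v v' h => not_congr (hk M v v' h)⟩
  | and φ ψ ih1 ih2 =>
    obtain ⟨k1, hk1⟩ := ih1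
    obtain ⟨k2, hk2⟩ := ih2
    exact ⟨max k1 k2, fun M v v' h => and_congr
      (hk1 M v v' fun n hn => h n (by omega)) (hk2 M v v' fun n hn => h n (by omega))⟩
  | ex φ ih =>
    obtain ⟨k, hk⟩ := ih
    refine ⟨k, fun M v v' h => exists_congr fun x => and_congr_right fun _ => ?_⟩
    refine hk M _ _ ?_
    rintro (_ | n) hn
    · rfl
    · exact h n (by omega)

open Classical in
/-- the rank of a witness of `∃ x, φ (x, v)` -/
noncomputable def wit (φ : Fml) (v : ℕ → ZFSet.{u}) : Ordinal.{u} :=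
  if h : ∃ x, Sat (fun _ => True) φ (cons x v) then (Classical.choose h).rank + 1 else 0

theorem wit_spec {φ : Fml} {v : ℕ → ZFSet.{u}} (h : ∃ x, Sat (fun _ => True) φ (cons x v)) :
    ∃ x, x.rank < wit φ v ∧ Sat (fun _ => True) φ (cons x v) := by
  refine ⟨Classical.choose h, ?_, Classical.choose_spec h⟩
  unfold wit
  rw [dif_pos h]
  exact lt_add_one _

/-- a bound of the witnesses for formulas with parameters in `V_ β` -/
noncomputable def wb (β : Ordinal.{u}) : Ordinal.{u} :=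
  max (β + 1) (⨆ q : Fml × (ℕ → {x // x ∈ V_ β}), wit q.1 (fun n => (q.2 n).1))

theorem small_mem (x : ZFSet.{u}) : Small.{u} {y // y ∈ x} := by
  infer_instance

theorem wit_le_wb {β : Ordinal.{u}} (φ : Fml) (v : ℕ → ZFSet.{u}) (hv : ∀ n, v n ∈ V_ β) :
    wit φ v ≤ wb β := by
  refine le_trans ?_ (le_max_right _ _)
  exact Ordinal.le_iSup (fun q : Fml × (ℕ → {x // x ∈ V_ β}) => wit q.1 (fun n => (q.2 n).1))
    (φ, fun n => ⟨v n, hv n⟩)

theorem elm_exists (β : Ordinal.{u}) : ∃ η > β, Elm η := by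
  set b := max β ω with hb
  set η := nfp wb b with hη
  have hlt : ∀ a < η, ∃ n : ℕ, a < (wb^[n]) b := fun a ha => by
    rw [hη, lt_nfp_iff] at ha
    exact ha
  have hle : ∀ n : ℕ, (wb^[n]) b ≤ η := fun n => iterate_le_nfp wb b n
  have hmono : ∀ n : ℕ, (wb^[n]) b < (wb^[n + 1]) b := fun n => by
    rw [Function.iterate_succ_apply']
    exact lt_of_lt_of_le (lt_add_one _) (le_max_left _ _)
  have hmono' : StrictMono fun n : ℕ => (wb^[n]) b := strictMono_nat_of_lt_succ hmono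
  have hbη : b < η := lt_of_lt_of_le (hmono 0) (hle 1)
  have hlim : IsSuccLimit η := by
    refine ⟨by rw [isMin_iff_eq_bot]; exact (lt_of_le_of_lt bot_le hbη).ne', ?_⟩
    rw [isSuccPrelimit_iff_succ_lt]
    intro a ha
    obtain ⟨n, hn⟩ := hlt a ha
    exact lt_of_le_of_lt (succ_le_of_lt hn) (lt_of_lt_of_le (hmono n) (hle (n + 1)))
  refine ⟨η, lt_of_le_of_lt (le_max_left _ _) hbη, ⟨hlim, lt_of_le_of_lt (le_max_right _ _) hbη⟩, ?_⟩
  intro φ
  induction φ with
  | mem i j => intro v hv; rfl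
  | eq i j => intro v hv; rfl
  | neg φ ih => intro v hv; exact not_congr (ih v hv)
  | and φ ψ ih1 ih2 => intro v hv; exact and_congr (ih1 v hv) (ih2 v hv)
  | ex φ ih =>
    intro v hv
    constructor
    · rintro ⟨x, hx, h⟩
      exact ⟨x, trivial, (ih _ (by rintro (_ | n); exacts [hx, hv n])).1 h⟩
    · rintro ⟨x, -, h⟩
      obtain ⟨k, hk⟩ := sat_fin.{u} φ
      let v' : ℕ → ZFSet.{u} := fun n => if n < k then v n else ∅
      have hag : ∀ y : ZFSet.{u}, ∀ n < k, cons y v n = cons y v' n := by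
        rintro y (_ | n) hn
        · rfl
        · show v n = v' n
          simp only [v']
          rw [if_pos (by omega)]
      have hv' : ∃ m : ℕ, ∀ n, v' n ∈ V_ ((wb^[m]) b) := by
        have h1 : ∀ n, ∃ m : ℕ, v n ∈ V_ ((wb^[m]) b) := fun n => by
          have := hv n
          rw [ZFSet.mem_vonNeumann] at this
          obtain ⟨m, hm⟩ := hlt _ this
          exact ⟨m, by rwa [ZFSet.mem_vonNeumann]⟩
        choose f hf using h1
        refine ⟨(Finset.range k).sup f, fun n => ?_⟩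
        simp only [v']
        by_cases hn : n < k
        · rw [if_pos hn]
          exact ZFSet.vonNeumann_subset_of_le
            (hmono'.monotone (Finset.le_sup (Finset.mem_range.2 hn))) (hf n)
        · rw [if_neg hn, ZFSet.mem_vonNeumann, ZFSet.rank_empty]
          exact lt_of_lt_of_le (lt_of_lt_of_le omega0_pos (le_max_right β ω))
            (hmono'.monotone (Nat.zero_le _))
      obtain ⟨m, hm⟩ := hv'
      obtain ⟨y, hy, hs⟩ := wit_spec (φ := φ) (v := v')
        ⟨x, (hk _ _ _ (hag x)).1 h⟩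
      have hyη : y ∈ V_ η := by
        rw [ZFSet.mem_vonNeumann]
        refine lt_of_lt_of_le hy ((wit_le_wb φ v' hm).trans ?_)
        have := hle (m + 1)
        rwa [Function.iterate_succ_apply'] at this
      refine ⟨y, hyη, (ih _ (by rintro (_ | n); exacts [hyη, hv n])).2 ?_⟩
      exact (hk _ _ _ (hag y)).2 hs

/-- a bound of the ranks of a sequence -/
theorem seq_bdd (v : ℕ → ZFSet.{u}) : ∃ β : Ordinal.{u}, ∀ n, (v n).rank < β :=
  ⟨(⨆ n, (v n).rank) + 1, fun n => by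
    rw [← Order.succ_eq_add_one, Order.lt_succ_iff]
    exact Ordinal.le_iSup (fun n => (v n).rank) n⟩

theorem Loc.dv {P : (ℕ → ZFSet.{u}) → Prop} (h : Loc P) : DV P := by
  obtain ⟨φ, hφ⟩ := h
  refine ⟨φ, fun v => ?_⟩
  obtain ⟨β, hβ⟩ := seq_bdd v
  obtain ⟨η, hη, h1, h2⟩ := elm_exists β
  have hv : ∀ n, v n ∈ V_ η := fun n => by
    rw [ZFSet.mem_vonNeumann]; exact (hβ n).trans hη
  rw [hφ η h1 v hv, h2 φ v hv]

theorem Loc.dz {P : (ℕ → ZFSet.{u}) → Prop} (h : Loc P) : DZ P := h.dv.dz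

end HD
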