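import Pool.Agent.H7.HD.Tools

/-!
# MP_e37c09_lc: targets of the modules
-/

open Ordinal Cardinal Order Set
open scoped ZFSet

universe u

namespace HD

/-! ## Combinatorics of club sets -/

/-- VA. The `μ`-null sets at `ρ` are closed under unions of fewer than `cof ρ` sets. -/
def T_VA : Prop := ∀ (μ ρ : Ordinal.{u}), ℵ₀ < ρ.cof → ∀ τ : Ordinal.{u}, τ.card < ρ.cof →
  ∀ X : Ordinal.{u} → Set Ordinal.{u}, (∀ i < τ, ¬ Pos μ ρ (X i)) →
    ¬ Pos μ ρ {b | ∃ i < τ, b ∈ X i}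

/-- VB. Bounded sets are null. -/
def T_VB : Prop := ∀ (μ ρ β : Ordinal.{u}), IsSuccLimit ρ → β < ρ → ¬ Pos μ ρ (Iio β)

/-- VC. `ρ` is `μ`-positive if `μ` is regular and less than the cofinality of `ρ`. -/
def T_VC : Prop := ∀ (M : Cardinal.{u}) (ρ : Ordinal.{u}), M.IsRegular → M < ρ.cof →
  Pos M.ord ρ univ

/-- VD. Fodor's theorem for positive sets. -/
def T_VD : Prop := ∀ (μ : Ordinal.{u}) (K : Cardinal.{u}), K.IsRegular → ℵ₀ < K →
  ∀ (X : Set Ordinal.{u}) (h : Ordinal.{u} → Ordinal.{u}), Pos μ K.ord X →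
    (∀ b ∈ X, b < K.ord → 0 < b → h b < b) → ∃ a < K.ord, Pos μ K.ord {b | b ∈ X ∧ h b = a}

/-- VE. The closure points of a function are a club set. -/
def T_VE : Prop := ∀ K : Cardinal.{u}, K.IsRegular → ℵ₀ < K → ∀ g : Ordinal.{u} → Ordinal.{u},
  (∀ x < K.ord, g x < K.ord) → Clb K.ord {x | 0 < x ∧ ∀ y < x, g y < x}

/-- VF. Reflection of null sets. -/
def T_VF : Prop := ∀ (μ : Ordinal.{u}) (N K : Cardinal.{u}), N.IsRegular → K.IsRegular → N < K →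
  ∀ X : Set Ordinal.{u}, ¬ Pos μ K.ord X → ¬ Pos N.ord K.ord {α | Pos μ α X}

/-- VG. Small club sets. -/
def T_VG : Prop := ∀ α : Ordinal.{u}, IsSuccLimit α → ∃ B : Set Ordinal.{u}, Clb α B ∧
  (∀ b ∈ B, b < α) ∧ ∃ e : Ordinal.{u} → Ordinal.{u}, ∀ x ∈ B, ∃ a < α.cof.ord, e a = x

/-- VH. The elements of a set of ordinals in increasing order. -/
def T_VH : Prop := ∀ X : Set Ordinal.{u},
  (∀ z ∈ X, ∃ a ≤ z, nth X a z) ∧
  (∀ a b z y, nth X a z → nth X b y → (a < b ↔ z < y)) ∧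
  (∀ a z, nth X a z → ∀ b < a, ∃ y < z, nth X b y) ∧
  (∀ δ, Few δ X ∨ ∀ a < δ, ∃ z, nth X a z)

/-! ## Definability -/

/-- LA. Being of cofinality `μ` is locally definable. -/
def T_LA : Prop :=
  Loc.{u} fun v => (v 0).IsOrdinal ∧ (v 1).IsOrdinal ∧ Cf (v 0).rank (v 1).rank

/-- LB. Being positive is locally definable. -/
def T_LB : Prop :=
  Loc.{u} fun v => (v 0).IsOrdinal ∧ (v 1).IsOrdinal ∧
    Pos (v 0).rank (v 1).rank {b | ZFSet.pair b.toZFSet (v 3) ∈ v 2}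

/-- DA. The class of sets definable from ordinals is closed under positivity. -/
def T_DA : Prop := ∀ (i j : ℕ) (X : Ordinal.{u} → (ℕ → Ordinal.{u}) → Prop),
  (DO fun w => X (w 0) (fun n => w (n + 1))) → DO fun w => Pos (w i) (w j) {a | X a w}

/-- DB. Closure under order types. -/
def T_DB : Prop := ∀ (X : Ordinal.{u} → (ℕ → Ordinal.{u}) → Prop),
  (DO fun w => X (w 0) (fun n => w (n + 1))) →
    DO fun w => nth {a | X a (fun n => w (n + 2))} (w 0) (w 1)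

/-- EN. There is a definable enumeration of the ordinal definable sets. -/
def T_EN : Prop := ∃ en : Ordinal.{u} → ZFSet.{u}, EN en

/-- EA. Definability of the coded sets, and each bounded definable set has a code. -/
def T_EA : Prop := ∀ en : Ordinal.{u} → ZFSet.{u}, EN en →
  (DO fun w => w 0 ∈ E en (w 1)) ∧ (DO fun w => w 0 ∈ E2 en (w 2) (w 1)) ∧
  (∀ X : Set Ordinal.{u}, DS X → ∀ β, ∃ c, E en c = X ∩ Iio β) ∧
  (∀ R : Ordinal.{u} → Ordinal.{u} → Prop, DR R → ∀ β, ∃ c, ∀ a b,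
    (b ∈ E2 en c a ↔ a < β ∧ b < β ∧ R a b))

/-- the set defined by recursion: `x` is in it iff `Φ x (the part of the set below x) w` -/
def recJ (Φ : Ordinal.{u} → Set Ordinal.{u} → (ℕ → Ordinal.{u}) → Prop) (w : ℕ → Ordinal.{u})
    (x : Ordinal.{u}) : Prop :=
  Φ x {y | ∃ z : Iio x, y = z.1 ∧ recJ Φ w z.1} w
termination_by x
decreasing_by exact z.2

/-- EB. Definability by recursion. -/
def T_EB : Prop := ∀ en : Ordinal.{u} → ZFSet.{u}, EN en →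
  ∀ Φ : Ordinal.{u} → Set Ordinal.{u} → (ℕ → Ordinal.{u}) → Prop,
    (DO fun w => Φ (w 0) (E en (w 1) ∩ Iio (w 0)) (fun n => w (n + 2))) →
    DO fun w => recJ Φ (fun n => w (n + 1)) (w 0)

/-- PR. A definable pairing function. -/
def T_PR : Prop := ∃ t : Ordinal.{u} → Ordinal.{u} → Ordinal.{u},
  (DO fun w => w 2 = t (w 0) (w 1)) ∧
  (∀ a b a' b', t a b = t a' b' → a = a' ∧ b = b') ∧
  ∀ C : Cardinal.{u}, ℵ₀ ≤ C → ∀ a < C.ord, ∀ b < C.ord, t a b < C.ord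

/-! ## Elementary embeddings -/

/-- XA. Embeddings from extendibility. -/
def T_XA : Prop := ∀ δ : Ordinal.{u}, Extendible δ → ∀ β, ∃ η > β, ∃ θ j, Emb δ η θ j

/-- XB. The critical point is inaccessible. -/
def T_XB : Prop := ∀ (δ η θ : Ordinal.{u}) j, Emb δ η θ j →
  ∃ D : Cardinal.{u}, δ = D.ord ∧ D.IsRegular ∧ D.IsStrongLimit ∧ ℵ₀ < D

/-- XC. Embeddings preserve ordinal definability. -/
def T_XC : Prop := ∀ (f : ZFSet.{u}), OD f → ∃ β, ∀ (δ η θ : Ordinal.{u}) j, Emb δ η θ j →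
  β < η → f ∈ V_ η ∧ OD (j f)

/-- XD. Embeddings preserve regular cardinals. -/
def T_XD : Prop := ∀ (δ η θ : Ordinal.{u}) j, Emb δ η θ j → ∀ K : Cardinal.{u}, K.IsRegular →
  K.ord < η → ∃ K' : Cardinal.{u}, K'.IsRegular ∧ Jo j K.ord = K'.ord

/-- XE. Continuity at points of small cofinality. -/
def T_XE : Prop := ∀ (δ η θ : Ordinal.{u}) j, Emb δ η θ j → ∀ x < η, ∀ M : Cardinal.{u},
  M.IsRegular → M.ord < δ → Cf M.ord x → (∀ y < Jo j x, ∃ ξ < x, y < Jo j ξ) ∧ Cf M.ord (Jo j x)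

/-- XF. The argument of Solovay. -/
def T_XF : Prop := ∀ (δ η θ : Ordinal.{u}) j (M K : Cardinal.{u}) γ f, Sol δ η θ j M K γ f →
  ∀ ρ : Ordinal.{u}, (∀ x < K.ord, Jo j x < ρ) → (∀ y < ρ, ∃ x < K.ord, y < Jo j x) →
    ∀ i < Jo j γ, (Pos M.ord ρ (fib (j f) i) ↔ ∃ i0 < γ, i = Jo j i0)

/-- XG. The embedding is definable from ordinals on `γ`. -/
def T_XG : Prop := ∀ (δ η θ : Ordinal.{u}) j (M K : Cardinal.{u}) γ f, Sol δ η θ j M K γ f →
  DR fun a b => a < γ ∧ b = Jo j a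

/-- XH. First step of the covering argument. -/
def T_XH : Prop := ∀ (δ η θ : Ordinal.{u}) j (M K : Cardinal.{u}) γ f, Sol δ η θ j M K γ f →
  ∀ α, HReg α → δ < α → α ≤ γ → δ ≤ α.cof.ord

/-- XI. Second step of the covering argument: the set `S`, of size at most `cof α`. -/
def T_XI : Prop := ∀ (δ η θ : Ordinal.{u}) j (M K : Cardinal.{u}) γ f, Sol δ η θ j M K γ f →
  ∀ α, IsSuccLimit α → δ ≤ α.cof.ord → α ≤ γ →
    ∃ (S : Set Ordinal.{u}) (E' : Set Ordinal.{u}), S ⊆ Iio α ∧ DS E' ∧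
      (∃ e : Ordinal.{u} → Ordinal.{u}, ∀ x ∈ S, ∃ a < α.cof.ord, e a = x) ∧
      (∀ ξ < α, ∃ ζ < α, ξ < ζ ∧ ∃ x ∈ E', Jo j ξ ≤ x ∧ x < Jo j ζ) ∧
      (∀ ξ < α, ∀ ζ < α, (∃ x ∈ E', Jo j ξ ≤ x ∧ x < Jo j ζ) → ∃ y ∈ S, ξ ≤ y ∧ y < ζ)

/-- XJ. Third step of the covering argument. -/
def T_XJ : Prop := ∀ (δ η θ : Ordinal.{u}) j (M K : Cardinal.{u}) γ f, Sol δ η θ j M K γ f →
  ∀ α, HReg α → δ < α → α ≤ γ → α.card ≤ α.cof

/-- XK. Failure of the first alternative. -/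
def T_XK : Prop := ∀ δ : Ordinal.{u}, ω < δ → ¬ CaseA δ → ∃ (C : Cardinal.{u}) (α : Ordinal.{u}),
  ℵ₀ ≤ C ∧ ¬ C.IsRegular ∧ δ < C.ord ∧ C.ord ≤ α ∧ α < (succ C).ord ∧ HReg α

/-- There are no `δ` many pairwise disjoint `μ`-positive sets at `κ` given by a sequence which is
definable from ordinals. -/
def NS (δ μ κ : Ordinal.{u}) : Prop := ∀ s : Ordinal.{u} → Ordinal.{u} → Prop, DR s →
  (∀ b i i', s b i → s b i' → i = i') → ¬ ∀ i < δ, Pos μ κ {b | s b i}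

/-- XL. No splitting. -/
def T_XL : Prop := ∀ δ : Ordinal.{u}, Extendible δ → ¬ CaseA δ → ∀ M K : Cardinal.{u},
  M.IsRegular → M.ord < δ → K.IsRegular → δ < K.ord → NS δ M.ord K.ord

/-! ## The far alternative -/

/-- A more flexible form of `NS`. -/
def NSX (δ μ κ : Ordinal.{u}) : Prop := ∀ (s : Ordinal.{u} → Ordinal.{u} → Prop)
  (I : Set Ordinal.{u}), DR s → DS I → (∀ x ∈ I, Pos μ κ {b | s x b}) →
  (∀ x ∈ I, ∀ y ∈ I, ∀ b, s x b → s y b → x = y) → Few δ I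

/-- HA. -/
def T_HA : Prop := ∀ δ μ κ : Ordinal.{u}, NS δ μ κ → NSX δ μ κ

/-- HB. Atoms. -/
def T_HB : Prop := ∀ en : Ordinal.{u} → ZFSet.{u}, EN en → ∀ D M K : Cardinal.{u},
  D.IsRegular → D.IsStrongLimit → ℵ₀ < D → M.IsRegular → M < D → K.IsRegular → D < K →
  NSX D.ord M.ord K.ord → ∀ X : Set Ordinal.{u}, DS X → Pos M.ord K.ord X →
    ∃ c, E en c ⊆ X ∧ Atom en M.ord K.ord c

/-- HC. The family of atoms. -/
def T_HC : Prop := ∀ en : Ordinal.{u} → ZFSet.{u}, EN en → ∀ D M K : Cardinal.{u},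
  D.IsRegular → ℵ₀ < D → M.IsRegular → M < D → K.IsRegular → D < K →
  NSX D.ord M.ord K.ord →
  (∀ X : Set Ordinal.{u}, DS X → Pos M.ord K.ord X → ∃ c, E en c ⊆ X ∧ Atom en M.ord K.ord c) →
    ∃ τ < D.ord, ∃ e : Ordinal.{u} → Ordinal.{u}, (∀ i < τ, Atom en M.ord K.ord (e i)) ∧
      ¬ Pos M.ord K.ord {b | ∀ i < τ, b ∉ E en (e i)}

/-- HD. At a regular cardinal an atom gives a normal measure. -/
def T_HD : Prop := ∀ (en : Ordinal.{u} → ZFSet.{u}) (μ : Ordinal.{u}) (K : Cardinal.{u}) (c),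
  K.IsRegular → ℵ₀ < K → Atom en μ K.ord c → CMe en μ K.ord c

/-- HE. The measure. -/
def T_HE : Prop := ∀ en : Ordinal.{u} → ZFSet.{u}, EN en → ∀ μ α c : Ordinal.{u},
  CMe en μ α c → HMeas α (uz en μ α c)

/-- HF. One of the `M`-atoms is positive at almost all points of an `N`-atom. -/
def T_HF : Prop := ∀ (en : Ordinal.{u} → ZFSet.{u}) (M N K : Cardinal.{u}),
  EN en → M.IsRegular → N.IsRegular → K.IsRegular → M < N → N < K →
  ∀ τ < N.ord, ∀ e : Ordinal.{u} → Ordinal.{u},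
    ¬ Pos M.ord K.ord {b | ∀ i < τ, b ∉ E en (e i)} → ∀ d, Atom en N.ord K.ord d →
    ∃ i < τ, ¬ Pos N.ord K.ord {α | α ∈ E en d ∧ ¬ Pos M.ord α (E en (e i))}

/-- HG. Functions on an atom whose values are coded relations on `α`. -/
def T_HG : Prop := ∀ (en : Ordinal.{u} → ZFSet.{u}) (ν : Ordinal.{u}) (K : Cardinal.{u}) (d),
  EN en → K.IsRegular → ℵ₀ < K → Atom en ν K.ord d →
  ∀ R : Ordinal.{u} → Ordinal.{u} → Prop, DR R → ∃ e', ¬ Pos ν K.ord {α | α ∈ E en d ∧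
    (∃ e, R α e) ∧ ¬ ∃ e, R α e ∧ ∀ a < α, ∀ b < α, (b ∈ E2 en e a ↔ b ∈ E2 en e' a)}

/-- The situation of the comparison of two atoms. -/
structure Two (en : Ordinal.{u} → ZFSet.{u}) (M N K : Cardinal.{u}) (c d : Ordinal.{u}) :
    Prop where
  hen : EN en
  mreg : M.IsRegular
  nreg : N.IsRegular
  kreg : K.IsRegular
  mn : M < N
  nk : N < K
  ac : Atom en M.ord K.ord c
  ad : Atom en N.ord K.ord d
  pos : ¬ Pos N.ord K.ord {α | α ∈ E en d ∧ ¬ Pos M.ord α (E en c)}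

/-- HH. The filter of `c` at `K` in terms of its filters at almost all `α`. -/
def T_HH : Prop := ∀ (en : Ordinal.{u} → ZFSet.{u}) M N K c d, Two en M N K c d →
  ∀ X : Set Ordinal.{u}, DS X →
    (¬ Pos M.ord K.ord (E en c \ X) →
      ¬ Pos N.ord K.ord {α | α ∈ E en d ∧ Pos M.ord α (E en c \ X)}) ∧
    (Pos M.ord K.ord (E en c \ X) →
      ¬ Pos N.ord K.ord {α | α ∈ E en d ∧ ¬ Pos M.ord α (E en c \ X)})

/-- HI. Almost all `α` are such that `c` gives an ultrafilter on `α`. -/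
def T_HI : Prop := ∀ (en : Ordinal.{u} → ZFSet.{u}) M N K c d, Two en M N K c d →
  ¬ Pos N.ord K.ord {α | α ∈ E en d ∧
    ∃ x, Pos M.ord α (E en c ∩ E en x) ∧ Pos M.ord α (E en c \ E en x)}

/-- HJ. Almost all `α` are such that `c` gives a normal filter on `α`. -/
def T_HJ : Prop := ∀ (en : Ordinal.{u} → ZFSet.{u}) M N K c d, Two en M N K c d →
  ¬ Pos N.ord K.ord {α | α ∈ E en d ∧ ∃ e, (∀ a < α, ¬ Pos M.ord α (E en c \ E2 en e a)) ∧
    Pos M.ord α {b | b ∈ E en c ∧ ∃ a < b, b ∉ E2 en e a}}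

/-- HK. The Mitchell order. -/
def T_HK : Prop := ∀ (en : Ordinal.{u} → ZFSet.{u}) M N K c d, Two en M N K c d →
  MLt K.ord (uz en M.ord K.ord c) (uz en N.ord K.ord d)

/-- HL. Conclusion of the far alternative. -/
def T_HL : Prop := ∀ D K : Cardinal.{u}, D.IsRegular → D.IsStrongLimit → ℵ₀ < D →
  K.IsRegular → D < K → (∀ M : Cardinal.{u}, M.IsRegular → M < D → NS D.ord M.ord K.ord) →
  ∀ ξ < D.ord, ∃ U, MGe K.ord ξ U

/-- The theorem. -/
def T_MAIN : Prop := ∀ δ : Ordinal.{u}, Extendible δ →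
  CaseA δ ∨ ∀ K : Cardinal.{u}, K.IsRegular → δ < K.ord → ∀ ξ < δ, ∃ U, MGe K.ord ξ U

end HD
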