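import Pool.Agent.H7.HD.Targets11

/-!
# Targets of the twelfth list of modules: the Mitchell order and definable well-founded relations
(MP_e37c09_lc)
-/

open Ordinal Cardinal Order Set
open scoped ZFSet

universe u

namespace HD

/-! ## Statement-level definitions -/

/-- the relation defined over `(V_ (κ + 1))^HOD` by `φ` with the parameters `v` -/
def ER (φ : Fml) (v : ℕ → ZFSet.{u}) (κ : Ordinal.{u}) (x y : ZFSet.{u}) : Prop :=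
  VH κ x ∧ VH κ y ∧ Sat (VH κ) φ (cons x (cons y v))

/-- The relation `ER φ v κ` is well-founded (`ρ` is its rank function) and its height is at
least `θ`. -/
def HtG (φ : Fml) (v : ℕ → ZFSet.{u}) (κ θ : Ordinal.{u}) : Prop :=
  ∃ ρ : ZFSet.{u} → Ordinal.{u}, (∀ x, VH κ x → ∀ ζ, ζ < ρ x ↔ ∃ y, ER φ v κ y x ∧ ζ ≤ ρ y) ∧
    ∀ ζ < θ, ∃ x, VH κ x ∧ ζ ≤ ρ x

/-! ## Internal definitions -/

/-- the traces of the parameters -/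
noncomputable def tr (v : ℕ → ZFSet.{u}) (κ : Ordinal.{u}) (n : ℕ) : ZFSet.{u} := v n ∩ V_ κ

/-- The rank of `U` in the Mitchell order is at least the rank of `y` in the relation given by `φ`
and the traces of `v` (the least fixed point). -/
def MR (φ : Fml) (v : ℕ → ZFSet.{u}) (κ : Ordinal.{u}) (y U : ZFSet.{u}) : Prop :=
  ∀ P : ZFSet.{u} → ZFSet.{u} → Prop, (∀ y U, VH κ y → HMeas κ U →
    (∀ d, ER φ (tr v κ) κ d y → ∃ W, P d W ∧ MLt κ W U) → P y U) → P y U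

theorem mr_mk {φ : Fml} {v : ℕ → ZFSet.{u}} {κ : Ordinal.{u}} {y U : ZFSet.{u}} (h1 : VH κ y)
    (h2 : HMeas κ U) (h3 : ∀ d, ER φ (tr v κ) κ d y → ∃ W, MR φ v κ d W ∧ MLt κ W U) :
    MR φ v κ y U := fun P hP => hP y U h1 h2 fun d hd => by
  obtain ⟨W, hW, h⟩ := h3 d hd
  exact ⟨W, hW P hP, h⟩

/-- the fixed point property -/
theorem mr_iff {φ : Fml} {v : ℕ → ZFSet.{u}} {κ : Ordinal.{u}} {y U : ZFSet.{u}} :
    MR φ v κ y U ↔ VH κ y ∧ HMeas κ U ∧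
      ∀ d, ER φ (tr v κ) κ d y → ∃ W, MR φ v κ d W ∧ MLt κ W U := by
  constructor
  · intro h
    refine h (fun y U => VH κ y ∧ HMeas κ U ∧
      ∀ d, ER φ (tr v κ) κ d y → ∃ W, MR φ v κ d W ∧ MLt κ W U) fun y U h1 h2 h3 =>
        ⟨h1, h2, fun d hd => ?_⟩
    obtain ⟨W, ⟨g1, g2, g3⟩, h⟩ := h3 d hd
    exact ⟨W, mr_mk g1 g2 g3, h⟩
  · rintro ⟨h1, h2, h3⟩
    exact mr_mk h1 h2 h3

/-- the Mitchell rank -/
theorem mr_mge {φ : Fml} {v : ℕ → ZFSet.{u}} {κ : Ordinal.{u}} {ρ : ZFSet.{u} → Ordinal.{u}}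
    (hρ : ∀ x, VH κ x → ∀ ζ, ζ < ρ x → ∃ y, ER φ (tr v κ) κ y x ∧ ζ ≤ ρ y) {y U : ZFSet.{u}}
    (h : MR φ v κ y U) : MGe κ (ρ y) U := by
  refine h (fun y U => MGe κ (ρ y) U) fun y U h1 h2 h3 => ?_
  rw [MGe]
  refine ⟨h2, fun ζ => ?_⟩
  obtain ⟨d, hd, hζ⟩ := hρ y h1 ζ.1 ζ.2
  obtain ⟨W, hW, hWU⟩ := h3 d hd
  refine ⟨W, ?_, hWU⟩
  rw [MGe] at hW ⊢
  exact ⟨hW.1, fun i => hW.2 ⟨i.1, lt_of_lt_of_le i.2 hζ⟩⟩

/-! ## Targets -/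

/-- INA. A cardinal with a normal measure in HOD is inaccessible in HOD (in terms of codes). -/
def T_INA : Prop := ∀ en : Ordinal.{u} → ZFSet.{u}, EN en → ∀ (κ : Ordinal.{u}) (W : ZFSet.{u}),
  NMe κ W → ∀ β < κ, ∃ η < κ, ∃ e : Ordinal.{u} → Ordinal.{u}, (DR fun a b => b = e a) ∧
    ∀ z, HOD z → z ∈ V_ β → ∃ i < η, z = en (e i)

/-- LIV. Limits of sets along a normal measure. -/
def T_LIV : Prop := ∀ en : Ordinal.{u} → ZFSet.{u}, EN en → ∀ (κ : Ordinal.{u}) (W : ZFSet.{u}),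
  NMe κ W → ∀ c : Ordinal.{u} → Ordinal.{u}, (DR fun a b => b = c a) →
  os κ {b | VH b (en (c b))} ∈ W → ∃ S, VH κ S ∧ os κ {b | S ∩ V_ b = en (c b)} ∈ W

/-- DSA. Definability of satisfaction in the `(V_ (κ + 1))^HOD`. -/
def T_DSA : Prop := ∀ (φ : Fml) (m : ℕ) (v : ℕ → ZFSet.{u}), (∀ n, OD (v n)) →
  DZ fun s => (s 0).IsOrdinal ∧ Sat (VH (s 0).rank) φ
    (fun n => if n < m then s (n + 1) else v (n - m) ∩ V_ (s 0).rank)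

/-- DER. Definability with codes. -/
def T_DER : Prop := ∀ en : Ordinal.{u} → ZFSet.{u}, EN en →
  (DO fun w => VH (w 0) (en (w 1))) ∧
  (∀ y : ZFSet.{u}, OD y → ∃ c : Ordinal.{u} → Ordinal.{u}, (DR fun a b => b = c a) ∧
    ∀ b, en (c b) = y ∩ V_ b) ∧
  ∀ (φ : Fml) (v : ℕ → ZFSet.{u}), (∀ n, OD (v n)) →
    (DO fun w => Sat (VH (w 0)) φ (tr v (w 0))) ∧
    (DO fun w => Sat (VH (w 0)) φ (cons (en (w 1)) (tr v (w 0)))) ∧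
    DO fun w => ER φ (tr v (w 0)) (w 0) (en (w 1)) (en (w 2))

/-- LOS. The theorem of Łoś for the structures `(V_ (b + 1))^HOD`. -/
def T_LOS : Prop := ∀ (κ : Ordinal.{u}) (W : ZFSet.{u}), NMe κ W → ∀ (φ : Fml)
  (v : ℕ → ZFSet.{u}), (∀ n, VH κ (v n)) →
  (Sat (VH κ) φ v ↔ os κ {b | Sat (VH b) φ (tr v b)} ∈ W)

/-- DMR. Definability of `MR` with codes. -/
def T_DMR : Prop := ∀ en : Ordinal.{u} → ZFSet.{u}, EN en → ∀ (φ : Fml) (v : ℕ → ZFSet.{u}),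
  (∀ n, OD (v n)) → DO fun w => MR φ v (w 0) (en (w 1)) (en (w 2))

/-- DN3. The ranks of the members of a sequence of measures. -/
def T_DN3 : Prop := ∀ en : Ordinal.{u} → ZFSet.{u}, EN en → ∀ (φ : Fml) (v : ℕ → ZFSet.{u}),
  (∀ n, HOD (v n)) → ∀ (κ : Ordinal.{u}) (c : Ordinal.{u} → Ordinal.{u}) (y U U' : ZFSet.{u}),
  (DR fun a b => b = c a) → NMe κ U → os κ {b | NMe b (en (c b))} ∈ U →
  (∀ X : Set Ordinal.{u}, DS X → (os κ X ∈ U' ↔ os κ {b | os b X ∈ en (c b)} ∈ U)) →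
  MR φ v κ y U' → os κ {b | MR φ v b (y ∩ V_ b) (en (c b))} ∈ U

/-- UP3. Measures of large rank below a given measure. -/
def T_UP3 : Prop := ∀ (φ : Fml) (v : ℕ → ZFSet.{u}), (∀ n, HOD (v n)) → ∀ (κ : Ordinal.{u})
  (y W : ZFSet.{u}) (ρ : ZFSet.{u} → Ordinal.{u}),
  (∀ d y, ER φ (tr v κ) κ d y → ρ d < ρ y) → NMe κ W → VH κ y →
  os κ {b | ∃ U, MR φ v b (y ∩ V_ b) U} ∈ W → ∃ W', MR φ v κ y W' ∧ MLt κ W' W

/-- RF3. Reflection of the relations. -/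
def T_RF3 : Prop := ∀ K : Cardinal.{u}, K.IsRegular → ℵ₀ < K → VFV K →
  ∃ (C : Set Ordinal.{u}) (E : Ordinal.{u} → ZFSet.{u}), Clb K.ord C ∧
    (∀ ζ, VH K.ord (E ζ)) ∧ (∀ x, VH K.ord x → ∃ ζ < K.ord, x = E ζ) ∧
    ∀ ξ ∈ C, ξ < K.ord → (∀ x, VH ξ x → ∃ ζ < ξ, x = E ζ ∩ V_ ξ) ∧
      (∀ a < ξ, ∀ b < ξ, E a ∩ V_ ξ = E b ∩ V_ ξ → E a = E b) ∧
      ∀ (φ : Fml) (z : ℕ → Ordinal.{u}), (∀ n, z n < ξ) →
        (Sat (VH ξ) φ (fun n => E (z n) ∩ V_ ξ) ↔ Sat (VH K.ord) φ (fun n => E (z n)))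

end HD
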