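import Pool.Agent.H7.HD.Targets2

/-!
# MP_e37c09_lc: targets of the third list of modules (Mitchell order at singular points)
-/

open Ordinal Cardinal Order Set
open scoped ZFSet

universe u

namespace HD

/-- WA. Reflection of null sets at ordinals of uncountable cofinality. -/
def T_WA : Prop := ∀ (μ ν α : Ordinal.{u}), ℵ₀ < α.cof → ∀ X : Set Ordinal.{u},
  ¬ Pos μ α X → ¬ Pos ν α {β | Pos μ β X}

/-- The situation of the comparison of two measures at an ordinal `α`. -/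
structure Two2 (en : Ordinal.{u} → ZFSet.{u}) (M N : Cardinal.{u}) (α c d : Ordinal.{u}) :
    Prop where
  hen : EN en
  mreg : M.IsRegular
  nreg : N.IsRegular
  mn : M < N
  cf : N < α.cof
  ac : CMe en M.ord α c
  ad : CMe en N.ord α d
  cme : ¬ Pos N.ord α {β | β ∈ E en d ∧ ¬ CMe en M.ord β c}

/-- WB. The Mitchell order at `α`. -/
def T_WB : Prop := ∀ (en : Ordinal.{u} → ZFSet.{u}) M N α c d, Two2 en M N α c d →
  MLt α (uz en M.ord α c) (uz en N.ord α d)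

/-- WC. Almost all points of a `P`-atom above `d`, where `c` is below `d`. -/
def T_WC : Prop := ∀ (en : Ordinal.{u} → ZFSet.{u}) M N K c d, Two en M N K c d →
  ∀ (P : Cardinal.{u}) p, Two en N P K d p →
    Two en M P K c p ∧ ¬ Pos P.ord K.ord {α | α ∈ E en p ∧ ¬ Two2 en M N α c d}

/-- WD. The Mitchell rank at almost all points of an atom. -/
def T_WD : Prop := ∀ en : Ordinal.{u} → ZFSet.{u}, EN en → ∀ D K : Cardinal.{u},
  D.IsRegular → D.IsStrongLimit → ℵ₀ < D → K.IsRegular → D < K →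
  (∀ M : Cardinal.{u}, M.IsRegular → M < D → ∃ τ < D.ord, ∃ e : Ordinal.{u} → Ordinal.{u},
    (∀ i < τ, Atom en M.ord K.ord (e i)) ∧ ¬ Pos M.ord K.ord {b | ∀ i < τ, b ∉ E en (e i)}) →
  ∀ ζ < D.ord, ∃ m < D, ∀ M P : Cardinal.{u}, M.IsRegular → m ≤ M → P < D →
    ∀ c p, Two en M P K c p →
      ¬ Pos P.ord K.ord {α | α ∈ E en p ∧ ¬ MGe α ζ (uz en M.ord α c)}

/-- WE. Clubs of ordinals which have large Mitchell order in HOD if their cofinality is large
enough and less than `D`. -/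
def T_WE : Prop := ∀ D K : Cardinal.{u}, GoodN D → K.IsRegular → D < K → ∀ ξ < D.ord,
  ∃ μ < D, ∃ C, Clb K.ord C ∧
    ∀ α ∈ C, α < K.ord → μ ≤ α.cof → α.cof < D → ∃ U, MGe α ξ U

/-- the dichotomy with the Mitchell order of singular cardinals -/
def T_M4 : Prop := ∀ δ : Ordinal.{u}, Extendible δ → CaseA δ ∨ ∀ l < δ, ∃ δ₀ < δ, l < δ₀ ∧
  ∀ K : Cardinal.{u}, K.IsRegular → δ₀ < K.ord → ∀ ξ < δ₀, ∃ μ < δ₀, ∃ C, Clb K.ord C ∧
    ∀ α ∈ C, α < K.ord → μ ≤ α.cof.ord → α.cof.ord < δ₀ → ∃ U, MGe α ξ U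

end HD
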