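import Pool.Agent.H7.HD.All2

/-!
# MP_e37c09_lc: targets of the fourth list of modules
-/

open Ordinal Cardinal Order Set
open scoped ZFSet

universe u

namespace HD

/-! ## Statement-level definition -/

/-- `x` contains all points of cofinality `μ` of a closed unbounded subset of `α` -/
def CubIn (μ α : Ordinal.{u}) (x : ZFSet.{u}) : Prop :=
  ∃ C, Clb α C ∧ ∀ b < α, b ∈ C → b.cof.ord = μ → b.toZFSet ∈ x

/-! ## The trace of the club filter -/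

/-- ZA. A definable family of atoms. -/
def T_ZA : Prop := ∀ en : Ordinal.{u} → ZFSet.{u}, EN en → ∀ (D M : Cardinal.{u})
  (κ : Ordinal.{u}), D.IsRegular → ℵ₀ < D → M.IsRegular → M < D → D < κ.cof →
  NSX D.ord M.ord κ →
  (∀ X : Set Ordinal.{u}, DS X → Pos M.ord κ X → ∃ c, E en c ⊆ X ∧ Atom en M.ord κ c) →
  ∃ I : Set Ordinal.{u}, DS I ∧ Few D.ord I ∧ (∀ c ∈ I, Atom en M.ord κ c) ∧
    ¬ Pos M.ord κ {b | ∀ c ∈ I, b ∉ E en c}

/-- ZB. The sequence of the ultrafilters given by a definable family of codes. -/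
def T_ZB : Prop := ∀ en : Ordinal.{u} → ZFSet.{u}, EN en → ∀ (D : Cardinal.{u})
  (μ α : Ordinal.{u}) (I : Set Ordinal.{u}), DS I → Few D.ord I →
  ∃ τ < D.ord, ∃ F y, HOD F ∧ ZFSet.IsFunc τ.toZFSet y F ∧
    (∀ i < τ, ∀ U, ZFSet.pair i.toZFSet U ∈ F → ∃ c ∈ I, U = uz en μ α c) ∧
    ∀ c ∈ I, ∃ i < τ, ZFSet.pair i.toZFSet (uz en μ α c) ∈ F

/-- ZC. One club for all sets in HOD. -/
def T_ZC : Prop := ∀ en : Ordinal.{u} → ZFSet.{u}, EN en → ∀ (D M K : Cardinal.{u}),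
  GoodN D → M.IsRegular → M < D → K.IsRegular → D < K → ∀ I : Set Ordinal.{u}, Few D.ord I →
  ∃ C, Clb K.ord C ∧ ∀ c ∈ I, ∀ x ∈ uz en M.ord K.ord c, ∃ β < K.ord, ∀ b ∈ C, β < b →
    b < K.ord → b.cof.ord = M.ord → b ∈ E en c → b.toZFSet ∈ x

/-- ZD. The trace of the club filter on HOD. -/
def T_ZD : Prop := ∀ D M : Cardinal.{u}, GoodN D → M.IsRegular → M < D →
  ∀ α : Ordinal.{u}, D < α.cof → ∃ τ < D.ord, ∃ F y, HOD F ∧ ZFSet.IsFunc τ.toZFSet y F ∧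
    (∀ i < τ, ∀ U, ZFSet.pair i.toZFSet U ∈ F → HUlt α α.cof.ord U) ∧
    (∀ x, HOD x → x ⊆ α.toZFSet →
      (CubIn M.ord α x ↔ ∀ i < τ, ∀ U, ZFSet.pair i.toZFSet U ∈ F → x ∈ U)) ∧
    (α.cof.ord = α → ∃ C, Clb α C ∧ ∀ i < τ, ∀ U, ZFSet.pair i.toZFSet U ∈ F →
      ∃ a ∈ U, ∀ x ∈ U, ∃ β < α, ∀ b ∈ C, β < b → b < α → b.cof.ord = M.ord →
        b.toZFSet ∈ a → b.toZFSet ∈ x)

/-! ## Definability of the Mitchell order -/

/-- DM. Definability of the Mitchell order. -/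
def T_DM : Prop := DO.{u} fun w => ∃ U, MGe (w 0) (w 1) U

/-! ## The Mitchell order at all cofinalities, uniformly -/

/-- a regular cardinal greater than `M` -/
noncomputable def nr (M : Cardinal.{u}) : Cardinal.{u} := succ (max M ℵ₀)

/-- the cardinals of the uniform recursion -/
noncomputable def mm (g : Cardinal.{u} → Cardinal.{u}) (ζ : Ordinal.{u}) : Cardinal.{u} :=
  ⨆ t : Iio ζ, succ (max (g (nr (mm g t.1))) (nr (mm g t.1)))
termination_by ζ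
decreasing_by exact t.2

/-- ZE. The Mitchell rank at almost all points of an atom, uniformly. -/
def T_ZE : Prop := ∀ en : Ordinal.{u} → ZFSet.{u}, EN en → ∀ (K : Cardinal.{u})
  (g : Cardinal.{u} → Cardinal.{u}), K.IsRegular → ℵ₀ < K → ∀ (ζ : Ordinal.{u})
  (M P : Cardinal.{u}), M.IsRegular → mm g ζ ≤ M →
  (∀ M' : Cardinal.{u}, M'.IsRegular → M' < M → ∃ τ < (g M').ord,
    ∃ e : Ordinal.{u} → Ordinal.{u}, (∀ i < τ, Atom en M'.ord K.ord (e i)) ∧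
      ¬ Pos M'.ord K.ord {b | ∀ i < τ, b ∉ E en (e i)}) →
  ∀ c p, Two en M P K c p →
    ¬ Pos P.ord K.ord {α | α ∈ E en p ∧ ¬ MGe α ζ (uz en M.ord α c)}

/-- the good cardinals are unbounded in `D` -/
def GoodU (D : Cardinal.{u}) : Prop := D.IsRegular ∧ D.IsStrongLimit ∧ ℵ₀ < D ∧
  ∀ l < D.ord, ∃ D' : Cardinal.{u}, D' < D ∧ l < D'.ord ∧ GoodN D'

/-- ZF. The Mitchell order at almost all points is at least the cofinality (up to `E`). -/
def T_ZF : Prop := ∀ D : Cardinal.{u}, GoodU D → ∃ E ⊆ Iio D.ord, Clb D.ord E ∧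
  ∀ K : Cardinal.{u}, K.IsRegular → ∃ C, Clb K.ord C ∧ ∀ α ∈ C, α < K.ord →
    ∀ δ₀ ∈ E, ∀ δ₁ ∈ E, δ₀ ≤ α.cof.ord → α.cof.ord < δ₁ → δ₁ < K.ord →
      ∀ ξ < δ₀, ∃ U, MGe α ξ U

/-! ## Stationary sets of measurable cardinals in HOD at almost all points -/

/-- ZG. Almost all points of cofinality `N` are such that a given definable stationary set is
stationary in the sense of HOD below them. -/
def T_ZG : Prop := ∀ D N K : Cardinal.{u}, GoodN D → N.IsRegular → N < D → K.IsRegular → D < K →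
  ∀ S : Set Ordinal.{u}, DS S → (∀ C, Clb K.ord C → ∃ b < K.ord, b ∈ C ∧ b ∈ S) →
    ¬ Pos N.ord K.ord {α | ∃ d, HOD d ∧ Clb α {b | b.toZFSet ∈ d} ∧
      ∀ b < α, b.toZFSet ∈ d → b ∉ S}

/-- ZH. The club of the ordinals in which the measurable cardinals of HOD of large Mitchell
order are stationary in the sense of HOD. -/
def T_ZH : Prop := ∀ D : Cardinal.{u}, GoodU D → ∃ E ⊆ Iio D.ord, Clb D.ord E ∧
  ∀ K : Cardinal.{u}, K.IsRegular → (∃ δ₀ ∈ E, δ₀ < K.ord) → ∃ C, Clb K.ord C ∧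
    ∀ α ∈ C, α < K.ord → InacHOD α ∧ ∀ δ₀ ∈ E, δ₀ ≤ α → ∀ ξ < δ₀, ∀ d, HOD d →
      Clb α {b | b.toZFSet ∈ d} → ∃ β < α, β.toZFSet ∈ d ∧ ∃ U, MGe β ξ U

end HD
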