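import Pool.Agent.H7.HD.Targets6

/-!
# MP_e37c09_lc: targets of the seventh list of modules (supercompactness in HOD up to `κ⁺`)
-/

open Ordinal Cardinal Order Set
open scoped ZFSet

universe u

namespace HD

/-! ## Functions for the ordinals which are singular in HOD -/

/-- For `a` singular in HOD, `s a` is an unbounded function from `p a` to `a`, and `r a z` is an
index with `z ≤ s a (r a z)`. -/
structure PI (p : Ordinal.{u} → Ordinal.{u}) (s r : Ordinal.{u} → Ordinal.{u} → Ordinal.{u}) :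
    Prop where
  pa : ∀ a, p a ≤ a
  sa : ∀ a i, s a i ≤ a
  ra : ∀ a z, r a z ≤ a
  pl : ∀ a, SingHOD a → p a < a
  sl : ∀ a, SingHOD a → ∀ i < p a, s a i < a
  rl : ∀ a, SingHOD a → ∀ z < a, r a z < p a
  sr : ∀ a, SingHOD a → ∀ z < a, z ≤ s a (r a z)

/-- definability of these functions -/
structure PS (p : Ordinal.{u} → Ordinal.{u}) (s r : Ordinal.{u} → Ordinal.{u} → Ordinal.{u}) :
    Prop where
  pi : PI p s r
  dp : DR fun a t => t = p a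
  ds : DO fun w => w 2 = s (w 0) (w 1)
  dr : DO fun w => w 2 = r (w 0) (w 1)
  dg : DS.{u} {a : Ordinal.{u} | SingHOD a}

/-- PS. -/
def T_PS : Prop := ∃ (p : Ordinal.{u} → Ordinal.{u}) (s r : Ordinal.{u} → Ordinal.{u} → Ordinal.{u}),
  PS p s r

/-! ## Closed sets with prescribed suprema -/

/-- `X` is closed: below `κ` it is an initial segment, it is closed under limits of cofinality `μ`
which are not above all its elements, under predecessors, and under `p`, `s`, `r`. -/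
structure Cz (κ : Ordinal.{u}) (μ : Cardinal.{u}) (p : Ordinal.{u} → Ordinal.{u})
    (s r : Ordinal.{u} → Ordinal.{u} → Ordinal.{u}) (X : Set Ordinal.{u}) : Prop where
  ini : ∀ y ∈ X, y < κ → ∀ z < y, z ∈ X
  oc : ∀ x, x.cof = μ → (∀ y < x, ∃ z ∈ X, y < z ∧ z < x) → (∃ z ∈ X, x ≤ z) → x ∈ X
  pr : ∀ b, succ b ∈ X → b ∈ X
  cp : ∀ a ∈ X, SingHOD a → p a ∈ X
  cs : ∀ a ∈ X, SingHOD a → ∀ i ∈ X, i < p a → s a i ∈ X
  cr : ∀ a ∈ X, SingHOD a → ∀ z ∈ X, z < a → r a z ∈ X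

/-- `X` is a closed cofinal subset of `ν`, and `v a ν` is the supremum of `X ∩ a` if `a ∈ X` is
regular in HOD and at least `κ`. -/
structure Ph (κ : Ordinal.{u}) (μ : Cardinal.{u}) (p : Ordinal.{u} → Ordinal.{u})
    (s r v : Ordinal.{u} → Ordinal.{u} → Ordinal.{u}) (ν : Ordinal.{u}) (X : Set Ordinal.{u}) :
    Prop where
  cz : Cz κ μ p s r X
  lt : ∀ z ∈ X, z < ν
  cf : ∀ y < ν, ∃ z ∈ X, y < z
  vl : ∀ a ∈ X, κ ≤ a → RegHOD a → ∀ z ∈ X, z < a → z < v a ν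
  vu : ∀ a ∈ X, κ ≤ a → RegHOD a → ∀ y < v a ν, ∃ z ∈ X, z < a ∧ y ≤ z

/-- the intersection of these sets -/
def Zp (κ : Ordinal.{u}) (μ : Cardinal.{u}) (p : Ordinal.{u} → Ordinal.{u})
    (s r v : Ordinal.{u} → Ordinal.{u} → Ordinal.{u}) (ν : Ordinal.{u}) : Set Ordinal.{u} :=
  {z | z < ν ∧ ∀ X, Ph κ μ p s r v ν X → z ∈ X}

/-- MI. Two cofinal subsets of `ρ` closed under limits of cofinality `μ` have a cofinal
intersection. -/
def T_MI : Prop := ∀ (μ : Cardinal.{u}) (ρ : Ordinal.{u}) (X X' : Set Ordinal.{u}), μ.IsRegular →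
  μ < ρ.cof →
  (∀ x < ρ, x.cof = μ → (∀ y < x, ∃ z ∈ X, y < z ∧ z < x) → x ∈ X) →
  (∀ x < ρ, x.cof = μ → (∀ y < x, ∃ z ∈ X', y < z ∧ z < x) → x ∈ X') →
  (∀ y < ρ, ∃ z ∈ X, y < z ∧ z < ρ) → (∀ y < ρ, ∃ z ∈ X', y < z ∧ z < ρ) →
    ¬ Pos μ.ord ρ Xᶜ ∧ ∀ y < ρ, ∃ z ∈ X ∩ X', y < z ∧ z < ρ

/-- UN. Uniqueness. -/
def T_UN : Prop := ∀ (κ : Ordinal.{u}) (μ : Cardinal.{u}) (p : Ordinal.{u} → Ordinal.{u})
  (s r v : Ordinal.{u} → Ordinal.{u} → Ordinal.{u}) (ν : Ordinal.{u}) (X X' : Set Ordinal.{u}),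
  PI p s r → μ.IsRegular → μ < ν.cof → Ph κ μ p s r v ν X → Ph κ μ p s r v ν X' →
  (∀ a ∈ X, κ ≤ a → RegHOD a → μ < (v a ν).cof) → X = X'

/-! ## Closure properties of almost all sets `f '' γ` -/

/-- CI. The intersection of two clubs. -/
def T_CI : Prop := ∀ (ρ : Ordinal.{u}) (C C' : Set Ordinal.{u}), ℵ₀ < ρ.cof → Clb ρ C →
  Clb ρ C' → Clb ρ (C ∩ C')

/-- CP. Closure under a function of two variables. -/
def T_CP : Prop := ∀ (K : Cardinal.{u}) (lam : Ordinal.{u}) (f : Ordinal.{u} → Ordinal.{u}),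
  K.IsRegular → ℵ₀ < K → Sj K lam f → ∀ H : Ordinal.{u} → Ordinal.{u} → Ordinal.{u},
  (∀ x < lam, ∀ y < lam, H x y < lam) →
    ∃ C, Clb K.ord C ∧ ∀ γ ∈ C, γ < K.ord → ∀ x ∈ f '' Iio γ, ∀ y ∈ f '' Iio γ,
      H x y ∈ f '' Iio γ

/-- OL. Closure under limits of small cofinality. -/
def T_OL : Prop := ∀ (K : Cardinal.{u}) (lam : Ordinal.{u}) (f : Ordinal.{u} → Ordinal.{u}),
  K.IsRegular → ℵ₀ < K → Sj K lam f →
    ∃ C, Clb K.ord C ∧ ∀ γ ∈ C, γ < K.ord → ∀ x, ℵ₀ ≤ x.cof → x.cof < γ.cof →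
      (∀ y < x, ∃ z ∈ f '' Iio γ, y < z ∧ z < x) → (∃ z ∈ f '' Iio γ, x ≤ z) → x ∈ f '' Iio γ

/-- NC. Initial segments, and cofinality in `n γ`. -/
def T_NC : Prop := ∀ (K : Cardinal.{u}) (lam : Ordinal.{u}) (f n : Ordinal.{u} → Ordinal.{u}),
  K.IsRegular → ℵ₀ < K → K.ord ≤ lam → Sj K lam f → Nrm K lam n →
    ∃ C, Clb K.ord C ∧ ∀ γ ∈ C, γ < K.ord → IsSuccLimit γ →
      (∀ y ∈ f '' Iio γ, y < K.ord → ∀ z < y, z ∈ f '' Iio γ) ∧ (∀ z ∈ f '' Iio γ, z < n γ) ∧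
      ∀ y < n γ, ∃ z ∈ f '' Iio γ, y < z

/-! ## The suprema are definable -/

/-- the supremum of the elements of `{i | x z i}` below `a` -/
noncomputable def gx (x : Ordinal.{u} → Ordinal.{u} → Prop) (a z : Ordinal.{u}) : Ordinal.{u} :=
  sInf {b | ∀ i < a, x z i → i < b}

/-- the essential supremum of `gx x a` on the points of cofinality `N` of `ν` in `E en d` -/
noncomputable def vx (en : Ordinal.{u} → ZFSet.{u}) (N : Cardinal.{u}) (d : Ordinal.{u})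
    (x : Ordinal.{u} → Ordinal.{u} → Prop) (a ν : Ordinal.{u}) : Ordinal.{u} :=
  sInf {w | ¬ Pos N.ord ν {z | z ∈ E en d ∧ w ≤ gx x a z}}

/-- DV. -/
def T_DV : Prop := ∀ (en : Ordinal.{u} → ZFSet.{u}) (N : Cardinal.{u}) (d : Ordinal.{u}) x, EN en →
  DR x → (DO fun w => w 2 = gx x (w 0) (w 1)) ∧ DO fun w => w 2 = vx en N d x (w 0) (w 1)

/-- GX. -/
def T_GX : Prop := ∀ x : Ordinal.{u} → Ordinal.{u} → Prop, (∀ a z, gx x a z ≤ a) ∧
  (∀ a z i, i < a → x z i → i < gx x a z) ∧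
  ∀ κ lam a z, κ ≤ a → a ≤ lam → RegHOD a → os lam {i | x z i} ∈ PkHOD κ lam → gx x a z < a

/-- The situation: `c` is an `M`-atom and `d` is an `N`-atom at `lam`, `x` is a fine family for
`d`, and `E en d` is positive at almost all points of `E en c`. -/
structure Tw (en : Ordinal.{u} → ZFSet.{u}) (N M K : Cardinal.{u}) (lam c d : Ordinal.{u})
    (x : Ordinal.{u} → Ordinal.{u} → Prop) : Prop where
  hen : EN en
  nreg : N.IsRegular
  mreg : M.IsRegular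
  kreg : K.IsRegular
  nm : N < M
  mK : M < K
  kl : K.ord < lam
  lk : lam < (succ K).ord
  reg : RegHOD lam
  rc : ∀ τ, K.ord ≤ τ → τ ≤ lam → RegHOD τ → τ.cof = K
  ac : Atom en M.ord lam c
  ad : Atom en N.ord lam d
  fam : Fam en N K.ord lam d x
  pos : ¬ Pos M.ord lam {ν | ν ∈ E en c ∧ ¬ Pos N.ord ν (E en d)}

/-- VL. `v a (n γ)` is at least the supremum of `f '' γ ∩ a`. -/
def T_VL : Prop := ∀ en N M K lam c d x, Tw.{u} en N M K lam c d x →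
  ∀ f n, Sj K lam f → Nrm K lam n → ¬ Pos M.ord K.ord {γ | n γ ∈ E en c ∧
    ∃ a ∈ f '' Iio γ, K.ord ≤ a ∧ RegHOD a ∧ ∃ t ∈ f '' Iio γ, t < a ∧ vx en N d x a (n γ) ≤ t}

/-- VU. `v a (n γ)` is at most the supremum of `f '' γ ∩ a`. -/
def T_VU : Prop := ∀ en N M K lam c d x, Tw.{u} en N M K lam c d x →
  ∀ f n, Sj K lam f → Nrm K lam n → ¬ Pos M.ord K.ord {γ | n γ ∈ E en c ∧
    ∃ a ∈ f '' Iio γ, K.ord ≤ a ∧ RegHOD a ∧ ∃ y < vx en N d x a (n γ),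
      ∀ z ∈ f '' Iio γ, z < a → z < y}

/-- VK. The cofinality of `v a (n γ)`. -/
def T_VK : Prop := ∀ en N M K lam c d x, Tw.{u} en N M K lam c d x →
  ∀ f n, Sj K lam f → Nrm K lam n → ¬ Pos M.ord K.ord {γ | n γ ∈ E en c ∧
    ∃ a ∈ f '' Iio γ, K.ord ≤ a ∧ RegHOD a ∧ (vx en N d x a (n γ)).cof ≤ N}

/-- TY. Almost all `γ` are typical. -/
def T_TY : Prop := ∀ en N M K lam c d x, Tw.{u} en N M K lam c d x →
  ∀ f n p s r, Sj K lam f → Nrm K lam n → PI p s r → ¬ Pos M.ord K.ord {γ | n γ ∈ E en c ∧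
    ¬ (Ph K.ord N p s r (vx en N d x) (n γ) (f '' Iio γ) ∧
      ∀ a ∈ f '' Iio γ, K.ord ≤ a → RegHOD a → N < (vx en N d x a (n γ)).cof)}

/-- DP. The intersection of the closed cofinal sets is definable. -/
def T_DP : Prop := ∀ (κ : Ordinal.{u}) (μ : Cardinal.{u}) (p : Ordinal.{u} → Ordinal.{u})
  (s r v : Ordinal.{u} → Ordinal.{u} → Ordinal.{u}), PS p s r →
  (DO fun w => w 2 = v (w 0) (w 1)) → DR fun ν z => z ∈ Zp κ μ p s r v ν

/-! ## The normal ultrafilter -/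

/-- `Z β`, for almost all `β ∈ E en c` of cofinality `M`, is a cofinal subset of `β` with fewer
than `K` elements, and functions `g` with `g β ∈ Z β` are constant on a positive set. -/
structure ZC (en : Ordinal.{u} → ZFSet.{u}) (M K : Cardinal.{u}) (lam c : Ordinal.{u})
    (Z : Ordinal.{u} → Ordinal.{u} → Prop) : Prop where
  dr : DR Z
  few : ¬ Pos M.ord lam {β | β ∈ E en c ∧ ¬ Few K.ord {z | Z β z}}
  unb : ¬ Pos M.ord lam {β | β ∈ E en c ∧ ∃ y < β, ∀ z, Z β z → z ≤ y}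
  fod : ∀ (g : Ordinal.{u} → Ordinal.{u}) (S : Set Ordinal.{u}), Pos M.ord lam S →
    (∀ β ∈ S, β ∈ E en c) → (∀ β ∈ S, β < lam → Z β (g β)) →
      ∃ z < lam, Pos M.ord lam {β | β ∈ S ∧ g β = z}

/-- ZX. -/
def T_ZX : Prop := ∀ en N M K lam c d x, Tw.{u} en N M K lam c d x → ∃ Z, ZC en M K lam c Z

/-- YC. -/
def T_YC : Prop := ∀ (en : Ordinal.{u} → ZFSet.{u}) (M K : Cardinal.{u}) (lam c : Ordinal.{u}) Z,
  EN en → ℵ₀ < lam.cof → Atom en M.ord lam c → ZC en M K lam c Z →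
    DS (Yz en M lam c Z) ∧ (∀ b < lam, ∃ z ∈ Yz en M lam c Z, b ≤ z) ∧
    ∀ g : Ordinal.{u} → Ordinal.{u}, DR (fun a b => b = g a) →
      ¬ Pos M.ord lam {β | β ∈ E en c ∧ ¬ Z β (g β)} →
      ∃ z ∈ Yz en M lam c Z, ¬ Pos M.ord lam {β | β ∈ E en c ∧ g β ≠ z}

/-- FC. -/
def T_FC : Prop := ∀ (en : Ordinal.{u} → ZFSet.{u}) (M K : Cardinal.{u}) (lam c : Ordinal.{u}) Z,
  EN en → ℵ₀ < lam.cof → RegHOD lam → Atom en M.ord lam c → ZC en M K lam c Z →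
    Fam en M K.ord lam c (Xz (Yz en M lam c Z) Z) ∧ NoF en M lam c (Xz (Yz en M lam c Z) Z)

/-! ## Existence of the situation -/

/-- RR. The cofinalities of the regular cardinals of HOD. -/
def T_RR : Prop := ∀ (D N K : Cardinal.{u}) (lam : Ordinal.{u}), GoodN D → N.IsRegular → N < D →
  K.IsRegular → D < K → RegHOD lam → K.ord < lam → D < lam.cof →
  (∀ τ, K.ord ≤ τ → τ < lam → RegHOD τ → τ.cof ≠ N) →
    lam < (succ K).ord ∧ ∀ τ, K.ord ≤ τ → τ ≤ lam → RegHOD τ → τ.cof = K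

/-- HG2. One of the `M`-atoms is positive at almost all points of an `N`-atom. -/
def T_HF2 : Prop := ∀ (en : Ordinal.{u} → ZFSet.{u}) (M N : Cardinal.{u}) (α : Ordinal.{u}),
  EN en → M.IsRegular → N.IsRegular → M < N → N < α.cof →
  ∀ τ < N.ord, ∀ e : Ordinal.{u} → Ordinal.{u},
    ¬ Pos M.ord α {b | ∀ i < τ, b ∉ E en (e i)} → ∀ d, Atom en N.ord α d →
    ∃ i < τ, ¬ Pos N.ord α {ν | ν ∈ E en d ∧ ¬ Pos M.ord ν (E en (e i))}

/-- TW. -/
def T_TW : Prop := ∀ (D N K : Cardinal.{u}) (lam : Ordinal.{u}), GoodN D → N.IsRegular → N < D →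
  K.IsRegular → D < K → RegHOD lam → K.ord < lam → D < lam.cof →
  (∀ τ, K.ord ≤ τ → τ < lam → RegHOD τ → τ.cof ≠ N) →
    ∃ en M c d x, Tw en N M K lam c d x

/-- SP. Supercompactness in HOD. -/
def T_SP : Prop := ∀ (D N K : Cardinal.{u}) (lam : Ordinal.{u}), GoodN D → N.IsRegular → N < D →
  K.IsRegular → D < K → RegHOD lam → K.ord < lam → D < lam.cof →
  (∀ τ, K.ord ≤ τ → τ < lam → RegHOD τ → τ.cof ≠ N) → ∃ U, HSup K.ord lam U

end HD
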