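import Pool.Agent.H7.HD.Base

/-!
# Tools: sections, set arguments, covers, elementary embeddings
-/

open Ordinal Cardinal Order Set
open scoped ZFSet

universe u

namespace HD

/-! ## Sections of definable predicates -/

theorem DO.sect {P : Ordinal.{u} → (ℕ → Ordinal.{u}) → Prop}
    (h : DO fun w => P (w 0) (fun n => w (n + 1))) (w : ℕ → Ordinal.{u}) :
    DO fun w' => P (w' 0) w := by
  obtain ⟨Q, ⟨φ, p, hφ⟩, h⟩ := h
  let p' : ℕ → Ordinal.{u} := fun n => if n % 2 = 0 then w (n / 2) else p (n / 2)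
  let σ : ℕ → ℕ := fun n => if n % 2 = 0 then (if n = 0 then 0 else 2 * (2 * (n / 2 - 1)) + 1)
    else 2 * (2 * (n / 2) + 1) + 1
  refine ⟨fun v => Sat (fun _ => True) (φ.ren σ) (mz v p'), ⟨_, p', fun v => Iff.rfl⟩,
    fun w' => ?_⟩
  have h1 := h (cns (w' 0) w)
  rw [hφ] at h1
  have h2 : mz (ov w') p' ∘ σ = mz (ov (cns (w' 0) w)) p := by
    funext n
    rcases Nat.even_or_odd' n with ⟨k, rfl | rfl⟩
    · rcases k with _ | k
      · have : σ (2 * 0) = 2 * 0 := by simp [σ]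
        rw [Function.comp_apply, this, mz_even, mz_even]
        rfl
      · have : σ (2 * (k + 1)) = 2 * (2 * k) + 1 := by
          have e1 : 2 * (k + 1) % 2 = 0 := by omega
          have e2 : 2 * (k + 1) / 2 - 1 = k := by omega
          simp only [σ, e1, e2, if_true]
          rw [if_neg (by omega)]
        rw [Function.comp_apply, this, mz_even, mz_odd]
        have : p' (2 * k) = w k := by simp [p']
        rw [this]
        rfl
    · have : σ (2 * k + 1) = 2 * (2 * k + 1) + 1 := by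
        have e1 : (2 * k + 1) % 2 = 1 := by omega
        have e2 : (2 * k + 1) / 2 = k := by omega
        simp [σ, e1, e2]
      rw [Function.comp_apply, this, mz_odd, mz_odd]
      have : p' (2 * k + 1) = p k := by
        have e1 : (2 * k + 1) % 2 = 1 := by omega
        have e2 : (2 * k + 1) / 2 = k := by omega
        simp [p', e1, e2]
      rw [this]
  show P (w' 0) w ↔ Sat _ (φ.ren σ) (mz (ov w') p')
  rw [sat_ren, h2, ← h1]
  rfl

/-- section of a relation -/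
theorem DO.sect1 {R : Ordinal.{u} → Ordinal.{u} → Prop} (h : DR R) (a : Ordinal.{u}) :
    DS {b | R a b} := by
  have := DO.sect (P := fun x w => R (w 0) x) (h.s2 1 0) (fun _ => a)
  exact this

theorem DV.ord (i : ℕ) : DV.{u} (fun v => (v i).IsOrdinal) := (loc_ord i).dv
theorem DZ.ord (i : ℕ) : DZ.{u} (fun v => (v i).IsOrdinal) := (loc_ord i).dz

/-- quantifier over ordinals below `v i` -/
theorem DO.setArg {R : ZFSet.{u} → (ℕ → ZFSet.{u}) → Prop}
    (hR : DZ fun v => R (v 0) (fun n => v (n + 1)))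
    {X : Ordinal.{u} → (ℕ → Ordinal.{u}) → Prop}
    (hX : DO fun w => X (w 0) (fun n => w (n + 1))) (i : ℕ) :
    DO fun w => R (os (w i) {a | X a w}) (ov w) := by
  obtain ⟨Q, hQ, hX⟩ := hX
  refine ⟨fun v => ∃ s, (∀ z, z ∈ s ↔ z ∈ v i ∧ Q (cons z v)) ∧ R s v, ?_, fun w => ?_⟩
  · refine DZ.ex (R := fun s v => (∀ z, z ∈ s ↔ z ∈ v i ∧ Q (cons z v)) ∧ R s v)
      (DZ.and (DZ.all (R := fun z v => z ∈ v 0 ↔ z ∈ v (i + 1) ∧ Q (cons z (fun n => v (n + 1))))
        ((DZ.mem 0 1).iff ((DZ.mem 0 (i + 2)).and ?_))) hR)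
    refine (hQ.ren (fun n => if n = 0 then 0 else n + 1)).congr fun v => ?_
    have : (cons (v 0) fun n => v (n + 1 + 1)) =
        fun n => v (if n = 0 then 0 else n + 1) := by
      funext n
      rcases n with _ | n
      · simp
      · simp
    rw [← this]
  · have hs : ∀ z, z ∈ os (w i) {a | X a w} ↔ z ∈ ov w i ∧ Q (cons z (ov w)) := by
      intro z
      rw [mem_os]
      constructor
      · rintro ⟨a, ha, h, rfl⟩
        refine ⟨toZFSet_mem_toZFSet_iff.2 ha, ?_⟩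
        have := (hX (cns a w)).1 h
        rwa [ov_cns] at this
      · rintro ⟨h1, h2⟩
        obtain ⟨a, ha, rfl⟩ := mem_toZFSet_iff.1 h1
        refine ⟨a, ha, ?_, rfl⟩
        have := (hX (cns a w)).2 (by rwa [ov_cns])
        exact this
    constructor
    · intro h
      exact ⟨_, hs, h⟩
    · rintro ⟨s, hs', h⟩
      have : s = os (w i) {a | X a w} := by
        ext z
        rw [hs, hs']
      rwa [← this]

/-! ## Covers and cardinalities -/

theorem cov_iff {τ : Ordinal.{u}} {X : Set Ordinal.{u}} :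
    (∃ e : Ordinal.{u} → Ordinal.{u}, ∀ x ∈ X, ∃ a < τ, e a = x) ↔
      #X ≤ Cardinal.lift.{u + 1} τ.card := by
  have h1 : #(Iio τ) = Cardinal.lift.{u + 1} τ.card := by
    rw [Cardinal.mk_Iio_ordinal]
  rw [← h1]
  constructor
  · rintro ⟨e, he⟩
    have : X ⊆ e '' Iio τ := fun x hx => by
      obtain ⟨a, ha, h⟩ := he x hx
      exact ⟨a, ha, h⟩
    exact (Cardinal.mk_le_mk_of_subset this).trans Cardinal.mk_image_le
  · intro h
    obtain ⟨g, hg⟩ : ∃ g : X → Iio τ, Function.Injective g := by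
      obtain ⟨g⟩ := (Cardinal.le_def _ _).1 h
      exact ⟨g, g.injective⟩
    classical
    refine ⟨fun a => if h : ∃ x : X, (g x).1 = a then (Classical.choose h).1 else 0,
      fun x hx => ⟨(g ⟨x, hx⟩).1, (g ⟨x, hx⟩).2, ?_⟩⟩
    have hex : ∃ y : X, (g y).1 = (g ⟨x, hx⟩).1 := ⟨⟨x, hx⟩, rfl⟩
    simp only [hex, dif_pos]
    have := hg (Subtype.ext (Classical.choose_spec hex))
    rw [this]

theorem few_iff {D : Cardinal.{u}} {X : Set Ordinal.{u}} :
    Few D.ord X ↔ #X < Cardinal.lift.{u + 1} D := by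
  constructor
  · rintro ⟨τ, hτ, h⟩
    refine (cov_iff.1 h).trans_lt ?_
    rw [Cardinal.lift_lt]
    exact Cardinal.lt_ord.1 hτ
  · intro h
    obtain ⟨c, hc⟩ := Cardinal.mem_range_lift_of_le h.le
    rw [← hc, Cardinal.lift_lt] at h
    refine ⟨c.ord, Cardinal.ord_lt_ord.2 h, cov_iff.2 ?_⟩
    rw [Cardinal.card_ord, hc]

/-! ## Finite sequences -/

/-- the sequence which begins with the list `l` and is then constantly `∅` -/
noncomputable def sv (l : List ZFSet.{u}) : ℕ → ZFSet.{u} := fun n => l.getD n ∅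

@[simp] theorem sv_cons_zero (x : ZFSet.{u}) (l : List ZFSet.{u}) : sv (x :: l) 0 = x := rfl
@[simp] theorem sv_cons_succ (x : ZFSet.{u}) (l : List ZFSet.{u}) (n : ℕ) :
    sv (x :: l) (n + 1) = sv l n := rfl
theorem sv_cons (x : ZFSet.{u}) (l : List ZFSet.{u}) : sv (x :: l) = cons x (sv l) := by
  funext n; cases n <;> rfl

theorem sv_mem {η : Ordinal.{u}} (h : Gd η) {l : List ZFSet.{u}} (hl : ∀ x ∈ l, x ∈ V_ η) (n) :
    sv l n ∈ V_ η := by
  induction l generalizing n with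
  | nil => simpa [sv] using h.empty
  | cons x l ih =>
    rcases n with _ | n
    · exact hl x (by simp)
    · exact ih (fun y hy => hl y (by simp [hy])) n

/-! ## Elementary embeddings -/

namespace Emb

variable {δ η θ : Ordinal.{u}} {j : ZFSet.{u} → ZFSet.{u}}

theorem tr (h : Emb δ η θ j) {P : (ℕ → ZFSet.{u}) → Prop} (hP : Loc P) {v : ℕ → ZFSet.{u}}
    (hv : ∀ n, v n ∈ V_ η) : P v ↔ P (j ∘ v) := by
  obtain ⟨φ, hφ⟩ := hP
  rw [hφ η h.gd v hv, hφ θ h.gd' (j ∘ v) fun n => h.map _ (hv n), h.elem φ v hv]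

theorem tr_ex (h : Emb δ η θ j) {R : ZFSet.{u} → (ℕ → ZFSet.{u}) → Prop}
    (hR : Loc fun v => R (v 0) (fun n => v (n + 1))) {v : ℕ → ZFSet.{u}}
    (hv : ∀ n, v n ∈ V_ η) : (∃ x ∈ V_ η, R x v) ↔ ∃ y ∈ V_ θ, R y (j ∘ v) := by
  obtain ⟨φ, hφ⟩ := hR
  have h1 := h.elem (.ex φ) v hv
  have e1 : Sat (· ∈ V_ η) (.ex φ) v ↔ ∃ x ∈ V_ η, R x v := by
    refine exists_congr fun x => and_congr_right fun hx => ?_
    have := hφ η h.gd (cons x v) (by rintro (_ | n); exacts [hx, hv n])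
    simpa using this.symm
  have e2 : Sat (· ∈ V_ θ) (.ex φ) (j ∘ v) ↔ ∃ x ∈ V_ θ, R x (j ∘ v) := by
    refine exists_congr fun x => and_congr_right fun hx => ?_
    have := hφ θ h.gd' (cons x (j ∘ v)) (by rintro (_ | n); exacts [hx, h.map _ (hv n)])
    exact this.symm
  rw [← e1, ← e2, h1]

theorem mem (h : Emb δ η θ j) {x y : ZFSet.{u}} (hx : x ∈ V_ η) (hy : y ∈ V_ η) :
    x ∈ y ↔ j x ∈ j y := by
  have := h.tr (Loc.mem 0 1) (v := cons x fun _ => y) (by rintro (_ | n); exacts [hx, hy])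
  simpa using this

theorem eqv (h : Emb δ η θ j) {x y : ZFSet.{u}} (hx : x ∈ V_ η) (hy : y ∈ V_ η) :
    x = y ↔ j x = j y := by
  have := h.tr (Loc.eq 0 1) (v := cons x fun _ => y) (by rintro (_ | n); exacts [hx, hy])
  simpa using this

theorem j_empty (h : Emb δ η θ j) : j ∅ = ∅ := by
  have := h.tr (loc_empty 0) (v := fun _ => ∅) (fun _ => h.gd.empty)
  simpa using this

theorem comp_sv (h : Emb δ η θ j) (l : List ZFSet.{u}) : j ∘ sv l = sv (l.map j) := by
  induction l with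
  | nil =>
    funext n
    simpa [sv] using h.j_empty
  | cons x l ih =>
    funext n
    rcases n with _ | n
    · rfl
    · exact congrFun ih n

/-- transfer for predicates of finitely many variables -/
theorem trl (h : Emb δ η θ j) {P : (ℕ → ZFSet.{u}) → Prop} (hP : Loc P) (l : List ZFSet.{u})
    (hl : ∀ x ∈ l, x ∈ V_ η) : P (sv l) ↔ P (sv (l.map j)) := by
  rw [h.tr hP (sv_mem h.gd hl), h.comp_sv]

theorem trl_ex (h : Emb δ η θ j) {R : ZFSet.{u} → (ℕ → ZFSet.{u}) → Prop}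
    (hR : Loc fun v => R (v 0) (fun n => v (n + 1))) (l : List ZFSet.{u})
    (hl : ∀ x ∈ l, x ∈ V_ η) :
    (∃ x ∈ V_ η, R x (sv l)) ↔ ∃ y ∈ V_ θ, R y (sv (l.map j)) := by
  rw [h.tr_ex hR (sv_mem h.gd hl), h.comp_sv]

theorem upair (h : Emb δ η θ j) {x y : ZFSet.{u}} (hx : x ∈ V_ η) (hy : y ∈ V_ η) :
    j {x, y} = {j x, j y} := by
  have := h.trl (loc_upair 0 1 2) [{x, y}, x, y] (by simp [hx, hy, h.gd.upair])
  simpa using this

theorem pair (h : Emb δ η θ j) {x y : ZFSet.{u}} (hx : x ∈ V_ η) (hy : y ∈ V_ η) :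
    j (ZFSet.pair x y) = ZFSet.pair (j x) (j y) := by
  have := h.trl (loc_pair 0 1 2) [ZFSet.pair x y, x, y] (by simp [hx, hy, h.gd.pair])
  simpa using this

theorem insert (h : Emb δ η θ j) {x y : ZFSet.{u}} (hx : x ∈ V_ η) (hy : y ∈ V_ η) :
    j (insert x y) = insert (j x) (j y) := by
  have := h.trl (loc_insert 0 1 2) [Insert.insert x y, x, y] (by simp [hx, hy, h.gd.insert])
  simpa using this

theorem powerset (h : Emb δ η θ j) {x : ZFSet.{u}} (hx : x ∈ V_ η) :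
    j (ZFSet.powerset x) = ZFSet.powerset (j x) := by
  have := h.trl (loc_powerset 0 1) [ZFSet.powerset x, x] (by simp [hx, h.gd.powerset])
  simpa using this

theorem prod (h : Emb δ η θ j) {x y : ZFSet.{u}} (hx : x ∈ V_ η) (hy : y ∈ V_ η) :
    j (ZFSet.prod x y) = ZFSet.prod (j x) (j y) := by
  have := h.trl (loc_prod 0 1 2) [ZFSet.prod x y, x, y] (by simp [hx, hy, h.gd.prod])
  simpa using this

theorem sub (h : Emb δ η θ j) {x y : ZFSet.{u}} (hx : x ∈ V_ η) (hy : y ∈ V_ η) :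
    x ⊆ y ↔ j x ⊆ j y := by
  have := h.trl (Loc.sub 0 1) [x, y] (by simp [hx, hy])
  simpa using this

/-- `j` on ordinals -/
theorem ord (h : Emb δ η θ j) {a : Ordinal.{u}} (ha : a < η) : j a.toZFSet = (Jo j a).toZFSet := by
  have h1 : (j a.toZFSet).IsOrdinal := by
    have := (h.trl (loc_ord 0) [a.toZFSet] (by simp [Gd.ord, ha])).1
      (by simpa using ZFSet.isOrdinal_toZFSet a)
    simpa using this
  exact h1.toZFSet_rank_eq.symm

theorem Jo_lt (h : Emb δ η θ j) {a : Ordinal.{u}} (ha : a < η) : Jo j a < θ := by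
  have := h.map _ (Gd.ord.2 ha)
  rwa [ZFSet.mem_vonNeumann] at this

theorem lt_iff (h : Emb δ η θ j) {a b : Ordinal.{u}} (ha : a < η) (hb : b < η) :
    Jo j a < Jo j b ↔ a < b := by
  have := h.mem (Gd.ord.2 ha) (Gd.ord.2 hb)
  rw [h.ord ha, h.ord hb, toZFSet_mem_toZFSet_iff, toZFSet_mem_toZFSet_iff] at this
  exact this.symm

theorem le_iff (h : Emb δ η θ j) {a b : Ordinal.{u}} (ha : a < η) (hb : b < η) :
    Jo j a ≤ Jo j b ↔ a ≤ b := by
  rw [← not_lt, h.lt_iff hb ha, not_lt]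

theorem eq_iff (h : Emb δ η θ j) {a b : Ordinal.{u}} (ha : a < η) (hb : b < η) :
    Jo j a = Jo j b ↔ a = b := by
  rw [le_antisymm_iff, h.le_iff ha hb, h.le_iff hb ha, le_antisymm_iff]

theorem le_Jo (h : Emb δ η θ j) {a : Ordinal.{u}} (ha : a < η) : a ≤ Jo j a := by
  induction a using WellFoundedLT.induction with
  | ind a ih =>
    by_contra hlt
    push Not at hlt
    have h1 := ih _ hlt (hlt.trans ha)
    have h2 := (h.lt_iff (hlt.trans ha) ha).2 hlt
    exact absurd h1 (not_le.2 h2)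

theorem Jo_fix (h : Emb δ η θ j) {a : Ordinal.{u}} (ha : a < δ) : Jo j a = a := by
  unfold Jo
  rw [h.fix a ha, rank_toZFSet]

theorem Jo_crit (h : Emb δ η θ j) : η < Jo j δ := h.crit

theorem Jo_zero (h : Emb δ η θ j) : Jo j 0 = 0 := by
  unfold Jo
  rw [toZFSet_zero, h.j_empty, ZFSet.rank_empty]

theorem Jo_succ (h : Emb δ η θ j) {a : Ordinal.{u}} (ha : a < η) :
    Jo j (succ a) = succ (Jo j a) := by
  apply toZFSet_injective
  rw [← h.ord (h.gd.succ_lt ha), Order.succ_eq_add_one, toZFSet_add_one,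
    h.insert (Gd.ord.2 ha) (Gd.ord.2 ha), h.ord ha, Order.succ_eq_add_one, toZFSet_add_one]

theorem Jo_omega (h : Emb δ η θ j) : Jo j ω = ω := by
  have := (h.trl (loc_omega 0) [(ω : Ordinal.{u}).toZFSet] (by simp [Gd.ord, h.gd.2])).1
    (by simp)
  have h2 : j (ω : Ordinal.{u}).toZFSet = (ω : Ordinal.{u}).toZFSet := by simpa using this
  unfold Jo
  rw [h2, rank_toZFSet]

theorem V (h : Emb δ η θ j) {a : Ordinal.{u}} (ha : a < η) : j (V_ a) = V_ (Jo j a) := by
  have hV : V_ a ∈ V_ η := by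
    rw [ZFSet.mem_vonNeumann, ZFSet.rank_vonNeumann]; exact ha
  have := (h.trl (loc_V 0 1) [a.toZFSet, V_ a] (by
    simp only [List.mem_cons, List.not_mem_nil, or_false, forall_eq_or_imp, forall_eq]
    exact ⟨Gd.ord.2 ha, hV⟩)).1
    (by simp [ZFSet.isOrdinal_toZFSet])
  simpa [Jo] using this.2

/-- pairs of ordinals -/
theorem opair (h : Emb δ η θ j) {a b : Ordinal.{u}} {f : ZFSet.{u}} (ha : a < η) (hb : b < η)
    (hf : f ∈ V_ η) : ZFSet.pair a.toZFSet b.toZFSet ∈ f ↔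
      ZFSet.pair (Jo j a).toZFSet (Jo j b).toZFSet ∈ j f := by
  rw [h.mem (h.gd.pair (Gd.ord.2 ha) (Gd.ord.2 hb)) hf, h.pair (Gd.ord.2 ha) (Gd.ord.2 hb),
    h.ord ha, h.ord hb]

end Emb

end HD
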