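import Pool.Agent.H7.HD.Rec

/-!
# Definability of the decoding of pairs of natural numbers
-/

open Ordinal Cardinal Order Set
open scoped ZFSet

universe u

namespace HD

/-- the natural number `n` as a set -/
noncomputable def nz (n : ℕ) : ZFSet.{u} := ((n : Ordinal.{u})).toZFSet

/-- the natural number given by a finite ordinal -/
noncomputable def no (c : Ordinal.{u}) : ℕ := Cardinal.toNat c.card

@[simp] theorem no_nat (n : ℕ) : no (n : Ordinal.{u}) = n := by simp [no]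

theorem nz_inj {m n : ℕ} : nz.{u} m = nz n ↔ m = n := by
  unfold nz
  rw [toZFSet_injective.eq_iff]
  exact_mod_cast Iff.rfl

theorem nz_mem {m n : ℕ} : nz.{u} m ∈ nz.{u} n ↔ m < n := by
  unfold nz
  rw [toZFSet_mem_toZFSet_iff]
  exact_mod_cast Iff.rfl

theorem nz_zero : nz.{u} 0 = ∅ := by
  unfold nz
  rw [Nat.cast_zero, toZFSet_zero]

theorem nz_succ (n : ℕ) : nz.{u} (n + 1) = insert (nz n) (nz n) := by
  unfold nz
  rw [Nat.cast_add_one, toZFSet_add_one]

theorem nz_omega (n : ℕ) : nz.{u} n ∈ (ω : Ordinal.{u}).toZFSet := by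
  unfold nz
  rw [toZFSet_mem_toZFSet_iff]
  exact natCast_lt_omega0 n

theorem mem_omega {x : ZFSet.{u}} : x ∈ (ω : Ordinal.{u}).toZFSet ↔ ∃ n : ℕ, x = nz n := by
  constructor
  · intro h
    obtain ⟨a, ha, rfl⟩ := mem_toZFSet_iff.1 h
    obtain ⟨n, rfl⟩ := lt_omega0.1 ha
    exact ⟨n, rfl⟩
  · rintro ⟨n, rfl⟩
    exact nz_omega n

theorem mem_nz {x : ZFSet.{u}} {n : ℕ} : x ∈ nz.{u} n ↔ ∃ m < n, x = nz m := by
  constructor
  · intro h
    have h2 : x ∈ (ω : Ordinal.{u}).toZFSet :=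
      (ZFSet.isOrdinal_toZFSet _).mem_trans h (nz_omega n)
    obtain ⟨m, rfl⟩ := mem_omega.1 h2
    exact ⟨m, nz_mem.1 h, rfl⟩
  · rintro ⟨m, hm, rfl⟩
    exact nz_mem.2 hm

theorem loc_in_omega (i : ℕ) : Loc.{u} (fun v => v i ∈ (ω : Ordinal.{u}).toZFSet) := by
  refine Loc.congr (P := fun v => ∃ x, x = (ω : Ordinal.{u}).toZFSet ∧ v i ∈ x)
    (Loc.ex ((loc_omega 0).and (Loc.mem _ _)) ?_) fun v => ?_
  · rintro η hη v hv x ⟨rfl, -⟩
    exact Gd.ord.2 hη.2
  · simp

theorem loc_nz (n : ℕ) (i : ℕ) : Loc.{u} (fun v => v i = nz n) := by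
  induction n generalizing i with
  | zero => simpa [nz_zero] using loc_empty i
  | succ n ih =>
    refine Loc.congr (P := fun v => ∃ x ∈ v i, x = nz n ∧ v i = insert x x)
      (Loc.exMem i ((ih 0).and (loc_insert _ _ _))) fun v => ?_
    rw [nz_succ]
    constructor
    · intro h
      exact ⟨nz n, by rw [h]; simp, rfl, h⟩
    · rintro ⟨x, -, rfl, h⟩
      exact h

/-- the next pair -/
def nx (a b : ℕ) : ℕ × ℕ :=
  if a < b then (if a + 1 < b then (a + 1, b) else (b, 0))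
  else if b < a then (a, b + 1) else (0, a + 1)

theorem pair_nx (a b : ℕ) : Nat.pair (nx a b).1 (nx a b).2 = Nat.pair a b + 1 := by
  unfold nx
  split_ifs with h1 h2 h3
  · unfold Nat.pair
    rw [if_pos h1, if_pos h2]
    ring
  · have : b = a + 1 := by omega
    subst this
    unfold Nat.pair
    rw [if_pos h1, if_neg (by simp)]
    ring
  · unfold Nat.pair
    rw [if_neg (by omega : ¬ a < b), if_neg (by simp only; omega)]
    ring
  · have : b = a := by omega
    subst this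
    unfold Nat.pair
    rw [if_pos (by simp), if_neg (by simp)]
    ring

theorem unpair_succ (n : ℕ) : (n + 1).unpair = nx n.unpair.1 n.unpair.2 := by
  have h := pair_nx n.unpair.1 n.unpair.2
  rw [Nat.pair_unpair] at h
  rw [← h, Nat.unpair_pair]

/-- `y` is the pair after `(a, b)` -/
def Nx (a b y : ZFSet.{u}) : Prop :=
  (insert a a ∈ b ∧ y = ZFSet.pair (insert a a) b) ∨
  (b = insert a a ∧ y = ZFSet.pair b ∅) ∨
  (b ∈ a ∧ y = ZFSet.pair a (insert b b)) ∨
  (b = a ∧ y = ZFSet.pair ∅ (insert a a))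

theorem Nx_iff (a b : ℕ) (y : ZFSet.{u}) :
    Nx (nz a) (nz b) y ↔ y = ZFSet.pair (nz (nx a b).1) (nz (nx a b).2) := by
  unfold Nx
  rw [← nz_succ, ← nz_succ, nz_mem, nz_inj, nz_mem, nz_inj, ← nz_zero]
  unfold nx
  by_cases h1 : a < b
  · by_cases h2 : a + 1 < b
    · rw [if_pos h1, if_pos h2]
      constructor
      · rintro (⟨-, h⟩ | ⟨h, -⟩ | ⟨h, -⟩ | ⟨h, -⟩)
        · exact h
        all_goals omega
      · intro h
        exact Or.inl ⟨h2, h⟩
    · rw [if_pos h1, if_neg h2]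
      constructor
      · rintro (⟨h, -⟩ | ⟨-, h⟩ | ⟨h, -⟩ | ⟨h, -⟩)
        · omega
        · exact h
        all_goals omega
      · intro h
        exact Or.inr (Or.inl ⟨by omega, h⟩)
  · by_cases h2 : b < a
    · rw [if_neg h1, if_pos h2]
      constructor
      · rintro (⟨h, -⟩ | ⟨h, -⟩ | ⟨-, h⟩ | ⟨h, -⟩)
        · omega
        · omega
        · exact h
        · omega
      · intro h
        exact Or.inr (Or.inr (Or.inl ⟨h2, h⟩))
    · rw [if_neg h1, if_neg h2]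
      constructor
      · rintro (⟨h, -⟩ | ⟨h, -⟩ | ⟨h, -⟩ | ⟨-, h⟩)
        · omega
        · omega
        · omega
        · exact h
      · intro h
        exact Or.inr (Or.inr (Or.inr ⟨by omega, h⟩))

/-- `v i = insert (v j) (v j)` in `DZ` -/
theorem dz_ins (i j k : ℕ) : DZ.{u} (fun v => v i = insert (v j) (v k)) := (loc_insert i j k).dz
theorem dz_pair (i j k : ℕ) : DZ.{u} (fun v => v i = ZFSet.pair (v j) (v k)) :=
  (loc_pair i j k).dz
theorem dz_pmem (i j k : ℕ) : DZ.{u} (fun v => ZFSet.pair (v i) (v j) ∈ v k) :=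
  (loc_pmem i j k).dz
theorem dz_empty (i : ℕ) : DZ.{u} (fun v => v i = ∅) := (loc_empty i).dz
theorem dz_nz (n i : ℕ) : DZ.{u} (fun v => v i = nz n) := (loc_nz n i).dz
theorem dz_omega (i : ℕ) : DZ.{u} (fun v => v i ∈ (ω : Ordinal.{u}).toZFSet) :=
  (loc_in_omega i).dz

theorem dz_Nx (i j k : ℕ) : DZ.{u} (fun v => Nx (v i) (v j) (v k)) := by
  have h := DZ.congr (Q := fun v : ℕ → ZFSet.{u} => Nx (v 0) (v 1) (v 2))
    (P := fun v => ∃ a' : ZFSet.{u}, a' = insert (v 0) (v 0) ∧ ∃ b' : ZFSet.{u},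
      b' = insert (v 1) (v 1) ∧ ∃ e : ZFSet.{u}, e = ∅ ∧
      ((a' ∈ v 1 ∧ v 2 = ZFSet.pair a' (v 1)) ∨ (v 1 = a' ∧ v 2 = ZFSet.pair (v 1) e) ∨
      (v 1 ∈ v 0 ∧ v 2 = ZFSet.pair (v 0) b') ∨ (v 1 = v 0 ∧ v 2 = ZFSet.pair e a')))
    (DZ.ex ((dz_ins _ _ _).and (DZ.ex ((dz_ins _ _ _).and (DZ.ex ((dz_empty _).and
      (((DZ.mem _ _).and (dz_pair _ _ _)).or (((DZ.eq _ _).and (dz_pair _ _ _)).or
      (((DZ.mem _ _).and (dz_pair _ _ _)).or ((DZ.eq _ _).and (dz_pair _ _ _))))))))))) fun v => by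
        unfold Nx
        simp only [exists_eq_left]
  exact h.ren fun n => if n = 0 then i else if n = 1 then j else k

/-- the code of the decoding of `c` -/
noncomputable def UF (_a : ZFSet.{u}) (c : Ordinal.{u}) : ZFSet.{u} :=
  if c < ω then ZFSet.pair (nz (no c).unpair.1) (nz (no c).unpair.2) else ∅

theorem UF_nat (a : ZFSet.{u}) (n : ℕ) :
    UF a (n : Ordinal.{u}) = ZFSet.pair (nz n.unpair.1) (nz n.unpair.2) := by
  unfold UF
  rw [if_pos (natCast_lt_omega0 n), no_nat]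

theorem dz_UF : DZ.{u} fun v => (v 1).IsOrdinal ∧ v 2 = UF (v 0) (v 1).rank := by
  refine DZ.rec (Φ := fun _ c f y =>
    (c ∈ (ω : Ordinal.{u}).toZFSet ∧ ((c = ∅ ∧ ∃ e : ZFSet.{u}, e = ∅ ∧ y = ZFSet.pair e e) ∨
      ∃ d ∈ c, c = insert d d ∧ ∃ x : ZFSet.{u}, ZFSet.pair d x ∈ f ∧
        ∃ a : ZFSet.{u}, ∃ b : ZFSet.{u}, x = ZFSet.pair a b ∧ Nx a b y)) ∨
    (c ∉ (ω : Ordinal.{u}).toZFSet ∧ y = ∅)) ?_ ?_
  · refine ((dz_omega 1).and (((dz_empty 1).and (DZ.ex ((dz_empty _).and (dz_pair _ _ _)))).or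
      (DZ.exMem 1 ((dz_ins _ _ _).and (DZ.ex ((dz_pmem _ _ _).and (DZ.ex (DZ.ex
      ((dz_pair _ _ _).and (dz_Nx _ _ _)))))))))).or
      ((dz_omega 1).not.and (dz_empty 3))
  · intro a c y
    by_cases hc : c < ω
    · obtain ⟨n, rfl⟩ := lt_omega0.1 hc
      have hm : (n : Ordinal.{u}).toZFSet ∈ (ω : Ordinal.{u}).toZFSet := nz_omega n
      rw [UF_nat]
      rcases n with _ | n
      · constructor
        · rintro rfl
          left
          refine ⟨hm, Or.inl ⟨by simp, ∅, rfl, ?_⟩⟩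
          simp [nz_zero]
        · rintro (⟨-, ⟨-, e, rfl, rfl⟩ | ⟨d, hd, -⟩⟩ | ⟨h, -⟩)
          · simp [nz_zero]
          · simp at hd
          · exact absurd hm h
      · have hs : ((n + 1 : ℕ) : Ordinal.{u}).toZFSet = nz (n + 1) := rfl
        have hp : ∀ x : ZFSet.{u}, ZFSet.pair (nz n) x ∈ gr (UF a) ((n + 1 : ℕ) : Ordinal.{u}) ↔
            x = ZFSet.pair (nz n.unpair.1) (nz n.unpair.2) := by
          intro x
          unfold nz
          rw [pair_mem_gr, UF_nat]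
          unfold nz
          constructor
          · exact fun h => h.2
          · exact fun h => ⟨by exact_mod_cast Nat.lt_succ_self n, h⟩
        rw [hs, unpair_succ]
        constructor
        · rintro rfl
          left
          refine ⟨hm, Or.inr ⟨nz n, nz_mem.2 (Nat.lt_succ_self n), nz_succ n, _,
            (hp _).2 rfl, _, _, rfl, ?_⟩⟩
          rw [Nx_iff]
        · rintro (⟨-, ⟨h, -⟩ | ⟨d, hd, he, x, hx, p, q, hpq, h⟩⟩ | ⟨h, -⟩)
          · rw [← nz_zero, nz_inj] at h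
            omega
          · obtain ⟨m, hm', rfl⟩ := mem_nz.1 hd
            rw [← nz_succ, nz_inj] at he
            have : m = n := by omega
            subst this
            rw [hp] at hx
            rw [hx] at hpq
            obtain ⟨rfl, rfl⟩ := ZFSet.pair_injective hpq
            rwa [Nx_iff] at h
          · exact absurd hm h
    · have hm : c.toZFSet ∉ (ω : Ordinal.{u}).toZFSet := by
        rw [toZFSet_mem_toZFSet_iff]
        exact hc
      unfold UF
      rw [if_neg hc]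
      constructor
      · rintro rfl
        exact Or.inr ⟨hm, rfl⟩
      · rintro (⟨h, -⟩ | ⟨-, h⟩)
        · exact absurd h hm
        · exact h

/-- decoding of triples -/
def Dec (c o i j : ZFSet.{u}) : Prop := ∃ n : ℕ, c = nz n ∧ o = nz n.unpair.1 ∧
  i = nz n.unpair.2.unpair.1 ∧ j = nz n.unpair.2.unpair.2

theorem dz_Dec (a b c d : ℕ) : DZ.{u} (fun v => Dec (v a) (v b) (v c) (v d)) := by
  have h := DZ.congr (Q := fun v : ℕ → ZFSet.{u} => Dec (v 0) (v 1) (v 2) (v 3))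
    (P := fun v => v 0 ∈ (ω : Ordinal.{u}).toZFSet ∧ ∃ x : ZFSet.{u},
      ((v 0).IsOrdinal ∧ x = UF (v 0) (v 0).rank) ∧ ∃ z : ZFSet.{u}, x = ZFSet.pair (v 1) z ∧
      ∃ x' : ZFSet.{u}, (z.IsOrdinal ∧ x' = UF (v 0) z.rank) ∧ x' = ZFSet.pair (v 2) (v 3))
    ((dz_omega 0).and (DZ.ex (((dz_UF.ren fun n => if n = 0 then 1 else if n = 1 then 1 else 0)).and
      (DZ.ex ((dz_pair _ _ _).and (DZ.ex (((dz_UF.ren fun n => if n = 0 then 3 else
        if n = 1 then 1 else 0)).and (dz_pair _ _ _)))))))) fun v => by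
      constructor
      · rintro ⟨n, h0, h1, h2, h3⟩
        refine ⟨by rw [h0]; exact nz_omega n, _, ⟨by rw [h0]; exact ZFSet.isOrdinal_toZFSet _,
          rfl⟩, nz n.unpair.2, ?_, _, ⟨ZFSet.isOrdinal_toZFSet _, rfl⟩, ?_⟩
        · rw [h0, h1]
          unfold nz
          rw [rank_toZFSet, UF_nat]
          rfl
        · rw [h2, h3]
          have : (nz.{u} n.unpair.2).rank = (n.unpair.2 : Ordinal.{u}) := rank_toZFSet _
          rw [this, UF_nat]
      · rintro ⟨h0, x, ⟨-, rfl⟩, z, h1, x', ⟨-, rfl⟩, h2⟩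
        obtain ⟨n, h0⟩ := mem_omega.1 h0
        have e1 : (v 0).rank = (n : Ordinal.{u}) := by rw [h0]; exact rank_toZFSet _
        rw [e1, UF_nat] at h1
        obtain ⟨h3, rfl⟩ := ZFSet.pair_injective h1
        have : (nz.{u} n.unpair.2).rank = (n.unpair.2 : Ordinal.{u}) := rank_toZFSet _
        rw [this, UF_nat] at h2
        obtain ⟨h4, h5⟩ := ZFSet.pair_injective h2
        exact ⟨n, h0, h3.symm, h4.symm, h5.symm⟩
  exact h.ren fun n => if n = 0 then a else if n = 1 then b else if n = 2 then c else d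

end HD
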